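import Pool.Agent.Work.MP_308fa9_nt.BE.ApproxS

set_option autoImplicit false

/-!
Parity of the valuations outside a finite set of primes, and the descent to coprime integers.
-/

namespace Stoll308.BE

open Polynomial Finset

section algebra

variable {R : Type*} [CommRing R]

/-- The norm of `p + q θ`. -/
def nrm (b c d p q : R) : R := p ^ 3 - b * p ^ 2 * q + c * p * q ^ 2 - d * q ^ 3

lemma nrm_identity (b c d p q : R) :
    (C p + C q * X) * (C (q ^ 2) * X ^ 2 + C (b * q ^ 2 - p * q) * X +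
      C (p ^ 2 - b * p * q + c * q ^ 2)) = C (q ^ 3) * F b c d + C (nrm b c d p q) := by
  unfold F nrm
  simp only [map_add, map_mul, map_sub, map_pow]
  ring

lemma isCoprime_of_nrm {K : Type*} [Field K] {b c d p q : K} (h : nrm b c d p q ≠ 0) :
    IsCoprime (C p + C q * X) (F b c d) := by
  refine ⟨C (nrm b c d p q)⁻¹ * (C (q ^ 2) * X ^ 2 + C (b * q ^ 2 - p * q) * X +
      C (p ^ 2 - b * p * q + c * q ^ 2)), -(C (nrm b c d p q)⁻¹ * C (q ^ 3)), ?_⟩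
  have h1 := nrm_identity b c d p q
  have h2 : C (nrm b c d p q)⁻¹ * C (nrm b c d p q) = (1 : K[X]) := by
    rw [← C_mul, inv_mul_cancel₀ h, C_1]
  linear_combination C (nrm b c d p q)⁻¹ * h1 + h2

end algebra

section maps

variable {R S : Type*} [CommRing R] [CommRing S]

lemma map_qP (f : R →+* S) (b c d p q x y z : R) :
    f (qP b c d p q x y z) = qP (f b) (f c) (f d) (f p) (f q) (f x) (f y) (f z) := by
  unfold qP
  simp only [map_add, map_sub, map_mul, map_pow, map_ofNat]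

lemma map_qQ (f : R →+* S) (b c d p q x y z : R) :
    f (qQ b c d p q x y z) = qQ (f b) (f c) (f d) (f p) (f q) (f x) (f y) (f z) := by
  unfold qQ
  simp only [map_add, map_sub, map_mul, map_pow, map_ofNat]

lemma map_qT (f : R →+* S) (b c d p q x y z : R) :
    f (qT b c d p q x y z) = qT (f b) (f c) (f d) (f p) (f q) (f x) (f y) (f z) := by
  unfold qT HM.tf
  simp only [map_add, map_sub, map_mul, map_pow, map_ofNat, map_neg, map_zero]

lemma qT_smul (b c d p q x y z m : R) :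
    qT b c d p q (m * x) (m * y) (m * z) = m ^ 2 * qT b c d p q x y z := by
  unfold qT HM.tf; ring

end maps

/-- Away from finitely many primes the reduction of `F` is squarefree. -/
lemma exists_disc {b c d : ℤ} (hF : Irreducible (FZ ℚ b c d)) : ∃ D : ℤ, D ≠ 0 ∧
    ∀ (p : ℕ) [Fact p.Prime], ¬ (p : ℤ) ∣ D → Squarefree (FZ (ZMod p) b c d) := by
  have hsep : (FZ ℚ b c d).Separable := hF.separable
  obtain ⟨A, B, hAB⟩ := hsep
  obtain ⟨m, hm, hA⟩ := IsLocalization.integerNormalization_spec (nonZeroDivisors ℤ) A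
  obtain ⟨n, hn, hB⟩ := IsLocalization.integerNormalization_spec (nonZeroDivisors ℤ) B
  set A' := IsLocalization.integerNormalization (nonZeroDivisors ℤ) A
  set B' := IsLocalization.integerNormalization (nonZeroDivisors ℤ) B
  have hm0 : m ≠ 0 := nonZeroDivisors.ne_zero hm
  have hn0 : n ≠ 0 := nonZeroDivisors.ne_zero hn
  have hmap : ∀ (R : Type) [CommRing R], (FZ ℤ b c d).map (Int.castRingHom R) = FZ R b c d := by
    intro R _
    simp [F]
  have hid : C n * A' * FZ ℤ b c d + C m * B' * derivative (FZ ℤ b c d) = C (m * n) := by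
    apply Polynomial.map_injective (Int.castRingHom ℚ) Int.cast_injective
    have e1 : A'.map (Int.castRingHom ℚ) = C (m : ℚ) * A := by
      have : (algebraMap ℤ ℚ) = Int.castRingHom ℚ := rfl
      rw [← this, hA, zsmul_eq_mul]
      simp
    have e2 : B'.map (Int.castRingHom ℚ) = C (n : ℚ) * B := by
      have : (algebraMap ℤ ℚ) = Int.castRingHom ℚ := rfl
      rw [← this, hB, zsmul_eq_mul]
      simp
    rw [Polynomial.map_add, Polynomial.map_mul, Polynomial.map_mul, Polynomial.map_mul,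
      Polynomial.map_mul, ← derivative_map, hmap, e1, e2, map_C, map_C, map_C]
    simp only [eq_intCast, Int.cast_mul, C_mul]
    linear_combination (C (m : ℚ) * C (n : ℚ)) * hAB
  refine ⟨m * n, mul_ne_zero hm0 hn0, fun p hp hpD => ?_⟩
  apply Separable.squarefree
  have hu : ((m * n : ℤ) : ZMod p) ≠ 0 := by
    rw [Ne, ZMod.intCast_zmod_eq_zero_iff_dvd]
    exact hpD
  have h1 := congrArg (Polynomial.map (Int.castRingHom (ZMod p))) hid
  rw [Polynomial.map_add, Polynomial.map_mul, Polynomial.map_mul, Polynomial.map_mul,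
    Polynomial.map_mul, ← derivative_map, hmap, map_C, map_C, map_C] at h1
  simp only [eq_intCast] at h1
  have h2 : C ((m * n : ℤ) : ZMod p)⁻¹ * C ((m * n : ℤ) : ZMod p) = (1 : (ZMod p)[X]) := by
    rw [← C_mul, inv_mul_cancel₀ hu, C_1]
  refine ⟨C ((m * n : ℤ) : ZMod p)⁻¹ * (C ((n : ℤ) : ZMod p) * A'.map (Int.castRingHom (ZMod p))),
    C ((m * n : ℤ) : ZMod p)⁻¹ * (C ((m : ℤ) : ZMod p) * B'.map (Int.castRingHom (ZMod p))), ?_⟩
  linear_combination C ((m * n : ℤ) : ZMod p)⁻¹ * h1 + h2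

/-- **Parity outside the bad primes.** -/
lemma parity_out {b c d p₀ q₀ : ℤ} {p : ℕ} [hp : Fact p.Prime]
    (hsq : Squarefree (FZ (ZMod p) b c d)) (hN : ¬ (p : ℤ) ∣ nrm b c d p₀ q₀)
    {w : Fin 3 → ℚ} {P Q : ℚ} (hPQ : P ≠ 0 ∨ Q ≠ 0)
    (h : FZ ℚ b c d ∣ (C (p₀ : ℚ) + C (q₀ : ℚ) * X) * pw w ^ 2 - (C P + C Q * X)) :
    ∃ m : ℚ_[p], m ≠ 0 ∧ max ‖(P : ℚ_[p])‖ ‖(Q : ℚ_[p])‖ = ‖m‖ ^ 2 := by
  obtain ⟨k, hk⟩ := mul_pw_sq (b : ℚ) c d p₀ q₀ w
  have h1 : FZ ℚ b c d ∣ C (qT (b : ℚ) c d p₀ q₀ (w 0) (w 1) (w 2)) * X ^ 2 +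
      C (qQ (b : ℚ) c d p₀ q₀ (w 0) (w 1) (w 2) - Q) * X +
      C (qP (b : ℚ) c d p₀ q₀ (w 0) (w 1) (w 2) - P) := by
    obtain ⟨k', hk'⟩ := h
    refine ⟨k' - k, ?_⟩
    simp only [map_sub]
    linear_combination hk' - hk
  obtain ⟨hT, hQ, hP⟩ := coeff_eq_zero_of_dvd h1
  rw [sub_eq_zero] at hQ hP
  have hw : (w 0 : ℚ_[p]) ≠ 0 ∨ (w 1 : ℚ_[p]) ≠ 0 ∨ (w 2 : ℚ_[p]) ≠ 0 := by
    by_contra hcon
    push Not at hcon
    obtain ⟨e0, e1, e2⟩ := hcon
    have e0' : w 0 = 0 := by exact_mod_cast e0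
    have e1' : w 1 = 0 := by exact_mod_cast e1
    have e2' : w 2 = 0 := by exact_mod_cast e2
    rw [e0', e1', e2'] at hQ hP
    rcases hPQ with h | h
    · apply h
      rw [← hP]
      unfold qP
      ring
    · apply h
      rw [← hQ]
      unfold qQ
      ring
  obtain ⟨l, x, y, z, hl, hx, hy, hz, hu⟩ := HM.exists_primitive3 hw
  have hTl : qT (b : ℤ_[p]) c d p₀ q₀ x y z = 0 := by
    have h2 := map_qT (Rat.castHom ℚ_[p]) (b : ℚ) c d p₀ q₀ (w 0) (w 1) (w 2)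
    have h3 := map_qT (PadicInt.Coe.ringHom : ℤ_[p] →+* ℚ_[p]) (b : ℤ_[p]) c d p₀ q₀ x y z
    simp only [map_intCast, eq_ratCast] at h2 h3
    rw [hT, Rat.cast_zero, hx, hy, hz, qT_smul] at h2
    rcases mul_eq_zero.1 h2.symm with h4 | h4
    · exact absurd h4 (pow_ne_zero 2 hl)
    · apply Subtype.ext
      exact h3.trans h4
  have hPl : (P : ℚ_[p]) = l ^ 2 * ((qP (b : ℤ_[p]) c d p₀ q₀ x y z : ℤ_[p]) : ℚ_[p]) := by
    have h2 := map_qP (Rat.castHom ℚ_[p]) (b : ℚ) c d p₀ q₀ (w 0) (w 1) (w 2)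
    have h3 := map_qP (PadicInt.Coe.ringHom : ℤ_[p] →+* ℚ_[p]) (b : ℤ_[p]) c d p₀ q₀ x y z
    simp only [map_intCast, eq_ratCast] at h2 h3
    rw [hP, hx, hy, hz, qP_smul] at h2
    rw [h2]
    exact congrArg _ h3.symm
  have hQl : (Q : ℚ_[p]) = l ^ 2 * ((qQ (b : ℤ_[p]) c d p₀ q₀ x y z : ℤ_[p]) : ℚ_[p]) := by
    have h2 := map_qQ (Rat.castHom ℚ_[p]) (b : ℚ) c d p₀ q₀ (w 0) (w 1) (w 2)
    have h3 := map_qQ (PadicInt.Coe.ringHom : ℤ_[p] →+* ℚ_[p]) (b : ℤ_[p]) c d p₀ q₀ x y z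
    simp only [map_intCast, eq_ratCast] at h2 h3
    rw [hQ, hx, hy, hz, qQ_smul] at h2
    rw [h2]
    exact congrArg _ h3.symm
  have hunit : ‖qP (b : ℤ_[p]) c d p₀ q₀ x y z‖ = 1 ∨ ‖qQ (b : ℤ_[p]) c d p₀ q₀ x y z‖ = 1 := by
    rw [norm_eq_one_iff_toZMod, norm_eq_one_iff_toZMod]
    by_contra hcon
    push Not at hcon
    obtain ⟨hP0, hQ0⟩ := hcon
    set π : ℤ_[p] →+* ZMod p := PadicInt.toZMod with hπ
    have eP := map_qP π (b : ℤ_[p]) c d p₀ q₀ x y z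
    have eQ := map_qQ π (b : ℤ_[p]) c d p₀ q₀ x y z
    have eT := map_qT π (b : ℤ_[p]) c d p₀ q₀ x y z
    simp only [map_intCast] at eP eQ eT
    rw [hP0] at eP
    rw [hQ0] at eQ
    rw [hTl, map_zero] at eT
    obtain ⟨k', hk'⟩ := mul_pw_sq (b : ZMod p) c d p₀ q₀ ![π x, π y, π z]
    simp only [Matrix.cons_val_zero, Matrix.cons_val_one, Matrix.cons_val] at hk'
    rw [← eP, ← eQ, ← eT] at hk'
    have hdvd : FZ (ZMod p) b c d ∣ (C (p₀ : ZMod p) + C (q₀ : ZMod p) * X) *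
        pw ![π x, π y, π z] ^ 2 := ⟨k', by rw [hk']; simp⟩
    have hcop : IsCoprime (C (p₀ : ZMod p) + C (q₀ : ZMod p) * X) (FZ (ZMod p) b c d) := by
      apply isCoprime_of_nrm
      intro h2
      apply hN
      rw [← ZMod.intCast_zmod_eq_zero_iff_dvd, ← h2]
      unfold nrm
      push_cast
      rfl
    have h2 : FZ (ZMod p) b c d ∣ pw ![π x, π y, π z] ^ 2 := hcop.symm.dvd_of_dvd_mul_left hdvd
    have h3 : FZ (ZMod p) b c d ∣ pw ![π x, π y, π z] :=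
      (hsq.dvd_pow_iff_dvd two_ne_zero).1 h2
    have h4 : FZ (ZMod p) b c d ∣ C (π z) * X ^ 2 + C (π y) * X + C (π x) := by
      have : pw ![π x, π y, π z] = C (π z) * X ^ 2 + C (π y) * X + C (π x) := by
        simp only [pw, Matrix.cons_val_zero, Matrix.cons_val_one, Matrix.cons_val]
        ring
      rw [← this]
      exact h3
    obtain ⟨ez, ey, ex⟩ := coeff_eq_zero_of_dvd h4
    rcases hu with h5 | h5 | h5
    · exact norm_eq_one_iff_toZMod.1 h5 ex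
    · exact norm_eq_one_iff_toZMod.1 h5 ey
    · exact norm_eq_one_iff_toZMod.1 h5 ez
  refine ⟨l, hl, ?_⟩
  rw [hPl, hQl, norm_mul, norm_mul, norm_pow, ← PadicInt.norm_def, ← PadicInt.norm_def]
  have hP1 := PadicInt.norm_le_one (qP (b : ℤ_[p]) c d p₀ q₀ x y z)
  have hQ1 := PadicInt.norm_le_one (qQ (b : ℤ_[p]) c d p₀ q₀ x y z)
  have hl2 : 0 ≤ ‖l‖ ^ 2 := by positivity
  rcases hunit with h5 | h5
  · rw [h5, mul_one]
    exact max_eq_left (mul_le_of_le_one_right hl2 hQ1)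
  · rw [h5, mul_one]
    exact max_eq_right (mul_le_of_le_one_right hl2 hP1)

/-- A positive integer whose valuations are even is a square. -/
lemma isSquare_of_norm {g : ℤ} (hg : 0 < g)
    (h : ∀ (p : ℕ) [Fact p.Prime], ∃ m : ℚ_[p], m ≠ 0 ∧ ‖(g : ℚ_[p])‖ = ‖m‖ ^ 2) :
    ∃ μ : ℤ, 0 < μ ∧ g = μ ^ 2 := by
  obtain ⟨t, y, hsq, hy, hty⟩ := HM.exists_sqfree_part' hg.ne'
  have ht1 : t.natAbs = 1 := by
    by_contra hne
    obtain ⟨p, hpp, hpt⟩ := Nat.exists_prime_and_dvd hne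
    have : Fact p.Prime := ⟨hpp⟩
    obtain ⟨m, hm, hgm⟩ := h p
    have hpt' : (p : ℤ) ∣ t := Int.natCast_dvd.2 hpt
    obtain ⟨t', ht'⟩ := hpt'
    have hpt2 : ¬ (p : ℤ) ∣ t' := by
      rintro ⟨c, hc⟩
      have h3 : IsUnit ((p : ℤ)) := hsq _ ⟨c, by rw [ht', hc]; ring⟩
      exact (Nat.prime_iff_prime_int.1 hpp).not_isUnit h3
    have hn1 : ‖(t' : ℚ_[p])‖ = 1 := by
      rcases lt_or_eq_of_le (Padic.norm_int_le_one (p := p) t') with h1 | h1
      · exact absurd (Padic.norm_intCast_lt_one_iff.1 h1) hpt2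
      · exact h1
    have hyp : (y : ℚ_[p]) ≠ 0 := by exact_mod_cast hy
    have h4 : ‖(g : ℚ_[p])‖ = (p : ℝ)⁻¹ * ‖(y : ℚ_[p])‖ ^ 2 := by
      rw [← hty, ht']
      push_cast
      rw [norm_mul, norm_mul, hn1, norm_pow, Padic.norm_p, mul_one]
    rw [h4] at hgm
    have hp0 : (0 : ℝ) < p := by exact_mod_cast hpp.pos
    have hp1 : (p : ℝ) ≠ 1 := by exact_mod_cast hpp.one_lt.ne'
    rw [Padic.norm_eq_zpow_neg_valuation hm, Padic.norm_eq_zpow_neg_valuation hyp,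
      ← zpow_neg_one, ← zpow_natCast, ← zpow_natCast, ← zpow_mul, ← zpow_mul,
      ← zpow_add₀ hp0.ne'] at hgm
    have h5 := zpow_right_injective₀ hp0 hp1 hgm
    push_cast at h5
    omega
  have htpos : 0 < t := by
    by_contra hcon
    push Not at hcon
    have := mul_nonpos_of_nonpos_of_nonneg hcon (sq_nonneg y)
    linarith
  have ht : t = 1 := by omega
  refine ⟨|y|, abs_pos.2 hy, ?_⟩
  rw [sq_abs, ← hty, ht, one_mul]

/-- **Descent to coprime integers.** -/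
lemma exists_coprime {P Q : ℚ} (hPQ : P ≠ 0 ∨ Q ≠ 0)
    (h : ∀ (p : ℕ) [Fact p.Prime],
      ∃ m : ℚ_[p], m ≠ 0 ∧ max ‖(P : ℚ_[p])‖ ‖(Q : ℚ_[p])‖ = ‖m‖ ^ 2) :
    ∃ (p q : ℤ) (μ : ℚ), IsCoprime p q ∧ μ ≠ 0 ∧ (p : ℚ) = μ ^ 2 * P ∧ (q : ℚ) = μ ^ 2 * Q := by
  set D : ℤ := P.den * Q.den with hD
  have hP0 : (P.den : ℚ) ≠ 0 := by exact_mod_cast P.den_ne_zero
  have hQ0 : (Q.den : ℚ) ≠ 0 := by exact_mod_cast Q.den_ne_zero
  have hD0 : (D : ℚ) ≠ 0 := by rw [hD]; push_cast; exact mul_ne_zero hP0 hQ0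
  set A : ℤ := D * (P.num * Q.den) with hA
  set B : ℤ := D * (Q.num * P.den) with hB
  have hAP : (A : ℚ) = D ^ 2 * P := by
    have h1 : P * P.den = P.num := Rat.mul_den_eq_num P
    rw [hA, hD]
    push_cast
    rw [← h1]
    ring
  have hBQ : (B : ℚ) = D ^ 2 * Q := by
    have h1 : Q * Q.den = Q.num := Rat.mul_den_eq_num Q
    rw [hB, hD]
    push_cast
    rw [← h1]
    ring
  have hAB : A ≠ 0 ∨ B ≠ 0 := by
    rcases hPQ with h1 | h1
    · left
      intro h2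
      rw [h2, Int.cast_zero] at hAP
      exact mul_ne_zero (pow_ne_zero 2 hD0) h1 hAP.symm
    · right
      intro h2
      rw [h2, Int.cast_zero] at hBQ
      exact mul_ne_zero (pow_ne_zero 2 hD0) h1 hBQ.symm
  have hg : 0 < Int.gcd A B := Int.gcd_pos_iff.2 hAB
  obtain ⟨μ, hμ, hgμ⟩ := isSquare_of_norm (g := (Int.gcd A B : ℤ)) (by exact_mod_cast hg) (by
    intro p hp
    obtain ⟨m, hm, hmax⟩ := h p
    have hDp : (D : ℚ_[p]) ≠ 0 := by exact_mod_cast hD0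
    refine ⟨D * m, mul_ne_zero hDp hm, ?_⟩
    have eA : (A : ℚ_[p]) = D ^ 2 * P := by
      have : ((A : ℚ) : ℚ_[p]) = ((D ^ 2 * P : ℚ) : ℚ_[p]) := by rw [hAP]
      push_cast at this
      exact this
    have eB : (B : ℚ_[p]) = D ^ 2 * Q := by
      have : ((B : ℚ) : ℚ_[p]) = ((D ^ 2 * Q : ℚ) : ℚ_[p]) := by rw [hBQ]
      push_cast at this
      exact this
    have h1 : max ‖(A : ℚ_[p])‖ ‖(B : ℚ_[p])‖ = ‖(D : ℚ_[p]) * m‖ ^ 2 := by
      rw [eA, eB, norm_mul, norm_mul, ← mul_max_of_nonneg _ _ (norm_nonneg _), hmax, norm_pow,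
        norm_mul, mul_pow]
    rw [← h1]
    apply le_antisymm
    · have h2 := Int.gcd_eq_gcd_ab A B
      have h3 : (((Int.gcd A B : ℤ)) : ℚ_[p]) = (A : ℚ_[p]) * (Int.gcdA A B : ℤ) +
          (B : ℚ_[p]) * (Int.gcdB A B : ℤ) := by
        rw [h2]
        push_cast
        rfl
      rw [h3]
      refine (Padic.nonarchimedean _ _).trans (max_le_max ?_ ?_)
      · rw [norm_mul]
        exact mul_le_of_le_one_right (norm_nonneg _) (Padic.norm_int_le_one _)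
      · rw [norm_mul]
        exact mul_le_of_le_one_right (norm_nonneg _) (Padic.norm_int_le_one _)
    · apply max_le
      · obtain ⟨a, ha⟩ := Int.gcd_dvd_left A B
        have h3 : (A : ℚ_[p]) = (((Int.gcd A B : ℤ)) : ℚ_[p]) * (a : ℤ) := by
          rw [← Int.cast_mul, ← ha]
        rw [h3, norm_mul]
        exact mul_le_of_le_one_right (norm_nonneg _) (Padic.norm_int_le_one _)
      · obtain ⟨a, ha⟩ := Int.gcd_dvd_right A B
        have h3 : (B : ℚ_[p]) = (((Int.gcd A B : ℤ)) : ℚ_[p]) * (a : ℤ) := by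
          rw [← Int.cast_mul, ← ha]
        rw [h3, norm_mul]
        exact mul_le_of_le_one_right (norm_nonneg _) (Padic.norm_int_le_one _))
  obtain ⟨a, ha⟩ := Int.gcd_dvd_left A B
  obtain ⟨b, hb⟩ := Int.gcd_dvd_right A B
  have hμ0 : (μ : ℚ) ≠ 0 := by exact_mod_cast hμ.ne'
  refine ⟨a, b, D / μ, ?_, div_ne_zero hD0 hμ0, ?_, ?_⟩
  · have h2 := Int.gcd_eq_gcd_ab A B
    have hg0 : (Int.gcd A B : ℤ) ≠ 0 := by exact_mod_cast hg.ne'
    refine ⟨Int.gcdA A B, Int.gcdB A B, ?_⟩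
    apply mul_left_cancel₀ hg0
    linear_combination (-(Int.gcdA A B)) * ha - (Int.gcdB A B) * hb - h2
  · have h3 : (A : ℚ) = μ ^ 2 * a := by
      rw [← Int.cast_pow, ← hgμ, ← Int.cast_mul, ← ha]
    rw [div_pow]
    field_simp
    rw [← hAP, h3]
    ring
  · have h3 : (B : ℚ) = μ ^ 2 * b := by
      rw [← Int.cast_pow, ← hgμ, ← Int.cast_mul, ← hb]
    rw [div_pow]
    field_simp
    rw [← hBQ, h3]
    ring

end Stoll308.BE
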