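import Pool.Agent.Work.MP_308fa9_nt.BE.Basic
import Pool.Agent.Work.MP_308fa9_nt.BE.ApproxT

set_option autoImplicit false

/-!
A class which is locally the class of a point is the class of `p + q θ`, `p` and `q` coprime.
-/

namespace Stoll308.BE

open Polynomial Finset

lemma pw_mapA {R S : Type*} [CommRing R] [CommRing S] (f : R →+* S) (w : Fin 3 → R) :
    (pw w).map f = pw (fun i => f (w i)) := by
  simp [pw]

lemma FZ_mapA {R S : Type*} [CommRing R] [CommRing S] (f : R →+* S) (b c d : ℤ) :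
    (FZ R b c d).map f = FZ S b c d := by
  simp [F]

lemma isCoprime_pwA {b c d : ℤ} (hF : Irreducible (FZ ℚ b c d)) {w : Fin 3 → ℚ} (hw : w ≠ 0) :
    IsCoprime (pw w) (FZ ℚ b c d) := by
  apply IsCoprime.symm
  rw [hF.coprime_iff_not_dvd]
  intro h
  apply hw
  have h1 : pw w = C (w 2) * X ^ 2 + C (w 1) * X + C (w 0) := by unfold pw; ring
  rw [h1] at h
  obtain ⟨h2, h3, h4⟩ := coeff_eq_zero_of_dvd h
  funext i
  fin_cases i
  · exact h4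
  · exact h3
  · exact h2

theorem exists_rep (b c d : ℤ) (hF : Irreducible (FZ ℚ b c d)) (δ : ℚ[X])
    (hδ : IsCoprime δ (FZ ℚ b c d)) (hloc : ∀ (p : ℕ) [Fact p.Prime], WLoc b c d δ ℚ_[p])
    (w : Fin 3 → ℚ) (hw : w ≠ 0) (hw2 : ((δ * pw w ^ 2) %ₘ FZ ℚ b c d).coeff 2 = 0) :
    ∃ p q : ℤ, IsCoprime p q ∧ Rep b c d δ p q := by
  classical
  -- the class `p₀ + q₀ θ`
  have hmon : (FZ ℚ b c d).Monic := monic_F _ _ _
  set r : ℚ[X] := (δ * pw w ^ 2) %ₘ FZ ℚ b c d with hr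
  have hrdeg : r.natDegree < 3 := by
    have h1 := natDegree_F (b : ℚ) c d
    rw [← h1]
    apply natDegree_modByMonic_lt _ hmon
    intro h
    have h2 : (1 : ℚ[X]).natDegree = 3 := by rw [← h]; exact h1
    rw [natDegree_one] at h2
    omega
  have hrform : r = C (r.coeff 0) + C (r.coeff 1) * X := by
    conv_lhs => rw [r.as_sum_range_C_mul_X_pow' hrdeg]
    simp [Finset.sum_range_succ, hw2]
  set D : ℤ := (r.coeff 0).den * (r.coeff 1).den with hD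
  have hd0 : ((r.coeff 0).den : ℚ) ≠ 0 := by exact_mod_cast (r.coeff 0).den_ne_zero
  have hd1 : ((r.coeff 1).den : ℚ) ≠ 0 := by exact_mod_cast (r.coeff 1).den_ne_zero
  have hD0 : (D : ℚ) ≠ 0 := by rw [hD]; push_cast; exact mul_ne_zero hd0 hd1
  set p₀ : ℤ := D * ((r.coeff 0).num * (r.coeff 1).den) with hp₀
  set q₀ : ℤ := D * ((r.coeff 1).num * (r.coeff 0).den) with hq₀
  have hp₀' : (p₀ : ℚ) = D ^ 2 * r.coeff 0 := by
    have h1 : r.coeff 0 * (r.coeff 0).den = (r.coeff 0).num := Rat.mul_den_eq_num _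
    rw [hp₀, hD]
    push_cast
    rw [← h1]
    ring
  have hq₀' : (q₀ : ℚ) = D ^ 2 * r.coeff 1 := by
    have h1 : r.coeff 1 * (r.coeff 1).den = (r.coeff 1).num := Rat.mul_den_eq_num _
    rw [hq₀, hD]
    push_cast
    rw [← h1]
    ring
  obtain ⟨k, hk⟩ : FZ ℚ b c d ∣ δ * (C (D : ℚ) * pw w) ^ 2 - (C (p₀ : ℚ) + C (q₀ : ℚ) * X) := by
    refine ⟨C ((D : ℚ) ^ 2) * ((δ * pw w ^ 2) /ₘ FZ ℚ b c d), ?_⟩
    have h1 : r + FZ ℚ b c d * ((δ * pw w ^ 2) /ₘ FZ ℚ b c d) = δ * pw w ^ 2 :=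
      modByMonic_add_div (δ * pw w ^ 2) (FZ ℚ b c d)
    rw [hp₀', hq₀', C_mul, C_mul, C_pow]
    rw [hrform] at h1
    linear_combination (-(C (D : ℚ) ^ 2)) * h1
  have hcW : IsCoprime (C (D : ℚ) * pw w) (FZ ℚ b c d) := by
    apply IsCoprime.mul_left _ (isCoprime_pwA hF hw)
    refine ⟨C (D : ℚ)⁻¹, 0, ?_⟩
    rw [← C_mul, inv_mul_cancel₀ hD0]
    simp
  have hcδ : IsCoprime (C (p₀ : ℚ) + C (q₀ : ℚ) * X) (FZ ℚ b c d) := by
    have h1 : IsCoprime (δ * (C (D : ℚ) * pw w) ^ 2) (FZ ℚ b c d) :=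
      IsCoprime.mul_left hδ hcW.pow_left
    have h2 : C (p₀ : ℚ) + C (q₀ : ℚ) * X = δ * (C (D : ℚ) * pw w) ^ 2 + FZ ℚ b c d * (-k) := by
      linear_combination -hk
    rw [h2]
    exact h1.add_mul_left_left _
  -- its norm does not vanish
  have hN : nrm b c d p₀ q₀ ≠ 0 := by
    intro hN
    have hNQ : nrm (b : ℚ) c d p₀ q₀ = 0 := by
      have : ((nrm b c d p₀ q₀ : ℤ) : ℚ) = 0 := by rw [hN, Int.cast_zero]
      rw [← this]
      unfold nrm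
      push_cast
      rfl
    have h1 := nrm_identity (b : ℚ) c d p₀ q₀
    rw [hNQ, C_0, add_zero] at h1
    have h2 : FZ ℚ b c d ∣ C ((q₀ : ℚ) ^ 2) * X ^ 2 + C ((b : ℚ) * q₀ ^ 2 - p₀ * q₀) * X +
        C ((p₀ : ℚ) ^ 2 - b * p₀ * q₀ + c * q₀ ^ 2) :=
      hcδ.symm.dvd_of_dvd_mul_left ⟨C ((q₀ : ℚ) ^ 3), by rw [h1]; ring⟩
    obtain ⟨h3, -, h4⟩ := coeff_eq_zero_of_dvd h2
    have hq : (q₀ : ℚ) = 0 := pow_eq_zero_iff two_ne_zero |>.1 h3
    have hp : (p₀ : ℚ) = 0 := by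
      rw [hq] at h4
      have : (p₀ : ℚ) ^ 2 = 0 := by linear_combination h4
      exact pow_eq_zero_iff two_ne_zero |>.1 this
    rw [hq, hp, C_0, zero_mul, add_zero] at hcδ
    exact hF.not_isUnit (isCoprime_zero_left.1 hcδ)
  -- local conditions for the new class
  obtain ⟨V, U, hVU⟩ := hcW
  have hloc' : ∀ (p : ℕ) [Fact p.Prime], WLoc b c d (C (p₀ : ℚ) + C (q₀ : ℚ) * X) ℚ_[p] := by
    intro p _
    obtain ⟨ξ, y, s, hy, h1, k', hk'⟩ := hloc p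
    refine ⟨ξ, y, s * V.map (algebraMap ℚ ℚ_[p]), hy, h1, ?_⟩
    have e1 := congrArg (Polynomial.map (algebraMap ℚ ℚ_[p])) hk
    have e2 := congrArg (Polynomial.map (algebraMap ℚ ℚ_[p])) hVU
    simp only [Polynomial.map_sub, Polynomial.map_mul, Polynomial.map_add, Polynomial.map_pow,
      Polynomial.map_one, FZ_mapA] at e1 e2
    have e3 : (C (p₀ : ℚ) + C (q₀ : ℚ) * X).map (algebraMap ℚ ℚ_[p]) =
      (C (p₀ : ℚ)).map (algebraMap ℚ ℚ_[p]) + (C (q₀ : ℚ)).map (algebraMap ℚ ℚ_[p]) *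
        (X : ℚ[X]).map (algebraMap ℚ ℚ_[p]) := by
      rw [Polynomial.map_add, Polynomial.map_mul]
    rw [e3]
    set φ := algebraMap ℚ ℚ_[p]
    set G := (C (D : ℚ)).map φ * (pw w).map φ with hG
    set F' := FZ ℚ_[p] b c d
    set δ' := δ.map φ
    set V' := V.map φ
    set U' := U.map φ
    set T := (C (p₀ : ℚ)).map φ + (C (q₀ : ℚ)).map φ * (X : ℚ[X]).map φ
    -- `e1 : δ' * G ^ 2 - T = F' * k.map φ`, `e2 : V' * G + U' * F' = 1`
    refine ⟨k' + δ' * s ^ 2 * U' * (1 + V' * G) + s ^ 2 * V' ^ 2 * k.map φ, ?_⟩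
    linear_combination hk' + (s ^ 2 * V' ^ 2) * e1 - (δ' * s ^ 2 * (1 + V' * G)) * e2
  -- approximation
  obtain ⟨Δ, hΔ, hsq⟩ := exists_disc hF
  set S : Finset ℕ := (Δ * nrm b c d p₀ q₀).natAbs.primeFactors with hS
  obtain ⟨w', P, Q, hPQ, hdvd, hSm⟩ := exists_approx (S := S) (by simpa [nrm] using hN) hloc'
  obtain ⟨p, q, μ, hcop, hμ, hp, hq⟩ := exists_coprime hPQ (by
    intro p hp
    by_cases hpS : p ∈ S
    · exact hSm p hpS
    · have hnd : ¬ (p : ℤ) ∣ Δ * nrm b c d p₀ q₀ := by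
        intro h1
        apply hpS
        rw [hS, Nat.mem_primeFactors]
        exact ⟨hp.out, Int.natCast_dvd.1 h1, Int.natAbs_ne_zero.2 (mul_ne_zero hΔ hN)⟩
      exact parity_out (hsq p fun h1 => hnd (h1.mul_right _)) (fun h1 => hnd (h1.mul_left _))
        hPQ hdvd)
  refine ⟨p, q, hcop, C (D : ℚ) * pw w * pw w' * C μ, ?_⟩
  obtain ⟨k', hk'⟩ := hdvd
  refine ⟨-(C μ ^ 2 * (k' + pw w' ^ 2 * k)), ?_⟩
  rw [hp, hq, C_mul, C_mul, C_pow]
  linear_combination (-(C μ ^ 2)) * hk' - (C μ ^ 2 * pw w' ^ 2) * hk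

end Stoll308.BE
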