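import Mathlib
import Pool.Agent.Work.MP_308fa9_nt.Local

set_option autoImplicit false

/-!
Legendre's theorem: a conic `a X² + b Y² = Z²` over `ℚ` with points over all completions has a
rational point. Proof by descent.
-/

namespace Stoll308.HM

lemma exists_sqfree_part' {n : ℤ} (hn : n ≠ 0) : ∃ (t : ℤ) (y : ℤ), Squarefree t ∧ y ≠ 0 ∧
    t * y ^ 2 = n := by
  obtain ⟨a, b, hab, hsq⟩ := Nat.sq_mul_squarefree n.natAbs
  have hb : b ≠ 0 := by
    rintro rfl
    apply hn
    rw [zero_pow two_ne_zero, zero_mul] at hab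
    exact Int.natAbs_eq_zero.1 hab.symm
  refine ⟨n.sign * a, b, ?_, by exact_mod_cast hb, ?_⟩
  · rw [← Int.squarefree_natAbs, Int.natAbs_mul, Int.natAbs_sign_of_ne_zero hn, one_mul,
      Int.natAbs_natCast]
    exact hsq
  · have h1 : n.sign * (n.natAbs : ℤ) = n := Int.sign_mul_natAbs n
    have h2 : ((b ^ 2 * a : ℕ) : ℤ) = (n.natAbs : ℤ) := by rw [hab]
    push_cast at h2
    nth_rewrite 2 [← h1]
    rw [Int.natCast_natAbs, ← h2]
    ring

/-- The descent step. -/
lemma step {F : Type*} [Field F] {a b b' t : F} (hb : b ≠ 0) (hb' : b' ≠ 0)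
    (h : b * b' = t ^ 2 - a) (hs : Splits a b) : Splits a b' := by
  obtain ⟨X, Y, Z, hne, h1⟩ := hs
  refine ⟨Z + t * X, b * Y, Z * t + a * X, ?_, ?_⟩
  · by_contra hcon
    push Not at hcon
    obtain ⟨h2, h3, h4⟩ := hcon
    have hY : Y = 0 := by simpa [hb] using h3
    have hX : X = 0 := by
      have : (t ^ 2 - a) * X = 0 := by linear_combination t * h2 - h4
      rw [← h] at this
      simpa [hb, hb'] using this
    have hZ : Z = 0 := by rw [hX] at h2; simpa using h2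
    simp_all
  · linear_combination (t ^ 2 - a) * h1 + b * Y ^ 2 * h

section Padic

variable {p : ℕ} [hp : Fact p.Prime]

open PadicInt

lemma exists_primitive3 {x y z : ℚ_[p]} (h : x ≠ 0 ∨ y ≠ 0 ∨ z ≠ 0) :
    ∃ (l : ℚ_[p]) (x' y' z' : ℤ_[p]), l ≠ 0 ∧ x = l * x' ∧ y = l * y' ∧ z = l * z' ∧
      (‖x'‖ = 1 ∨ ‖y'‖ = 1 ∨ ‖z'‖ = 1) := by
  have key : ∃ l : ℚ_[p], l ≠ 0 ∧ ‖x‖ ≤ ‖l‖ ∧ ‖y‖ ≤ ‖l‖ ∧ ‖z‖ ≤ ‖l‖ ∧ (x = l ∨ y = l ∨ z = l) := by
    have hpos : 0 < max ‖x‖ (max ‖y‖ ‖z‖) := by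
      rcases h with h | h | h
      · exact (norm_pos_iff.2 h).trans_le (le_max_left _ _)
      · exact (norm_pos_iff.2 h).trans_le ((le_max_left _ _).trans (le_max_right _ _))
      · exact (norm_pos_iff.2 h).trans_le ((le_max_right _ _).trans (le_max_right _ _))
    have hx := le_max_left ‖x‖ (max ‖y‖ ‖z‖)
    have hy := (le_max_left ‖y‖ ‖z‖).trans (le_max_right ‖x‖ (max ‖y‖ ‖z‖))
    have hz := (le_max_right ‖y‖ ‖z‖).trans (le_max_right ‖x‖ (max ‖y‖ ‖z‖))
    rcases max_choice ‖x‖ (max ‖y‖ ‖z‖) with h1 | h1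
    · rw [h1] at hpos hx hy hz
      exact ⟨x, norm_pos_iff.1 hpos, hx, hy, hz, Or.inl rfl⟩
    · rcases max_choice ‖y‖ ‖z‖ with h2 | h2
      · rw [h1, h2] at hpos hx hy hz
        exact ⟨y, norm_pos_iff.1 hpos, hx, hy, hz, Or.inr (Or.inl rfl)⟩
      · rw [h1, h2] at hpos hx hy hz
        exact ⟨z, norm_pos_iff.1 hpos, hx, hy, hz, Or.inr (Or.inr rfl)⟩
  obtain ⟨l, hl, hx, hy, hz, hor⟩ := key
  have hl' : 0 < ‖l‖ := norm_pos_iff.2 hl
  have hdiv : ∀ w : ℚ_[p], ‖w‖ ≤ ‖l‖ → ‖w / l‖ ≤ 1 := fun w hw => by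
    rw [norm_div]; exact (div_le_one hl').2 hw
  refine ⟨l, ⟨x / l, hdiv x hx⟩, ⟨y / l, hdiv y hy⟩, ⟨z / l, hdiv z hz⟩, hl, ?_, ?_, ?_, ?_⟩
  · change x = l * (x / l); field_simp
  · change y = l * (y / l); field_simp
  · change z = l * (z / l); field_simp
  · rcases hor with h | h | h
    · left
      rw [PadicInt.norm_def]
      change ‖x / l‖ = 1
      rw [h, div_self hl, norm_one]
    · right; left
      rw [PadicInt.norm_def]
      change ‖y / l‖ = 1
      rw [h, div_self hl, norm_one]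
    · right; right
      rw [PadicInt.norm_def]
      change ‖z / l‖ = 1
      rw [h, div_self hl, norm_one]

lemma dvd_of_toZMod {e : ℤ_[p]} (h : toZMod e = 0) : ∃ e' : ℤ_[p], e = p * e' := by
  have h1 : e ∈ RingHom.ker (toZMod : ℤ_[p] →+* ZMod p) := h
  rw [ker_toZMod, PadicInt.maximalIdeal_eq_span_p, Ideal.mem_span_singleton] at h1
  exact h1

/-- If `p` divides `b` exactly once and `a X² + b Y² = Z²` is solvable over `ℚ_p`, then `a` is a
square modulo `p`. -/
lemma isSquare_of_splits {a b : ℤ} (hb : (p : ℤ) ∣ b) (hb2 : ¬ (p : ℤ) ^ 2 ∣ b)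
    (h : Splits (a : ℚ_[p]) (b : ℚ_[p])) : IsSquare (a : ZMod p) := by
  obtain ⟨X, Y, Z, hne, h1⟩ := h
  obtain ⟨l, x, y, z, hl, rfl, rfl, rfl, hu⟩ := exists_primitive3 hne
  have h2 : (a : ℤ_[p]) * x ^ 2 + (b : ℤ_[p]) * y ^ 2 = z ^ 2 := by
    have h4 : l ^ 2 * ((a : ℚ_[p]) * x ^ 2 + (b : ℚ_[p]) * y ^ 2) = l ^ 2 * z ^ 2 := by
      linear_combination h1
    have h5 := mul_left_cancel₀ (pow_ne_zero 2 hl) h4
    apply Subtype.ext
    rw [PadicInt.coe_add, PadicInt.coe_mul, PadicInt.coe_mul, PadicInt.coe_pow, PadicInt.coe_pow,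
      PadicInt.coe_pow, PadicInt.coe_intCast, PadicInt.coe_intCast]
    exact h5
  have h3 : (a : ZMod p) * toZMod x ^ 2 = toZMod z ^ 2 := by
    have h4 := congrArg (toZMod : ℤ_[p] →+* ZMod p) h2
    rw [map_add, map_mul, map_mul, map_pow, map_pow, map_pow, map_intCast, map_intCast] at h4
    rw [(ZMod.intCast_zmod_eq_zero_iff_dvd b p).2 hb, zero_mul, add_zero] at h4
    exact h4
  by_cases hx : toZMod x = 0
  · exfalso
    have hz : toZMod z = 0 := by
      rw [hx] at h3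
      have : toZMod z ^ 2 = 0 := by rw [← h3]; ring
      exact pow_eq_zero_iff two_ne_zero |>.1 this
    obtain ⟨x', hx'⟩ := dvd_of_toZMod hx
    obtain ⟨z', hz'⟩ := dvd_of_toZMod hz
    obtain ⟨b', hb'⟩ := hb
    have hb1 : ¬ (p : ℤ) ∣ b' := by
      rintro ⟨c, hc⟩
      exact hb2 ⟨c, by rw [hb', hc]; ring⟩
    have hp0 : (p : ℤ_[p]) ≠ 0 := by
      exact_mod_cast hp.out.ne_zero
    have h5 : (b' : ℤ_[p]) * y ^ 2 = p * (z' ^ 2 - a * x' ^ 2) := by
      apply mul_left_cancel₀ hp0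
      rw [hb', hx', hz'] at h2
      push_cast at h2
      linear_combination h2
    have hy : toZMod y = 0 := by
      have h6 := congrArg (toZMod : ℤ_[p] →+* ZMod p) h5
      rw [map_mul, map_mul, map_pow, map_intCast, map_natCast, ZMod.natCast_self, zero_mul] at h6
      rcases mul_eq_zero.1 h6 with h7 | h7
      · exact absurd ((ZMod.intCast_zmod_eq_zero_iff_dvd b' p).1 h7) hb1
      · exact pow_eq_zero_iff two_ne_zero |>.1 h7
    rcases hu with h | h | h
    · exact norm_eq_one_iff_toZMod.1 h hx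
    · exact norm_eq_one_iff_toZMod.1 h hy
    · exact norm_eq_one_iff_toZMod.1 h hz
  · refine ⟨toZMod z / toZMod x, ?_⟩
    field_simp
    rw [h3]

end Padic

/-- Chinese remainder theorem for a finite set of primes. -/
lemma crt (S : Finset ℕ) (hS : ∀ p ∈ S, p.Prime) (K : ℕ) (a : ℕ → ℤ) :
    ∃ n : ℤ, ∀ p ∈ S, (p : ℤ) ^ K ∣ n - a p := by
  classical
  induction S using Finset.induction_on with
  | empty => exact ⟨0, by simp⟩
  | insert q S hq ih =>
    obtain ⟨n, hn⟩ := ih fun p hp => hS p (Finset.mem_insert_of_mem hp)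
    have hcop : IsCoprime (∏ p ∈ S, (p : ℤ) ^ K) ((q : ℤ) ^ K) := by
      apply IsCoprime.prod_left
      intro p hp
      apply IsCoprime.pow
      rw [Nat.isCoprime_iff_coprime]
      refine (Nat.coprime_primes (hS p (Finset.mem_insert_of_mem hp))
        (hS q (Finset.mem_insert_self _ _))).2 ?_
      rintro rfl
      exact hq hp
    obtain ⟨u, v, huv⟩ := hcop
    refine ⟨n + (∏ p ∈ S, (p : ℤ) ^ K) * (u * (a q - n)), fun p hp => ?_⟩
    rcases Finset.mem_insert.1 hp with rfl | hp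
    · exact ⟨-v * (a p - n), by linear_combination (a p - n) * huv⟩
    · have h1 : (p : ℤ) ^ K ∣ ∏ p ∈ S, (p : ℤ) ^ K := Finset.dvd_prod_of_mem _ hp
      have : n + (∏ p ∈ S, (p : ℤ) ^ K) * (u * (a q - n)) - a p =
        (n - a p) + (∏ p ∈ S, (p : ℤ) ^ K) * (u * (a q - n)) := by ring
      rw [this]
      exact dvd_add (hn p hp) (h1.mul_right _)

lemma exists_sqrt_mod {a b : ℤ} (hb : Squarefree b)
    (h : ∀ p : ℕ, p.Prime → (p : ℤ) ∣ b → IsSquare (a : ZMod p)) :
    ∃ t b' : ℤ, b * b' = t ^ 2 - a ∧ 2 * |t| ≤ |b| := by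
  classical
  have hb0 : b ≠ 0 := hb.ne_zero
  choose! s hs using h
  obtain ⟨n, hn⟩ := crt b.natAbs.primeFactors (fun p hp => Nat.prime_of_mem_primeFactors hp) 1
    (fun p => (s p).val)
  have h1 : b ∣ n ^ 2 - a := by
    rw [← Int.natAbs_dvd]
    have hsq : Squarefree b.natAbs := Int.squarefree_natAbs.2 hb
    rw [← Nat.prod_primeFactors_of_squarefree hsq]
    push_cast
    apply Finset.prod_dvd_of_coprime
    · intro p hp q hq hpq
      rw [Function.onFun, Nat.isCoprime_iff_coprime]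
      exact (Nat.coprime_primes (Nat.prime_of_mem_primeFactors hp)
        (Nat.prime_of_mem_primeFactors hq)).2 hpq
    · intro p hp
      have hpp := Nat.prime_of_mem_primeFactors hp
      have : Fact p.Prime := ⟨hpp⟩
      have hpb : (p : ℤ) ∣ b := by
        rw [Int.natCast_dvd]
        exact Nat.dvd_of_mem_primeFactors hp
      rw [← ZMod.intCast_zmod_eq_zero_iff_dvd]
      have h2 := hn p hp
      rw [pow_one, ← ZMod.intCast_zmod_eq_zero_iff_dvd] at h2
      push_cast at h2 ⊢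
      rw [ZMod.natCast_zmod_val, sub_eq_zero] at h2
      rw [h2, hs p hpp hpb]
      ring
  have hpos : 0 < |b| := abs_pos.2 hb0
  obtain ⟨t, ht1, ht2⟩ : ∃ t : ℤ, 2 * |t| ≤ |b| ∧ b ∣ n - t := by
    have e1 := Int.emod_nonneg n hpos.ne'
    have e2 := Int.emod_lt_of_pos n hpos
    have e3 : b ∣ n - n % |b| := by
      rw [← abs_dvd]
      exact Int.dvd_self_sub_emod
    by_cases hc : 2 * (n % |b|) ≤ |b|
    · exact ⟨n % |b|, by rw [abs_of_nonneg e1]; exact hc, e3⟩
    · refine ⟨n % |b| - |b|, ?_, ?_⟩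
      · rw [abs_of_nonpos (by linarith)]
        linarith
      · have : n - (n % |b| - |b|) = (n - n % |b|) + |b| := by ring
        rw [this]
        exact dvd_add e3 ((dvd_abs b b).2 dvd_rfl)
  have h3 : b ∣ t ^ 2 - a := by
    have : t ^ 2 - a = (n ^ 2 - a) - (n - t) * (n + t) := by ring
    rw [this]
    exact dvd_sub h1 (ht2.mul_right _)
  obtain ⟨b', hb'⟩ := h3
  exact ⟨t, b', hb'.symm, ht1⟩

lemma legendre_aux : ∀ (N : ℕ) (a b : ℤ), a.natAbs + b.natAbs ≤ N → Squarefree a → Squarefree b →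
    (0 < a ∨ 0 < b) → (∀ (p : ℕ) [Fact p.Prime], Splits (a : ℚ_[p]) (b : ℚ_[p])) →
    Splits (a : ℚ) (b : ℚ) := by
  intro N
  induction N with
  | zero =>
    intro a b h ha
    have := ha.ne_zero
    omega
  | succ N ih =>
    have main : ∀ a b : ℤ, a.natAbs ≤ b.natAbs → a.natAbs + b.natAbs ≤ N + 1 → Squarefree a →
        Squarefree b → (0 < a ∨ 0 < b) →
        (∀ (p : ℕ) [Fact p.Prime], Splits (a : ℚ_[p]) (b : ℚ_[p])) → Splits (a : ℚ) (b : ℚ) := by
      intro a b hab hN ha hb hR hp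
      have ha0 := ha.ne_zero
      have hb0 := hb.ne_zero
      by_cases hb1 : b.natAbs ≤ 1
      · rcases hR with h | h
        · have : a = 1 := by omega
          rw [this, Int.cast_one]
          exact splits_one.symm
        · have : b = 1 := by omega
          rw [this, Int.cast_one]
          exact splits_one
      have hb2 : 2 ≤ |b| := by
        rw [Int.abs_eq_natAbs]; omega
      obtain ⟨t, b', h1, ht⟩ := exists_sqrt_mod (a := a) hb (by
        intro p hpp hpb
        have : Fact p.Prime := ⟨hpp⟩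
        refine isSquare_of_splits hpb ?_ (hp p)
        intro h2
        have h3 : IsUnit ((p : ℤ)) := hb _ (by rw [← sq]; exact h2)
        exact (Nat.prime_iff_prime_int.1 hpp).not_isUnit h3)
      by_cases hb' : b' = 0
      · rw [hb', mul_zero] at h1
        refine ⟨1, 0, t, by simp, ?_⟩
        have : (a : ℚ) = (t : ℚ) ^ 2 := by
          have h2 : a = t ^ 2 := by linarith
          rw [h2]; push_cast; ring
        rw [this]; ring
      obtain ⟨b'', u, hsq, hu, hbu⟩ := exists_sqfree_part' hb'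
      have hlt : b''.natAbs < b.natAbs := by
        have h2 : |b'| < |b| := by
          have h3 : |b| * |b'| = |t ^ 2 - a| := by rw [← abs_mul, h1]
          have h4 : |t ^ 2 - a| ≤ t ^ 2 + |a| := by
            refine (abs_sub _ _).trans ?_
            rw [abs_of_nonneg (sq_nonneg t)]
          have h5 : |a| ≤ |b| := by
            rw [Int.abs_eq_natAbs, Int.abs_eq_natAbs]; exact_mod_cast hab
          have h6 : 4 * t ^ 2 ≤ |b| ^ 2 := by
            have h7 : 0 ≤ |t| := abs_nonneg t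
            have h8 : (2 * |t|) ^ 2 ≤ |b| ^ 2 := pow_le_pow_left₀ (by positivity) ht 2
            rw [mul_pow, sq_abs] at h8
            linarith
          have h9 : |b| * (4 * |b'|) ≤ |b| * (|b| + 4) := by nlinarith
          have h10 : 4 * |b'| ≤ |b| + 4 := le_of_mul_le_mul_left h9 (by linarith)
          linarith
        have h3 : |b''| ≤ |b'| := by
          rw [← hbu, abs_mul, abs_pow]
          have : 1 ≤ |u| := Int.one_le_abs hu
          have : 1 ≤ |u| ^ 2 := one_le_pow₀ this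
          have := abs_nonneg b''
          nlinarith
        have h4 : |b''| < |b| := h3.trans_lt h2
        rw [Int.abs_eq_natAbs, Int.abs_eq_natAbs] at h4
        exact_mod_cast h4
      have hstep : ∀ (F : Type) [Field F] [CharZero F], Splits (a : F) (b : F) ↔
          Splits (a : F) (b'' : F) := by
        intro F _ _
        have hbF : (b : F) ≠ 0 := by exact_mod_cast hb0
        have hbF' : (b' : F) ≠ 0 := by exact_mod_cast hb'
        have huF : (u : F) ≠ 0 := by exact_mod_cast hu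
        have h1F : (b : F) * b' = (t : F) ^ 2 - a := by exact_mod_cast h1
        have h2F : (b' : F) = b'' * (u : F) ^ 2 := by rw [← hbu]; push_cast; ring
        rw [← splits_mul_sq' (c := (b'' : F)) huF, ← h2F]
        exact ⟨fun h => step hbF hbF' h1F h, fun h => step hbF' hbF (by rw [mul_comm]; exact h1F) h⟩
      rw [hstep ℚ]
      refine ih a b'' (by omega) ha hsq ?_ (fun p _ => (hstep ℚ_[p]).1 (hp p))
      rcases lt_or_ge 0 a with h | h
      · exact Or.inl h
      · right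
        have hbpos : 0 < b := hR.resolve_left (not_lt.2 h)
        have hne : a < 0 := lt_of_le_of_ne h ha0
        have h2 : 0 < b * b' := by rw [h1]; have := sq_nonneg t; linarith
        have h3 : 0 < b' := (mul_pos_iff_of_pos_left hbpos).1 h2
        rw [← hbu] at h3
        exact (pos_iff_pos_of_mul_pos h3).2 (by positivity)
    intro a b hN ha hb hR hp
    rcases le_total a.natAbs b.natAbs with h | h
    · exact main a b h hN ha hb hR hp
    · exact (main b a h (by omega) hb ha hR.symm fun p _ => (hp p).symm).symm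

/-- Legendre's theorem, or the Hasse-Minkowski theorem for conics `a X² + b Y² = Z²`. -/
theorem splits_rat {a b : ℚ} (ha : a ≠ 0) (hb : b ≠ 0) (hR : Splits (a : ℝ) (b : ℝ))
    (hp : ∀ (p : ℕ) [Fact p.Prime], Splits (a : ℚ_[p]) (b : ℚ_[p])) : Splits a b := by
  have key : ∀ c : ℚ, c ≠ 0 → ∃ (c' : ℤ) (w : ℚ), Squarefree c' ∧ w ≠ 0 ∧ c = c' * w ^ 2 := by
    intro c hc
    have hn : c.num * c.den ≠ 0 := by
      apply mul_ne_zero (Rat.num_ne_zero.2 hc)
      exact_mod_cast c.den_ne_zero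
    obtain ⟨c', y, hsq, hy, h1⟩ := exists_sqfree_part' hn
    have hd : (c.den : ℚ) ≠ 0 := by exact_mod_cast c.den_ne_zero
    refine ⟨c', y / c.den, hsq, div_ne_zero (by exact_mod_cast hy) hd, ?_⟩
    have h2 : (c.num : ℚ) * c.den = c' * y ^ 2 := by exact_mod_cast h1.symm
    have h3 : c = c.num / c.den := (Rat.num_div_den c).symm
    have h4 : (c : ℚ) * c.den ^ 2 = c' * y ^ 2 := by
      rw [← h2]
      nth_rewrite 1 [h3]
      field_simp
    rw [div_pow]
    field_simp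
    linarith
  obtain ⟨a', u, ha', hu, hau⟩ := key a ha
  obtain ⟨b', v, hb', hv, hbv⟩ := key b hb
  have hF : ∀ (F : Type) [Field F] [CharZero F], Splits (a : F) (b : F) ↔
      Splits (a' : F) (b' : F) := by
    intro F _ _
    have huF : (u : F) ≠ 0 := by exact_mod_cast hu
    have hvF : (v : F) ≠ 0 := by exact_mod_cast hv
    have h1 : (a : F) = a' * (u : F) ^ 2 := by rw [hau]; push_cast; ring
    have h2 : (b : F) = b' * (v : F) ^ 2 := by rw [hbv]; push_cast; ring
    rw [h1, h2, splits_mul_sq huF, splits_mul_sq' hvF]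
  have h1 := (hF ℚ).2 (legendre_aux _ a' b' le_rfl ha' hb' ?_ fun p _ => (hF ℚ_[p]).1 (hp p))
  · simpa using h1
  · obtain ⟨X, Y, Z, hne, h⟩ := (hF ℝ).1 hR
    by_contra hcon
    push Not at hcon
    have h1 : (a' : ℝ) < 0 := by
      have : a' < 0 := lt_of_le_of_ne hcon.1 ha'.ne_zero
      exact_mod_cast this
    have h2 : (b' : ℝ) < 0 := by
      have : b' < 0 := lt_of_le_of_ne hcon.2 hb'.ne_zero
      exact_mod_cast this
    have h3 : (a' : ℝ) * X ^ 2 ≤ 0 := mul_nonpos_of_nonpos_of_nonneg h1.le (sq_nonneg X)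
    have h4 : (b' : ℝ) * Y ^ 2 ≤ 0 := mul_nonpos_of_nonpos_of_nonneg h2.le (sq_nonneg Y)
    have h5 := sq_nonneg Z
    have hZ : Z ^ 2 = 0 := by linarith
    have hX : (a' : ℝ) * X ^ 2 = 0 := by linarith
    have hY : (b' : ℝ) * Y ^ 2 = 0 := by linarith
    have hX' : X = 0 := by
      rcases mul_eq_zero.1 hX with h | h
      · exact absurd h h1.ne
      · exact pow_eq_zero_iff two_ne_zero |>.1 h
    have hY' : Y = 0 := by
      rcases mul_eq_zero.1 hY with h | h
      · exact absurd h h2.ne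
      · exact pow_eq_zero_iff two_ne_zero |>.1 h
    have hZ' : Z = 0 := pow_eq_zero_iff two_ne_zero |>.1 hZ
    simp_all

end Stoll308.HM

namespace Stoll308.BE

/-- Legendre / Hasse-Minkowski for `z² = a x² + b y²`. -/
theorem hm2 (a b : ℚ) (ha : a ≠ 0) (hb : b ≠ 0)
    (hp : ∀ (p : ℕ) [Fact p.Prime], ∃ x y z : ℚ_[p], (x ≠ 0 ∨ y ≠ 0 ∨ z ≠ 0) ∧
      z ^ 2 = (a : ℚ_[p]) * x ^ 2 + (b : ℚ_[p]) * y ^ 2)
    (hR : ∃ x y z : ℝ, (x ≠ 0 ∨ y ≠ 0 ∨ z ≠ 0) ∧ z ^ 2 = (a : ℝ) * x ^ 2 + (b : ℝ) * y ^ 2) :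
    ∃ x y z : ℚ, (x ≠ 0 ∨ y ≠ 0 ∨ z ≠ 0) ∧ z ^ 2 = a * x ^ 2 + b * y ^ 2 := by
  obtain ⟨x, y, z, hne, h⟩ := HM.splits_rat ha hb
    (by obtain ⟨x, y, z, hne, h⟩ := hR; exact ⟨x, y, z, hne, h.symm⟩)
    (fun p _ => by obtain ⟨x, y, z, hne, h⟩ := hp p; exact ⟨x, y, z, hne, h.symm⟩)
  exact ⟨x, y, z, hne, h.symm⟩

end Stoll308.BE
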