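import Mathlib
import Pool.Agent.Work.MP_308fa9_nt.BE.HM

set_option autoImplicit false

/-!
The Hasse-Minkowski theorem for ternary quadratic forms over `ℚ`, with weak approximation at
finitely many primes.
-/

namespace Stoll308.HM

/-- The ternary quadratic form `a x² + b y² + c z² + 2 d y z + 2 e x z + 2 f x y`. -/
def tf {R : Type*} [CommRing R] (a b c d e f x y z : R) : R :=
  a * x ^ 2 + b * y ^ 2 + c * z ^ 2 + 2 * d * y * z + 2 * e * x * z + 2 * f * x * y

/-- The determinant of its matrix. -/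
def tdet {R : Type*} [CommRing R] (a b c d e f : R) : R :=
  a * b * c + 2 * d * e * f - a * d ^ 2 - b * e ^ 2 - c * f ^ 2

section Field

variable {F : Type*} [Field F]

/-- Over any field: a zero of the ternary form gives a zero of the diagonal one. -/
lemma splits_of_zero {a b c d e f x y z : F} (ha : a ≠ 0) (hB : a * b - f ^ 2 ≠ 0)
    (hne : x ≠ 0 ∨ y ≠ 0 ∨ z ≠ 0) (h : tf a b c d e f x y z = 0) :
    Splits (-(a * b - f ^ 2)) (-(a * tdet a b c d e f)) := by
  refine ⟨a * x + f * y + e * z, z, (a * b - f ^ 2) * y + (a * d - e * f) * z, ?_, ?_⟩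
  · by_contra hcon
    push Not at hcon
    obtain ⟨h1, h2, h3⟩ := hcon
    rw [h2, mul_zero, add_zero] at h3 h1
    have hy : y = 0 := by simpa [hB] using h3
    rw [hy, mul_zero, add_zero] at h1
    have hx : x = 0 := by simpa [ha] using h1
    simp_all
  · unfold tf at h
    unfold tdet
    linear_combination (-(a * (a * b - f ^ 2))) * h

lemma zero_of_splits {a b c d e f : F} (ha : a ≠ 0) (hB : a * b - f ^ 2 ≠ 0)
    (h : Splits (-(a * b - f ^ 2)) (-(a * tdet a b c d e f))) :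
    ∃ x y z : F, (x ≠ 0 ∨ y ≠ 0 ∨ z ≠ 0) ∧ tf a b c d e f x y z = 0 := by
  obtain ⟨X, Z, Y, hne, h⟩ := h
  have e1 : (a * b - f ^ 2) * ((Y - (a * d - e * f) * Z) / (a * b - f ^ 2)) =
      Y - (a * d - e * f) * Z := by field_simp
  set y : F := (Y - (a * d - e * f) * Z) / (a * b - f ^ 2) with hy
  have e2 : a * ((X - f * y - e * Z) / a) = X - f * y - e * Z := by field_simp
  set x : F := (X - f * y - e * Z) / a with hx
  refine ⟨x, y, Z, ?_, ?_⟩
  · by_contra hcon
    push Not at hcon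
    obtain ⟨h1, h2, h3⟩ := hcon
    rw [h2, h3] at e1
    rw [h1, h2, h3] at e2
    have hY : Y = 0 := by linear_combination -e1
    have hX : X = 0 := by linear_combination -e2
    simp_all
  · have h1 : (a * (a * b - f ^ 2)) * tf a b c d e f x y Z = 0 := by
      have hX : X = a * x + f * y + e * Z := by linear_combination -e2
      have hY : Y = (a * b - f ^ 2) * y + (a * d - e * f) * Z := by linear_combination -e1
      rw [hX, hY] at h
      unfold tf
      unfold tdet at h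
      linear_combination -h
    rcases mul_eq_zero.1 h1 with h2 | h2
    · exact absurd h2 (mul_ne_zero ha hB)
    · exact h2

end Field

/-- The Hasse-Minkowski theorem for ternary quadratic forms over `ℚ`. -/
theorem exists_zero {a b c d e f : ℚ}
    (hR : ∃ x y z : ℝ, (x ≠ 0 ∨ y ≠ 0 ∨ z ≠ 0) ∧ tf (a : ℝ) b c d e f x y z = 0)
    (hp : ∀ (p : ℕ) [Fact p.Prime], ∃ x y z : ℚ_[p], (x ≠ 0 ∨ y ≠ 0 ∨ z ≠ 0) ∧
      tf (a : ℚ_[p]) b c d e f x y z = 0) :
    ∃ x y z : ℚ, (x ≠ 0 ∨ y ≠ 0 ∨ z ≠ 0) ∧ tf a b c d e f x y z = 0 := by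
  by_cases ha : a = 0
  · exact ⟨1, 0, 0, by simp, by unfold tf; rw [ha]; ring⟩
  by_cases hB : a * b - f ^ 2 = 0
  · refine ⟨-f, a, 0, by simp [ha], ?_⟩
    unfold tf
    linear_combination a * hB
  by_cases hD : tdet a b c d e f = 0
  · apply zero_of_splits ha hB
    rw [hD, mul_zero, neg_zero]
    exact ⟨0, 1, 0, by simp, by ring⟩
  apply zero_of_splits ha hB
  have hcast : ∀ (F : Type) [Field F] [CharZero F],
      (∃ x y z : F, (x ≠ 0 ∨ y ≠ 0 ∨ z ≠ 0) ∧ tf (a : F) b c d e f x y z = 0) →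
      Splits ((-(a * b - f ^ 2) : ℚ) : F) ((-(a * tdet a b c d e f) : ℚ) : F) := by
    intro F _ _ h
    obtain ⟨x, y, z, hne, h⟩ := h
    have h1 := splits_of_zero (by exact_mod_cast ha) (by exact_mod_cast hB) hne h
    unfold tdet at h1 ⊢
    push_cast
    exact h1
  exact splits_rat (neg_ne_zero.2 hB) (neg_ne_zero.2 (mul_ne_zero ha hD)) (hcast ℝ hR)
    fun p _ => hcast ℚ_[p] (hp p)

section Param

variable {F : Type*} [Field F]

/-- The second intersection point with the conic (with the point `(1, 0, 0)`) of the line through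
`(1, 0, 0)` and `(0, s, t)`. -/
def par (b c d e f s t : F) : F × F × F :=
  (-(b * s ^ 2 + c * t ^ 2 + 2 * d * s * t), 2 * (f * s + e * t) * s, 2 * (f * s + e * t) * t)

lemma tf_par (b c d e f s t : F) :
    tf 0 b c d e f (par b c d e f s t).1 (par b c d e f s t).2.1 (par b c d e f s t).2.2 = 0 := by
  unfold tf par
  ring

lemma par_surj {b c d e f : F} (hdet : tdet 0 b c d e f ≠ 0) (h2 : (2 : F) ≠ 0) {x y z : F}
    (hne : x ≠ 0 ∨ y ≠ 0 ∨ z ≠ 0) (h : tf 0 b c d e f x y z = 0) :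
    ∃ s t m : F, m ≠ 0 ∧ (par b c d e f s t).1 = m * x ∧ (par b c d e f s t).2.1 = m * y ∧
      (par b c d e f s t).2.2 = m * z := by
  unfold tdet at hdet
  by_cases hyz : y = 0 ∧ z = 0
  · obtain ⟨rfl, rfl⟩ := hyz
    have hx : x ≠ 0 := by simpa using hne
    refine ⟨e, -f, (-(b * e ^ 2 + c * f ^ 2 - 2 * d * e * f)) / x, ?_, ?_, ?_, ?_⟩
    · apply div_ne_zero _ hx
      intro h3
      apply hdet
      linear_combination h3
    · unfold par
      simp only
      field_simp
      ring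
    · unfold par
      simp only
      ring
    · unfold par
      simp only
      ring
  · have hl : f * y + e * z ≠ 0 := by
      intro hl
      unfold tf at h
      have hg : b * y ^ 2 + c * z ^ 2 + 2 * d * y * z = 0 := by
        linear_combination h - 2 * x * hl
      by_cases hz : z = 0
      · have hy : y ≠ 0 := fun hy => hyz ⟨hy, hz⟩
        rw [hz, mul_zero, add_zero] at hl
        have hf : f = 0 := by simpa [hy] using hl
        rw [hz] at hg
        have hb : b = 0 := by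
          have : b * y ^ 2 = 0 := by linear_combination hg
          simpa [hy] using this
        apply hdet
        rw [hf, hb]; ring
      · apply hdet
        have h3 : z ^ 2 * (0 * b * c + 2 * d * e * f - 0 * d ^ 2 - b * e ^ 2 - c * f ^ 2) = 0 := by
          linear_combination (-(f ^ 2)) * hg + (-(b * (e * z - f * y)) + 2 * d * f * z) * hl
        rcases mul_eq_zero.1 h3 with h4 | h4
        · exact absurd (pow_eq_zero_iff two_ne_zero |>.1 h4) hz
        · exact h4
    refine ⟨y, z, 2 * (f * y + e * z), mul_ne_zero h2 hl, ?_, ?_, ?_⟩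
    · unfold par
      simp only
      unfold tf at h
      linear_combination -h
    · unfold par
      ring
    · unfold par
      ring

end Param

/-- Rational numbers approximate elements of finitely many `ℚ_p`. -/
theorem weak_approx (S : Finset ℕ) (u : ∀ (p : ℕ) [Fact p.Prime], ℚ_[p]) {ε : ℝ} (hε : 0 < ε) :
    ∃ r : ℚ, ∀ (p : ℕ) [Fact p.Prime], p ∈ S → ‖(r : ℚ_[p]) - u p‖ ≤ ε := by
  classical
  have h1 : ∀ p : ℕ, ∃ r : ℚ, ∀ _ : Fact p.Prime, ‖(r : ℚ_[p]) - u p‖ ≤ ε := by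
    intro p
    by_cases hp : p.Prime
    · have : Fact p.Prime := ⟨hp⟩
      obtain ⟨r, hr⟩ := Padic.rat_dense p (u p) hε
      refine ⟨r, fun _ => ?_⟩
      rw [norm_sub_rev]
      exact hr.le
    · exact ⟨0, fun h => absurd h.out hp⟩
  choose r hr using h1
  set T : Finset ℕ := S.filter Nat.Prime with hT
  have hTp : ∀ p ∈ T, p.Prime := fun p hp => (Finset.mem_filter.1 hp).2
  set D : ℤ := ∏ p ∈ T, ((r p).den : ℤ) with hD
  have hD0 : D ≠ 0 := Finset.prod_ne_zero_iff.2 fun p _ => by exact_mod_cast (r p).den_ne_zero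
  have h2 : ∀ p : ℕ, ∃ a : ℤ, p ∈ T → (a : ℚ) = D * r p := by
    intro p
    by_cases hp : p ∈ T
    · obtain ⟨m, hm⟩ : ((r p).den : ℤ) ∣ D := Finset.dvd_prod_of_mem _ hp
      refine ⟨m * (r p).num, fun _ => ?_⟩
      have h3 : (r p) = (r p).num / (r p).den := (Rat.num_div_den (r p)).symm
      have h4 : ((r p).den : ℚ) ≠ 0 := by exact_mod_cast (r p).den_ne_zero
      rw [hm]
      nth_rewrite 3 [h3]
      push_cast
      field_simp
    · exact ⟨0, fun h => absurd h hp⟩
  choose a ha using h2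
  -- choose the exponent
  obtain ⟨K, hK⟩ : ∃ K : ℕ, ∀ (p : ℕ) [Fact p.Prime], p ∈ T →
      ((p : ℝ) ^ K)⁻¹ ≤ ε * ‖(D : ℚ_[p])‖ := by
    have h3 : ∀ p : ℕ, ∃ K : ℕ, ∀ _ : Fact p.Prime, ((p : ℝ) ^ K)⁻¹ ≤ ε * ‖(D : ℚ_[p])‖ := by
      intro p
      by_cases hp : p.Prime
      · have : Fact p.Prime := ⟨hp⟩
        have h4 : 0 < ε * ‖(D : ℚ_[p])‖ := mul_pos hε (norm_pos_iff.2 (by exact_mod_cast hD0))
        obtain ⟨K, hK⟩ := exists_pow_lt_of_lt_one h4
          (show ((p : ℝ))⁻¹ < 1 from inv_lt_one_of_one_lt₀ (by exact_mod_cast hp.one_lt))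
        refine ⟨K, fun _ => ?_⟩
        rw [← inv_pow]
        exact hK.le
      · exact ⟨0, fun h => absurd h.out hp⟩
    choose K hK using h3
    refine ⟨T.sup K, fun p hp hpT => ?_⟩
    refine le_trans ?_ (hK p hp)
    have h5 : K p ≤ T.sup K := Finset.le_sup hpT
    have h6 : (1 : ℝ) ≤ p := by exact_mod_cast hp.out.one_lt.le
    exact inv_anti₀ (by positivity) (pow_le_pow_right₀ h6 h5)
  obtain ⟨n, hn⟩ := crt T hTp K a
  refine ⟨n / D, fun p hp hpS => ?_⟩
  have hpT : p ∈ T := Finset.mem_filter.2 ⟨hpS, hp.out⟩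
  have hDp : (D : ℚ_[p]) ≠ 0 := by exact_mod_cast hD0
  have h7 : ‖((n : ℚ_[p]) - a p)‖ ≤ ((p : ℝ) ^ K)⁻¹ := by
    have h8 := (Padic.norm_int_le_pow_iff_dvd (p := p) (n - a p) K).2 (by exact_mod_cast hn p hpT)
    rw [zpow_neg, zpow_natCast] at h8
    push_cast at h8
    exact h8
  have h8 : ((n / D : ℚ) : ℚ_[p]) - r p = ((n : ℚ_[p]) - a p) / D := by
    have h9 : (a p : ℚ_[p]) = D * r p := by
      have := ha p hpT
      have h10 : ((a p : ℚ) : ℚ_[p]) = ((D * r p : ℚ) : ℚ_[p]) := by rw [this]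
      push_cast at h10
      exact h10
    rw [h9]
    push_cast
    field_simp
  have h9 : ‖((n / D : ℚ) : ℚ_[p]) - r p‖ ≤ ε := by
    rw [h8, norm_div, div_le_iff₀ (norm_pos_iff.2 hDp)]
    exact h7.trans (hK p hpT)
  have h10 : ((n / D : ℚ) : ℚ_[p]) - u p = (((n / D : ℚ) : ℚ_[p]) - r p) + ((r p : ℚ_[p]) - u p) := by
    ring
  rw [h10]
  exact (Padic.nonarchimedean _ _).trans (max_le h9 (hr p hp))

end Stoll308.HM
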