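import Pool.Agent.Work.MP_308fa9_nt.BE.Basic
import Pool.Agent.Work.MP_308fa9_nt.BE.HMWeak

set_option autoImplicit false

/-!
Approximation of local classes by a class `P + Q θ` at finitely many primes.
-/

namespace Stoll308.BE

open Polynomial Finset

section coeffs

variable {R : Type*} [CommRing R]

/-- The constant coefficient of `(p + q θ)(x + y θ + z θ²)²`. -/
def qP (b c d p q x y z : R) : R :=
  p * x ^ 2 - d * (2 * p * y * z + q * (y ^ 2 + 2 * x * z)) +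
    b * d * (p * z ^ 2 + 2 * q * y * z) + (c - b ^ 2) * d * (q * z ^ 2)

/-- The coefficient of `θ` of `(p + q θ)(x + y θ + z θ²)²`. -/
def qQ (b c d p q x y z : R) : R :=
  2 * p * x * y + q * x ^ 2 - c * (2 * p * y * z + q * (y ^ 2 + 2 * x * z)) +
    (b * c - d) * (p * z ^ 2 + 2 * q * y * z) + (c ^ 2 - b ^ 2 * c + b * d) * (q * z ^ 2)

/-- The coefficient of `θ²` of `(p + q θ)(x + y θ + z θ²)²`. -/
def qT (b c d p q x y z : R) : R :=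
  HM.tf 0 (p - b * q) ((b ^ 2 - c) * p + (2 * b * c - b ^ 3 - d) * q)
    (-(b * p) + (b ^ 2 - c) * q) (p - b * q) q x y z

lemma qdet (b c d p q : R) :
    HM.tdet 0 (p - b * q) ((b ^ 2 - c) * p + (2 * b * c - b ^ 3 - d) * q)
      (-(b * p) + (b ^ 2 - c) * q) (p - b * q) q =
      -(p ^ 3 - b * p ^ 2 * q + c * p * q ^ 2 - d * q ^ 3) := by
  unfold HM.tdet
  ring

lemma mul_pw_sq (b c d p q : R) (w : Fin 3 → R) : ∃ k : R[X],
    (C p + C q * X) * pw w ^ 2 = F b c d * k + (C (qT b c d p q (w 0) (w 1) (w 2)) * X ^ 2 +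
      C (qQ b c d p q (w 0) (w 1) (w 2)) * X + C (qP b c d p q (w 0) (w 1) (w 2))) := by
  refine ⟨C (q * w 2 ^ 2) * X ^ 2 + C (p * w 2 ^ 2 + 2 * q * w 1 * w 2 - b * (q * w 2 ^ 2)) * X +
    C (2 * p * w 1 * w 2 + q * (w 1 ^ 2 + 2 * w 0 * w 2) -
      b * (p * w 2 ^ 2 + 2 * q * w 1 * w 2 - b * (q * w 2 ^ 2)) - c * (q * w 2 ^ 2)), ?_⟩
  simp only [F, pw, qT, qQ, qP, HM.tf, map_add, map_mul, map_sub, map_pow, map_neg, map_zero,
    map_ofNat]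
  ring

lemma qQ_smul (b c d p q x y z m : R) :
    qQ b c d p q (m * x) (m * y) (m * z) = m ^ 2 * qQ b c d p q x y z := by
  unfold qQ; ring

lemma qP_smul (b c d p q x y z m : R) :
    qP b c d p q (m * x) (m * y) (m * z) = m ^ 2 * qP b c d p q x y z := by
  unfold qP; ring

lemma natDegree_F [Nontrivial R] (b c d : R) : (F b c d).natDegree = 3 := by
  unfold F
  compute_degree!

lemma monic_F (b c d : R) : (F b c d).Monic := by
  nontriviality R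
  unfold F
  monicity!

lemma coeff_eq_zero_of_dvd [Nontrivial R] {b c d e f g : R}
    (h : F b c d ∣ C e * X ^ 2 + C f * X + C g) : e = 0 ∧ f = 0 ∧ g = 0 := by
  have hdeg : (C e * X ^ 2 + C f * X + C g : R[X]).natDegree < (F b c d).natDegree := by
    rw [natDegree_F]
    have : (C e * X ^ 2 + C f * X + C g : R[X]).natDegree ≤ 2 := by compute_degree
    omega
  have h0 : C e * X ^ 2 + C f * X + C g = 0 := by
    by_contra hne
    exact (monic_F b c d).not_dvd_of_natDegree_lt hne hdeg h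
  refine ⟨?_, ?_, ?_⟩
  · have := congrArg (fun P => coeff P 2) h0
    simpa [coeff_X, coeff_C] using this
  · have := congrArg (fun P => coeff P 1) h0
    simpa [coeff_X, coeff_C] using this
  · have := congrArg (fun P => coeff P 0) h0
    simpa [coeff_X, coeff_C] using this

lemma exists_pw [Nontrivial R] (b c d : R) (s : R[X]) :
    ∃ (w : Fin 3 → R) (k : R[X]), s = F b c d * k + pw w := by
  refine ⟨fun i => (s %ₘ F b c d).coeff i, s /ₘ F b c d, ?_⟩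
  have h1 : (s %ₘ F b c d).natDegree < 3 := by
    rw [← natDegree_F b c d]
    apply natDegree_modByMonic_lt _ (monic_F b c d)
    intro h
    have := natDegree_F b c d
    rw [h, natDegree_one] at this
    omega
  have h2 : pw (fun i : Fin 3 => (s %ₘ F b c d).coeff i) = s %ₘ F b c d := by
    conv_rhs => rw [(s %ₘ F b c d).as_sum_range_C_mul_X_pow' h1]
    simp [pw, Finset.sum_range_succ]
  rw [h2, add_comm]
  exact (modByMonic_add_div s (F b c d)).symm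

end coeffs

section localS

variable {p : ℕ} [hp : Fact p.Prime]

/-- The local condition in coordinates. -/
lemma exists_local_vector {b c d p₀ q₀ : ℤ} {K : Type*} [Field K] [Algebra ℚ K]
    (h : WLoc b c d (C (p₀ : ℚ) + C (q₀ : ℚ) * X) K) :
    ∃ (ξ y x₀ x₁ x₂ : K), y ≠ 0 ∧ y ^ 2 = ξ ^ 3 + b * ξ ^ 2 + c * ξ + d ∧
      qT (b : K) c d p₀ q₀ x₀ x₁ x₂ = 0 ∧ qQ (b : K) c d p₀ q₀ x₀ x₁ x₂ = -1 ∧
      qP (b : K) c d p₀ q₀ x₀ x₁ x₂ = ξ := by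
  obtain ⟨ξ, y, s, hy, h1, h2⟩ := h
  obtain ⟨w, k, hs⟩ := exists_pw (b : K) c d s
  obtain ⟨k', hk'⟩ := mul_pw_sq (b : K) c d p₀ q₀ w
  have h3 : FZ K b c d ∣ C (qT (b : K) c d p₀ q₀ (w 0) (w 1) (w 2)) * X ^ 2 +
      C (qQ (b : K) c d p₀ q₀ (w 0) (w 1) (w 2) + 1) * X +
      C (qP (b : K) c d p₀ q₀ (w 0) (w 1) (w 2) - ξ) := by
    obtain ⟨k'', hk''⟩ := h2
    have h4 : (C (p₀ : ℚ) + C (q₀ : ℚ) * X).map (algebraMap ℚ K) =
        C (p₀ : K) + C (q₀ : K) * X := by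
      simp
    rw [h4, hs] at hk''
    refine ⟨-k'' - k' - (C (p₀ : K) + C (q₀ : K) * X) * (k * (F (b : K) c d * k) + 2 * k * pw w),
      ?_⟩
    simp only [map_add, map_sub, map_one]
    linear_combination -hk' - hk''
  obtain ⟨h4, h5, h6⟩ := coeff_eq_zero_of_dvd h3
  refine ⟨ξ, y, w 0, w 1, w 2, hy, ?_, h4, by linear_combination h5, by linear_combination h6⟩
  rw [h1]
  simp [F]

/-- The quartic forms. -/
def fP {R : Type*} [CommRing R] (b c d p q s t : R) : R :=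
  qP b c d p q (-((p - b * q) * s ^ 2 + ((b ^ 2 - c) * p + (2 * b * c - b ^ 3 - d) * q) * t ^ 2 +
    2 * (-(b * p) + (b ^ 2 - c) * q) * s * t)) (2 * (q * s + (p - b * q) * t) * s)
    (2 * (q * s + (p - b * q) * t) * t)

def fQ {R : Type*} [CommRing R] (b c d p q s t : R) : R :=
  qQ b c d p q (-((p - b * q) * s ^ 2 + ((b ^ 2 - c) * p + (2 * b * c - b ^ 3 - d) * q) * t ^ 2 +
    2 * (-(b * p) + (b ^ 2 - c) * q) * s * t)) (2 * (q * s + (p - b * q) * t) * s)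
    (2 * (q * s + (p - b * q) * t) * t)

/-- Near a suitable local parameter the quartic forms have even valuation. -/
lemma local_par {b c d p₀ q₀ : ℤ}
    (hN : p₀ ^ 3 - b * p₀ ^ 2 * q₀ + c * p₀ * q₀ ^ 2 - d * q₀ ^ 3 ≠ 0)
    (h : WLoc b c d (C (p₀ : ℚ) + C (q₀ : ℚ) * X) ℚ_[p]) :
    ∃ (s t : ℚ_[p]) (ε : ℝ), 0 < ε ∧ ∀ s' t' : ℚ_[p], ‖s' - s‖ ≤ ε → ‖t' - t‖ ≤ ε →
      ∃ m : ℚ_[p], m ≠ 0 ∧
        max ‖fP (b : ℚ_[p]) c d p₀ q₀ s' t'‖ ‖fQ (b : ℚ_[p]) c d p₀ q₀ s' t'‖ = ‖m‖ ^ 2 := by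
  obtain ⟨ξ, y, x₀, x₁, x₂, hy, h1, h2, h3, h4⟩ := exists_local_vector h
  have hne : x₀ ≠ 0 ∨ x₁ ≠ 0 ∨ x₂ ≠ 0 := by
    by_contra hcon
    push Not at hcon
    obtain ⟨rfl, rfl, rfl⟩ := hcon
    unfold qQ at h3
    have : (1 : ℚ_[p]) = 0 := by linear_combination h3
    exact one_ne_zero this
  obtain ⟨s, t, m, hm, e1, e2, e3⟩ := HM.par_surj (by
    rw [qdet]
    exact_mod_cast neg_ne_zero.2 hN) (two_ne_zero) hne h2
  have eP : fP (b : ℚ_[p]) c d p₀ q₀ s t = m ^ 2 * ξ := by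
    rw [← h4, ← qP_smul, ← e1, ← e2, ← e3]
    rfl
  have eQ : fQ (b : ℚ_[p]) c d p₀ q₀ s t = m ^ 2 * (-1) := by
    rw [← h3, ← qQ_smul, ← e1, ← e2, ← e3]
    rfl
  obtain ⟨m', hm', hmax⟩ : ∃ m' : ℚ_[p], m' ≠ 0 ∧ max ‖m ^ 2 * ξ‖ ‖m ^ 2 * (-1)‖ = ‖m'‖ ^ 2 := by
    by_cases hξ : ‖ξ‖ ≤ 1
    · refine ⟨m, hm, ?_⟩
      rw [norm_mul, norm_mul, norm_neg, norm_one, norm_pow, mul_one]
      exact max_eq_right (mul_le_of_le_one_right (by positivity) hξ)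
    · push Not at hξ
      have hξ0 : ξ ≠ 0 := by
        rintro rfl
        rw [norm_zero] at hξ
        linarith
      refine ⟨m * (y / ξ), mul_ne_zero hm (div_ne_zero hy hξ0), ?_⟩
      have h5 : ‖y‖ ^ 2 = ‖ξ‖ ^ 3 := by
        rw [← norm_pow, h1, ← norm_pow]
        have h6 : ‖(b : ℚ_[p]) * ξ ^ 2 + c * ξ + d‖ < ‖ξ ^ 3‖ := by
          have hb : ‖(b : ℚ_[p])‖ ≤ 1 := Padic.norm_int_le_one b
          have hc : ‖(c : ℚ_[p])‖ ≤ 1 := Padic.norm_int_le_one c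
          have hd : ‖(d : ℚ_[p])‖ ≤ 1 := Padic.norm_int_le_one d
          have h7 : ‖(b : ℚ_[p]) * ξ ^ 2‖ < ‖ξ‖ ^ 3 := by
            rw [norm_mul, norm_pow]
            have : ‖ξ‖ ^ 2 < ‖ξ‖ ^ 3 := pow_lt_pow_right₀ hξ (by norm_num)
            have := mul_le_mul_of_nonneg_right hb (sq_nonneg ‖ξ‖)
            linarith
          have h8 : ‖(c : ℚ_[p]) * ξ‖ < ‖ξ‖ ^ 3 := by
            rw [norm_mul]
            have : ‖ξ‖ ^ 1 < ‖ξ‖ ^ 3 := pow_lt_pow_right₀ hξ (by norm_num)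
            have := mul_le_mul_of_nonneg_right hc (norm_nonneg ξ)
            rw [pow_one] at *
            linarith
          have h9 : ‖(d : ℚ_[p])‖ < ‖ξ‖ ^ 3 := by
            have : (1 : ℝ) < ‖ξ‖ ^ 3 := one_lt_pow₀ hξ (by norm_num)
            linarith
          rw [norm_pow]
          refine (Padic.nonarchimedean _ _).trans_lt (max_lt ?_ h9)
          exact (Padic.nonarchimedean _ _).trans_lt (max_lt h7 h8)
        have h7 : ξ ^ 3 + (b : ℚ_[p]) * ξ ^ 2 + c * ξ + d =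
            ξ ^ 3 + ((b : ℚ_[p]) * ξ ^ 2 + c * ξ + d) := by ring
        rw [h7, Padic.add_eq_max_of_ne h6.ne']
        exact max_eq_left h6.le
      rw [norm_mul, norm_mul, norm_neg, norm_one, norm_pow, mul_one, norm_mul, norm_div,
        mul_pow, div_pow, h5]
      have h6 : 0 < ‖ξ‖ := by linarith
      rw [max_eq_left (le_mul_of_one_le_right (by positivity) hξ.le)]
      field_simp
  set R : ℝ := ‖m'‖ ^ 2 with hR
  have hRpos : 0 < R := by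
    have := norm_pos_iff.2 hm'
    positivity
  have hcP : Continuous fun v : ℚ_[p] × ℚ_[p] => fP (b : ℚ_[p]) c d p₀ q₀ v.1 v.2 := by
    unfold fP qP
    fun_prop
  have hcQ : Continuous fun v : ℚ_[p] × ℚ_[p] => fQ (b : ℚ_[p]) c d p₀ q₀ v.1 v.2 := by
    unfold fQ qQ
    fun_prop
  obtain ⟨ε₁, hε₁, hP⟩ := Metric.continuous_iff.1 hcP (s, t) R hRpos
  obtain ⟨ε₂, hε₂, hQ⟩ := Metric.continuous_iff.1 hcQ (s, t) R hRpos
  refine ⟨s, t, min ε₁ ε₂ / 2, by positivity, fun s' t' hs' ht' => ⟨m', hm', ?_⟩⟩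
  have hdist : dist (s', t') (s, t) < min ε₁ ε₂ := by
    rw [Prod.dist_eq, dist_eq_norm, dist_eq_norm]
    have : 0 < min ε₁ ε₂ := lt_min hε₁ hε₂
    apply max_lt <;> simp only <;> linarith
  have hP' := hP (s', t') (hdist.trans_le (min_le_left _ _))
  have hQ' := hQ (s', t') (hdist.trans_le (min_le_right _ _))
  rw [dist_eq_norm] at hP' hQ'
  simp only at hP' hQ'
  rw [eP] at hP'
  rw [eQ] at hQ'
  set P' := fP (b : ℚ_[p]) c d p₀ q₀ s' t' with hP'd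
  set Q' := fQ (b : ℚ_[p]) c d p₀ q₀ s' t' with hQ'd
  -- nonarchimedean comparison
  have key : ∀ a v : ℚ_[p], ‖a - v‖ < R → ‖v‖ ≤ R → ‖a‖ ≤ R ∧ (‖v‖ = R → ‖a‖ = R) := by
    intro a v h1 h2
    have h3 : a = (a - v) + v := by ring
    constructor
    · rw [h3]
      exact (Padic.nonarchimedean _ _).trans (max_le h1.le h2)
    · intro h4
      rw [h3, Padic.add_eq_max_of_ne (by rw [h4]; exact h1.ne), h4]
      exact max_eq_right h1.le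
  have hvP : ‖m ^ 2 * ξ‖ ≤ R := by rw [← hmax]; exact le_max_left _ _
  have hvQ : ‖m ^ 2 * (-1)‖ ≤ R := by rw [← hmax]; exact le_max_right _ _
  obtain ⟨a1, a2⟩ := key P' _ hP' hvP
  obtain ⟨b1, b2⟩ := key Q' _ hQ' hvQ
  rcases max_choice ‖m ^ 2 * ξ‖ ‖m ^ 2 * (-1)‖ with h5 | h5
  · rw [a2 (by rw [← h5]; exact hmax)]
    exact max_eq_left b1
  · rw [b2 (by rw [← h5]; exact hmax)]
    exact max_eq_right a1

end localS

/-- **Approximation at finitely many primes.** -/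
theorem exists_approx {b c d p₀ q₀ : ℤ}
    (hN : p₀ ^ 3 - b * p₀ ^ 2 * q₀ + c * p₀ * q₀ ^ 2 - d * q₀ ^ 3 ≠ 0)
    (hloc : ∀ (p : ℕ) [Fact p.Prime], WLoc b c d (C (p₀ : ℚ) + C (q₀ : ℚ) * X) ℚ_[p])
    (S : Finset ℕ) :
    ∃ (w : Fin 3 → ℚ) (P Q : ℚ), (P ≠ 0 ∨ Q ≠ 0) ∧
      FZ ℚ b c d ∣ (C (p₀ : ℚ) + C (q₀ : ℚ) * X) * pw w ^ 2 - (C P + C Q * X) ∧
      ∀ (p : ℕ) [Fact p.Prime], p ∈ S →
        ∃ m : ℚ_[p], m ≠ 0 ∧ max ‖(P : ℚ_[p])‖ ‖(Q : ℚ_[p])‖ = ‖m‖ ^ 2 := by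
  classical
  have h1 : ∀ (p : ℕ) [Fact p.Prime], ∃ (s t : ℚ_[p]) (ε : ℝ), 0 < ε ∧ ∀ s' t' : ℚ_[p],
      ‖s' - s‖ ≤ ε → ‖t' - t‖ ≤ ε → ∃ m : ℚ_[p], m ≠ 0 ∧
        max ‖fP (b : ℚ_[p]) c d p₀ q₀ s' t'‖ ‖fQ (b : ℚ_[p]) c d p₀ q₀ s' t'‖ = ‖m‖ ^ 2 :=
    fun p _ => local_par hN (hloc p)
  choose s t ε hε h2 using h1
  set T : Finset ℕ := insert 2 S with hT
  obtain ⟨η, hη, hηε⟩ : ∃ η : ℝ, 0 < η ∧ ∀ (p : ℕ) [Fact p.Prime], p ∈ T → η ≤ ε p := by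
    have h3 : ∀ p : ℕ, ∃ η : ℝ, 0 < η ∧ ∀ _ : Fact p.Prime, η ≤ ε p := by
      intro p
      by_cases hp : p.Prime
      · have : Fact p.Prime := ⟨hp⟩
        exact ⟨ε p, hε p, fun _ => le_rfl⟩
      · exact ⟨1, one_pos, fun h => absurd h.out hp⟩
    choose η hη h4 using h3
    refine ⟨T.inf' ⟨2, Finset.mem_insert_self _ _⟩ η, ?_, fun p hp hpT => ?_⟩
    · rw [Finset.lt_inf'_iff]
      exact fun p _ => hη p
    · exact (Finset.inf'_le _ hpT).trans (h4 p hp)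
  obtain ⟨s', hs'⟩ := HM.weak_approx T s hη
  obtain ⟨t', ht'⟩ := HM.weak_approx T t hη
  have hcP : ∀ (p : ℕ) [Fact p.Prime], ((fP (b : ℚ) c d p₀ q₀ s' t' : ℚ) : ℚ_[p]) =
      fP (b : ℚ_[p]) c d p₀ q₀ s' t' := by
    intro p _
    unfold fP qP
    push_cast
    rfl
  have hcQ : ∀ (p : ℕ) [Fact p.Prime], ((fQ (b : ℚ) c d p₀ q₀ s' t' : ℚ) : ℚ_[p]) =
      fQ (b : ℚ_[p]) c d p₀ q₀ s' t' := by
    intro p _
    unfold fQ qQ
    push_cast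
    rfl
  have hmain : ∀ (p : ℕ) [Fact p.Prime], p ∈ T → ∃ m : ℚ_[p], m ≠ 0 ∧
      max ‖((fP (b : ℚ) c d p₀ q₀ s' t' : ℚ) : ℚ_[p])‖
        ‖((fQ (b : ℚ) c d p₀ q₀ s' t' : ℚ) : ℚ_[p])‖ = ‖m‖ ^ 2 := by
    intro p hp hpT
    rw [hcP, hcQ]
    exact h2 p s' t' ((hs' p hpT).trans (hηε p hpT)) ((ht' p hpT).trans (hηε p hpT))
  refine ⟨![-((p₀ - b * q₀) * s' ^ 2 + ((b ^ 2 - c) * p₀ +
      (2 * b * c - b ^ 3 - d) * q₀) * t' ^ 2 + 2 * (-(b * p₀) + (b ^ 2 - c) * q₀) * s' * t'),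
      2 * (q₀ * s' + (p₀ - b * q₀) * t') * s', 2 * (q₀ * s' + (p₀ - b * q₀) * t') * t'],
    fP (b : ℚ) c d p₀ q₀ s' t', fQ (b : ℚ) c d p₀ q₀ s' t', ?_, ?_, ?_⟩
  · by_contra hcon
    push Not at hcon
    have : Fact (Nat.Prime 2) := ⟨Nat.prime_two⟩
    obtain ⟨m, hm, h3⟩ := hmain 2 (Finset.mem_insert_self _ _)
    rw [hcon.1, hcon.2, Rat.cast_zero, norm_zero, max_self] at h3
    exact hm (norm_eq_zero.1 (pow_eq_zero_iff two_ne_zero |>.1 h3.symm))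
  · obtain ⟨k, hk⟩ := mul_pw_sq (b : ℚ) c d p₀ q₀
      ![-((p₀ - b * q₀) * s' ^ 2 + ((b ^ 2 - c) * p₀ +
      (2 * b * c - b ^ 3 - d) * q₀) * t' ^ 2 + 2 * (-(b * p₀) + (b ^ 2 - c) * q₀) * s' * t'),
      2 * (q₀ * s' + (p₀ - b * q₀) * t') * s', 2 * (q₀ * s' + (p₀ - b * q₀) * t') * t']
    rw [hk]
    refine ⟨k, ?_⟩
    simp only [Matrix.cons_val_zero, Matrix.cons_val_one, Matrix.cons_val]
    have h3 := HM.tf_par ((p₀ : ℚ) - b * q₀) (((b : ℚ) ^ 2 - c) * p₀ +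
      (2 * b * c - b ^ 3 - d) * q₀) (-(b * p₀) + (b ^ 2 - c) * q₀) (p₀ - b * q₀) q₀ s' t'
    unfold HM.par at h3
    simp only at h3
    unfold qT fP fQ
    rw [h3, C_0]
    ring
  · intro p hp hpS
    exact hmain p (Finset.mem_insert_of_mem hpS)

end Stoll308.BE
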