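import Pool.Agent.Work.MP_308fa9_nt.BE.Basic

set_option autoImplicit false

/-!
The number of bad residue classes modulo `l²`.
-/

namespace Stoll308.BE

open Polynomial Finset

namespace BadCount

/-- Reduction from `ZMod (l ^ 2)` to `ZMod l`. -/
noncomputable def red (l : ℕ) : ZMod (l ^ 2) →+* ZMod l :=
  ZMod.castHom (dvd_pow_self l two_ne_zero) (ZMod l)

lemma cast_eq_of {l : ℕ} {t t' : Fin 6 → ℤ} (h : ∀ i, ((l ^ 2 : ℕ) : ℤ) ∣ t i - t' i) :
    (fun i => ((t i : ℤ) : ZMod (l ^ 2))) = fun i => ((t' i : ℤ) : ZMod (l ^ 2)) := by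
  funext i
  have := (ZMod.intCast_zmod_eq_zero_iff_dvd (t i - t' i) (l ^ 2)).2 (h i)
  rw [Int.cast_sub, sub_eq_zero] at this
  exact this

lemma cast_tp {S : Type*} [CommRing S] (t : Fin 6 → ℤ) :
    ((tp t : ℤ) : S) = tp (fun i => ((t i : ℤ) : S)) := (tp_map (Int.castRingHom S) t).symm

lemma cast_tc {S : Type*} [CommRing S] (t : Fin 6 → ℤ) :
    ((tc t : ℤ) : S) = tc (fun i => ((t i : ℤ) : S)) := (tc_map (Int.castRingHom S) t).symm

lemma cast_td {S : Type*} [CommRing S] (t : Fin 6 → ℤ) :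
    ((td t : ℤ) : S) = td (fun i => ((t i : ℤ) : S)) := (td_map (Int.castRingHom S) t).symm

/-- The same condition in `ZMod (l ^ 2)`. -/
def BadR (κ : ℤ) (l : ℕ) (t : Fin 6 → ZMod (l ^ 2)) : Prop :=
  red l (td t) = 0 ∧ td t ≠ 0 ∧ red l (tc t) ≠ 0 ∧
    ∃ _h : Fact l.Prime, quadraticChar (ZMod l) ((κ : ZMod l) * red l (tp t)) = -1

lemma bad_iff (κ : ℤ) (l : ℕ) (t : Fin 6 → ℤ) :
    Bad κ l t ↔ BadR κ l (fun i => (t i : ZMod (l ^ 2))) := by
  unfold Bad BadR
  rw [← cast_td, ← cast_tc, ← cast_tp, map_intCast, map_intCast, map_intCast]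
  rw [ZMod.intCast_zmod_eq_zero_iff_dvd, Ne, ZMod.intCast_zmod_eq_zero_iff_dvd, Ne,
    ZMod.intCast_zmod_eq_zero_iff_dvd]
  simp only [legendreSym]
  push_cast
  rfl

end BadCount

open BadCount

lemma bad_congr (κ : ℤ) (l : ℕ) (t t' : Fin 6 → ℤ) (h : ∀ i, ((l ^ 2 : ℕ) : ℤ) ∣ t i - t' i) :
    Bad κ l t ↔ Bad κ l t' := by
  rw [bad_iff, bad_iff, cast_eq_of h]

namespace BadCount

variable {l : ℕ} [hl : Fact l.Prime]

instance : NeZero (l ^ 2) := ⟨pow_ne_zero 2 hl.out.ne_zero⟩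

omit hl in
lemma red_surj : Function.Surjective (red l) := fun x => ZMod.castHom_surjective _ x

lemma card_fiber (c : ZMod l) : (univ.filter fun x : ZMod (l ^ 2) => red l x = c).card = l := by
  have h1 : ∀ c' : ZMod l, (univ.filter fun x : ZMod (l ^ 2) => red l x = c').card
      = (univ.filter fun x : ZMod (l ^ 2) => red l x = c).card := by
    intro c'
    obtain ⟨y, hy⟩ := red_surj (l := l) (c' - c)
    refine Finset.card_bij' (fun x _ => x - y) (fun x _ => x + y) ?_ ?_ ?_ ?_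
    · intro x hx
      simp only [mem_filter, mem_univ, true_and] at hx ⊢
      rw [map_sub, hx, hy]; ring
    · intro x hx
      simp only [mem_filter, mem_univ, true_and] at hx ⊢
      rw [map_add, hx, hy]; ring
    · intro x _; ring
    · intro x _; ring
  have h2 : (univ : Finset (ZMod (l ^ 2))).card
      = ∑ c' : ZMod l, (univ.filter fun x : ZMod (l ^ 2) => red l x = c').card :=
    Finset.card_eq_sum_card_fiberwise (fun x _ => mem_univ _)
  rw [Finset.sum_congr rfl (fun c' _ => h1 c'), Finset.sum_const, Finset.card_univ,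
    Finset.card_univ, ZMod.card, ZMod.card, smul_eq_mul] at h2
  have h3 : l * l = l * (univ.filter fun x : ZMod (l ^ 2) => red l x = c).card := by
    rw [← h2, pow_two]
  exact (Nat.eq_of_mul_eq_mul_left hl.out.pos h3).symm

lemma card_pre (P : ZMod l → Prop) [DecidablePred P] :
    (univ.filter fun x : ZMod (l ^ 2) => P (red l x)).card
      = (univ.filter P).card * l := by
  classical
  have h := Finset.card_eq_sum_card_fiberwise (f := red l)
    (s := univ.filter fun x : ZMod (l ^ 2) => P (red l x)) (t := univ.filter P)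
    (fun x hx => by
      simp only [coe_filter, mem_univ, true_and, Set.mem_ofPred_eq] at hx ⊢
      exact hx)
  rw [h, Finset.sum_congr rfl (g := fun _ => l), Finset.sum_const, smul_eq_mul]
  intro c hc
  refine Eq.trans ?_ (card_fiber c)
  congr 1
  ext x
  simp only [mem_filter, mem_univ, true_and] at hc ⊢
  constructor
  · rintro ⟨_, h⟩; exact h
  · intro h; exact ⟨h ▸ hc, h⟩

lemma isUnit_of_red {x : ZMod (l ^ 2)} (hx : red l x ≠ 0) : IsUnit x := by
  have h1 : x = ((x.val : ℕ) : ZMod (l ^ 2)) := (ZMod.natCast_zmod_val x).symm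
  rw [h1, ZMod.isUnit_iff_coprime]
  apply Nat.Coprime.pow_right
  rw [Nat.coprime_comm, Nat.Prime.coprime_iff_not_dvd hl.out]
  intro h
  apply hx
  rw [h1, map_natCast]
  exact (ZMod.natCast_eq_zero_iff _ _).2 h

lemma card_unit : (univ.filter fun x : ZMod (l ^ 2) => red l x ≠ 0).card = (l - 1) * l := by
  rw [card_pre (fun y => y ≠ 0)]
  congr 1
  rw [Finset.filter_ne', Finset.card_erase_of_mem (mem_univ _), Finset.card_univ, ZMod.card]

lemma card_ker : (univ.filter fun x : ZMod (l ^ 2) => red l x = 0 ∧ x ≠ 0).card = l - 1 := by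
  have h : (univ.filter fun x : ZMod (l ^ 2) => red l x = 0 ∧ x ≠ 0)
      = (univ.filter fun x : ZMod (l ^ 2) => red l x = 0).erase 0 := by
    ext x
    simp only [mem_filter, mem_univ, true_and, mem_erase]
    tauto
  rw [h, Finset.card_erase_of_mem (by simp), card_fiber]

lemma card_nonres (h2 : l ≠ 2) {κ : ZMod l} (hκ : κ ≠ 0) :
    l - 1 ≤ 2 * (univ.filter fun y : ZMod l => quadraticChar (ZMod l) (κ * y) = -1).card := by
  obtain ⟨a, ha⟩ : ∃ a : ZMod l, quadraticChar (ZMod l) a = -1 := by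
    obtain ⟨a, ha⟩ := FiniteField.exists_nonsquare (F := ZMod l) (by rwa [ZMod.ringChar_zmod_n])
    exact ⟨a, quadraticChar_neg_one_iff_not_isSquare.2 ha⟩
  have ha0 : a ≠ 0 := by
    rintro rfl
    simp at ha
  have h1 : (univ.filter fun y : ZMod l => y ≠ 0).card = l - 1 := by
    rw [Finset.filter_ne', Finset.card_erase_of_mem (mem_univ _), Finset.card_univ, ZMod.card]
  have h3 : (univ.filter fun y : ZMod l => quadraticChar (ZMod l) (κ * y) = 1).card
      ≤ (univ.filter fun y : ZMod l => quadraticChar (ZMod l) (κ * y) = -1).card := by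
    refine Finset.card_le_card_of_injOn (fun y => a * y) ?_ ?_
    · intro y hy
      simp only [coe_filter, mem_univ, true_and, Set.mem_ofPred_eq] at hy ⊢
      rw [mul_left_comm, map_mul, ha, hy]; norm_num
    · intro x _ y _ hxy
      exact mul_left_cancel₀ ha0 hxy
  have h4 : (univ.filter fun y : ZMod l => y ≠ 0) ⊆
      (univ.filter fun y : ZMod l => quadraticChar (ZMod l) (κ * y) = 1) ∪
      (univ.filter fun y : ZMod l => quadraticChar (ZMod l) (κ * y) = -1) := by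
    intro y hy
    simp only [mem_filter, mem_univ, true_and, mem_union] at hy ⊢
    exact quadraticChar_dichotomy (mul_ne_zero hκ hy)
  have h5 := Finset.card_le_card h4
  have h6 := Finset.card_union_le
    (univ.filter fun y : ZMod l => quadraticChar (ZMod l) (κ * y) = 1)
    (univ.filter fun y : ZMod l => quadraticChar (ZMod l) (κ * y) = -1)
  omega

lemma card_quad {a b c : ZMod l} (ha : a ≠ 0) :
    l - 2 ≤ (univ.filter fun y : ZMod l => a * y ^ 2 + b * y + c ≠ 0).card := by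
  have h1 : (univ.filter fun y : ZMod l => a * y ^ 2 + b * y + c = 0).card ≤ 2 := by
    by_contra hcon
    rw [not_le] at hcon
    obtain ⟨x, hx, y, hy, z, hz, hxy, hxz, hyz⟩ := Finset.two_lt_card.1 hcon
    simp only [mem_filter, mem_univ, true_and] at hx hy hz
    have e1 : a * (x + y) + b = 0 := by
      apply mul_left_cancel₀ (sub_ne_zero.2 hxy)
      linear_combination hx - hy
    have e2 : a * (x + z) + b = 0 := by
      apply mul_left_cancel₀ (sub_ne_zero.2 hxz)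
      linear_combination hx - hz
    have e3 : a * (y - z) = 0 := by linear_combination e1 - e2
    rcases mul_eq_zero.1 e3 with h | h
    · exact ha h
    · exact hyz (sub_eq_zero.1 h)
  have h2 := Finset.card_filter_add_card_filter_not
    (s := (univ : Finset (ZMod l))) (fun y => a * y ^ 2 + b * y + c = 0)
  rw [Finset.card_univ, ZMod.card] at h2
  simp only [Ne]
  omega

/-- The base of the parametrisation: `(q, m, u, p, D)`. -/
noncomputable def base (κ : ℤ) (l : ℕ) [Fact l.Prime] :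
    Finset (ZMod (l ^ 2) × ZMod (l ^ 2) × ZMod (l ^ 2) × ZMod (l ^ 2) × ZMod (l ^ 2)) :=
  (univ.filter fun x => red l x ≠ 0) ×ˢ univ ×ˢ univ ×ˢ
    (univ.filter fun x => quadraticChar (ZMod l) ((κ : ZMod l) * red l x) = -1) ×ˢ
    (univ.filter fun x => red l x = 0 ∧ x ≠ 0)

/-- The value of `v`. -/
noncomputable def pv (b : ZMod (l ^ 2) × ZMod (l ^ 2) × ZMod (l ^ 2) × ZMod (l ^ 2) ×
    ZMod (l ^ 2)) : ZMod (l ^ 2) := b.2.2.1 - b.1⁻¹ * (b.2.1 ^ 2 - b.2.2.2.1)

/-- The good values of `h`. -/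
noncomputable def goodH (b : ZMod (l ^ 2) × ZMod (l ^ 2) × ZMod (l ^ 2) × ZMod (l ^ 2) ×
    ZMod (l ^ 2)) : Finset (ZMod (l ^ 2)) :=
  univ.filter fun h => red l b.1 ^ 2 * red l h ^ 2 +
    red l (2 * b.2.1 * b.2.2.1 * b.1 - 2 * b.2.1 * b.2.2.2.1) * red l h +
    red l (b.2.2.2.1 * (2 * b.2.2.1 * pv b - b.2.2.1 ^ 2) + b.1 * b.2.2.1 ^ 2 * (b.2.2.1 - pv b))
      ≠ 0

/-- The tuple. -/
noncomputable def tup (b : ZMod (l ^ 2) × ZMod (l ^ 2) × ZMod (l ^ 2) × ZMod (l ^ 2) ×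
    ZMod (l ^ 2)) (h : ZMod (l ^ 2)) : Fin 6 → ZMod (l ^ 2) :=
  ![b.1, b.2.1, b.2.2.1, pv b, h, -(b.2.2.2.1⁻¹ * (b.2.2.2.2 + b.1 * h ^ 2 +
    2 * b.2.1 * b.2.2.1 * h + b.2.2.1 ^ 2 * (b.2.2.1 - pv b)))]

lemma mem_base {κ : ℤ} {b : ZMod (l ^ 2) × ZMod (l ^ 2) × ZMod (l ^ 2) × ZMod (l ^ 2) ×
    ZMod (l ^ 2)} (hb : b ∈ base κ l) :
    red l b.1 ≠ 0 ∧ quadraticChar (ZMod l) ((κ : ZMod l) * red l b.2.2.2.1) = -1 ∧
      red l b.2.2.2.2 = 0 ∧ b.2.2.2.2 ≠ 0 ∧ red l b.2.2.2.1 ≠ 0 := by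
  simp only [base, mem_product, mem_filter, mem_univ, true_and] at hb
  obtain ⟨h1, h2, h3, h4⟩ := hb
  refine ⟨h1, h2, h3, h4, ?_⟩
  intro h
  rw [h] at h2
  simp at h2

lemma tp_tup {κ : ℤ} {b : ZMod (l ^ 2) × ZMod (l ^ 2) × ZMod (l ^ 2) × ZMod (l ^ 2) ×
    ZMod (l ^ 2)} (hb : b ∈ base κ l) (h : ZMod (l ^ 2)) : tp (tup b h) = b.2.2.2.1 := by
  have hq := ZMod.mul_inv_of_unit _ (isUnit_of_red (mem_base hb).1)
  simp only [tp, tup, Matrix.cons_val, pv]
  linear_combination (b.2.2.2.1 - b.2.1 ^ 2) * hq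

lemma td_tup {κ : ℤ} {b : ZMod (l ^ 2) × ZMod (l ^ 2) × ZMod (l ^ 2) × ZMod (l ^ 2) ×
    ZMod (l ^ 2)} (hb : b ∈ base κ l) (h : ZMod (l ^ 2)) : td (tup b h) = b.2.2.2.2 := by
  have hp := ZMod.mul_inv_of_unit _ (isUnit_of_red (mem_base hb).2.2.2.2)
  rw [td, tp_tup hb]
  simp only [tup, Matrix.cons_val]
  linear_combination (b.2.2.2.2 + b.1 * h ^ 2 +
    2 * b.2.1 * b.2.2.1 * h + b.2.2.1 ^ 2 * (b.2.2.1 - pv b)) * hp

lemma tc_tup {κ : ℤ} {b : ZMod (l ^ 2) × ZMod (l ^ 2) × ZMod (l ^ 2) × ZMod (l ^ 2) ×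
    ZMod (l ^ 2)} (hb : b ∈ base κ l) {h : ZMod (l ^ 2)} (hh : h ∈ goodH b) :
    red l (tc (tup b h)) ≠ 0 := by
  have hp := ZMod.mul_inv_of_unit _ (isUnit_of_red (mem_base hb).2.2.2.2)
  simp only [goodH, mem_filter, mem_univ, true_and] at hh
  intro h0
  apply hh
  have e : b.2.2.2.1 * tc (tup b h) = b.1 ^ 2 * h ^ 2 +
      (2 * b.2.1 * b.2.2.1 * b.1 - 2 * b.2.1 * b.2.2.2.1) * h +
      (b.2.2.2.1 * (2 * b.2.2.1 * pv b - b.2.2.1 ^ 2) + b.1 * b.2.2.1 ^ 2 * (b.2.2.1 - pv b))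
      + b.1 * b.2.2.2.2 := by
    simp only [tc, tup, Matrix.cons_val]
    linear_combination b.1 * (b.2.2.2.2 + b.1 * h ^ 2 +
      2 * b.2.1 * b.2.2.1 * h + b.2.2.1 ^ 2 * (b.2.2.1 - pv b)) * hp
  have e2 := congrArg (red l) e
  rw [map_mul, h0, mul_zero, map_add, map_add, map_add, map_mul, map_mul, map_mul, map_pow,
    map_pow] at e2
  rw [(mem_base hb).2.2.1, mul_zero, add_zero] at e2
  exact e2.symm

lemma badR_tup {κ : ℤ} {b : ZMod (l ^ 2) × ZMod (l ^ 2) × ZMod (l ^ 2) × ZMod (l ^ 2) ×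
    ZMod (l ^ 2)} (hb : b ∈ base κ l) {h : ZMod (l ^ 2)} (hh : h ∈ goodH b) :
    BadR κ l (tup b h) := by
  refine ⟨?_, ?_, tc_tup hb hh, hl, ?_⟩
  · rw [td_tup hb]; exact (mem_base hb).2.2.1
  · rw [td_tup hb]; exact (mem_base hb).2.2.2.1
  · rw [tp_tup hb]; exact (mem_base hb).2.1

lemma card_goodH {κ : ℤ} {b : ZMod (l ^ 2) × ZMod (l ^ 2) × ZMod (l ^ 2) × ZMod (l ^ 2) ×
    ZMod (l ^ 2)} (hb : b ∈ base κ l) : (l - 2) * l ≤ (goodH b).card := by
  unfold goodH
  rw [card_pre (l := l) (fun y => red l b.1 ^ 2 * y ^ 2 +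
    red l (2 * b.2.1 * b.2.2.1 * b.1 - 2 * b.2.1 * b.2.2.2.1) * y +
    red l (b.2.2.2.1 * (2 * b.2.2.1 * pv b - b.2.2.1 ^ 2) + b.1 * b.2.2.1 ^ 2 * (b.2.2.1 - pv b))
      ≠ 0)]
  exact Nat.mul_le_mul_right _ (card_quad (pow_ne_zero 2 (mem_base hb).1))

lemma card_base {κ : ℤ} (h2 : l ≠ 2) (hκ : ¬ (l : ℤ) ∣ κ) :
    (l - 1) * l * (l ^ 2 * (l ^ 2 * ((l - 1) * l * (l - 1)))) ≤ 2 * (base κ l).card := by
  have hκ' : (κ : ZMod l) ≠ 0 := by
    rwa [Ne, ZMod.intCast_zmod_eq_zero_iff_dvd]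
  unfold base
  rw [card_product, card_product, card_product, card_product, card_unit, card_ker,
    card_pre (fun y => quadraticChar (ZMod l) ((κ : ZMod l) * y) = -1), Finset.card_univ,
    ZMod.card]
  have h3 := card_nonres h2 hκ'
  generalize (univ.filter fun y : ZMod l => quadraticChar (ZMod l) (κ * y) = -1).card = n at h3 ⊢
  calc (l - 1) * l * (l ^ 2 * (l ^ 2 * ((l - 1) * l * (l - 1))))
      ≤ (l - 1) * l * (l ^ 2 * (l ^ 2 * ((2 * n) * l * (l - 1)))) := by gcongr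
    _ = _ := by ring

open Classical in
lemma card_badR {κ : ℤ} : (base κ l).card * ((l - 2) * l) ≤
    (univ.filter fun t : Fin 6 → ZMod (l ^ 2) => BadR κ l t).card := by
  calc (base κ l).card * ((l - 2) * l)
      ≤ ∑ b ∈ base κ l, (goodH b).card := by
        have := Finset.card_nsmul_le_sum (base κ l) (fun b => (goodH b).card) ((l - 2) * l)
          (fun b hb => card_goodH hb)
        simpa using this
    _ = ((base κ l).sigma goodH).card := (Finset.card_sigma _ _).symm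
    _ ≤ _ := by
        refine Finset.card_le_card_of_injOn (fun x => tup x.1 x.2) ?_ ?_
        · rintro ⟨b, h⟩ hx
          simp only [coe_sigma, Set.mem_sigma_iff, mem_coe] at hx
          simp only [coe_filter, mem_univ, true_and, Set.mem_ofPred_eq]
          exact badR_tup hx.1 hx.2
        · rintro ⟨b, h⟩ hx ⟨b', h'⟩ hx' hxx
          simp only [coe_sigma, Set.mem_sigma_iff, mem_coe] at hx hx'
          simp only at hxx
          have e0 := congrFun hxx 0
          have e1 := congrFun hxx 1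
          have e2 := congrFun hxx 2
          have e4 := congrFun hxx 4
          simp only [tup, Matrix.cons_val] at e0 e1 e2 e4
          have e3 := congrArg tp hxx
          rw [tp_tup hx.1, tp_tup hx'.1] at e3
          have e5 := congrArg td hxx
          rw [td_tup hx.1, td_tup hx'.1] at e5
          obtain ⟨b1, b2, b3, b4, b5⟩ := b
          obtain ⟨c1, c2, c3, c4, c5⟩ := b'
          simp only at e0 e1 e2 e3 e4 e5
          subst e0 e1 e2 e3 e4 e5
          rfl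

end BadCount

open Classical in
theorem bad_count (κ : ℤ) (l : ℕ) (hl : l.Prime) (h5 : 5 ≤ l) (hκ : ¬ (l : ℤ) ∣ κ) :
    (l : ℝ) ^ 11 / 32 ≤ ((univ.filter fun t : Fin 6 → Fin (l ^ 2) =>
      Bad κ l (fun i => ((t i : ℕ) : ℤ))).card : ℝ) := by
  have : Fact l.Prime := ⟨hl⟩
  have h1 : (univ.filter fun t : Fin 6 → ZMod (l ^ 2) => BadR κ l t).card ≤
      (univ.filter fun t : Fin 6 → Fin (l ^ 2) => Bad κ l (fun i => ((t i : ℕ) : ℤ))).card := by
    refine Finset.card_le_card_of_injOn (fun t i => ⟨(t i).val, ZMod.val_lt _⟩) ?_ ?_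
    · intro t ht
      simp only [coe_filter, mem_univ, true_and, Set.mem_ofPred_eq] at ht ⊢
      rw [bad_iff]
      have e : (fun i => ((((t i).val : ℕ) : ℤ) : ZMod (l ^ 2))) = t := by
        funext i
        rw [Int.cast_natCast, ZMod.natCast_zmod_val]
      rw [e]
      exact ht
    · intro t _ t' _ htt
      funext i
      have := congrFun htt i
      simp only [Fin.mk.injEq] at this
      exact ZMod.val_injective _ this
  have h2 := card_badR (l := l) (κ := κ)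
  have h3 := card_base (l := l) (κ := κ) (by omega) hκ
  have h4 : (l - 1) * l * (l ^ 2 * (l ^ 2 * ((l - 1) * l * (l - 1)))) * ((l - 2) * l) ≤
      2 * (univ.filter fun t : Fin 6 → Fin (l ^ 2) =>
        Bad κ l (fun i => ((t i : ℕ) : ℤ))).card := by
    calc _ ≤ (2 * (base κ l).card) * ((l - 2) * l) := Nat.mul_le_mul_right _ h3
      _ = 2 * ((base κ l).card * ((l - 2) * l)) := by ring
      _ ≤ _ := Nat.mul_le_mul_left _ (h2.trans h1)
  generalize (univ.filter fun t : Fin 6 → Fin (l ^ 2) =>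
        Bad κ l (fun i => ((t i : ℕ) : ℤ))).card = n at h4 ⊢
  have h6 : (((l - 1 : ℕ) : ℝ)) = (l : ℝ) - 1 := by
    rw [Nat.cast_sub (by omega)]; simp
  have h7 : (((l - 2 : ℕ) : ℝ)) = (l : ℝ) - 2 := by
    rw [Nat.cast_sub (by omega)]; simp
  have h8 : ((l : ℝ) - 1) * l * (l ^ 2 * (l ^ 2 * (((l : ℝ) - 1) * l * ((l : ℝ) - 1)))) *
      (((l : ℝ) - 2) * l) ≤ 2 * n := by
    rw [← h6, ← h7]
    exact_mod_cast h4
  have h9 : (5 : ℝ) ≤ l := by exact_mod_cast h5
  have h10 : (4 / 5 : ℝ) * l ≤ l - 1 := by linarith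
  have h11 : (3 / 5 : ℝ) * l ≤ l - 2 := by linarith
  have h12 : (4 / 5 * l : ℝ) * l * (l ^ 2 * (l ^ 2 * ((4 / 5 * l) * l * (4 / 5 * l)))) *
      ((3 / 5 * l) * l) ≤ ((l : ℝ) - 1) * l * (l ^ 2 * (l ^ 2 * (((l : ℝ) - 1) * l *
        ((l : ℝ) - 1)))) * (((l : ℝ) - 2) * l) := by
    have : (0 : ℝ) ≤ l := by linarith
    have : (0 : ℝ) ≤ (l : ℝ) - 1 := by linarith
    have : (0 : ℝ) ≤ (l : ℝ) - 2 := by linarith
    gcongr
  have h13 : (4 / 5 * l : ℝ) * l * (l ^ 2 * (l ^ 2 * ((4 / 5 * l) * l * (4 / 5 * l)))) *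
      ((3 / 5 * l) * l) = 192 / 625 * (l : ℝ) ^ 11 := by ring
  have h14 : (0 : ℝ) ≤ (l : ℝ) ^ 11 := by positivity
  linarith

end Stoll308.BE
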