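import Pool.Agent.Work.MP_308fa9_nt.BE.Defs

set_option autoImplicit false

/-!
Working definitions: monic cubics, local classes, 6-tuples, moves.
-/

namespace Stoll308.BE

open Polynomial Finset

/-- The monic cubic `X³ + b X² + c X + d`. -/
noncomputable def F {R : Type*} [CommRing R] (b c d : R) : R[X] :=
  X ^ 3 + C b * X ^ 2 + C c * X + C d

/-- `F` with integral coefficients, over the ring `R`. -/
noncomputable abbrev FZ (R : Type*) [CommRing R] (b c d : ℤ) : R[X] := F (b : R) (c : R) (d : R)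

/-- Local condition (monic form): a point `y² = F(κ x²)`, `y ≠ 0`, such that `κ x² - θ` is `δ` times
a square. -/
def MLoc (κ b c d : ℤ) (δ : ℚ[X]) (K : Type*) [Field K] [Algebra ℚ K] : Prop :=
  ∃ (x y : K) (s : K[X]), y ≠ 0 ∧ y ^ 2 = (FZ K b c d).eval (κ * x ^ 2) ∧
    FZ K b c d ∣ (C (κ * x ^ 2) - X) - δ.map (algebraMap ℚ K) * s ^ 2

/-- Weaker local condition: some `ξ ∈ K` with `F(ξ)` a nonzero square and `ξ - θ` equal to `δ` times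
a square. -/
def WLoc (b c d : ℤ) (δ : ℚ[X]) (K : Type*) [Field K] [Algebra ℚ K] : Prop :=
  ∃ (ξ y : K) (s : K[X]), y ≠ 0 ∧ y ^ 2 = (FZ K b c d).eval ξ ∧
    FZ K b c d ∣ (C ξ - X) - δ.map (algebraMap ℚ K) * s ^ 2

lemma MLoc.wloc {κ b c d : ℤ} {δ : ℚ[X]} {K : Type*} [Field K] [Algebra ℚ K]
    (h : MLoc κ b c d δ K) : WLoc b c d δ K := by
  obtain ⟨x, y, s, h1, h2, h3⟩ := h
  exact ⟨κ * x ^ 2, y, s, h1, h2, h3⟩

/-- The element `w₀ + w₁ θ + w₂ θ²`. -/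
noncomputable def pw {R : Type*} [CommRing R] (w : Fin 3 → R) : R[X] :=
  C (w 0) + C (w 1) * X + C (w 2) * X ^ 2

/-- The class of `p + q θ` is the class of `δ`. -/
def Rep (b c d : ℤ) (δ : ℚ[X]) (p q : ℤ) : Prop :=
  ∃ s : ℚ[X], FZ ℚ b c d ∣ (C (p : ℚ) + C (q : ℚ) * X) - δ * s ^ 2

/-- The class of `δ` is trivial. -/
def Triv (b c d : ℤ) (δ : ℚ[X]) : Prop := ∃ s : ℚ[X], FZ ℚ b c d ∣ δ - s ^ 2

section tuples

variable {R : Type*} [CommRing R]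

/-! A tuple is `t = (q, m, u, v, h, k)`. -/

/-- `b = u + v`. -/
def tb (t : Fin 6 → R) : R := t 2 + t 3

/-- `p = m² - q (u - v)`. -/
def tp (t : Fin 6 → R) : R := t 1 ^ 2 - t 0 * (t 2 - t 3)

/-- `c = 2uv - u² - 2mh - qk`. -/
def tc (t : Fin 6 → R) : R := 2 * t 2 * t 3 - t 2 ^ 2 - 2 * t 1 * t 4 - t 0 * t 5

/-- `d = -pk - qh² - 2muh - u²(u - v)`. -/
def td (t : Fin 6 → R) : R :=
  -(tp t) * t 5 - t 0 * t 4 ^ 2 - 2 * t 1 * t 2 * t 4 - t 2 ^ 2 * (t 2 - t 3)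

/-- Translation by `2j`. -/
def tN (j : R) (t : Fin 6 → R) : Fin 6 → R :=
  ![t 0, t 1 + 2 * j * t 0, t 2 + 2 * j * t 1 + 2 * j ^ 2 * t 0,
    t 3 - 2 * j * t 1 - 2 * j ^ 2 * t 0,
    t 4 + 2 * j * (t 3 - 2 * t 2) - 6 * j ^ 2 * t 1 - 4 * j ^ 3 * t 0,
    t 5 - 4 * j * t 4 + 4 * j ^ 2 * (2 * t 2 - t 3) + 8 * j ^ 3 * t 1 + 4 * j ^ 4 * t 0]

/-- The swap `(q, m, u, v, h, k) ↦ (k, -h, u, v, -m, q)`. -/
def tS (t : Fin 6 → R) : Fin 6 → R := ![t 5, -t 4, t 2, t 3, -t 1, t 0]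

lemma tb_tN (j : R) (t : Fin 6 → R) : tb (tN j t) = tb t := by
  simp [tb, tN]

lemma tp_tN (j : R) (t : Fin 6 → R) : tp (tN j t) = tp t := by
  simp [tp, tN]; ring

lemma tc_tN (j : R) (t : Fin 6 → R) : tc (tN j t) = tc t := by
  simp [tc, tN]; ring

lemma td_tN (j : R) (t : Fin 6 → R) : td (tN j t) = td t := by
  simp [td, tp, tN]; ring

lemma tb_tS (t : Fin 6 → R) : tb (tS t) = tb t := by
  simp [tb, tS]

lemma tc_tS (t : Fin 6 → R) : tc (tS t) = tc t := by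
  simp [tc, tS]; ring

lemma td_tS (t : Fin 6 → R) : td (tS t) = td t := by
  simp [td, tp, tS]; ring

lemma tp_tS (t : Fin 6 → R) : tp (tS t) = t 4 ^ 2 - t 5 * (t 2 - t 3) := by
  simp [tp, tS]

/-- The product of `p + q θ` and `p' + k θ` is a square. -/
lemma rep_mul (t : Fin 6 → R) (θ : R)
    (hθ : θ ^ 3 + tb t * θ ^ 2 + tc t * θ + td t = 0) :
    (tp t + t 0 * θ) * (tp (tS t) + t 5 * θ) =
      (θ ^ 2 + t 3 * θ + (t 2 * t 3 - t 2 ^ 2 - t 1 * t 4)) ^ 2 := by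
  rw [tp_tS]
  simp only [tb, tc, td, tp] at *
  linear_combination (-(θ + t 3 - t 2)) * hθ

lemma tb_map {S : Type*} [CommRing S] (f : R →+* S) (t : Fin 6 → R) :
    tb (fun i => f (t i)) = f (tb t) := by simp [tb]

lemma tp_map {S : Type*} [CommRing S] (f : R →+* S) (t : Fin 6 → R) :
    tp (fun i => f (t i)) = f (tp t) := by simp [tp]

lemma tc_map {S : Type*} [CommRing S] (f : R →+* S) (t : Fin 6 → R) :
    tc (fun i => f (t i)) = f (tc t) := by simp [tc, map_ofNat f 2]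

lemma td_map {S : Type*} [CommRing S] (f : R →+* S) (t : Fin 6 → R) :
    td (fun i => f (t i)) = f (td t) := by simp [td, tp, map_ofNat f 2]

end tuples

/-- The local condition at the prime `l` fails for the tuple. -/
def Bad (κ : ℤ) (l : ℕ) (t : Fin 6 → ℤ) : Prop :=
  (l : ℤ) ∣ td t ∧ ¬ (l : ℤ) ^ 2 ∣ td t ∧ ¬ (l : ℤ) ∣ tc t ∧
    ∃ _h : Fact l.Prime, legendreSym l (κ * tp t) = -1

/-- A reduced tuple of size `Y` and parameter `τ`. -/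
def Red (Y τ : ℝ) (t : Fin 6 → ℤ) : Prop :=
  0 < τ ∧ τ ≤ 2 ∧ t 0 ≠ 0 ∧ |(t 0 : ℝ)| ≤ Y * τ ∧ |(t 1 : ℝ)| ≤ 2 * Y * √τ ∧
    |(t 2 : ℝ)| ≤ 2 * Y ∧ |(t 3 : ℝ)| ≤ 2 * Y ∧ |(t 4 : ℝ)| ≤ 4 * Y / √τ ∧
    |(t 5 : ℝ)| ≤ 4 * Y / τ

end Stoll308.BE
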