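import Pool.Agent.Work.MP_308fa9_nt.BE.HM

set_option autoImplicit false

/-!
The Hasse principle for nondegenerate ternary quadratic forms given by symmetric matrices.
-/

namespace Stoll308.BE

open Matrix

/-- Diagonalisation of a symmetric matrix over `ℚ`. -/
lemma exists_diag (Q : Matrix (Fin 3) (Fin 3) ℚ) (hs : Q.IsSymm) :
    ∃ (P : Matrix (Fin 3) (Fin 3) ℚ) (D : Fin 3 → ℚ), P.det ≠ 0 ∧
      Pᵀ * Q * P = Matrix.diagonal D := by
  have hsym : LinearMap.IsSymm (Matrix.toBilin' Q) := by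
    refine ⟨fun x y => ?_⟩
    rw [Matrix.toBilin'_apply', Matrix.toBilin'_apply', Matrix.dotProduct_mulVec,
      ← Matrix.mulVec_transpose, hs.eq, dotProduct_comm]
    rfl
  have : Invertible (2 : ℚ) := invertibleOfNonzero two_ne_zero
  obtain ⟨v0, hv0⟩ := LinearMap.BilinForm.exists_orthogonal_basis hsym
  have hfr : Module.finrank ℚ (Fin 3 → ℚ) = 3 := by simp
  let v : Module.Basis (Fin 3) ℚ (Fin 3 → ℚ) := v0.reindex (finCongr hfr)
  have hv : ∀ i j, i ≠ j → (v i) ⬝ᵥ Q.mulVec (v j) = 0 := by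
    intro i j hij
    have := hv0 (i := (finCongr hfr).symm i) (j := (finCongr hfr).symm j)
      (fun h => hij ((finCongr hfr).symm.injective h))
    rw [← Matrix.toBilin'_apply']
    simpa [v, Function.onFun] using this
  refine ⟨Matrix.of (fun i j => v j i), fun i => v i ⬝ᵥ Q.mulVec (v i), ?_, ?_⟩
  · have h1 : (Matrix.of (fun i j => v j i)) = (Pi.basisFun ℚ (Fin 3)).toMatrix v := by
      ext i j
      simp [Module.Basis.toMatrix_apply]
    rw [h1]
    have h2 := Module.Basis.toMatrix_mul_toMatrix_flip (Pi.basisFun ℚ (Fin 3)) v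
    intro h3
    have h4 := congrArg Matrix.det h2
    rw [Matrix.det_mul, h3, zero_mul, Matrix.det_one] at h4
    exact zero_ne_one h4
  · ext i j
    have h1 : ((Matrix.of (fun i j => v j i))ᵀ * Q * (Matrix.of (fun i j => v j i))) i j =
        v i ⬝ᵥ Q.mulVec (v j) := by
      rw [Matrix.mul_assoc]
      simp [Matrix.mul_apply, dotProduct, Matrix.mulVec]
    rw [h1]
    by_cases hij : i = j
    · subst hij; simp
    · rw [Matrix.diagonal_apply_ne _ hij, hv i j hij]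

lemma form_diag {K : Type*} [Field K] (Q P : Matrix (Fin 3) (Fin 3) K) (D : Fin 3 → K)
    (hPQ : Pᵀ * Q * P = Matrix.diagonal D) (z : Fin 3 → K) :
    (P.mulVec z) ⬝ᵥ Q.mulVec (P.mulVec z) = D 0 * z 0 ^ 2 + D 1 * z 1 ^ 2 + D 2 * z 2 ^ 2 := by
  have h1 : (P.mulVec z) ⬝ᵥ Q.mulVec (P.mulVec z) = z ⬝ᵥ (Pᵀ * Q * P).mulVec z := by
    rw [← Matrix.mulVec_mulVec, ← Matrix.mulVec_mulVec, Matrix.dotProduct_mulVec z Pᵀ,
      Matrix.vecMul_transpose]
  rw [h1, hPQ]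
  simp [dotProduct, Matrix.mulVec_diagonal, Fin.sum_univ_three]
  ring

lemma iso_of_diag {K : Type*} [Field K] [Algebra ℚ K] (Q P : Matrix (Fin 3) (Fin 3) ℚ)
    (D : Fin 3 → ℚ) (hP : P.det ≠ 0) (hPQ : Pᵀ * Q * P = Matrix.diagonal D) (hD : D 0 ≠ 0)
    (h : ∃ w : Fin 3 → K, w ≠ 0 ∧ w ⬝ᵥ (Q.map (algebraMap ℚ K)).mulVec w = 0) :
    ∃ x y z : K, (x ≠ 0 ∨ y ≠ 0 ∨ z ≠ 0) ∧
      z ^ 2 = algebraMap ℚ K (-D 1 / D 0) * x ^ 2 + algebraMap ℚ K (-D 2 / D 0) * y ^ 2 := by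
  obtain ⟨w, hw0, hw⟩ := h
  set P' := P.map (algebraMap ℚ K) with hP'
  set Q' := Q.map (algebraMap ℚ K) with hQ'
  have hdet : P'.det ≠ 0 := by
    have : P'.det = algebraMap ℚ K P.det := by
      rw [hP']; exact (RingHom.map_det (algebraMap ℚ K) P).symm
    rw [this]
    exact (map_ne_zero _).2 hP
  have hu : IsUnit P'.det := isUnit_iff_ne_zero.2 hdet
  have hPQ' : P'ᵀ * Q' * P' = Matrix.diagonal (fun i => algebraMap ℚ K (D i)) := by
    have := congrArg (fun M : Matrix (Fin 3) (Fin 3) ℚ => M.map (algebraMap ℚ K)) hPQ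
    simp only [Matrix.map_mul, Matrix.diagonal_map (map_zero (algebraMap ℚ K))] at this
    rw [hP', hQ', ← Matrix.transpose_map]
    exact this
  set z := P'⁻¹.mulVec w with hz
  have hwz : w = P'.mulVec z := by
    rw [hz, Matrix.mulVec_mulVec, Matrix.mul_nonsing_inv _ hu, Matrix.one_mulVec]
  have hz0 : z ≠ 0 := by
    intro h0
    apply hw0
    rw [hwz, h0, Matrix.mulVec_zero]
  rw [hwz, form_diag Q' P' _ hPQ' z] at hw
  have hD0 : algebraMap ℚ K (D 0) ≠ 0 := (map_ne_zero _).2 hD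
  refine ⟨z 1, z 2, z 0, ?_, ?_⟩
  · by_contra hcon
    push Not at hcon
    apply hz0
    ext i
    fin_cases i
    · exact hcon.2.2
    · exact hcon.1
    · exact hcon.2.1
  · rw [map_div₀, map_div₀, map_neg, map_neg]
    field_simp
    linear_combination hw

theorem hm_form (Q : Matrix (Fin 3) (Fin 3) ℚ) (hs : Q.IsSymm) (hd : Q.det ≠ 0)
    (hp : ∀ (p : ℕ) [Fact p.Prime], ∃ w : Fin 3 → ℚ_[p], w ≠ 0 ∧
      w ⬝ᵥ (Q.map (algebraMap ℚ ℚ_[p])).mulVec w = 0)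
    (hR : ∃ w : Fin 3 → ℝ, w ≠ 0 ∧ w ⬝ᵥ (Q.map (algebraMap ℚ ℝ)).mulVec w = 0) :
    ∃ w : Fin 3 → ℚ, w ≠ 0 ∧ w ⬝ᵥ Q.mulVec w = 0 := by
  obtain ⟨P, D, hP, hPQ⟩ := exists_diag Q hs
  have hDdet : (Matrix.diagonal D).det ≠ 0 := by
    rw [← hPQ, Matrix.det_mul, Matrix.det_mul, Matrix.det_transpose]
    exact mul_ne_zero (mul_ne_zero hP hd) hP
  rw [Matrix.det_diagonal, Finset.prod_ne_zero_iff] at hDdet
  have hD : ∀ i, D i ≠ 0 := fun i => hDdet i (Finset.mem_univ i)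
  obtain ⟨x, y, z, hxyz, h⟩ := hm2 (-D 1 / D 0) (-D 2 / D 0)
    (div_ne_zero (neg_ne_zero.2 (hD 1)) (hD 0)) (div_ne_zero (neg_ne_zero.2 (hD 2)) (hD 0))
    (fun p _ => by
      obtain ⟨x, y, z, h1, h2⟩ := iso_of_diag (K := ℚ_[p]) Q P D hP hPQ (hD 0) (hp p)
      exact ⟨x, y, z, h1, by simpa only [eq_ratCast] using h2⟩)
    (by
      obtain ⟨x, y, z, h1, h2⟩ := iso_of_diag (K := ℝ) Q P D hP hPQ (hD 0) hR
      exact ⟨x, y, z, h1, by simpa only [eq_ratCast] using h2⟩)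
  refine ⟨P.mulVec ![z, x, y], ?_, ?_⟩
  · intro h0
    have h1 : (![z, x, y] : Fin 3 → ℚ) = 0 := by
      have hu : IsUnit P.det := isUnit_iff_ne_zero.2 hP
      have := congrArg (fun w => P⁻¹.mulVec w) h0
      simpa only [Matrix.mulVec_mulVec, Matrix.nonsing_inv_mul _ hu, Matrix.one_mulVec,
        Matrix.mulVec_zero] using this
    have hz := congrFun h1 0
    have hx := congrFun h1 1
    have hy := congrFun h1 2
    simp at hz hx hy
    rcases hxyz with h | h | h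
    · exact h hx
    · exact h hy
    · exact h hz
  · rw [form_diag Q P D hPQ]
    have h0 := hD 0
    simp only [Matrix.cons_val_zero, Matrix.cons_val_one, Matrix.cons_val_two, Matrix.head_cons,
      Matrix.tail_cons]
    rw [h]
    field_simp
    ring

end Stoll308.BE
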