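import Pool.Agent.Work.MP_308fa9_nt.BE.Basic
import Pool.Agent.Work.MP_308fa9_nt.BE.HMForm

set_option autoImplicit false

/-!
The conic `[θ²](δ w²) = 0` has a rational point.
-/

namespace Stoll308.BE

open Polynomial Finset

section generalities

variable {K : Type*} [Field K]

lemma F_natDegree (b c d : K) : (F b c d).natDegree = 3 := by
  unfold F
  compute_degree!

lemma F_monic (b c d : K) : (F b c d).Monic := by
  unfold F
  monicity!

lemma F_degree (b c d : K) : (F b c d).degree = 3 := by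
  rw [degree_eq_natDegree (F_monic b c d).ne_zero, F_natDegree]; rfl

lemma F_map {L : Type*} [Field L] (f : K →+* L) (b c d : K) :
    (F b c d).map f = F (f b) (f c) (f d) := by
  simp [F]

lemma FZ_map {L : Type*} [Field L] (f : K →+* L) (b c d : ℤ) :
    (FZ K b c d).map f = FZ L b c d := by
  simp [FZ, F_map]

lemma pw_degree (w : Fin 3 → K) : (pw w).degree < 3 := by
  unfold pw
  refine lt_of_le_of_lt (b := (2 : WithBot ℕ)) ?_ (by decide)
  compute_degree

lemma pw_coeff (w : Fin 3 → K) (i : Fin 3) : (pw w).coeff i = w i := by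
  unfold pw
  fin_cases i <;> simp [coeff_X, coeff_C]

lemma pw_eq_zero {w : Fin 3 → K} (h : pw w = 0) : w = 0 := by
  ext i
  rw [← pw_coeff w i, h]; simp

lemma eq_pw {g : K[X]} (hg : g.degree < 3) : g = pw (fun i => g.coeff i) := by
  ext n
  unfold pw
  rcases Nat.lt_or_ge n 3 with h | h
  · interval_cases n <;> simp [coeff_X, coeff_C]
  · rw [coeff_eq_zero_of_degree_lt (lt_of_lt_of_le hg (by exact_mod_cast h))]
    have : (C (g.coeff (0 : Fin 3)) + C (g.coeff (1 : Fin 3)) * X +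
        C (g.coeff (2 : Fin 3)) * X ^ 2).coeff n = 0 := by
      apply coeff_eq_zero_of_degree_lt
      refine lt_of_le_of_lt (b := (2 : WithBot ℕ)) ?_ (by exact_mod_cast h)
      compute_degree
    exact this.symm

/-- the coefficient of `θ²` in `g mod F`. -/
noncomputable def cL (f : K[X]) (g : K[X]) : K := (g %ₘ f).coeff 2

lemma cL_add (f g h : K[X]) : cL f (g + h) = cL f g + cL f h := by
  simp [cL, add_modByMonic]

lemma cL_C_mul (f g : K[X]) (a : K) : cL f (C a * g) = a * cL f g := by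
  rw [cL, ← smul_eq_C_mul, smul_modByMonic, coeff_smul, smul_eq_mul]; rfl

/-- the Gram matrix of the form `(v, w) ↦ [θ²](δ v w)`. -/
noncomputable def gram (f δ : K[X]) : Matrix (Fin 3) (Fin 3) K :=
  Matrix.of fun i j => cL f (δ * X ^ ((i : ℕ) + (j : ℕ)))

lemma gram_symm (f δ : K[X]) : (gram f δ).IsSymm := by
  ext i j
  simp [gram, add_comm]

lemma gram_apply (f δ : K[X]) (v w : Fin 3 → K) :
    v ⬝ᵥ (gram f δ).mulVec w = cL f (δ * (pw v * pw w)) := by
  have h1 : δ * (pw v * pw w) =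
      C (v 0) * (C (w 0) * (δ * X ^ 0) + C (w 1) * (δ * X ^ 1) + C (w 2) * (δ * X ^ 2)) +
      C (v 1) * (C (w 0) * (δ * X ^ 1) + C (w 1) * (δ * X ^ 2) + C (w 2) * (δ * X ^ 3)) +
      C (v 2) * (C (w 0) * (δ * X ^ 2) + C (w 1) * (δ * X ^ 3) + C (w 2) * (δ * X ^ 4)) := by
    unfold pw; ring
  rw [h1]
  simp only [cL_add, cL_C_mul]
  simp [gram, dotProduct, Matrix.mulVec, Fin.sum_univ_three]
  ring

lemma gram_det {f δ : K[X]} (hf : f.Monic) (hdeg : f.degree = 3) (hδ : IsCoprime δ f) :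
    (gram f δ).det ≠ 0 := by
  intro hdet
  obtain ⟨w, hw0, hw⟩ := Matrix.exists_mulVec_eq_zero_iff.2 hdet
  have h1 : ∀ v : Fin 3 → K, cL f (δ * (pw v * pw w)) = 0 := by
    intro v
    rw [← gram_apply, hw, dotProduct_zero]
  set g := (δ * pw w) %ₘ f with hg
  have hgdeg : g.degree < 3 := by
    rw [← hdeg]; exact degree_modByMonic_lt _ hf
  have hg0 : g ≠ 0 := by
    intro h0
    rw [hg, modByMonic_eq_zero_iff_dvd hf] at h0
    have h2 : f ∣ pw w := hδ.symm.dvd_of_dvd_mul_left h0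
    have h3 : pw w ≠ 0 := fun h => hw0 (pw_eq_zero h)
    have h4 := degree_le_of_dvd h2 h3
    rw [hdeg] at h4
    exact absurd (pw_degree w) (not_lt.2 h4)
  have hnd : g.natDegree ≤ 2 := by
    have : g.natDegree < 3 := (natDegree_lt_iff_degree_lt hg0).2 hgdeg
    omega
  -- the test vector
  have h5 : (X ^ (2 - g.natDegree) : K[X]).degree < 3 := by
    rw [degree_X_pow]
    exact_mod_cast (by omega : 2 - g.natDegree < 3)
  have h6 := h1 (fun i => (X ^ (2 - g.natDegree) : K[X]).coeff i)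
  rw [← eq_pw h5] at h6
  have h7 : (δ * (X ^ (2 - g.natDegree) * pw w)) %ₘ f = g * X ^ (2 - g.natDegree) := by
    have h8 : (δ * (X ^ (2 - g.natDegree) * pw w)) %ₘ f = (g * X ^ (2 - g.natDegree)) %ₘ f := by
      rw [← sub_eq_zero, ← sub_modByMonic, modByMonic_eq_zero_iff_dvd hf]
      have h9 : δ * (X ^ (2 - g.natDegree) * pw w) - g * X ^ (2 - g.natDegree) =
          (δ * pw w - g) * X ^ (2 - g.natDegree) := by ring
      rw [h9]
      apply Dvd.dvd.mul_right
      have h10 := modByMonic_add_div (δ * pw w) f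
      refine ⟨(δ * pw w) /ₘ f, ?_⟩
      rw [hg]
      linear_combination -h10
    rw [h8, modByMonic_eq_self_iff hf, degree_mul, degree_X_pow, hdeg,
      degree_eq_natDegree hg0]
    exact_mod_cast (by omega : g.natDegree + (2 - g.natDegree) < 3)
  rw [cL, h7] at h6
  have h8 : (g * X ^ (2 - g.natDegree)).coeff 2 = g.leadingCoeff := by
    have h9 : (g * X ^ (2 - g.natDegree)).coeff (g.natDegree + (2 - g.natDegree)) =
        g.leadingCoeff := by
      rw [coeff_mul_X_pow]; rfl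
    rwa [show g.natDegree + (2 - g.natDegree) = 2 by omega] at h9
  rw [h8] at h6
  exact hg0 (leadingCoeff_eq_zero.1 h6)

lemma gram_map {L : Type*} [Field L] (φ : K →+* L) (f δ : K[X]) (hf : f.Monic) :
    gram (f.map φ) (δ.map φ) = (gram f δ).map φ := by
  ext i j
  simp only [gram, Matrix.of_apply, Matrix.map_apply, cL]
  have : δ.map φ * X ^ ((i : ℕ) + (j : ℕ)) = (δ * X ^ ((i : ℕ) + (j : ℕ))).map φ := by simp
  rw [this, ← map_modByMonic φ hf, coeff_map]

end generalities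

lemma local_isotropic (b c d : ℤ) (δ : ℚ[X]) {K : Type*} [Field K] [Algebra ℚ K]
    (h : WLoc b c d δ K) : ∃ w : Fin 3 → K, w ≠ 0 ∧
      w ⬝ᵥ ((gram (FZ ℚ b c d) δ).map (algebraMap ℚ K)).mulVec w = 0 := by
  obtain ⟨ξ, y, s, -, -, hs⟩ := h
  have hF : (FZ K b c d).Monic := F_monic _ _ _
  have hFd : (FZ K b c d).degree = 3 := F_degree _ _ _
  have hdeg1 : (C ξ - X : K[X]).degree = 1 := by
    rw [← degree_neg, neg_sub, degree_X_sub_C]
  set s' := s %ₘ FZ K b c d with hs'
  have hs'd : s'.degree < 3 := by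
    rw [← hFd]; exact degree_modByMonic_lt _ hF
  have h1 : FZ K b c d ∣ s - s' := by
    have := modByMonic_add_div s (FZ K b c d)
    refine ⟨s /ₘ FZ K b c d, ?_⟩
    rw [hs']
    linear_combination -this
  have h2 : FZ K b c d ∣ (C ξ - X) - δ.map (algebraMap ℚ K) * s' ^ 2 := by
    have h3 : (C ξ - X) - δ.map (algebraMap ℚ K) * s' ^ 2 =
        ((C ξ - X) - δ.map (algebraMap ℚ K) * s ^ 2) +
          (s - s') * (δ.map (algebraMap ℚ K) * (s + s')) := by ring
    rw [h3]
    exact dvd_add hs (h1.mul_right _)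
  refine ⟨fun i => s'.coeff i, ?_, ?_⟩
  · intro h0
    have h3 : s' = 0 := by
      rw [eq_pw hs'd, h0]
      simp [pw]
    rw [h3] at h2
    simp only [ne_eq, OfNat.ofNat_ne_zero, not_false_eq_true, zero_pow, mul_zero, sub_zero] at h2
    have h4 : (C ξ - X : K[X]) ≠ 0 := by
      intro h5
      rw [h5] at hdeg1
      simp at hdeg1
    have h5 := degree_le_of_dvd h2 h4
    rw [hFd, hdeg1] at h5
    exact absurd h5 (by decide)
  · have hm : gram (FZ K b c d) (δ.map (algebraMap ℚ K)) =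
        (gram (FZ ℚ b c d) δ).map (algebraMap ℚ K) := by
      rw [← FZ_map (algebraMap ℚ K) b c d]
      exact gram_map _ _ _ (F_monic _ _ _)
    rw [← hm, gram_apply, ← eq_pw hs'd, ← pow_two]
    have h3 : (δ.map (algebraMap ℚ K) * s' ^ 2) %ₘ FZ K b c d = C ξ - X := by
      have h4 : (δ.map (algebraMap ℚ K) * s' ^ 2) %ₘ FZ K b c d = (C ξ - X) %ₘ FZ K b c d := by
        symm
        rw [← sub_eq_zero, ← sub_modByMonic, modByMonic_eq_zero_iff_dvd hF]
        exact h2
      rw [h4, modByMonic_eq_self_iff hF, hFd, hdeg1]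
      decide
    rw [cL, h3]
    simp [coeff_X]

theorem exists_isotropic (b c d : ℤ) (δ : ℚ[X]) (hδ : IsCoprime δ (FZ ℚ b c d))
    (hloc : ∀ (p : ℕ) [Fact p.Prime], WLoc b c d δ ℚ_[p]) (hR : WLoc b c d δ ℝ) :
    ∃ w : Fin 3 → ℚ, w ≠ 0 ∧ ((δ * pw w ^ 2) %ₘ FZ ℚ b c d).coeff 2 = 0 := by
  obtain ⟨w, hw0, hw⟩ := hm_form (gram (FZ ℚ b c d) δ) (gram_symm _ _)
    (gram_det (F_monic _ _ _) (F_degree _ _ _) hδ)
    (fun p _ => local_isotropic b c d δ (hloc p)) (local_isotropic b c d δ hR)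
  refine ⟨w, hw0, ?_⟩
  rw [gram_apply, ← pow_two] at hw
  exact hw

end Stoll308.BE
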