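import Pool.Agent.Work.MP_308fa9_nt.BE.Tern

set_option autoImplicit false

/-!
The cubic algebra `K[θ]`, `θ³ + b θ² + c θ + d = 0`, in coordinates.
-/

namespace Stoll308.BE

open Matrix Polynomial

section

variable {K : Type*} [CommRing K]

/-- Multiplication in `K[θ]`, `θ³ + b θ² + c θ + d = 0`, in the basis `1, θ, θ²`. -/
def mulT (b c d : K) (u v : Fin 3 → K) : Fin 3 → K :=
  ![u 0 * v 0 - d * (u 1 * v 2 + u 2 * v 1) + b * d * (u 2 * v 2),
    u 0 * v 1 + u 1 * v 0 - c * (u 1 * v 2 + u 2 * v 1) + (b * c - d) * (u 2 * v 2),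
    u 0 * v 2 + u 1 * v 1 + u 2 * v 0 - b * (u 1 * v 2 + u 2 * v 1) +
      (b ^ 2 - c) * (u 2 * v 2)]

/-- The norm of `u 0 + u 1 θ + u 2 θ²`. -/
def nrm (b c d : K) (u : Fin 3 → K) : K :=
  Matrix.det !![u 0, u 1, u 2;
    -d * u 2, u 0 - c * u 2, u 1 - b * u 2;
    -d * u 1 + b * d * u 2, -c * u 1 + (b * c - d) * u 2, u 0 - b * u 1 + (b ^ 2 - c) * u 2]

lemma nrm_eq (b c d : K) (u : Fin 3 → K) : nrm b c d u =
    u 0 * (u 0 - c * u 2) * (u 0 - b * u 1 + (b ^ 2 - c) * u 2) -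
    u 0 * (u 1 - b * u 2) * (-c * u 1 + (b * c - d) * u 2) -
    u 1 * (-d * u 2) * (u 0 - b * u 1 + (b ^ 2 - c) * u 2) +
    u 1 * (u 1 - b * u 2) * (-d * u 1 + b * d * u 2) +
    u 2 * (-d * u 2) * (-c * u 1 + (b * c - d) * u 2) -
    u 2 * (u 0 - c * u 2) * (-d * u 1 + b * d * u 2) := by
  rw [nrm, Matrix.det_fin_three]
  simp

lemma nrm_mul (b c d : K) (u v : Fin 3 → K) :
    nrm b c d (mulT b c d u v) = nrm b c d u * nrm b c d v := by
  simp only [nrm_eq, mulT, Matrix.cons_val]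
  ring

lemma nrm_pq (b c d p q : K) :
    nrm b c d ![p, q, 0] = p ^ 3 - b * p ^ 2 * q + c * p * q ^ 2 - d * q ^ 3 := by
  simp only [nrm_eq, Matrix.cons_val]
  ring

lemma mulT_comm (b c d : K) (u v : Fin 3 → K) : mulT b c d u v = mulT b c d v u := by
  unfold mulT
  congr 1
  · ring
  · congr 1
    · ring
    · congr 1
      ring

lemma mulT_assoc (b c d : K) (u v w : Fin 3 → K) :
    mulT b c d (mulT b c d u v) w = mulT b c d u (mulT b c d v w) := by
  funext i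
  fin_cases i <;> simp [mulT] <;> ring

/-- The matrix of the form `w ↦ [θ²] (δ w²)`. -/
def mat (b c d : K) (δ : Fin 3 → K) : Matrix (Fin 3) (Fin 3) K :=
  Matrix.of fun i j => mulT b c d δ (mulT b c d (Pi.single i 1) (Pi.single j 1)) 2

lemma mat_isSymm (b c d : K) (δ : Fin 3 → K) : (mat b c d δ).IsSymm := by
  ext i j
  rw [Matrix.transpose_apply, mat, Matrix.of_apply, Matrix.of_apply,
    mulT_comm b c d (Pi.single j 1)]

lemma qf_mat (b c d : K) (δ w : Fin 3 → K) :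
    qf (mat b c d δ) w = mulT b c d δ (mulT b c d w w) 2 := by
  simp [qf, mat, dotProduct, Matrix.mulVec, Fin.sum_univ_three, mulT, Pi.single_apply]
  ring

lemma det_mat (b c d : K) (δ : Fin 3 → K) : (mat b c d δ).det = - nrm b c d δ := by
  rw [nrm_eq, Matrix.det_fin_three]
  simp [mat, mulT, Pi.single_apply]
  ring

end

end Stoll308.BE
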