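import Pool.Agent.Work.MP_308fa9_nt.BE.Cub

set_option autoImplicit false

/-!
The cubic algebra in coordinates: inverses, base change, reducedness; squares in `ℕ`.
-/

namespace Stoll308.BE

open Matrix

section ring

variable {K : Type*} [CommRing K]

/-- The matrix of the multiplication by `u` (rows: `u`, `u θ`, `u θ²`). -/
def mm (b c d : K) (u : Fin 3 → K) : Matrix (Fin 3) (Fin 3) K :=
  !![u 0, u 1, u 2;
    -d * u 2, u 0 - c * u 2, u 1 - b * u 2;
    -d * u 1 + b * d * u 2, -c * u 1 + (b * c - d) * u 2, u 0 - b * u 1 + (b ^ 2 - c) * u 2]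

lemma nrm_eq_det (b c d : K) (u : Fin 3 → K) : nrm b c d u = (mm b c d u).det := rfl

lemma vecMul_mm (b c d : K) (u v : Fin 3 → K) : v ᵥ* mm b c d u = mulT b c d u v := by
  funext i
  fin_cases i <;> simp [mulT, mm, Matrix.vecMul, dotProduct, Fin.sum_univ_three] <;> ring

lemma mm_mul (b c d : K) (u v : Fin 3 → K) :
    mm b c d (mulT b c d u v) = mm b c d u * mm b c d v := by
  ext i j
  fin_cases i <;> fin_cases j <;>
    simp [mulT, mm, Matrix.mul_apply, Fin.sum_univ_three] <;> ring

lemma mm_zero (b c d : K) : mm b c d 0 = 0 := by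
  ext i j
  fin_cases i <;> fin_cases j <;> simp [mm]

lemma mulT_one (b c d : K) (u : Fin 3 → K) : mulT b c d ![1, 0, 0] u = u := by
  funext i
  fin_cases i <;> simp [mulT]

lemma mulT_smul (b c d : K) (a : K) (u v : Fin 3 → K) :
    mulT b c d u (a • v) = a • mulT b c d u v := by
  funext i
  fin_cases i <;> simp [mulT] <;> ring

lemma mulT_smul_left (b c d : K) (a : K) (u v : Fin 3 → K) :
    mulT b c d (a • u) v = a • mulT b c d u v := by
  funext i
  fin_cases i <;> simp [mulT] <;> ring

lemma nrm_smul (b c d : K) (a : K) (u : Fin 3 → K) :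
    nrm b c d (a • u) = a ^ 3 * nrm b c d u := by
  simp only [nrm_eq, Pi.smul_apply, smul_eq_mul]
  ring

lemma mulT_map {R : Type*} [CommRing R] (f : K →+* R) (b c d : K) (u v : Fin 3 → K) :
    (fun i => f (mulT b c d u v i)) =
      mulT (f b) (f c) (f d) (fun i => f (u i)) (fun i => f (v i)) := by
  funext i
  fin_cases i <;> simp [mulT]

lemma nrm_map {R : Type*} [CommRing R] (f : K →+* R) (b c d : K) (u : Fin 3 → K) :
    f (nrm b c d u) = nrm (f b) (f c) (f d) (fun i => f (u i)) := by
  simp only [nrm_eq, map_sub, map_add, map_mul, map_neg, map_pow]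

/-- The discriminant. -/
def disc (b c d : K) : K :=
  b ^ 2 * c ^ 2 - 4 * c ^ 3 - 4 * b ^ 3 * d - 27 * d ^ 2 + 18 * b * c * d

end ring

section field

variable {K : Type*} [Field K]

lemma exists_inv (b c d : K) (u : Fin 3 → K) (hu : nrm b c d u ≠ 0) :
    ∃ v, mulT b c d u v = ![1, 0, 0] := by
  refine ⟨![1, 0, 0] ᵥ* (mm b c d u)⁻¹, ?_⟩
  have hu' : IsUnit (mm b c d u).det := isUnit_iff_ne_zero.mpr hu
  rw [← vecMul_mm, Matrix.vecMul_vecMul, Matrix.nonsing_inv_mul _ hu', Matrix.vecMul_one]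

/-- The algebra is reduced if the discriminant does not vanish. -/
lemma eq_zero_of_sq (b c d : K) (hd : disc b c d ≠ 0) (u : Fin 3 → K)
    (hu : mulT b c d u u = 0) : u = 0 := by
  have key : ∀ v : Fin 3 → K, (mm b c d (mulT b c d u v)).trace = 0 := by
    intro v
    have h1 : mm b c d (mulT b c d u v) ^ 2 = 0 := by
      rw [pow_two, ← mm_mul]
      have h2 : mulT b c d (mulT b c d u v) (mulT b c d u v) =
          mulT b c d (mulT b c d v v) (mulT b c d u u) := by
        rw [mulT_assoc, mulT_comm b c d v, mulT_assoc, ← mulT_assoc b c d u u,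
          mulT_comm b c d (mulT b c d u u)]
      rw [h2, hu, mulT_comm, ← vecMul_mm, mm_zero, Matrix.vecMul_zero, mm_zero]
    have h3 : IsNilpotent (mm b c d (mulT b c d u v)) := ⟨2, h1⟩
    exact (Matrix.isNilpotent_trace_of_isNilpotent h3).eq_zero
  have t0 := key ![1, 0, 0]
  have t1 := key ![0, 1, 0]
  have t2 := key ![0, 0, 1]
  simp only [mulT, mm, Matrix.trace_fin_three, Matrix.of_apply, Matrix.cons_val',
    Matrix.cons_val, Matrix.cons_val_zero, Matrix.cons_val_one] at t0 t1 t2
  have hT : (!![3, -b, b ^ 2 - 2 * c; -b, b ^ 2 - 2 * c, -b ^ 3 + 3 * b * c - 3 * d;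
      b ^ 2 - 2 * c, -b ^ 3 + 3 * b * c - 3 * d,
      b ^ 4 - 4 * b ^ 2 * c + 4 * b * d + 2 * c ^ 2] : Matrix (Fin 3) (Fin 3) K) *ᵥ u = 0 := by
    funext i
    fin_cases i
    · simp only [Matrix.mulVec, dotProduct, Fin.sum_univ_three, Matrix.of_apply,
        Matrix.cons_val', Matrix.cons_val, Matrix.cons_val_zero, Matrix.cons_val_one,
        Pi.zero_apply, Fin.zero_eta, Fin.isValue]
      linear_combination t0
    · simp only [Matrix.mulVec, dotProduct, Fin.sum_univ_three, Matrix.of_apply,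
        Matrix.cons_val', Matrix.cons_val, Matrix.cons_val_zero, Matrix.cons_val_one,
        Pi.zero_apply, Fin.isValue, Fin.mk_one]
      linear_combination t1
    · simp only [Matrix.mulVec, dotProduct, Fin.sum_univ_three, Matrix.of_apply,
        Matrix.cons_val', Matrix.cons_val, Matrix.cons_val_zero, Matrix.cons_val_one,
        Pi.zero_apply, Fin.isValue, Fin.reduceFinMk]
      linear_combination t2
  refine Matrix.eq_zero_of_mulVec_eq_zero ?_ hT
  have h4 : (!![3, -b, b ^ 2 - 2 * c; -b, b ^ 2 - 2 * c, -b ^ 3 + 3 * b * c - 3 * d;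
      b ^ 2 - 2 * c, -b ^ 3 + 3 * b * c - 3 * d,
      b ^ 4 - 4 * b ^ 2 * c + 4 * b * d + 2 * c ^ 2] : Matrix (Fin 3) (Fin 3) K).det =
      disc b c d := by
    rw [Matrix.det_fin_three, disc]
    simp only [Matrix.of_apply, Matrix.cons_val', Matrix.cons_val, Matrix.cons_val_zero,
      Matrix.cons_val_one]
    ring
  rw [h4]
  exact hd

end field

/-- A positive natural number all whose `p`-adic norms are norms of squares is a square. -/
lemma isSquare_of_norm (n : ℕ) (hn : n ≠ 0)
    (h : ∀ (p : ℕ) [Fact p.Prime], ∃ c : ℚ_[p], ‖(n : ℚ_[p])‖ = ‖c‖ ^ 2) : IsSquare n := by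
  have hev : ∀ p : ℕ, p.Prime → Even (n.factorization p) := by
    intro p hp
    have : Fact p.Prime := ⟨hp⟩
    obtain ⟨c, hc⟩ := h p
    have hn' : (n : ℚ_[p]) ≠ 0 := by exact_mod_cast hn
    have hc0 : c ≠ 0 := by
      rintro rfl
      rw [norm_zero] at hc
      have := norm_pos_iff.mpr hn'
      rw [hc] at this
      norm_num at this
    rw [Padic.norm_eq_zpow_neg_valuation hn', Padic.norm_eq_zpow_neg_valuation hc0,
      ← zpow_natCast, ← _root_.zpow_mul] at hc
    have hp1 : (1 : ℝ) < p := by exact_mod_cast hp.one_lt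
    have h1 := zpow_right_injective₀ (by linarith) hp1.ne' hc
    rw [Padic.valuation_natCast] at h1
    have h5 : ((2 : ℕ) : ℤ) = 2 := rfl
    rw [h5] at h1
    have h2 : (padicValNat p n : ℤ) = c.valuation * 2 := by linarith
    have h3 : n.factorization p = padicValNat p n := Nat.factorization_def n hp
    rw [h3]
    have h4 : Even ((padicValNat p n : ℕ) : ℤ) := by rw [h2]; exact even_two.mul_left _
    exact_mod_cast h4
  refine ⟨∏ p ∈ n.primeFactors, p ^ (n.factorization p / 2), ?_⟩
  rw [← Finset.prod_mul_distrib]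
  conv_lhs => rw [← Nat.prod_factorization_pow_eq_self hn, Finsupp.prod]
  rw [Nat.support_factorization]
  refine Finset.prod_congr rfl fun p hp => ?_
  rw [← pow_add]
  congr 1
  obtain ⟨k, hk⟩ := hev p (Nat.prime_of_mem_primeFactors hp)
  omega

end Stoll308.BE
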