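import Mathlib

set_option autoImplicit false

/-!
Points of a box in the complement of sets of residue classes for coprime moduli.
-/

namespace Stoll308.BE

open Finset

/-- an interval of length `D` has at most `D / M + 1` elements in a residue class modulo `M`. -/
lemma card_class (a : ℤ) (D M : ℕ) (hM : 0 < M) (v : ℤ) :
    (((Ico a (a + D)).filter fun x => x ≡ v [ZMOD (M : ℤ)]).card : ℝ) ≤ ((D : ℝ) + M) / M := by
  have h := Int.Ico_filter_modEq_card a (a + D) (r := (M : ℤ)) (by exact_mod_cast hM) v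
  have hM' : (0 : ℚ) < M := by exact_mod_cast hM
  have h1 : ((⌈(((a + D : ℤ) : ℚ) - v) / ((M : ℤ) : ℚ)⌉ - ⌈((a : ℚ) - v) / ((M : ℤ) : ℚ)⌉ : ℤ) : ℚ)
      ≤ ((D : ℚ) + M) / M := by
    have h2 := Int.ceil_lt_add_one ((((a + D : ℤ) : ℚ) - v) / ((M : ℤ) : ℚ))
    have h3 := Int.le_ceil (((a : ℚ) - v) / ((M : ℤ) : ℚ))
    push_cast at h2 h3 ⊢
    have h4 : ((D : ℚ) + M) / M = ((a : ℚ) + D - v) / M - ((a : ℚ) - v) / M + 1 := by
      field_simp; ring
    rw [h4]
    linarith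
  have h5 : ((((Ico a (a + D)).filter fun x => x ≡ v [ZMOD (M : ℤ)]).card : ℤ) : ℚ) ≤
      ((D : ℚ) + M) / M := by
    rw [h]
    push_cast
    refine max_le ?_ (by positivity)
    push_cast at h1
    exact h1
  have h6 : ((((Ico a (a + D)).filter fun x => x ≡ v [ZMOD (M : ℤ)]).card : ℚ)) ≤
      ((D : ℚ) + M) / M := by exact_mod_cast h5
  have h7 : (((((Ico a (a + D)).filter fun x => x ≡ v [ZMOD (M : ℤ)]).card : ℚ) : ℝ)) ≤
      ((((D : ℚ) + M) / M : ℚ) : ℝ) := by exact_mod_cast h6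
  push_cast at h7
  exact h7

open Classical in
theorem sieve_box {n : ℕ} (S : Finset ℕ) (m : ℕ → ℕ) (hm : ∀ l ∈ S, 0 < m l)
    (hcop : ∀ l ∈ S, ∀ l' ∈ S, l ≠ l' → Nat.Coprime (m l) (m l'))
    (A : ℕ → (Fin n → ℤ) → Prop)
    (hper : ∀ l ∈ S, ∀ t t' : Fin n → ℤ, (∀ i, (m l : ℤ) ∣ t i - t' i) → (A l t ↔ A l t'))
    (β : ℕ → ℝ) (hβ1 : ∀ l ∈ S, β l ≤ 1)
    (hβ : ∀ l ∈ S, β l * (m l : ℝ) ^ n ≤ ((univ.filter fun t : Fin n → Fin (m l) =>
      A l (fun i => ((t i : ℕ) : ℤ))).card : ℝ))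
    (a : Fin n → ℤ) (D : Fin n → ℕ) :
    (((Fintype.piFinset fun i => Ico (a i) (a i + D i)).filter
      fun t => ∀ l ∈ S, ¬ A l t).card : ℝ) ≤
      (∏ i, ((D i : ℝ) + ∏ l ∈ S, (m l : ℝ))) * ∏ l ∈ S, (1 - β l) := by
  set M : ℕ := ∏ l ∈ S, m l with hM
  have hM0 : 0 < M := Finset.prod_pos hm
  have hMR : (∏ l ∈ S, (m l : ℝ)) = (M : ℝ) := by rw [hM]; push_cast; rfl
  have hdvd : ∀ l ∈ S, m l ∣ M := fun l hl => Finset.dvd_prod_of_mem _ hl
  -- good residues modulo `M`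
  set G : Finset (Fin n → Fin M) := univ.filter fun r =>
    ∀ l ∈ S, ¬ A l (fun i => ((r i : ℕ) : ℤ)) with hG
  set g : (l : ℕ) → Finset (Fin n → Fin (m l)) := fun l => univ.filter fun t =>
    ¬ A l (fun i => ((t i : ℕ) : ℤ)) with hg
  have hGc : G.card ≤ ∏ l ∈ S, (g l).card := by
    rw [← Finset.card_pi]
    refine Finset.card_le_card_of_injOn
      (fun r l hl i => ⟨(r i : ℕ) % m l, Nat.mod_lt _ (hm l hl)⟩) ?_ ?_
    · intro r hr
      rw [mem_coe, hG, mem_filter] at hr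
      rw [mem_coe, Finset.mem_pi]
      intro l hl
      rw [hg, mem_filter]
      refine ⟨mem_univ _, fun hA => hr.2 l hl ?_⟩
      refine (hper l hl _ _ ?_).1 hA
      intro i
      simp only
      push_cast
      have : ((r i : ℕ) : ℤ) % (m l : ℤ) - ((r i : ℕ) : ℤ) =
          (m l : ℤ) * -(((r i : ℕ) : ℤ) / (m l : ℤ)) := by
        have := Int.emod_add_mul_ediv ((r i : ℕ) : ℤ) (m l : ℤ)
        linarith
      rw [this]
      exact Dvd.intro _ rfl
    · intro r _ r' _ hrr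
      funext i
      have hcong : ∀ l ∈ S, (r i : ℕ) % m l = (r' i : ℕ) % m l := by
        intro l hl
        have h1 := congrFun (congrFun (congrFun hrr l) hl) i
        exact congrArg Fin.val h1
      have hMZ : ((M : ℕ) : ℤ) = ∏ l ∈ S, (m l : ℤ) := by rw [hM]; push_cast; rfl
      have h2 : ((M : ℕ) : ℤ) ∣ ((r i : ℕ) : ℤ) - ((r' i : ℕ) : ℤ) := by
        rw [hMZ]
        refine Finset.prod_dvd_of_coprime ?_ ?_
        · intro l hl l' hl' hne
          exact Nat.isCoprime_iff_coprime.2 (hcop l hl l' hl' hne)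
        · intro l hl
          have := (Nat.modEq_iff_dvd.1 (show (r' i : ℕ) ≡ (r i : ℕ) [MOD m l] from
            (hcong l hl).symm))
          exact this
      have h3 : (r' i : ℕ) ≡ (r i : ℕ) [MOD M] := Nat.modEq_iff_dvd.2 h2
      have h4 : (r' i : ℕ) = (r i : ℕ) := by
        have h5 : (r' i : ℕ) % M = (r i : ℕ) % M := h3
        rwa [Nat.mod_eq_of_lt (r' i).2, Nat.mod_eq_of_lt (r i).2] at h5
      exact Fin.ext h4.symm
  have hgc : ∀ l ∈ S, ((g l).card : ℝ) ≤ (m l : ℝ) ^ n * (1 - β l) := by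
    intro l hl
    have h1 := Finset.card_filter_add_card_filter_not
      (s := (univ : Finset (Fin n → Fin (m l)))) (fun t => A l (fun i => ((t i : ℕ) : ℤ)))
    have h2 : (univ : Finset (Fin n → Fin (m l))).card = m l ^ n := by
      rw [Finset.card_univ, Fintype.card_fun, Fintype.card_fin, Fintype.card_fin]
    rw [h2] at h1
    have h3 : (((univ.filter fun t : Fin n → Fin (m l) =>
      A l (fun i => ((t i : ℕ) : ℤ))).card : ℝ)) + ((g l).card : ℝ) = (m l : ℝ) ^ n := by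
      exact_mod_cast h1
    have h4 := hβ l hl
    linarith
  have hGR : (G.card : ℝ) ≤ (M : ℝ) ^ n * ∏ l ∈ S, (1 - β l) := by
    calc (G.card : ℝ) ≤ ∏ l ∈ S, ((g l).card : ℝ) := by exact_mod_cast hGc
      _ ≤ ∏ l ∈ S, ((m l : ℝ) ^ n * (1 - β l)) :=
          Finset.prod_le_prod (fun l _ => by positivity) hgc
      _ = (M : ℝ) ^ n * ∏ l ∈ S, (1 - β l) := by
          rw [Finset.prod_mul_distrib, Finset.prod_pow, hMR]
  -- the map to residues
  have hres : ∀ x : ℤ, (x % (M : ℤ)).toNat < M := by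
    intro x
    have h1 := Int.emod_nonneg x (b := (M : ℤ)) (by exact_mod_cast hM0.ne')
    have h2 := Int.emod_lt_of_pos x (b := (M : ℤ)) (by exact_mod_cast hM0)
    omega
  set res : (Fin n → ℤ) → (Fin n → Fin M) := fun t i => ⟨(t i % (M : ℤ)).toNat, hres (t i)⟩
    with hresdef
  have hresv : ∀ t i, (((res t i : ℕ)) : ℤ) = t i % (M : ℤ) := by
    intro t i
    simp only [hresdef]
    exact Int.toNat_of_nonneg (Int.emod_nonneg _ (by exact_mod_cast hM0.ne'))
  set B := (Fintype.piFinset fun i => Ico (a i) (a i + D i)).filter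
      fun t => ∀ l ∈ S, ¬ A l t with hB
  have hmaps : ∀ t ∈ B, res t ∈ G := by
    intro t ht
    rw [hB, mem_filter] at ht
    rw [hG, mem_filter]
    refine ⟨mem_univ _, fun l hl hA => ht.2 l hl ((hper l hl _ _ ?_).1 hA)⟩
    intro i
    simp only [hresv]
    have h1 : t i % (M : ℤ) - t i = (M : ℤ) * -(t i / (M : ℤ)) := by
      have := Int.emod_add_mul_ediv (t i) (M : ℤ)
      linarith
    rw [h1]
    exact ((Int.natCast_dvd_natCast.2 (hdvd l hl)).mul_right _)
  have hfib : ∀ r ∈ G, (((B.filter fun t => res t = r).card : ℕ) : ℝ) ≤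
      ∏ i, (((D i : ℝ) + M) / M) := by
    intro r _
    have hsub : B.filter (fun t => res t = r) ⊆
        Fintype.piFinset fun i => (Ico (a i) (a i + D i)).filter
          fun x => x ≡ ((r i : ℕ) : ℤ) [ZMOD (M : ℤ)] := by
      intro t ht
      rw [mem_filter, hB, mem_filter, Fintype.mem_piFinset] at ht
      rw [Fintype.mem_piFinset]
      intro i
      rw [mem_filter]
      refine ⟨ht.1.1 i, ?_⟩
      have h1 : res t i = r i := congrFun ht.2 i
      rw [← h1, hresv]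
      exact (Int.mod_modEq _ _).symm
    have h2 := Finset.card_le_card hsub
    rw [Fintype.card_piFinset] at h2
    calc (((B.filter fun t => res t = r).card : ℕ) : ℝ)
        ≤ ∏ i, ((((Ico (a i) (a i + D i)).filter
          fun x => x ≡ ((r i : ℕ) : ℤ) [ZMOD (M : ℤ)]).card : ℕ) : ℝ) := by exact_mod_cast h2
      _ ≤ _ := Finset.prod_le_prod (fun i _ => by positivity)
          (fun i _ => card_class (a i) (D i) M hM0 _)
  have hcard : (B.card : ℝ) ≤ G.card * ∏ i, (((D i : ℝ) + M) / M) := by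
    rw [Finset.card_eq_sum_card_fiberwise (f := res) (t := G) (fun t ht => hmaps t ht)]
    push_cast
    calc ∑ r ∈ G, ((B.filter fun t => res t = r).card : ℝ)
        ≤ ∑ r ∈ G, ∏ i, (((D i : ℝ) + M) / M) := Finset.sum_le_sum hfib
      _ = _ := by rw [Finset.sum_const, nsmul_eq_mul]
  have hMpos : (0 : ℝ) < M := by exact_mod_cast hM0
  have hprod : (M : ℝ) ^ n * ∏ i, (((D i : ℝ) + M) / M) = ∏ i, ((D i : ℝ) + M) := by
    rw [Finset.prod_div_distrib, Finset.prod_const, Finset.card_univ, Fintype.card_fin]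
    field_simp
  rw [hMR]
  calc (B.card : ℝ) ≤ G.card * ∏ i, (((D i : ℝ) + M) / M) := hcard
    _ ≤ ((M : ℝ) ^ n * ∏ l ∈ S, (1 - β l)) * ∏ i, (((D i : ℝ) + M) / M) :=
        mul_le_mul_of_nonneg_right hGR (Finset.prod_nonneg fun i _ => by positivity)
    _ = ((M : ℝ) ^ n * ∏ i, (((D i : ℝ) + M) / M)) * ∏ l ∈ S, (1 - β l) := by ring
    _ = _ := by rw [hprod]

end Stoll308.BE
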