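import Pool.Agent.Work.MP_308fa9_nt.BE.BadCount
import Pool.Agent.Work.MP_308fa9_nt.BE.Sieve

set_option autoImplicit false

/-!
Few tuples of a large cube satisfy the local conditions at all primes up to `z`.
-/

namespace Stoll308.BE

open Finset

/-- the primes of `[5, z]` not dividing `κ`. -/
noncomputable def cubeP (κ : ℤ) (z : ℕ) : Finset ℕ :=
  (Icc 5 z).filter fun l => l.Prime ∧ ¬ (l : ℤ) ∣ κ

lemma sum_cubeP (κ : ℤ) (hκ : κ ≠ 0) (T : ℝ) : ∃ z : ℕ, T ≤ ∑ l ∈ cubeP κ z, (1 : ℝ) / l := by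
  set f : ℕ → ℝ := Set.indicator {p : ℕ | p.Prime} (fun n : ℕ => (1 : ℝ) / n) with hf
  have hf0 : ∀ n, 0 ≤ f n := fun n => Set.indicator_nonneg (fun _ _ => by positivity) n
  have h1 : Filter.Tendsto (fun n => ∑ i ∈ range n, f i) Filter.atTop Filter.atTop :=
    (not_summable_iff_tendsto_nat_atTop_of_nonneg hf0).1 not_summable_one_div_on_primes
  set E : Finset ℕ := range 5 ∪ κ.natAbs.divisors with hE
  obtain ⟨N, hN⟩ := (h1.eventually_ge_atTop (T + ∑ i ∈ E, f i)).exists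
  refine ⟨N, ?_⟩
  have h2 : ∑ i ∈ range N, f i ≤ ∑ i ∈ cubeP κ N, (1 : ℝ) / i + ∑ i ∈ E, f i := by
    have h3 : ∑ i ∈ range N, f i ≤ ∑ i ∈ cubeP κ N ∪ E, f i := by
      calc ∑ i ∈ range N, f i = ∑ i ∈ (range N).filter (fun i => i.Prime), f i := by
            rw [Finset.sum_filter]
            refine Finset.sum_congr rfl fun i _ => ?_
            split_ifs with h
            · rfl
            · rw [hf, Set.indicator_of_notMem]; exact h
        _ ≤ _ := by
            refine Finset.sum_le_sum_of_subset_of_nonneg ?_ (fun i _ _ => hf0 i)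
            intro i hi
            rw [mem_filter, mem_range] at hi
            rw [mem_union]
            by_cases h5 : i < 5
            · right; rw [hE, mem_union, mem_range]; exact Or.inl h5
            · by_cases hd : (i : ℤ) ∣ κ
              · right
                rw [hE, mem_union, Nat.mem_divisors]
                exact Or.inr ⟨Int.natCast_dvd.1 hd, Int.natAbs_ne_zero.2 hκ⟩
              · left
                rw [cubeP, mem_filter, mem_Icc]
                exact ⟨⟨not_lt.1 h5, hi.1.le⟩, hi.2, hd⟩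
    have h4 := Finset.sum_union_inter (s₁ := cubeP κ N) (s₂ := E) (f := f)
    have h5 : 0 ≤ ∑ i ∈ cubeP κ N ∩ E, f i := Finset.sum_nonneg fun i _ => hf0 i
    have h6 : ∑ i ∈ cubeP κ N, f i ≤ ∑ i ∈ cubeP κ N, (1 : ℝ) / i := by
      refine Finset.sum_le_sum fun i _ => ?_
      rw [hf]
      exact Set.indicator_le_self' (fun _ _ => by positivity) i
    linarith
  linarith

open Classical in
theorem cube_small (κ : ℤ) (hκ : κ ≠ 0) (ε : ℝ) (hε : 0 < ε) :
    ∃ (z : ℕ) (D₀ : ℝ), ∀ D : ℝ, D₀ ≤ D →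
      (((Fintype.piFinset fun _ : Fin 6 => Icc (-⌊D⌋) ⌊D⌋).filter
        fun t => ∀ l ∈ Icc 5 z, l.Prime → ¬ (l : ℤ) ∣ κ → ¬ Bad κ l t).card : ℝ) ≤ ε * D ^ 6 := by
  obtain ⟨z, hz⟩ := sum_cubeP κ hκ (32 * Real.log (3 ^ 6 / ε))
  set S := cubeP κ z with hS
  have hSmem : ∀ l ∈ S, 5 ≤ l ∧ l.Prime ∧ ¬ (l : ℤ) ∣ κ := by
    intro l hl
    rw [hS, cubeP, mem_filter, mem_Icc] at hl
    exact ⟨hl.1.1, hl.2.1, hl.2.2⟩
  set M : ℝ := ∏ l ∈ S, ((l ^ 2 : ℕ) : ℝ) with hM
  have hM0 : 0 ≤ M := Finset.prod_nonneg fun l _ => by positivity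
  refine ⟨z, M + 1, fun D hD => ?_⟩
  have hD0 : 0 ≤ D := by linarith
  have hfl : 0 ≤ ⌊D⌋ := Int.floor_nonneg.2 hD0
  set L : ℕ := (2 * ⌊D⌋ + 1).toNat with hL
  have hLz : (L : ℤ) = 2 * ⌊D⌋ + 1 := Int.toNat_of_nonneg (by omega)
  have hLR : (L : ℝ) ≤ 2 * D + 1 := by
    have h1 : (L : ℝ) = 2 * (⌊D⌋ : ℝ) + 1 := by exact_mod_cast hLz
    have h2 := Int.floor_le D
    linarith
  have hpow : ∀ l : ℕ, l.Prime → 5 ≤ l → 1 / (32 * (l : ℝ)) ≤ 1 := by
    intro l _ h5
    have : (5 : ℝ) ≤ l := by exact_mod_cast h5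
    rw [div_le_one (by positivity)]
    linarith
  have hbox := sieve_box (n := 6) S (fun l => l ^ 2)
    (fun l hl => pow_pos (hSmem l hl).2.1.pos 2)
    (fun l hl l' hl' hne => Nat.Coprime.pow 2 2
      ((Nat.coprime_primes (hSmem l hl).2.1 (hSmem l' hl').2.1).2 hne))
    (fun l t => Bad κ l t)
    (fun l _ t t' h => bad_congr κ l t t' h)
    (fun l => 1 / (32 * (l : ℝ)))
    (fun l hl => hpow l (hSmem l hl).2.1 (hSmem l hl).1)
    (fun l hl => by
      have h1 := bad_count κ l (hSmem l hl).2.1 (hSmem l hl).1 (hSmem l hl).2.2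
      have hl0 : (l : ℝ) ≠ 0 := by exact_mod_cast (hSmem l hl).2.1.ne_zero
      refine le_trans (le_of_eq ?_) h1
      push_cast
      field_simp)
    (fun _ => -⌊D⌋) (fun _ => L)
  refine le_trans (Nat.cast_le.2 (Finset.card_le_card ?_)) (hbox.trans ?_)
  · intro t ht
    have ht1 := (@Finset.mem_filter _ _ (_) _ _).1 ht
    refine (@Finset.mem_filter _ _ (_) _ _).2 ⟨Fintype.mem_piFinset.2 fun i => ?_, fun l hl => ?_⟩
    · have := Fintype.mem_piFinset.1 ht1.1 i
      rw [mem_Icc] at this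
      rw [mem_Ico, hLz]
      omega
    · have h1 := hl
      rw [hS, cubeP, mem_filter] at h1
      exact ht1.2 l h1.1 h1.2.1 h1.2.2
  have h1 : (∏ _i : Fin 6, ((L : ℝ) + M)) ≤ (3 * D) ^ 6 := by
    rw [Finset.prod_const, Finset.card_univ, Fintype.card_fin]
    exact pow_le_pow_left₀ (by positivity) (by linarith) 6
  have h2 : ∏ l ∈ S, (1 - 1 / (32 * (l : ℝ))) ≤ ε / 3 ^ 6 := by
    calc ∏ l ∈ S, (1 - 1 / (32 * (l : ℝ))) ≤ ∏ l ∈ S, Real.exp (-(1 / (32 * (l : ℝ)))) := by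
          refine Finset.prod_le_prod (fun l hl => ?_) (fun l _ => ?_)
          · have := hpow l (hSmem l hl).2.1 (hSmem l hl).1
            linarith
          · have := Real.add_one_le_exp (-(1 / (32 * (l : ℝ))))
            linarith
      _ = Real.exp (-((∑ l ∈ S, (1 : ℝ) / l) / 32)) := by
          rw [← Real.exp_sum]
          congr 1
          rw [Finset.sum_neg_distrib, Finset.sum_div]
          congr 1
          refine Finset.sum_congr rfl fun l _ => ?_
          rw [div_div, mul_comm]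
      _ ≤ Real.exp (-(Real.log (3 ^ 6 / ε))) := by
          apply Real.exp_le_exp.2
          linarith
      _ = ε / 3 ^ 6 := by
          rw [Real.exp_neg, Real.exp_log (by positivity), inv_div]
  have h3 : 0 ≤ ∏ l ∈ S, (1 - 1 / (32 * (l : ℝ))) :=
    Finset.prod_nonneg fun l hl => by
      have := hpow l (hSmem l hl).2.1 (hSmem l hl).1
      linarith
  calc (∏ _i : Fin 6, ((L : ℝ) + M)) * ∏ l ∈ S, (1 - 1 / (32 * (l : ℝ)))
      ≤ (3 * D) ^ 6 * (ε / 3 ^ 6) := mul_le_mul h1 h2 h3 (by positivity)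
    _ = ε * D ^ 6 := by ring

end Stoll308.BE
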