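import Pool.Agent.Work.MP_308fa9_nt.BE.Basic

set_option autoImplicit false

/-!
Few triples come from reduced tuples with a small parameter.
-/

namespace Stoll308.BE

open Polynomial Finset

namespace Cusp

/-- integers of absolute value at most `B` -/
noncomputable def J (B : ℝ) : Finset ℤ := Finset.Icc (-⌊B⌋) ⌊B⌋

lemma mem_J {B : ℝ} {n : ℤ} (h : |(n : ℝ)| ≤ B) : n ∈ J B := by
  obtain ⟨h1, h2⟩ := abs_le.mp h
  rw [J, Finset.mem_Icc]
  constructor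
  · have : -n ≤ ⌊B⌋ := Int.le_floor.mpr (by push_cast; linarith)
    linarith
  · exact Int.le_floor.mpr h2

lemma card_J {B : ℝ} (hB : 0 ≤ B) : ((J B).card : ℝ) ≤ 2 * B + 1 := by
  rw [J, Int.card_Icc]
  have h0 : 0 ≤ ⌊B⌋ := Int.floor_nonneg.mpr hB
  have h1 : (((⌊B⌋ + 1 - -⌊B⌋).toNat : ℤ) : ℝ) = 2 * (⌊B⌋ : ℝ) + 1 := by
    rw [Int.toNat_of_nonneg (by linarith)]
    push_cast; ring
  have h2 : (((⌊B⌋ + 1 - -⌊B⌋).toNat : ℕ) : ℝ) = 2 * (⌊B⌋ : ℝ) + 1 := by exact_mod_cast h1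
  rw [h2]
  have := Int.floor_le B
  linarith

lemma card_J0 {B : ℝ} (hB : 0 ≤ B) : (((J B).erase 0).card : ℝ) ≤ 2 * B := by
  have h0 : 0 ≤ ⌊B⌋ := Int.floor_nonneg.mpr hB
  have hm : (0 : ℤ) ∈ J B := by
    rw [J, Finset.mem_Icc]; constructor <;> linarith
  have h1 : ((J B).erase 0).card + 1 = (J B).card := Finset.card_erase_add_one hm
  have h2 := card_J hB
  have h3 : (((J B).erase 0).card : ℝ) + 1 = ((J B).card : ℝ) := by exact_mod_cast h1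
  linarith

/-- the number of triples coming from tuples in a box -/
lemma box_bound (B : Fin 6 → ℝ) (hB : ∀ i, 0 ≤ B i) (T : Finset (ℤ × ℤ × ℤ))
    (h : ∀ f ∈ T, ∃ t : Fin 6 → ℤ, t 0 ≠ 0 ∧ (∀ i, |(t i : ℝ)| ≤ B i) ∧
      f = (tb t, tc t, td t)) :
    (T.card : ℝ) ≤ (2 * B 0) * (2 * B 1 + 1) * (2 * B 2 + 1) * (2 * B 3 + 1) *
      (2 * B 4 + 1) * (2 * B 5 + 1) := by
  classical
  set D : Fin 6 → Finset ℤ := fun i => if i = 0 then (J (B 0)).erase 0 else J (B i) with hD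
  set S : Finset (Fin 6 → ℤ) := Fintype.piFinset D with hS
  have hsub : T ⊆ S.image (fun t => (tb t, tc t, td t)) := by
    intro f hf
    obtain ⟨t, h0, ht, rfl⟩ := h f hf
    refine Finset.mem_image_of_mem (fun t => (tb t, tc t, td t)) ?_
    rw [hS, Fintype.mem_piFinset]
    intro i
    simp only [hD]
    split_ifs with hi
    · rw [Finset.mem_erase]
      subst hi
      exact ⟨h0, mem_J (ht 0)⟩
    · exact mem_J (ht i)
  have hc : T.card ≤ S.card := (Finset.card_le_card hsub).trans Finset.card_image_le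
  have hSc : (S.card : ℝ) = ∏ i, ((D i).card : ℝ) := by
    rw [hS, Fintype.card_piFinset]; push_cast; rfl
  have hD0 : ((D 0).card : ℝ) ≤ 2 * B 0 := by
    simp only [hD, if_true]; exact card_J0 (hB 0)
  have hDi : ∀ i : Fin 6, i ≠ 0 → ((D i).card : ℝ) ≤ 2 * B i + 1 := by
    intro i hi
    simp only [hD, if_neg hi]; exact card_J (hB i)
  have hle : (T.card : ℝ) ≤ ∏ i, ((D i).card : ℝ) := by
    rw [← hSc]; exact_mod_cast hc
  have hb : ∏ i, ((D i).card : ℝ) ≤ ∏ i : Fin 6, (if i = 0 then 2 * B 0 else 2 * B i + 1) := by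
    refine Finset.prod_le_prod (fun i _ => Nat.cast_nonneg _) (fun i _ => ?_)
    split_ifs with hi
    · subst hi; exact hD0
    · exact hDi i hi
  refine hle.trans (hb.trans (le_of_eq ?_))
  rw [Fin.prod_univ_six]
  rfl

/-- small powers are at most 2 -/
lemma pow_le_two {s : ℝ} (hs : 0 < s) (h : s ^ 24 ≤ 2) (n : ℕ) (hn : n ≤ 24) : s ^ n ≤ 2 := by
  rcases le_total s 1 with h1 | h1
  · exact (pow_le_one₀ hs.le h1).trans (by norm_num)
  · exact (pow_le_pow_right₀ h1 hn).trans h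

/-- translation making `m` small -/
lemma exists_trans (q m : ℤ) (hq : q ≠ 0) : ∃ j : ℤ, |m + 2 * j * q| ≤ |q| ∧ |j| * |q| ≤ |m| := by
  have hq0 : 0 < |q| := abs_pos.mpr hq
  have hn : 0 < 2 * |q| := by linarith
  have h1 := Int.emod_add_mul_ediv (m + |q|) (2 * |q|)
  have h2 := Int.emod_nonneg (m + |q|) hn.ne'
  have h3 := Int.emod_lt_of_pos (m + |q|) hn
  set r := (m + |q|) % (2 * |q|) - |q| with hr
  set a := (m + |q|) / (2 * |q|) with ha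
  have hm : m = 2 * |q| * a + r := by linarith
  have hr1 : |r| ≤ |q| := abs_le.mpr ⟨by linarith, by linarith⟩
  have key : ∀ j : ℤ, |j| = |a| → |j| * |q| ≤ |m| := by
    intro j hj
    rw [hj]
    rcases eq_or_ne a 0 with h0 | h0
    · rw [h0]; simp
    · have h4 : 1 ≤ |a| := Int.one_le_abs h0
      have h5 : |2 * |q| * a| ≤ |m| + |r| := by
        have : 2 * |q| * a = m - r := by linarith
        rw [this]; exact abs_sub m r
      rw [abs_mul, abs_mul, abs_abs] at h5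
      have h6 : |q| * 1 ≤ |q| * |a| := mul_le_mul_of_nonneg_left h4 hq0.le
      have h7 : |(2 : ℤ)| = 2 := rfl
      rw [h7] at h5
      nlinarith
  rcases abs_choice q with hc | hc
  · refine ⟨-a, ?_, key (-a) (abs_neg a)⟩
    have : m + 2 * -a * q = r := by
      rw [hc] at hm; linarith
    rw [this]; exact hr1
  · refine ⟨a, ?_, key a rfl⟩
    have : m + 2 * a * q = r := by
      rw [hc] at hm; linarith
    rw [this]; exact hr1

/-- numerical bound for the first box -/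
lemma prod1 {Y s w : ℝ} (hY : 1 ≤ Y) (hs : 0 < s) (hw : 0 < w) (hsw : s * w = 1)
    (h24 : s ^ 24 ≤ 2) (hYs : 1 ≤ Y * s ^ 24) :
    (2 * (Y * s ^ 25)) * (2 * (2 * Y * s ^ 12) + 1) * (2 * (2 * Y) + 1) * (2 * (2 * Y) + 1) *
      (2 * (6 * Y * w ^ 12) + 1) * (2 * (8 * Y * w ^ 24) + 1) ≤ 75600 * Y ^ 6 * s := by
  have hY0 : 0 < Y := by linarith
  have e12 : s ^ 12 * w ^ 12 = 1 := by rw [← mul_pow, hsw, one_pow]
  have e24 : s ^ 24 * w ^ 24 = 1 := by rw [← mul_pow, hsw, one_pow]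
  have p12 := pow_le_two hs h24 12 (by norm_num)
  have hs12 : 0 < s ^ 12 := by positivity
  have hw12 : 0 < w ^ 12 := by positivity
  have hw24 : 0 < w ^ 24 := by positivity
  have a1 : 2 * (2 * Y * s ^ 12) + 1 ≤ 6 * Y * s ^ 12 := by
    have : 1 ≤ 2 * (Y * s ^ 12) := by
      have h : Y * s ^ 24 = (Y * s ^ 12) * s ^ 12 := by ring
      have h2 : (Y * s ^ 12) * s ^ 12 ≤ (Y * s ^ 12) * 2 :=
        mul_le_mul_of_nonneg_left p12 (by positivity)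
      linarith
    linarith
  have a2 : 2 * (2 * Y) + 1 ≤ 5 * Y := by linarith
  have a3 : 2 * (6 * Y * w ^ 12) + 1 ≤ 14 * Y * w ^ 12 := by
    have h1 : 1 ≤ 2 * w ^ 12 := by
      calc (1 : ℝ) = s ^ 12 * w ^ 12 := e12.symm
        _ ≤ 2 * w ^ 12 := mul_le_mul_of_nonneg_right p12 hw12.le
    have h2 : 2 * w ^ 12 ≤ 2 * (Y * w ^ 12) := by nlinarith
    linarith
  have a4 : 2 * (8 * Y * w ^ 24) + 1 ≤ 18 * Y * w ^ 24 := by
    have h1 : 1 ≤ 2 * w ^ 24 := by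
      calc (1 : ℝ) = s ^ 24 * w ^ 24 := e24.symm
        _ ≤ 2 * w ^ 24 := mul_le_mul_of_nonneg_right h24 hw24.le
    have h2 : 2 * w ^ 24 ≤ 2 * (Y * w ^ 24) := by nlinarith
    linarith
  calc (2 * (Y * s ^ 25)) * (2 * (2 * Y * s ^ 12) + 1) * (2 * (2 * Y) + 1) * (2 * (2 * Y) + 1) *
      (2 * (6 * Y * w ^ 12) + 1) * (2 * (8 * Y * w ^ 24) + 1)
      ≤ (2 * (Y * s ^ 25)) * (6 * Y * s ^ 12) * (5 * Y) * (5 * Y) *
      (14 * Y * w ^ 12) * (18 * Y * w ^ 24) := by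
        have b1 : 0 ≤ 2 * (Y * s ^ 25) := by positivity
        have b2 : 0 ≤ 2 * (2 * Y * s ^ 12) + 1 := by positivity
        have b3 : 0 ≤ 2 * (2 * Y) + 1 := by positivity
        have b4 : 0 ≤ 2 * (6 * Y * w ^ 12) + 1 := by positivity
        have b5 : 0 ≤ 2 * (8 * Y * w ^ 24) + 1 := by positivity
        have c1 := mul_le_mul_of_nonneg_left a1 b1
        have c2 := mul_le_mul c1 a2 b3 (by positivity)
        have c3 := mul_le_mul c2 a2 b3 (by positivity)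
        have c4 := mul_le_mul c3 a3 b4 (by positivity)
        exact mul_le_mul c4 a4 b5 (by positivity)
    _ = 75600 * Y ^ 6 * s * ((s ^ 12 * w ^ 12) * (s ^ 24 * w ^ 24)) := by ring
    _ = 75600 * Y ^ 6 * s := by rw [e12, e24]; ring

/-- numerical bound for the second box -/
lemma prod2 {Y s w : ℝ} (hY : 1 ≤ Y) (hs : 0 < s) (hw : 0 < w) (hsw : s * w = 1)
    (h24 : s ^ 24 ≤ 2) (hYs : 1 ≤ Y * s ^ 24) :
    (2 * (Y * s ^ 24)) * (2 * (Y * s ^ 24) + 1) * (2 * (20 * Y * w) + 1) *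
      (2 * (20 * Y * w) + 1) * (2 * (140 * Y * w ^ 14) + 1) * (2 * (496 * Y * w ^ 27) + 1) ≤
      6000000000 * Y ^ 6 * s := by
  have hY0 : 0 < Y := by linarith
  have e14 : s ^ 14 * w ^ 14 = 1 := by rw [← mul_pow, hsw, one_pow]
  have e27 : s ^ 27 * w ^ 27 = 1 := by rw [← mul_pow, hsw, one_pow]
  have p1 := pow_le_two hs h24 1 (by norm_num)
  have p3 := pow_le_two hs h24 3 (by norm_num)
  have p4 := pow_le_two hs h24 4 (by norm_num)
  have p14 := pow_le_two hs h24 14 (by norm_num)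
  rw [pow_one] at p1
  have p27 : s ^ 27 ≤ 4 := by
    have h : s ^ 27 = s ^ 24 * s ^ 3 := by ring
    rw [h]
    calc s ^ 24 * s ^ 3 ≤ 2 * 2 := mul_le_mul h24 p3 (by positivity) (by norm_num)
      _ = 4 := by norm_num
  have hw14 : 0 < w ^ 14 := by positivity
  have hw27 : 0 < w ^ 27 := by positivity
  have a1 : 2 * (Y * s ^ 24) + 1 ≤ 3 * (Y * s ^ 24) := by linarith
  have a2 : 2 * (20 * Y * w) + 1 ≤ 42 * Y * w := by
    have h1 : 1 ≤ 2 * w := by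
      calc (1 : ℝ) = s * w := hsw.symm
        _ ≤ 2 * w := mul_le_mul_of_nonneg_right p1 hw.le
    have h2 : 2 * w ≤ 2 * (Y * w) := by nlinarith
    linarith
  have a3 : 2 * (140 * Y * w ^ 14) + 1 ≤ 282 * Y * w ^ 14 := by
    have h1 : 1 ≤ 2 * w ^ 14 := by
      calc (1 : ℝ) = s ^ 14 * w ^ 14 := e14.symm
        _ ≤ 2 * w ^ 14 := mul_le_mul_of_nonneg_right p14 hw14.le
    have h2 : 2 * w ^ 14 ≤ 2 * (Y * w ^ 14) := by nlinarith
    linarith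
  have a4 : 2 * (496 * Y * w ^ 27) + 1 ≤ 996 * Y * w ^ 27 := by
    have h1 : 1 ≤ 4 * w ^ 27 := by
      calc (1 : ℝ) = s ^ 27 * w ^ 27 := e27.symm
        _ ≤ 4 * w ^ 27 := mul_le_mul_of_nonneg_right p27 hw27.le
    have h2 : 4 * w ^ 27 ≤ 4 * (Y * w ^ 27) := by nlinarith
    linarith
  have e5 : s * w * (s * w) = 1 := by rw [hsw]; norm_num
  calc (2 * (Y * s ^ 24)) * (2 * (Y * s ^ 24) + 1) * (2 * (20 * Y * w) + 1) *
      (2 * (20 * Y * w) + 1) * (2 * (140 * Y * w ^ 14) + 1) * (2 * (496 * Y * w ^ 27) + 1)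
      ≤ (2 * (Y * s ^ 24)) * (3 * (Y * s ^ 24)) * (42 * Y * w) * (42 * Y * w) *
      (282 * Y * w ^ 14) * (996 * Y * w ^ 27) := by
        have b1 : 0 ≤ 2 * (Y * s ^ 24) := by positivity
        have b3 : 0 ≤ 2 * (20 * Y * w) + 1 := by positivity
        have b4 : 0 ≤ 2 * (140 * Y * w ^ 14) + 1 := by positivity
        have b5 : 0 ≤ 2 * (496 * Y * w ^ 27) + 1 := by positivity
        have c1 := mul_le_mul_of_nonneg_left a1 b1
        have c2 := mul_le_mul c1 a2 b3 (by positivity)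
        have c3 := mul_le_mul c2 a2 b3 (by positivity)
        have c4 := mul_le_mul c3 a3 b4 (by positivity)
        exact mul_le_mul c4 a4 b5 (by positivity)
    _ = 2972749248 * Y ^ 6 * s * s ^ 4 * (s * w * (s * w) * (s ^ 14 * w ^ 14) *
          (s ^ 27 * w ^ 27)) := by ring
    _ = 2972749248 * Y ^ 6 * s * s ^ 4 := by rw [e5, e14, e27]; ring
    _ ≤ 2972749248 * Y ^ 6 * s * 2 := mul_le_mul_of_nonneg_left p4 (by positivity)
    _ ≤ 6000000000 * Y ^ 6 * s := by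
        have : 0 ≤ Y ^ 6 * s := by positivity
        nlinarith

/-- bounds after the translation -/
lemma trans_bounds {Y s w : ℝ} (hY : 1 ≤ Y) (hs : 0 < s) (hw : 0 < w) (hsw : s * w = 1)
    (h24 : s ^ 24 ≤ 2) (t : Fin 6 → ℤ) (h0 : t 0 ≠ 0) (hq1 : |(t 0 : ℝ)| ≤ Y * s ^ 24)
    (hq2 : Y * s ^ 25 < |(t 0 : ℝ)|) (hm : |(t 1 : ℝ)| ≤ 2 * Y * s ^ 12)
    (hu : |(t 2 : ℝ)| ≤ 2 * Y) (hv : |(t 3 : ℝ)| ≤ 2 * Y) (hh : |(t 4 : ℝ)| ≤ 6 * Y * w ^ 12)
    (hk : |(t 5 : ℝ)| ≤ 8 * Y * w ^ 24) :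
    ∃ t' : Fin 6 → ℤ, t' 0 ≠ 0 ∧ (∀ i, |(t' i : ℝ)| ≤
      (![Y * s ^ 24, Y * s ^ 24, 20 * Y * w, 20 * Y * w, 140 * Y * w ^ 14, 496 * Y * w ^ 27] :
        Fin 6 → ℝ) i) ∧ (tb t, tc t, td t) = (tb t', tc t', td t') := by
  have hY0 : 0 < Y := by linarith
  obtain ⟨j, hj1, hj2⟩ := exists_trans (t 0) (t 1) h0
  refine ⟨tN j t, by simpa [tN] using h0, ?_, by rw [tb_tN, tc_tN, td_tN]⟩
  -- real versions
  have hj1' : |(t 1 : ℝ) + 2 * j * t 0| ≤ |(t 0 : ℝ)| := by exact_mod_cast hj1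
  have hj2' : |(j : ℝ)| * |(t 0 : ℝ)| ≤ |(t 1 : ℝ)| := by exact_mod_cast hj2
  generalize hq : (t 0 : ℝ) = q at *
  generalize hm' : (t 1 : ℝ) = m at *
  generalize hu' : (t 2 : ℝ) = u at *
  generalize hv' : (t 3 : ℝ) = v at *
  generalize hh' : (t 4 : ℝ) = h at *
  generalize hk' : (t 5 : ℝ) = k at *
  generalize hj' : (j : ℝ) = x at *
  have p1 := pow_le_two hs h24 1 (by norm_num)
  have p2 := pow_le_two hs h24 2 (by norm_num)
  have p3 := pow_le_two hs h24 3 (by norm_num)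
  rw [pow_one] at p1
  have e12 : s ^ 12 * w ^ 12 = 1 := by rw [← mul_pow, hsw, one_pow]
  have e13 : s ^ 13 * w ^ 13 = 1 := by rw [← mul_pow, hsw, one_pow]
  have e2 : s ^ 2 * w ^ 2 = 1 := by rw [← mul_pow, hsw, one_pow]
  have e3 : s ^ 3 * w ^ 3 = 1 := by rw [← mul_pow, hsw, one_pow]
  have hx0 : 0 ≤ |x| := abs_nonneg x
  have hxs : |x| * s ^ 13 ≤ 2 := by
    have h1 : |x| * (Y * s ^ 25) ≤ 2 * Y * s ^ 12 :=
      (mul_le_mul_of_nonneg_left hq2.le hx0).trans (hj2'.trans hm)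
    have h2 : (|x| * s ^ 13) * (Y * s ^ 12) ≤ 2 * (Y * s ^ 12) := by
      calc (|x| * s ^ 13) * (Y * s ^ 12) = |x| * (Y * s ^ 25) := by ring
        _ ≤ 2 * Y * s ^ 12 := h1
        _ = 2 * (Y * s ^ 12) := by ring
    exact le_of_mul_le_mul_right h2 (by positivity)
  have hx : |x| ≤ 2 * w ^ 13 := by
    calc |x| = (|x| * s ^ 13) * w ^ 13 := by rw [mul_assoc, e13, mul_one]
      _ ≤ 2 * w ^ 13 := mul_le_mul_of_nonneg_right hxs (by positivity)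
  have hxq : |x| * |q| ≤ 2 * Y * s ^ 12 := hj2'.trans hm
  have hx2 : |x| ^ 2 ≤ 4 * w ^ 26 := by
    calc |x| ^ 2 ≤ (2 * w ^ 13) ^ 2 := pow_le_pow_left₀ hx0 hx 2
      _ = 4 * w ^ 26 := by ring
  have hx3 : |x| ^ 3 ≤ 8 * w ^ 39 := by
    calc |x| ^ 3 ≤ (2 * w ^ 13) ^ 3 := pow_le_pow_left₀ hx0 hx 3
      _ = 8 * w ^ 39 := by ring
  -- the elementary terms
  have T1 : |x * m| ≤ 4 * Y * w := by
    rw [abs_mul]
    calc |x| * |m| ≤ (2 * w ^ 13) * (2 * Y * s ^ 12) :=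
          mul_le_mul hx hm (abs_nonneg _) (by positivity)
      _ = 4 * Y * w * (s ^ 12 * w ^ 12) := by ring
      _ = 4 * Y * w := by rw [e12, mul_one]
  have T2 : |x ^ 2 * q| ≤ 4 * Y * w := by
    have : |x ^ 2 * q| = |x| * (|x| * |q|) := by rw [abs_mul, abs_pow]; ring
    rw [this]
    calc |x| * (|x| * |q|) ≤ (2 * w ^ 13) * (2 * Y * s ^ 12) :=
          mul_le_mul hx hxq (by positivity) (by positivity)
      _ = 4 * Y * w * (s ^ 12 * w ^ 12) := by ring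
      _ = 4 * Y * w := by rw [e12, mul_one]
  have hvu : |v - 2 * u| ≤ 6 * Y := by
    obtain ⟨a1, a2⟩ := abs_le.mp hu
    obtain ⟨a3, a4⟩ := abs_le.mp hv
    exact abs_le.mpr ⟨by linarith, by linarith⟩
  have T3 : |x * (v - 2 * u)| ≤ 12 * Y * w ^ 13 := by
    rw [abs_mul]
    calc |x| * |v - 2 * u| ≤ (2 * w ^ 13) * (6 * Y) :=
          mul_le_mul hx hvu (abs_nonneg _) (by positivity)
      _ = 12 * Y * w ^ 13 := by ring
  have T4 : |x ^ 2 * m| ≤ 8 * Y * w ^ 14 := by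
    rw [abs_mul, abs_pow]
    calc |x| ^ 2 * |m| ≤ (4 * w ^ 26) * (2 * Y * s ^ 12) :=
          mul_le_mul hx2 hm (abs_nonneg _) (by positivity)
      _ = 8 * Y * w ^ 14 * (s ^ 12 * w ^ 12) := by ring
      _ = 8 * Y * w ^ 14 := by rw [e12, mul_one]
  have T5 : |x ^ 3 * q| ≤ 8 * Y * w ^ 14 := by
    have : |x ^ 3 * q| = |x| ^ 2 * (|x| * |q|) := by rw [abs_mul, abs_pow]; ring
    rw [this]
    calc |x| ^ 2 * (|x| * |q|) ≤ (4 * w ^ 26) * (2 * Y * s ^ 12) :=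
          mul_le_mul hx2 hxq (by positivity) (by positivity)
      _ = 8 * Y * w ^ 14 * (s ^ 12 * w ^ 12) := by ring
      _ = 8 * Y * w ^ 14 := by rw [e12, mul_one]
  have T6 : |x * h| ≤ 12 * Y * w ^ 25 := by
    rw [abs_mul]
    calc |x| * |h| ≤ (2 * w ^ 13) * (6 * Y * w ^ 12) :=
          mul_le_mul hx hh (abs_nonneg _) (by positivity)
      _ = 12 * Y * w ^ 25 := by ring
  have T7 : |x ^ 2 * (v - 2 * u)| ≤ 24 * Y * w ^ 26 := by
    rw [abs_mul, abs_pow]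
    calc |x| ^ 2 * |v - 2 * u| ≤ (4 * w ^ 26) * (6 * Y) :=
          mul_le_mul hx2 hvu (abs_nonneg _) (by positivity)
      _ = 24 * Y * w ^ 26 := by ring
  have T8 : |x ^ 3 * m| ≤ 16 * Y * w ^ 27 := by
    rw [abs_mul, abs_pow]
    calc |x| ^ 3 * |m| ≤ (8 * w ^ 39) * (2 * Y * s ^ 12) :=
          mul_le_mul hx3 hm (abs_nonneg _) (by positivity)
      _ = 16 * Y * w ^ 27 * (s ^ 12 * w ^ 12) := by ring
      _ = 16 * Y * w ^ 27 := by rw [e12, mul_one]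
  have T9 : |x ^ 4 * q| ≤ 16 * Y * w ^ 27 := by
    have : |x ^ 4 * q| = |x| ^ 3 * (|x| * |q|) := by rw [abs_mul, abs_pow]; ring
    rw [this]
    calc |x| ^ 3 * (|x| * |q|) ≤ (8 * w ^ 39) * (2 * Y * s ^ 12) :=
          mul_le_mul hx3 hxq (by positivity) (by positivity)
      _ = 16 * Y * w ^ 27 * (s ^ 12 * w ^ 12) := by ring
      _ = 16 * Y * w ^ 27 := by rw [e12, mul_one]
  -- comparison of powers of w
  have c1 : 1 ≤ 2 * w := by
    calc (1 : ℝ) = s * w := hsw.symm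
      _ ≤ 2 * w := mul_le_mul_of_nonneg_right p1 hw.le
  have c2 : 1 ≤ 2 * w ^ 2 := by
    calc (1 : ℝ) = s ^ 2 * w ^ 2 := e2.symm
      _ ≤ 2 * w ^ 2 := mul_le_mul_of_nonneg_right p2 (by positivity)
  have c3 : 1 ≤ 2 * w ^ 3 := by
    calc (1 : ℝ) = s ^ 3 * w ^ 3 := e3.symm
      _ ≤ 2 * w ^ 3 := mul_le_mul_of_nonneg_right p3 (by positivity)
  have d1 : Y ≤ 2 * (Y * w) := by
    calc Y = Y * 1 := (mul_one _).symm
      _ ≤ Y * (2 * w) := mul_le_mul_of_nonneg_left c1 (by positivity)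
      _ = 2 * (Y * w) := by ring
  have d2 : Y * w ^ 12 ≤ 2 * (Y * w ^ 14) := by
    calc Y * w ^ 12 = Y * w ^ 12 * 1 := (mul_one _).symm
      _ ≤ Y * w ^ 12 * (2 * w ^ 2) := mul_le_mul_of_nonneg_left c2 (by positivity)
      _ = 2 * (Y * w ^ 14) := by ring
  have d3 : Y * w ^ 13 ≤ 2 * (Y * w ^ 14) := by
    calc Y * w ^ 13 = Y * w ^ 13 * 1 := (mul_one _).symm
      _ ≤ Y * w ^ 13 * (2 * w) := mul_le_mul_of_nonneg_left c1 (by positivity)
      _ = 2 * (Y * w ^ 14) := by ring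
  have d4 : Y * w ^ 24 ≤ 2 * (Y * w ^ 27) := by
    calc Y * w ^ 24 = Y * w ^ 24 * 1 := (mul_one _).symm
      _ ≤ Y * w ^ 24 * (2 * w ^ 3) := mul_le_mul_of_nonneg_left c3 (by positivity)
      _ = 2 * (Y * w ^ 27) := by ring
  have d5 : Y * w ^ 25 ≤ 2 * (Y * w ^ 27) := by
    calc Y * w ^ 25 = Y * w ^ 25 * 1 := (mul_one _).symm
      _ ≤ Y * w ^ 25 * (2 * w ^ 2) := mul_le_mul_of_nonneg_left c2 (by positivity)
      _ = 2 * (Y * w ^ 27) := by ring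
  have d6 : Y * w ^ 26 ≤ 2 * (Y * w ^ 27) := by
    calc Y * w ^ 26 = Y * w ^ 26 * 1 := (mul_one _).symm
      _ ≤ Y * w ^ 26 * (2 * w) := mul_le_mul_of_nonneg_left c1 (by positivity)
      _ = 2 * (Y * w ^ 27) := by ring
  rw [abs_le] at T1 T2 T3 T4 T5 T6 T7 T8 T9 hu hv hh hk
  obtain ⟨T1a, T1b⟩ := T1
  obtain ⟨T2a, T2b⟩ := T2
  obtain ⟨T3a, T3b⟩ := T3
  obtain ⟨T4a, T4b⟩ := T4
  obtain ⟨T5a, T5b⟩ := T5
  obtain ⟨T6a, T6b⟩ := T6
  obtain ⟨T7a, T7b⟩ := T7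
  obtain ⟨T8a, T8b⟩ := T8
  obtain ⟨T9a, T9b⟩ := T9
  obtain ⟨ua, ub⟩ := hu
  obtain ⟨va, vb⟩ := hv
  obtain ⟨ha, hb⟩ := hh
  obtain ⟨ka, kb⟩ := hk
  have f2 : |u + 2 * x * m + 2 * x ^ 2 * q| ≤ 20 * Y * w := by
    rw [abs_le]
    constructor <;> linarith
  have f3 : |v - 2 * x * m - 2 * x ^ 2 * q| ≤ 20 * Y * w := by
    rw [abs_le]
    constructor <;> linarith
  have f4 : |h + 2 * x * (v - 2 * u) - 6 * x ^ 2 * m - 4 * x ^ 3 * q| ≤ 140 * Y * w ^ 14 := by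
    rw [abs_le]
    constructor <;> linarith
  have f5 : |k - 4 * x * h + 4 * x ^ 2 * (2 * u - v) + 8 * x ^ 3 * m + 4 * x ^ 4 * q| ≤
      496 * Y * w ^ 27 := by
    rw [abs_le]
    constructor <;> linarith
  have f1 : |m + 2 * x * q| ≤ Y * s ^ 24 := hj1'.trans hq1
  subst hq hm' hu' hv' hh' hk' hj'
  intro i
  fin_cases i
  · simpa [tN] using hq1
  · simpa [tN] using f1
  · simpa [tN] using f2
  · simpa [tN] using f3
  · simpa [tN] using f4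
  · simpa [tN] using f5

/-- one dyadic scale -/
lemma scale {Y σ : ℝ} (hY : 1 ≤ Y) (hσ : 0 < σ) (hσ2 : σ ≤ 2) (T : Finset (ℤ × ℤ × ℤ))
    (h : ∀ f ∈ T, ∃ (t : Fin 6 → ℤ) (τ : ℝ), σ / 2 < τ ∧ τ ≤ σ ∧ Red Y τ t ∧
      f = (tb t, tc t, td t)) :
    (T.card : ℝ) ≤ 7000000000 * Y ^ 6 * σ ^ (1 / 24 : ℝ) := by
  classical
  have hY0 : 0 < Y := by linarith
  set s : ℝ := σ ^ (1 / 24 : ℝ) with hs
  have hs0 : 0 < s := Real.rpow_pos_of_pos hσ _
  have hs24 : s ^ 24 = σ := by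
    rw [hs, ← Real.rpow_natCast, ← Real.rpow_mul hσ.le]
    norm_num
  set w : ℝ := s⁻¹ with hw
  have hw0 : 0 < w := inv_pos.mpr hs0
  have hsw : s * w = 1 := mul_inv_cancel₀ hs0.ne'
  have h24 : s ^ 24 ≤ 2 := by rw [hs24]; exact hσ2
  rcases T.eq_empty_or_nonempty with he | ⟨f0, hf0⟩
  · rw [he]
    simp only [Finset.card_empty, Nat.cast_zero]
    positivity
  have hYs : 1 ≤ Y * s ^ 24 := by
    obtain ⟨t, τ, -, h2, h3, -⟩ := h f0 hf0
    obtain ⟨a1, a2, a3, a4, -⟩ := h3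
    have h5 : (1 : ℝ) ≤ |(t 0 : ℝ)| := by
      have := Int.one_le_abs a3
      exact_mod_cast this
    rw [hs24]
    exact h5.trans (a4.trans (mul_le_mul_of_nonneg_left h2 hY0.le))
  -- bounds from `Red`
  have hred : ∀ (t : Fin 6 → ℤ) (τ : ℝ), σ / 2 < τ → τ ≤ σ → Red Y τ t →
      t 0 ≠ 0 ∧ |(t 0 : ℝ)| ≤ Y * s ^ 24 ∧ |(t 1 : ℝ)| ≤ 2 * Y * s ^ 12 ∧
      |(t 2 : ℝ)| ≤ 2 * Y ∧ |(t 3 : ℝ)| ≤ 2 * Y ∧ |(t 4 : ℝ)| ≤ 6 * Y * w ^ 12 ∧
      |(t 5 : ℝ)| ≤ 8 * Y * w ^ 24 := by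
    intro t τ h1 h2 h3
    obtain ⟨a1, a2, a3, a4, a5, a6, a7, a8, a9⟩ := h3
    have hs12 : 0 < s ^ 12 := by positivity
    have e1 : √τ ≤ s ^ 12 := by
      rw [Real.sqrt_le_left hs12.le]
      calc τ ≤ σ := h2
        _ = s ^ 24 := hs24.symm
        _ = (s ^ 12) ^ 2 := by ring
    have e2 : 2 / 3 * s ^ 12 ≤ √τ := by
      apply Real.le_sqrt_of_sq_le
      calc (2 / 3 * s ^ 12) ^ 2 = 4 / 9 * s ^ 24 := by ring
        _ = 4 / 9 * σ := by rw [hs24]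
        _ ≤ σ / 2 := by linarith
        _ ≤ τ := h1.le
    refine ⟨a3, ?_, ?_, a6, a7, ?_, ?_⟩
    · rw [hs24]; exact a4.trans (mul_le_mul_of_nonneg_left h2 hY0.le)
    · exact a5.trans (mul_le_mul_of_nonneg_left e1 (by positivity))
    · refine a8.trans ?_
      calc 4 * Y / √τ ≤ 4 * Y / (2 / 3 * s ^ 12) :=
            div_le_div_of_nonneg_left (by positivity) (by positivity) e2
        _ = 6 * Y * w ^ 12 := by
            rw [hw]; field_simp; ring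
    · refine a9.trans ?_
      calc 4 * Y / τ ≤ 4 * Y / (σ / 2) :=
            div_le_div_of_nonneg_left (by positivity) (by positivity) h1.le
        _ = 8 * Y * w ^ 24 := by
            rw [hw, inv_pow, hs24]; field_simp; ring
  set P : ℤ × ℤ × ℤ → Prop := fun f => ∃ t : Fin 6 → ℤ, t 0 ≠ 0 ∧ (∀ i, |(t i : ℝ)| ≤
    (![Y * s ^ 25, 2 * Y * s ^ 12, 2 * Y, 2 * Y, 6 * Y * w ^ 12, 8 * Y * w ^ 24] :
      Fin 6 → ℝ) i) ∧ f = (tb t, tc t, td t) with hP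
  have hcard : (T.card : ℝ) = ((T.filter P).card : ℝ) + ((T.filter (fun f => ¬ P f)).card : ℝ) := by
    exact_mod_cast (Finset.card_filter_add_card_filter_not (s := T) P).symm
  have hc1 : ((T.filter P).card : ℝ) ≤ 75600 * Y ^ 6 * s := by
    refine (box_bound ![Y * s ^ 25, 2 * Y * s ^ 12, 2 * Y, 2 * Y, 6 * Y * w ^ 12, 8 * Y * w ^ 24]
      ?_ (T.filter P) ?_).trans ?_
    · intro i
      fin_cases i <;> simp <;> positivity
    · intro f hf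
      exact (Finset.mem_filter.mp hf).2
    · exact prod1 hY hs0 hw0 hsw h24 hYs
  have hc2 : ((T.filter (fun f => ¬ P f)).card : ℝ) ≤ 6000000000 * Y ^ 6 * s := by
    refine (box_bound ![Y * s ^ 24, Y * s ^ 24, 20 * Y * w, 20 * Y * w, 140 * Y * w ^ 14,
      496 * Y * w ^ 27] ?_ (T.filter (fun f => ¬ P f)) ?_).trans ?_
    · intro i
      fin_cases i <;> simp <;> positivity
    · intro f hf
      obtain ⟨hfT, hfP⟩ := Finset.mem_filter.mp hf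
      obtain ⟨t, τ, h1, h2, h3, h4⟩ := h f hfT
      obtain ⟨b0, b1, b2, b3, b4, b5, b6⟩ := hred t τ h1 h2 h3
      have hq2 : Y * s ^ 25 < |(t 0 : ℝ)| := by
        by_contra hcon
        rw [not_lt] at hcon
        apply hfP
        refine ⟨t, b0, ?_, h4⟩
        intro i
        fin_cases i
        · simpa using hcon
        · simpa using b2
        · simpa using b3
        · simpa using b4
        · simpa using b5
        · simpa using b6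
      obtain ⟨t', c0, c1, c2⟩ := trans_bounds hY hs0 hw0 hsw h24 t b0 b1 hq2 b2 b3 b4 b5 b6
      exact ⟨t', c0, c1, h4.trans c2⟩
    · exact prod2 hY hs0 hw0 hsw h24 hYs
  have hpos : 0 ≤ Y ^ 6 * s := by positivity
  rw [hcard]
  nlinarith

end Cusp

theorem cusp : ∃ A : ℝ, 0 < A ∧ ∀ Y τ₀ : ℝ, 1 ≤ Y → 0 < τ₀ → τ₀ ≤ 2 →
    ∀ T : Finset (ℤ × ℤ × ℤ), (∀ f ∈ T, ∃ (t : Fin 6 → ℤ) (τ : ℝ), τ ≤ τ₀ ∧ Red Y τ t ∧
      f = (tb t, tc t, td t)) → (T.card : ℝ) ≤ A * Y ^ 6 * τ₀ ^ (1 / 24 : ℝ) := by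
  classical
  set r : ℝ := (1 / 2 : ℝ) ^ (1 / 24 : ℝ) with hr
  have hr0 : 0 < r := Real.rpow_pos_of_pos (by norm_num) _
  have hr1 : r < 1 := Real.rpow_lt_one (by norm_num) (by norm_num) (by norm_num)
  refine ⟨7000000000 * (1 - r)⁻¹, mul_pos (by norm_num) (inv_pos.mpr (by linarith)), ?_⟩
  intro Y τ₀ hY hτ hτ2 T hT
  have hY0 : 0 < Y := by linarith
  set Q : ℕ → ℤ × ℤ × ℤ → Prop := fun n f => ∃ (t : Fin 6 → ℤ) (τ : ℝ),
    (τ₀ * (1 / 2) ^ n) / 2 < τ ∧ τ ≤ τ₀ * (1 / 2) ^ n ∧ Red Y τ t ∧ f = (tb t, tc t, td t) with hQ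
  have hex : ∀ f ∈ T, ∃ n, Q n f := by
    intro f hf
    obtain ⟨t, τ, h1, h2, h3⟩ := hT f hf
    have hτ0 : 0 < τ := h2.1
    obtain ⟨n, hn1, hn2⟩ := exists_nat_pow_near_of_lt_one (x := τ / τ₀) (y := (1 / 2 : ℝ))
      (by positivity) ((div_le_one hτ).mpr h1) (by norm_num) (by norm_num)
    refine ⟨n, t, τ, ?_, ?_, h2, h3⟩
    · rw [lt_div_iff₀ hτ] at hn1
      calc τ₀ * (1 / 2) ^ n / 2 = (1 / 2) ^ (n + 1) * τ₀ := by ring
        _ < τ := hn1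
    · rw [div_le_iff₀ hτ] at hn2
      linarith
  choose! n hn using hex
  have hsub : T ⊆ (Finset.range (T.sup n + 1)).biUnion (fun i => T.filter (Q i)) := by
    intro f hf
    rw [Finset.mem_biUnion]
    exact ⟨n f, Finset.mem_range.mpr (Nat.lt_succ_of_le (Finset.le_sup (f := n) hf)),
      Finset.mem_filter.mpr ⟨hf, hn f hf⟩⟩
  have h1 : (T.card : ℝ) ≤ ∑ i ∈ Finset.range (T.sup n + 1), ((T.filter (Q i)).card : ℝ) := by
    have := (Finset.card_le_card hsub).trans Finset.card_biUnion_le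
    exact_mod_cast this
  have h2 : ∀ i ∈ Finset.range (T.sup n + 1), ((T.filter (Q i)).card : ℝ) ≤
      7000000000 * Y ^ 6 * τ₀ ^ (1 / 24 : ℝ) * r ^ i := by
    intro i _
    have hle : τ₀ * (1 / 2) ^ i ≤ 2 := by
      have : ((1 : ℝ) / 2) ^ i ≤ 1 := pow_le_one₀ (by norm_num) (by norm_num)
      calc τ₀ * (1 / 2) ^ i ≤ τ₀ * 1 := mul_le_mul_of_nonneg_left this hτ.le
        _ ≤ 2 := by linarith
    have h3 := Cusp.scale (Y := Y) (σ := τ₀ * (1 / 2) ^ i) hY (by positivity) hle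
      (T.filter (Q i)) (fun f hf => (Finset.mem_filter.mp hf).2)
    have h4 : (τ₀ * (1 / 2) ^ i) ^ (1 / 24 : ℝ) = τ₀ ^ (1 / 24 : ℝ) * r ^ i := by
      rw [Real.mul_rpow hτ.le (by positivity), hr, ← Real.rpow_natCast, ← Real.rpow_mul
        (by norm_num), ← Real.rpow_natCast, ← Real.rpow_mul (by norm_num), mul_comm (i : ℝ)]
    rw [h4] at h3
    linarith
  have h5 : ∑ i ∈ Finset.range (T.sup n + 1), r ^ i ≤ (1 - r)⁻¹ := by
    rw [← tsum_geometric_of_lt_one hr0.le hr1]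
    exact (summable_geometric_of_lt_one hr0.le hr1).sum_le_tsum _ (fun i _ => by positivity)
  calc (T.card : ℝ) ≤ ∑ i ∈ Finset.range (T.sup n + 1), ((T.filter (Q i)).card : ℝ) := h1
    _ ≤ ∑ i ∈ Finset.range (T.sup n + 1), 7000000000 * Y ^ 6 * τ₀ ^ (1 / 24 : ℝ) * r ^ i :=
        Finset.sum_le_sum h2
    _ = 7000000000 * Y ^ 6 * τ₀ ^ (1 / 24 : ℝ) * ∑ i ∈ Finset.range (T.sup n + 1), r ^ i := by
        rw [Finset.mul_sum]
    _ ≤ 7000000000 * Y ^ 6 * τ₀ ^ (1 / 24 : ℝ) * (1 - r)⁻¹ :=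
        mul_le_mul_of_nonneg_left h5 (by positivity)
    _ = 7000000000 * (1 - r)⁻¹ * Y ^ 6 * τ₀ ^ (1 / 24 : ℝ) := by ring

end Stoll308.BE
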