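import Mathlib

set_option autoImplicit false

/-!
The curves `y² = α x^(6k) + b x^(4k) + c x^(2k) + d`: local solubility and the Selmer set of the
classes of `x^(2k) - θ`. Definitions of the statement.
-/

namespace Stoll308.BE

open Polynomial Finset

/-- The smooth projective curve with the affine equation
`y² = α x^(6k) + b x^(4k) + c x^(2k) + d` has a point over the field `K`: an affine one, or one of
the two points at infinity, which are defined over `K` if and only if `α` is a square in `K`. -/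
def HasPoint (k : ℕ) (α b c d : ℤ) (K : Type*) [Field K] : Prop :=
  (∃ x y : K, y ^ 2 = α * x ^ (6 * k) + b * x ^ (4 * k) + c * x ^ (2 * k) + d) ∨ IsSquare (α : K)

/-- The curve has points over all completions of `ℚ`. -/
def ELS (k : ℕ) (α b c d : ℤ) : Prop :=
  (∀ (p : ℕ) [Fact p.Prime], HasPoint k α b c d ℚ_[p]) ∧ HasPoint k α b c d ℝ

/-- There is an affine point `(x, y)`, `y ≠ 0`, of the curve over the field `K ⊇ ℚ` such that
`x^(2k) - θ` is `δ` times a square in `K[θ]`, where `θ` is a root of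
`α θ³ + b θ² + c θ + d = 0`. -/
def LocalImage (k : ℕ) (α b c d : ℤ) (δ : ℚ[X]) (K : Type*) [Field K] [Algebra ℚ K] : Prop :=
  ∃ (x y : K) (s : K[X]), y ≠ 0 ∧
    y ^ 2 = α * x ^ (6 * k) + b * x ^ (4 * k) + c * x ^ (2 * k) + d ∧
    C (α : K) * X ^ 3 + C (b : K) * X ^ 2 + C (c : K) * X + C (d : K) ∣
      (C (x ^ (2 * k)) - X) - δ.map (algebraMap ℚ K) * s ^ 2

/-- The Selmer set is nonempty: some `δ ∈ ℚ[θ]ˣ` is in the image of the local points at all places
of `ℚ`. -/
def Sel (k : ℕ) (α b c d : ℤ) : Prop :=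
  ∃ δ : ℚ[X], IsCoprime δ
      (C (α : ℚ) * X ^ 3 + C (b : ℚ) * X ^ 2 + C (c : ℚ) * X + C (d : ℚ)) ∧
    (∀ (p : ℕ) [Fact p.Prime], LocalImage k α b c d δ ℚ_[p]) ∧ LocalImage k α b c d δ ℝ

open Classical in
/-- The number of triples `(b, c, d)` of integers with `|b| ≤ X`, `|c| ≤ X²`, `|d| ≤ X³` which have
the property `P`. -/
noncomputable def cnt (P : ℤ → ℤ → ℤ → Prop) (X : ℕ) : ℕ :=
  ((Icc (-(X : ℤ)) X ×ˢ Icc (-(X : ℤ) ^ 2) ((X : ℤ) ^ 2) ×ˢ
    Icc (-(X : ℤ) ^ 3) ((X : ℤ) ^ 3)).filter fun t => P t.1 t.2.1 t.2.2).card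

end Stoll308.BE
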