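import Pool.Agent.Work.MP_308fa9_nt.BE.ElsL

set_option autoImplicit false

/-!
A positive proportion of the curves is everywhere locally soluble.
-/

namespace Stoll308.BE

open Finset

/-- Upper bound for the number of elements of a residue class in an interval. -/
lemma ap_card_le (a b r v : ℤ) (hr : 0 < r) (hab : a ≤ b) :
    (((Ioc a b).filter fun c => r ∣ c - v).card : ℝ) ≤ (b - a) / r + 1 := by
  have h1 : (Ioc a b).filter (fun c => r ∣ c - v) = (Ioc a b).filter fun c => c ≡ v [ZMOD r] := by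
    apply filter_congr
    intro c _
    rw [Int.modEq_comm, Int.modEq_iff_dvd]
  have h2 := Int.Ioc_filter_modEq_card a b hr v
  have hr' : (0 : ℚ) < r := by exact_mod_cast hr
  have h3 : ((max (⌊((b : ℚ) - v) / r⌋ - ⌊((a : ℚ) - v) / r⌋) 0 : ℤ) : ℚ) ≤ (b - a) / r + 1 := by
    rw [Int.cast_max]
    apply max_le
    · push_cast
      have h4 := Int.floor_le (((b : ℚ) - v) / r)
      have h5 := Int.lt_floor_add_one (((a : ℚ) - v) / r)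
      have h6 : ((b : ℚ) - v) / r - ((a : ℚ) - v) / r = (b - a) / r := by ring
      linarith
    · have : (0 : ℚ) ≤ (b - a) / r := by
        apply div_nonneg _ hr'.le
        rw [sub_nonneg]
        exact_mod_cast hab
      push_cast
      linarith
  have h4 : ((((Ioc a b).filter fun c => c ≡ v [ZMOD r]).card : ℤ) : ℚ) ≤ (b - a) / r + 1 := by
    rw [h2]
    exact h3
  rw [h1]
  have h5 : ((((Ioc a b).filter fun c => c ≡ v [ZMOD r]).card : ℚ) : ℝ) ≤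
      (((b : ℚ) - a) / r + 1 : ℚ) := by
    rw [Rat.cast_le]
    exact_mod_cast h4
  push_cast at h5
  exact h5

/-- Lower bound for the number of elements of a residue class in an interval. -/
lemma ap_card_ge (a b r v : ℤ) (hr : 0 < r) :
    ((b : ℝ) - a) / r - 1 ≤ (((Ioc a b).filter fun c => r ∣ c - v).card : ℝ) := by
  have h1 : (Ioc a b).filter (fun c => r ∣ c - v) = (Ioc a b).filter fun c => c ≡ v [ZMOD r] := by
    apply filter_congr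
    intro c _
    rw [Int.modEq_comm, Int.modEq_iff_dvd]
  have h2 := Int.Ioc_filter_modEq_card a b hr v
  have h3 : ((b : ℚ) - a) / r - 1 ≤
      ((max (⌊((b : ℚ) - v) / r⌋ - ⌊((a : ℚ) - v) / r⌋) 0 : ℤ) : ℚ) := by
    rw [Int.cast_max]
    apply le_max_of_le_left
    push_cast
    have h4 := Int.floor_le (((a : ℚ) - v) / r)
    have h5 := Int.lt_floor_add_one (((b : ℚ) - v) / r)
    have h6 : ((b : ℚ) - v) / r - ((a : ℚ) - v) / r = (b - a) / r := by ring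
    linarith
  have h4 : ((b : ℚ) - a) / r - 1 ≤
      ((((Ioc a b).filter fun c => c ≡ v [ZMOD r]).card : ℤ) : ℚ) := by
    rw [h2]
    exact h3
  rw [h1]
  have h5 : ((((b : ℚ) - a) / r - 1 : ℚ) : ℝ) ≤
      ((((Ioc a b).filter fun c => c ≡ v [ZMOD r]).card : ℚ) : ℝ) := by
    rw [Rat.cast_le]
    exact_mod_cast h4
  push_cast at h5
  exact h5

/-- The number of `c` with `p ∣ b² - 4αc`. -/
lemma card_c_le {α : ℤ} {p : ℕ} (hp : p.Prime) (hp4 : ¬ (p : ℤ) ∣ 4 * α) (b : ℤ) (X : ℕ) :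
    (((Icc (-(X : ℤ) ^ 2) ((X : ℤ) ^ 2)).filter fun c => (p : ℤ) ∣ b ^ 2 - 4 * α * c).card : ℝ) ≤
      2 * X ^ 2 / p + 2 := by
  have hp0 : (0 : ℝ) < p := by exact_mod_cast hp.pos
  have hp1 : (1 : ℝ) ≤ p := by exact_mod_cast hp.one_lt.le
  rcases ((Icc (-(X : ℤ) ^ 2) ((X : ℤ) ^ 2)).filter
    fun c => (p : ℤ) ∣ b ^ 2 - 4 * α * c).eq_empty_or_nonempty with h | ⟨c₀, hc₀⟩
  · rw [h]
    simp only [card_empty, Nat.cast_zero]
    positivity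
  · rw [mem_filter] at hc₀
    have hsub : ((Icc (-(X : ℤ) ^ 2) ((X : ℤ) ^ 2)).filter
        fun c => (p : ℤ) ∣ b ^ 2 - 4 * α * c) ⊆
        (Ioc (-(X : ℤ) ^ 2 - 1) ((X : ℤ) ^ 2)).filter fun c => (p : ℤ) ∣ c - c₀ := by
      intro c hc
      rw [mem_filter, mem_Icc] at hc
      rw [mem_filter, mem_Ioc]
      refine ⟨⟨by linarith [hc.1.1], hc.1.2⟩, ?_⟩
      have h1 : (p : ℤ) ∣ (4 * α) * (c - c₀) := by
        have := dvd_sub hc₀.2 hc.2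
        have h2 : b ^ 2 - 4 * α * c₀ - (b ^ 2 - 4 * α * c) = (4 * α) * (c - c₀) := by ring
        rwa [h2] at this
      exact ((Nat.prime_iff_prime_int.1 hp).dvd_or_dvd h1).resolve_left hp4
    have h1 := ap_card_le (-(X : ℤ) ^ 2 - 1) ((X : ℤ) ^ 2) p c₀ (by exact_mod_cast hp.pos)
      (by nlinarith [sq_nonneg (X : ℤ)])
    have h2 : (((Icc (-(X : ℤ) ^ 2) ((X : ℤ) ^ 2)).filter
        fun c => (p : ℤ) ∣ b ^ 2 - 4 * α * c).card : ℝ) ≤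
        (((Ioc (-(X : ℤ) ^ 2 - 1) ((X : ℤ) ^ 2)).filter fun c => (p : ℤ) ∣ c - c₀).card : ℝ) := by
      exact_mod_cast card_le_card hsub
    refine h2.trans (h1.trans ?_)
    push_cast
    have h3 : ((X : ℝ) ^ 2 - (-(X : ℝ) ^ 2 - 1)) / p = 2 * X ^ 2 / p + 1 / p := by ring
    have h4 : 1 / (p : ℝ) ≤ 1 := by
      rw [div_le_one hp0]
      exact hp1
    linarith

/-- The set of the `d`. -/
noncomputable def dset (M X : ℕ) : Finset ℤ := (Ioc 0 ((X : ℤ) ^ 3)).filter fun d => (M : ℤ) ∣ d - 1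

lemma card_dset_ge {M : ℕ} (hM : 0 < M) (X : ℕ) : (X : ℝ) ^ 3 / M - 1 ≤ ((dset M X).card : ℝ) := by
  have h1 := ap_card_ge 0 ((X : ℤ) ^ 3) M 1 (by exact_mod_cast hM)
  push_cast at h1
  rw [sub_zero] at h1
  exact h1

lemma card_d_le {M p : ℕ} (hM : 0 < M) (hp : p.Prime) (hpM : ¬ p ∣ M) (X : ℕ) :
    (((dset M X).filter fun d => (p : ℤ) ∣ d).card : ℝ) ≤ (X : ℝ) ^ 3 / (p * M) + 1 := by
  have hp0 : (0 : ℝ) < p := by exact_mod_cast hp.pos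
  have hM0 : (0 : ℝ) < M := by exact_mod_cast hM
  rcases ((dset M X).filter fun d => (p : ℤ) ∣ d).eq_empty_or_nonempty with h | ⟨d₀, hd₀⟩
  · rw [h]
    simp only [card_empty, Nat.cast_zero]
    positivity
  · rw [mem_filter, dset, mem_filter] at hd₀
    have hcop : IsCoprime (p : ℤ) (M : ℤ) := by
      rw [Nat.isCoprime_iff_coprime]
      exact (Nat.Prime.coprime_iff_not_dvd hp).2 hpM
    have hsub : ((dset M X).filter fun d => (p : ℤ) ∣ d) ⊆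
        (Ioc 0 ((X : ℤ) ^ 3)).filter fun d => ((p * M : ℕ) : ℤ) ∣ d - d₀ := by
      intro d hd
      rw [mem_filter, dset, mem_filter] at hd
      rw [mem_filter]
      refine ⟨hd.1.1, ?_⟩
      push_cast
      apply hcop.mul_dvd (dvd_sub hd.2 hd₀.2)
      have := dvd_sub hd.1.2 hd₀.1.2
      have h2 : d - 1 - (d₀ - 1) = d - d₀ := by ring
      rwa [h2] at this
    have h1 := ap_card_le 0 ((X : ℤ) ^ 3) ((p * M : ℕ) : ℤ) d₀
      (by exact_mod_cast Nat.mul_pos hp.pos hM) (by positivity)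
    have h2 : (((dset M X).filter fun d => (p : ℤ) ∣ d).card : ℝ) ≤
        (((Ioc 0 ((X : ℤ) ^ 3)).filter fun d => ((p * M : ℕ) : ℤ) ∣ d - d₀).card : ℝ) := by
      exact_mod_cast card_le_card hsub
    refine h2.trans (h1.trans ?_)
    push_cast
    rw [sub_zero]

/-- The box of the `(b, c, d)`, `d ∈ dset M X`. -/
noncomputable def bset (M X : ℕ) : Finset (ℤ × ℤ × ℤ) :=
  Icc (-(X : ℤ)) X ×ˢ Icc (-(X : ℤ) ^ 2) ((X : ℤ) ^ 2) ×ˢ dset M X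

lemma card_bset_ge {M : ℕ} (hM : 0 < M) (X : ℕ) :
    4 * (X : ℝ) ^ 6 / M - 4 * X ^ 3 ≤ ((bset M X).card : ℝ) := by
  have h1 := card_dset_ge hM X
  have h0 : (0 : ℝ) ≤ ((dset M X).card : ℝ) := Nat.cast_nonneg _
  have hX : (0 : ℝ) ≤ X := Nat.cast_nonneg _
  have hb : (((Icc (-(X : ℤ)) X).card : ℕ) : ℝ) = 2 * X + 1 := by
    rw [Int.card_Icc]
    have : ((X : ℤ) + 1 - -(X : ℤ)).toNat = 2 * X + 1 := by omega
    rw [this]; push_cast; ring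
  have hc : (((Icc (-(X : ℤ) ^ 2) ((X : ℤ) ^ 2)).card : ℕ) : ℝ) = 2 * X ^ 2 + 1 := by
    rw [Int.card_Icc]
    have : ((X : ℤ) ^ 2 + 1 - -(X : ℤ) ^ 2).toNat = 2 * X ^ 2 + 1 := by
      have h : ((X : ℤ) ^ 2 + 1 - -(X : ℤ) ^ 2) = ((2 * X ^ 2 + 1 : ℕ) : ℤ) := by push_cast; ring
      rw [h, Int.toNat_natCast]
    rw [this]; push_cast; ring
  unfold bset
  rw [card_product, card_product]
  push_cast
  rw [hb, hc]
  have h2 : 4 * (X : ℝ) ^ 6 / M - 4 * X ^ 3 = 2 * X * (2 * X ^ 2 * ((X : ℝ) ^ 3 / M - 1)) := by ring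
  rw [h2]
  calc 2 * (X : ℝ) * (2 * X ^ 2 * ((X : ℝ) ^ 3 / M - 1))
      ≤ 2 * X * (2 * X ^ 2 * ((dset M X).card : ℝ)) := by gcongr
    _ ≤ (2 * X + 1) * ((2 * X ^ 2 + 1) * ((dset M X).card : ℝ)) := by
        gcongr
        · linarith
        · linarith

/-- The triples which are bad at `p`. -/
noncomputable def pbad (α : ℤ) (M X p : ℕ) : Finset (ℤ × ℤ × ℤ) :=
  (bset M X).filter fun t => (p : ℤ) ∣ t.2.2 ∧ (p : ℤ) ∣ t.1 ^ 2 - 4 * α * t.2.1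

lemma card_pbad_le {α : ℤ} {M X p : ℕ} (hM : 0 < M) (hX : 1 ≤ X) (hp : p.Prime) (hpM : ¬ p ∣ M)
    (hp4 : ¬ (p : ℤ) ∣ 4 * α) (hpX : p ≤ X ^ 3) :
    ((pbad α M X p).card : ℝ) ≤
      3 * X * (2 * X ^ 5 / M * ((p : ℝ) ^ 2)⁻¹ + 6 * X ^ 3 * (p : ℝ)⁻¹) := by
  have hp0 : (0 : ℝ) < p := by exact_mod_cast hp.pos
  have hM0 : (0 : ℝ) < M := by exact_mod_cast hM
  have hM1 : (1 : ℝ) ≤ M := by exact_mod_cast hM
  have hX1 : (1 : ℝ) ≤ X := by exact_mod_cast hX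
  have hpX' : (p : ℝ) ≤ (X : ℝ) ^ 3 := by exact_mod_cast hpX
  have hd := card_d_le hM hp hpM X
  set Nd := ((dset M X).filter fun d => (p : ℤ) ∣ d) with hNd
  have hcard : (pbad α M X p).card = ∑ b ∈ Icc (-(X : ℤ)) X,
      ((Icc (-(X : ℤ) ^ 2) ((X : ℤ) ^ 2)).filter fun c => (p : ℤ) ∣ b ^ 2 - 4 * α * c).card *
        Nd.card := by
    unfold pbad bset
    rw [card_filter, sum_product]
    refine sum_congr rfl fun b _ => ?_
    rw [sum_product, card_filter, sum_mul]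
    refine sum_congr rfl fun c _ => ?_
    rw [hNd, card_filter, mul_sum]
    refine sum_congr rfl fun d _ => ?_
    by_cases h1 : (p : ℤ) ∣ d
    · by_cases h2 : (p : ℤ) ∣ b ^ 2 - 4 * α * c
      · simp [h1, h2]
      · simp [h2]
    · simp [h1]
  have hb : (((Icc (-(X : ℤ)) X).card : ℕ) : ℝ) = 2 * X + 1 := by
    rw [Int.card_Icc]
    have : ((X : ℤ) + 1 - -(X : ℤ)).toNat = 2 * X + 1 := by omega
    rw [this]; push_cast; ring
  have h1 : ((pbad α M X p).card : ℝ) ≤ (2 * X + 1) * ((2 * X ^ 2 / p + 2) * Nd.card) := by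
    rw [hcard]
    push_cast
    calc ∑ b ∈ Icc (-(X : ℤ)) X, (((Icc (-(X : ℤ) ^ 2) ((X : ℤ) ^ 2)).filter
          fun c => (p : ℤ) ∣ b ^ 2 - 4 * α * c).card : ℝ) * Nd.card
        ≤ ∑ b ∈ Icc (-(X : ℤ)) X, (2 * (X : ℝ) ^ 2 / p + 2) * Nd.card :=
          sum_le_sum fun b _ => mul_le_mul_of_nonneg_right (card_c_le hp hp4 b X)
            (Nat.cast_nonneg _)
      _ = (2 * X + 1) * ((2 * X ^ 2 / p + 2) * Nd.card) := by
          rw [sum_const, nsmul_eq_mul, hb]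
  have h2 : (2 * (X : ℝ) ^ 2 / p + 2) * Nd.card ≤
      2 * X ^ 5 / M * ((p : ℝ) ^ 2)⁻¹ + 6 * X ^ 3 * (p : ℝ)⁻¹ := by
    calc (2 * (X : ℝ) ^ 2 / p + 2) * Nd.card
        ≤ (2 * (X : ℝ) ^ 2 / p + 2) * ((X : ℝ) ^ 3 / (p * M) + 1) := by gcongr
      _ = 2 * X ^ 5 / M * ((p : ℝ) ^ 2)⁻¹ + 2 * X ^ 2 * (p : ℝ)⁻¹ +
          2 * (X ^ 3 * (p : ℝ)⁻¹) * (M : ℝ)⁻¹ + 2 := by
          field_simp
          ring
      _ ≤ 2 * X ^ 5 / M * ((p : ℝ) ^ 2)⁻¹ + 2 * X ^ 3 * (p : ℝ)⁻¹ +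
          2 * (X ^ 3 * (p : ℝ)⁻¹) * 1 + 2 * (X ^ 3 * (p : ℝ)⁻¹) := by
          have e1 : (X : ℝ) ^ 2 ≤ X ^ 3 := pow_le_pow_right₀ hX1 (by norm_num)
          have e2 : (M : ℝ)⁻¹ ≤ 1 := inv_le_one_of_one_le₀ hM1
          have e3 : (1 : ℝ) ≤ X ^ 3 * (p : ℝ)⁻¹ := by
            rw [← div_eq_mul_inv, le_div_iff₀ hp0, one_mul]
            exact hpX'
          have e4 : (0 : ℝ) ≤ (p : ℝ)⁻¹ := by positivity
          have e5 : 2 * (X : ℝ) ^ 2 * (p : ℝ)⁻¹ ≤ 2 * X ^ 3 * (p : ℝ)⁻¹ := by gcongr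
          have e6 : 2 * ((X : ℝ) ^ 3 * (p : ℝ)⁻¹) * (M : ℝ)⁻¹ ≤ 2 * (X ^ 3 * (p : ℝ)⁻¹) * 1 := by
            gcongr
          linarith
      _ = 2 * X ^ 5 / M * ((p : ℝ) ^ 2)⁻¹ + 6 * X ^ 3 * (p : ℝ)⁻¹ := by ring
  refine h1.trans ?_
  have h3 : (0 : ℝ) ≤ (2 * (X : ℝ) ^ 2 / p + 2) * Nd.card := by positivity
  calc (2 * (X : ℝ) + 1) * ((2 * X ^ 2 / p + 2) * Nd.card)
      ≤ 3 * X * ((2 * X ^ 2 / p + 2) * Nd.card) := by
        gcongr
        linarith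
    _ ≤ _ := by gcongr

lemma sum_pbad_le {α : ℤ} {M X Q : ℕ} (hM : 0 < M) (hX : 1 ≤ X) (hQ : 3 ≤ Q) (hQX : Q ≤ X ^ 3)
    (hQM : ∀ p : ℕ, p.Prime → Q < p → ¬ p ∣ M ∧ ¬ (p : ℤ) ∣ 4 * α) :
    ∑ p ∈ (Ioc Q (X ^ 3)).filter Nat.Prime, ((pbad α M X p).card : ℝ) ≤
      2 * X ^ 6 / M + 54 * X ^ 5 := by
  have hX1 : (1 : ℝ) ≤ X := by exact_mod_cast hX
  have hM0 : (0 : ℝ) < M := by exact_mod_cast hM
  have hQ3 : (3 : ℝ) ≤ Q := by exact_mod_cast hQ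
  have h1 : ∑ p ∈ (Ioc Q (X ^ 3)).filter Nat.Prime, ((pbad α M X p).card : ℝ) ≤
      ∑ p ∈ (Ioc Q (X ^ 3)).filter Nat.Prime,
        3 * X * (2 * X ^ 5 / M * ((p : ℝ) ^ 2)⁻¹ + 6 * X ^ 3 * (p : ℝ)⁻¹) := by
    apply sum_le_sum
    intro p hp
    rw [mem_filter, mem_Ioc] at hp
    exact card_pbad_le hM hX hp.2 (hQM p hp.2 hp.1.1).1 (hQM p hp.2 hp.1.1).2 hp.1.2
  have h2 : ∑ p ∈ (Ioc Q (X ^ 3)).filter Nat.Prime,
        3 * (X : ℝ) * (2 * X ^ 5 / M * ((p : ℝ) ^ 2)⁻¹ + 6 * X ^ 3 * (p : ℝ)⁻¹) ≤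
      ∑ p ∈ Ioc Q (X ^ 3),
        3 * (X : ℝ) * (2 * X ^ 5 / M * ((p : ℝ) ^ 2)⁻¹ + 6 * X ^ 3 * (p : ℝ)⁻¹) := by
    apply sum_le_sum_of_subset_of_nonneg (filter_subset _ _)
    intro p _ _
    positivity
  have h3 : ∑ p ∈ Ioc Q (X ^ 3), (((p : ℕ) : ℝ) ^ 2)⁻¹ ≤ 1 / 3 := by
    have h := sum_Ioc_inv_sq_le_sub (α := ℝ) (k := Q) (n := X ^ 3) (by omega) hQX
    have h4 : (0 : ℝ) ≤ (((X ^ 3 : ℕ) : ℕ) : ℝ)⁻¹ := by positivity
    have h5 : (Q : ℝ)⁻¹ ≤ 1 / 3 := by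
      rw [one_div]
      exact inv_anti₀ (by norm_num) hQ3
    linarith
  have h4 : ∑ p ∈ Ioc Q (X ^ 3), ((p : ℕ) : ℝ)⁻¹ ≤ 3 * X := by
    have h5 : ∑ p ∈ Ioc Q (X ^ 3), ((p : ℕ) : ℝ)⁻¹ ≤ ∑ p ∈ Icc 1 (X ^ 3), ((p : ℕ) : ℝ)⁻¹ := by
      apply sum_le_sum_of_subset_of_nonneg
      · intro p hp
        rw [mem_Ioc] at hp
        rw [mem_Icc]
        omega
      · intro p _ _
        positivity
    have h6 : ((harmonic (X ^ 3) : ℚ) : ℝ) = ∑ p ∈ Icc 1 (X ^ 3), ((p : ℕ) : ℝ)⁻¹ := by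
      rw [harmonic_eq_sum_Icc]
      push_cast
      rfl
    have h7 := harmonic_le_one_add_log (X ^ 3)
    rw [h6] at h7
    have h8 : Real.log ((X ^ 3 : ℕ) : ℝ) = 3 * Real.log X := by
      push_cast
      rw [Real.log_pow]
      norm_num
    rw [h8] at h7
    have h9 := Real.log_le_sub_one_of_pos (show (0 : ℝ) < X by linarith)
    linarith
  refine h1.trans (h2.trans ?_)
  rw [← mul_sum, sum_add_distrib, ← mul_sum, ← mul_sum]
  calc 3 * (X : ℝ) * (2 * X ^ 5 / M * ∑ p ∈ Ioc Q (X ^ 3), (((p : ℕ) : ℝ) ^ 2)⁻¹ +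
        6 * X ^ 3 * ∑ p ∈ Ioc Q (X ^ 3), ((p : ℕ) : ℝ)⁻¹)
      ≤ 3 * X * (2 * X ^ 5 / M * (1 / 3) + 6 * X ^ 3 * (3 * X)) := by gcongr
    _ = 2 * (X : ℝ) ^ 6 / M + 54 * (X : ℝ) ^ 5 := by ring

theorem els_many (α : ℤ) (hα : α ≠ 0) (k : ℕ) (hk : 1 ≤ k) :
    ∃ c₀ : ℝ, 0 < c₀ ∧ ∃ X₀ : ℕ, ∀ X : ℕ, X₀ ≤ X → c₀ * X ^ 6 ≤ (cnt (ELS k α) X : ℝ) := by
  classical
  obtain ⟨P₀, hP₀⟩ := point_large α hα k hk
  set Q := P₀ + α.natAbs + 4 with hQ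
  set M := 8 * Q.factorial with hMdef
  have hM : 0 < M := Nat.mul_pos (by norm_num) (Nat.factorial_pos _)
  have hM0 : (0 : ℝ) < M := by exact_mod_cast hM
  have hQM : ∀ p : ℕ, p.Prime → Q < p → ¬ p ∣ M ∧ ¬ (p : ℤ) ∣ 4 * α := by
    intro p hp hQp
    constructor
    · intro h
      rw [hMdef] at h
      rcases (hp.dvd_mul).1 h with h | h
      · have h2 : p ∣ 2 ^ 3 := by norm_num; exact h
        have := Nat.le_of_dvd (by norm_num) (hp.dvd_of_dvd_pow h2)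
        omega
      · have := (hp.dvd_factorial).1 h
        omega
    · intro h
      have h1 := Int.natAbs_dvd_natAbs.2 h
      rw [Int.natAbs_natCast, Int.natAbs_mul] at h1
      rcases (hp.dvd_mul).1 h1 with h | h
      · have h2 : p ∣ 2 ^ 2 := by simpa using h
        have := Nat.le_of_dvd (by norm_num) (hp.dvd_of_dvd_pow h2)
        omega
      · have h2 := Nat.le_of_dvd (Int.natAbs_pos.2 hα) h
        omega
  refine ⟨1 / M, by positivity, 58 * M + Q, ?_⟩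
  intro X hX
  have hX1 : 1 ≤ X := by omega
  have hX1' : (1 : ℝ) ≤ X := by exact_mod_cast hX1
  have hQX : Q ≤ X ^ 3 := by
    calc Q ≤ X := by omega
      _ ≤ X ^ 3 := Nat.le_self_pow (by norm_num) X
  have hXM : (58 : ℝ) * M ≤ X := by
    have : 58 * M ≤ X := by omega
    exact_mod_cast this
  -- the good triples
  set bad := ((Ioc Q (X ^ 3)).filter Nat.Prime).biUnion fun p => pbad α M X p with hbad
  have hsub : bset M X \ bad ⊆ ((Icc (-(X : ℤ)) X ×ˢ Icc (-(X : ℤ) ^ 2) ((X : ℤ) ^ 2) ×ˢ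
      Icc (-(X : ℤ) ^ 3) ((X : ℤ) ^ 3)).filter fun t => ELS k α t.1 t.2.1 t.2.2) := by
    intro t ht
    rw [mem_sdiff] at ht
    obtain ⟨ht1, ht2⟩ := ht
    have ht1' := ht1
    rw [bset, mem_product, mem_product, dset, mem_filter, mem_Ioc] at ht1
    obtain ⟨hb, hc, ⟨hd0, hdX⟩, hdM⟩ := ht1
    rw [mem_filter, mem_product, mem_product]
    refine ⟨⟨hb, hc, ?_⟩, ?_, point_real α _ _ _ k hk hd0⟩
    · rw [mem_Icc]
      refine ⟨?_, hdX⟩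
      have : (0 : ℤ) ≤ (X : ℤ) ^ 3 := by positivity
      linarith
    · intro p hp
      have hpp : p.Prime := hp.out
      by_cases hpQ : p ≤ Q
      · apply point_small α _ _ _ k hk p
        refine dvd_trans ?_ hdM
        rw [Int.natCast_dvd_natCast, hMdef]
        exact Nat.mul_dvd_mul_left 8 (Nat.dvd_factorial hpp.pos hpQ)
      · push Not at hpQ
        apply hP₀ p (by omega)
        intro hcon
        apply ht2
        rw [hbad, mem_biUnion]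
        refine ⟨p, ?_, ?_⟩
        · rw [mem_filter, mem_Ioc]
          refine ⟨⟨hpQ, ?_⟩, hpp⟩
          have h1 := Int.le_of_dvd hd0 hcon.1
          have h2 : (p : ℤ) ≤ ((X ^ 3 : ℕ) : ℤ) := by push_cast; linarith
          exact_mod_cast h2
        · rw [pbad, mem_filter]
          exact ⟨ht1', hcon⟩
  have hcnt : ((bset M X \ bad).card : ℝ) ≤ (cnt (ELS k α) X : ℝ) := by
    unfold cnt
    exact_mod_cast card_le_card hsub
  have hb1 := card_bset_ge hM X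
  have hb2 : (bad.card : ℝ) ≤ 2 * X ^ 6 / M + 54 * X ^ 5 := by
    refine le_trans ?_ (sum_pbad_le (α := α) hM hX1 (by omega) hQX hQM)
    have := card_biUnion_le (s := (Ioc Q (X ^ 3)).filter Nat.Prime) (t := fun p => pbad α M X p)
    exact_mod_cast this
  have hb3 : ((bset M X).card : ℝ) ≤ ((bset M X \ bad).card : ℝ) + (bad.card : ℝ) := by
    have h1 : bset M X ⊆ (bset M X \ bad) ∪ bad := by
      intro t ht
      rw [mem_union, mem_sdiff]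
      by_cases h : t ∈ bad
      · exact Or.inr h
      · exact Or.inl ⟨ht, h⟩
    have h2 := (card_le_card h1).trans (card_union_le _ _)
    exact_mod_cast h2
  have h5 : (X : ℝ) ^ 3 ≤ X ^ 5 := pow_le_pow_right₀ hX1' (by norm_num)
  have h6 : 58 * (X : ℝ) ^ 5 ≤ X ^ 6 / M := by
    rw [le_div_iff₀ hM0]
    calc 58 * (X : ℝ) ^ 5 * M = (X : ℝ) ^ 5 * (58 * M) := by ring
      _ ≤ (X : ℝ) ^ 5 * X := by gcongr
      _ = (X : ℝ) ^ 6 := by ring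
  have h7 : 4 * (X : ℝ) ^ 6 / M = 4 * (X ^ 6 / M) := by ring
  have h8 : 2 * (X : ℝ) ^ 6 / M = 2 * (X ^ 6 / M) := by ring
  have h9 : 1 / (M : ℝ) * X ^ 6 = X ^ 6 / M := by ring
  rw [h9]
  rw [h7] at hb1
  rw [h8] at hb2
  linarith

end Stoll308.BE
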