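import Mathlib
import Pool.Agent.Work.MP_2b9663_nt.Weil

set_option autoImplicit false

/-!
Points of `y² = α x^(6k) + b x^(4k) + c x^(2k) + d` modulo large primes.
-/

namespace Stoll308.BE

open Finset Polynomial

/-- Squarefree part of a polynomial over a field. -/
lemma exists_squarefree_part {K : Type*} [Field K] (f : K[X]) (hf : f ≠ 0) :
    ∃ h s : K[X], Squarefree h ∧ f = h * s ^ 2 := by
  induction hn : f.natDegree using Nat.strong_induction_on generalizing f with
  | _ n ih =>
  by_cases hsq : Squarefree f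
  · exact ⟨f, 1, hsq, by ring⟩
  · unfold Squarefree at hsq
    push Not at hsq
    obtain ⟨x, ⟨g, hg⟩, hx⟩ := hsq
    have hg0 : g ≠ 0 := by
      rintro rfl
      rw [mul_zero] at hg
      exact hf hg
    have hx0 : x ≠ 0 := by
      rintro rfl
      rw [mul_zero, zero_mul] at hg
      exact hf hg
    have hdx : 0 < x.natDegree := by
      rw [Nat.pos_iff_ne_zero]
      intro h0
      apply hx
      rw [Polynomial.isUnit_iff_degree_eq_zero, degree_eq_natDegree hx0, h0]
      rfl
    have hd : g.natDegree < n := by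
      rw [← hn, hg, natDegree_mul (mul_ne_zero hx0 hx0) hg0, natDegree_mul hx0 hx0]
      omega
    obtain ⟨h, s, hh, hs⟩ := ih _ hd g hg0 rfl
    exact ⟨h, x * s, hh, by rw [hg, hs]; ring⟩

/-- If `s²` is supported on multiples of `m` (and `m ∣ 2 deg s`) then `s` is supported on the
indices congruent to `deg s` modulo `m`. -/
lemma supp_of_sq {K : Type*} [Field K] (h2 : (2 : K) ≠ 0) {s : K[X]} (hs0 : s ≠ 0) (m : ℕ)
    (hm : m ∣ 2 * s.natDegree) (hs : ∀ j, ¬ m ∣ j → (s ^ 2).coeff j = 0) :
    ∀ t, t ≤ s.natDegree → ¬ m ∣ t → s.coeff (s.natDegree - t) = 0 := by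
  intro t
  induction t using Nat.strong_induction_on with
  | _ t ih =>
  intro htn hmt
  set n := s.natDegree with hn
  have ht0 : t ≠ 0 := by
    rintro rfl
    exact hmt (dvd_zero m)
  have hnm : ¬ m ∣ 2 * n - t := by
    intro h
    apply hmt
    have h1 := Nat.dvd_sub hm h
    rwa [show 2 * n - (2 * n - t) = t by omega] at h1
  have h1 := hs _ hnm
  rw [sq, coeff_mul] at h1
  have h3 : ((n, n - t) : ℕ × ℕ) ≠ (n - t, n) := by
    intro h
    have := congrArg Prod.fst h
    simp only at this
    omega
  have h4 : ∑ x ∈ antidiagonal (2 * n - t), s.coeff x.1 * s.coeff x.2 =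
      ∑ x ∈ ({(n, n - t), (n - t, n)} : Finset (ℕ × ℕ)), s.coeff x.1 * s.coeff x.2 := by
    symm
    apply sum_subset
    · intro x hx
      rw [mem_insert, mem_singleton] at hx
      rw [HasAntidiagonal.mem_antidiagonal]
      rcases hx with rfl | rfl
      · simp only; omega
      · simp only; omega
    · intro x hx hx'
      rw [HasAntidiagonal.mem_antidiagonal] at hx
      rw [mem_insert, mem_singleton, not_or] at hx'
      obtain ⟨a, b⟩ := x
      simp only at hx ⊢
      by_cases ha : n < a
      · rw [coeff_eq_zero_of_natDegree_lt (n := a) (by rw [← hn]; exact ha), zero_mul]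
      by_cases hb : n < b
      · rw [coeff_eq_zero_of_natDegree_lt (n := b) (by rw [← hn]; exact hb), mul_zero]
      have hane : a ≠ n := by
        rintro rfl
        apply hx'.1
        have : b = n - t := by omega
        rw [this]
      have hbne : b ≠ n := by
        rintro rfl
        apply hx'.2
        have : a = n - t := by omega
        rw [this]
      have hsum : (n - a) + (n - b) = t := by omega
      by_cases hma : m ∣ n - a
      · have hmb : ¬ m ∣ n - b := by
          intro h
          apply hmt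
          rw [← hsum]
          exact dvd_add hma h
        have h5 := ih (n - b) (by omega) (by omega) hmb
        rw [show n - (n - b) = b by omega] at h5
        rw [h5, mul_zero]
      · have h5 := ih (n - a) (by omega) (by omega) hma
        rw [show n - (n - a) = a by omega] at h5
        rw [h5, zero_mul]
  rw [h4, sum_pair h3] at h1
  simp only at h1
  have h5 : s.coeff n ≠ 0 := by
    rw [hn]
    exact leadingCoeff_ne_zero.2 hs0
  have h6 : 2 * (s.coeff n * s.coeff (n - t)) = 0 := by linear_combination h1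
  rcases mul_eq_zero.1 h6 with h | h
  · exact absurd h h2
  · exact (mul_eq_zero.1 h).resolve_left h5

/-- The polynomial `α x^(6k) + b x^(4k) + c x^(2k) + d`. -/
noncomputable def pol (K : Type*) [Field K] (k : ℕ) (α b c d : K) : K[X] :=
  C α * X ^ (6 * k) + C b * X ^ (4 * k) + C c * X ^ (2 * k) + C d

section pol

variable {K : Type*} [Field K] {k : ℕ} {α b c d : K}

lemma pol_eval (x : K) :
    (pol K k α b c d).eval x = α * x ^ (6 * k) + b * x ^ (4 * k) + c * x ^ (2 * k) + d := by
  unfold pol
  simp

lemma pol_coeff (j : ℕ) : (pol K k α b c d).coeff j =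
    (if j = 6 * k then α else 0) + (if j = 4 * k then b else 0) + (if j = 2 * k then c else 0)
      + (if j = 0 then d else 0) := by
  unfold pol
  simp only [coeff_add, coeff_C_mul, coeff_X_pow, coeff_C, mul_ite, mul_one, mul_zero]

lemma pol_natDegree (hα : α ≠ 0) (hk : 1 ≤ k) : (pol K k α b c d).natDegree = 6 * k := by
  apply natDegree_eq_of_le_of_coeff_ne_zero
  · rw [natDegree_le_iff_coeff_eq_zero]
    intro N hN
    rw [pol_coeff, if_neg (by omega), if_neg (by omega), if_neg (by omega), if_neg (by omega)]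
    simp
  · rw [pol_coeff, if_pos rfl, if_neg (by omega), if_neg (by omega), if_neg (by omega)]
    simpa using hα

/-- `α x^(6k) + b x^(4k) + c x^(2k) + d` is a constant times a square only if `d = 0` and
`b² = 4 α c`. -/
lemma struct (h2 : (2 : K) ≠ 0) (hα : α ≠ 0) (hk : 1 ≤ k) {e : K} {s : K[X]}
    (h : pol K k α b c d = C e * s ^ 2) : d = 0 ∧ b ^ 2 = 4 * α * c := by
  have hdeg := pol_natDegree (b := b) (c := c) (d := d) hα hk
  have he : e ≠ 0 := by
    rintro rfl
    rw [C_0, zero_mul] at h
    rw [h] at hdeg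
    simp at hdeg
    omega
  have hs0 : s ≠ 0 := by
    rintro rfl
    rw [zero_pow two_ne_zero, mul_zero] at h
    rw [h] at hdeg
    simp at hdeg
    omega
  have hsd : s.natDegree = 3 * k := by
    rw [h, natDegree_C_mul he, natDegree_pow] at hdeg
    omega
  have hsq : ∀ j, e * (s ^ 2).coeff j = (pol K k α b c d).coeff j := by
    intro j
    rw [h, coeff_C_mul]
  have hsupp := supp_of_sq h2 hs0 (2 * k) (by rw [hsd]; exact ⟨3, by ring⟩) (by
    intro j hj
    have h1 := hsq j
    rw [pol_coeff, if_neg (fun h => hj (by rw [h]; exact ⟨3, by ring⟩)),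
      if_neg (fun h => hj (by rw [h]; exact ⟨2, by ring⟩)),
      if_neg (fun h => hj (by rw [h])), if_neg (fun h => hj (by rw [h]; exact dvd_zero _))] at h1
    simp only [add_zero] at h1
    exact (mul_eq_zero.1 h1).resolve_left he)
  rw [hsd] at hsupp
  have hs : s = C (s.coeff (3 * k)) * X ^ (3 * k) + C (s.coeff k) * X ^ k := by
    ext j
    rw [coeff_add, coeff_C_mul, coeff_C_mul, coeff_X_pow, coeff_X_pow]
    by_cases h1 : j = 3 * k
    · rw [if_pos h1, if_neg (by omega), h1]; ring
    by_cases h3 : j = k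
    · rw [if_neg h1, if_pos h3, h3]; ring
    rw [if_neg h1, if_neg h3, mul_zero, mul_zero, add_zero]
    by_cases h4 : 3 * k < j
    · exact coeff_eq_zero_of_natDegree_lt (by rw [hsd]; exact h4)
    · have h5 := hsupp (3 * k - j) (by omega) (by
        rintro ⟨t, ht⟩
        have ht1 : t < 2 := by
          by_contra hcon
          have : 2 * k * 2 ≤ 2 * k * t := Nat.mul_le_mul_left _ (by omega)
          omega
        interval_cases t
        · omega
        · omega)
      rwa [show 3 * k - (3 * k - j) = j by omega] at h5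
  set u := s.coeff (3 * k)
  set v := s.coeff k
  have hexp : pol K k α b c d = pol K k (e * u ^ 2) (e * (2 * u * v)) (e * v ^ 2) 0 := by
    rw [h, hs]
    unfold pol
    simp only [C_mul, C_pow, C_0, map_ofNat]
    rw [show 6 * k = 3 * k + 3 * k by ring, show 4 * k = 3 * k + k by ring,
      show 2 * k = k + k by ring]
    simp only [pow_add]
    ring
  have c0 := congrArg (fun P => coeff P 0) hexp
  have c2 := congrArg (fun P => coeff P (2 * k)) hexp
  have c4 := congrArg (fun P => coeff P (4 * k)) hexp
  have c6 := congrArg (fun P => coeff P (6 * k)) hexp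
  simp only [pol_coeff, show ¬ (0 = 6 * k) by omega, show ¬ (0 = 4 * k) by omega,
    show ¬ (0 = 2 * k) by omega, if_true, if_false, zero_add, add_zero] at c0
  simp only [pol_coeff, show ¬ (2 * k = 6 * k) by omega, show ¬ (2 * k = 4 * k) by omega,
    show ¬ (2 * k = 0) by omega, if_true, if_false, zero_add, add_zero] at c2
  simp only [pol_coeff, show ¬ (4 * k = 6 * k) by omega, show ¬ (4 * k = 2 * k) by omega,
    show ¬ (4 * k = 0) by omega, if_true, if_false, zero_add, add_zero] at c4
  simp only [pol_coeff, show ¬ (6 * k = 4 * k) by omega, show ¬ (6 * k = 2 * k) by omega,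
    show ¬ (6 * k = 0) by omega, if_true, if_false, add_zero] at c6
  refine ⟨c0, ?_⟩
  rw [c2, c4, c6]
  ring

end pol

open Pool.Agent.Work.MP_2b9663_nt in
/-- A polynomial over `𝔽_p` (`p` large) which is not a nonsquare constant times a square takes a
nonzero square value. -/
theorem exists_sq_value {p : ℕ} [hp : Fact p.Prime] (hp2 : p ≠ 2) (f : (ZMod p)[X]) (hf : f ≠ 0)
    (hbig : (f.natDegree + 2) ^ 2 ≤ p) (hns : ∀ e s, f ≠ C e * s ^ 2) :
    ∃ x y : ZMod p, y ≠ 0 ∧ y ^ 2 = f.eval x := by
  classical
  obtain ⟨h, s, hsf, hfs⟩ := exists_squarefree_part f hf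
  have hp2' : ringChar (ZMod p) ≠ 2 := by
    rw [ZMod.ringChar_zmod_n]
    exact hp2
  have hh0 : h ≠ 0 := by
    rintro rfl
    rw [zero_mul] at hfs
    exact hf hfs
  have hs0 : s ≠ 0 := by
    rintro rfl
    rw [zero_pow two_ne_zero, mul_zero] at hfs
    exact hf hfs
  have hd : 1 ≤ h.natDegree := by
    by_contra hcon
    have h1 : h.natDegree = 0 := by omega
    obtain ⟨e, he⟩ := natDegree_eq_zero.1 h1
    exact hns e s (by rw [hfs, he])
  have hdeg : f.natDegree = h.natDegree + 2 * s.natDegree := by
    rw [hfs, natDegree_mul hh0 (pow_ne_zero _ hs0), natDegree_pow]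
  have hw := weil_bound hp2' hsf hd
  rw [ZMod.card] at hw
  by_contra hcon
  push Not at hcon
  -- the set of `x` with `h x` a nonzero square is in the zero set of `s`
  have hA : ∀ x, quadraticChar (ZMod p) (h.eval x) = 1 → s.eval x = 0 := by
    intro x hx
    by_contra hsx
    have hhx : h.eval x ≠ 0 := by
      intro h0
      rw [h0] at hx
      simp at hx
    rw [quadraticChar_one_iff_isSquare hhx] at hx
    obtain ⟨r, hr⟩ := hx
    apply hcon x (r * s.eval x)
    · refine mul_ne_zero ?_ hsx
      rintro rfl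
      rw [mul_zero] at hr
      exact hhx hr
    · rw [hfs, eval_mul, eval_pow, hr]; ring
  have hAc : (univ.filter fun x : ZMod p => quadraticChar (ZMod p) (h.eval x) = 1).card ≤
      s.natDegree := by
    refine le_trans ?_ (card_roots' s)
    refine le_trans ?_ (Multiset.toFinset_card_le _)
    apply card_le_card
    intro x hx
    rw [mem_filter] at hx
    rw [Multiset.mem_toFinset, mem_roots hs0]
    exact hA x hx.2
  have hZc : (univ.filter fun x : ZMod p => h.eval x = 0).card ≤ h.natDegree := by
    refine le_trans ?_ (card_roots' h)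
    refine le_trans ?_ (Multiset.toFinset_card_le _)
    apply card_le_card
    intro x hx
    rw [mem_filter] at hx
    rw [Multiset.mem_toFinset, mem_roots hh0]
    exact hx.2
  have hsum : ∑ x : ZMod p, (1 + quadraticChar (ZMod p) (h.eval x)) =
      2 * ((univ.filter fun x : ZMod p => quadraticChar (ZMod p) (h.eval x) = 1).card : ℤ) +
        ((univ.filter fun x : ZMod p => h.eval x = 0).card : ℤ) := by
    rw [card_filter, card_filter]
    push_cast
    rw [mul_sum, ← sum_add_distrib]
    refine sum_congr rfl fun x _ => ?_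
    by_cases h0 : h.eval x = 0
    · rw [h0]; simp
    · rw [if_neg h0]
      rcases quadraticChar_dichotomy h0 with h1 | h1
      · rw [h1]; simp
      · rw [h1]; norm_num
  have hsum2 : ∑ x : ZMod p, (1 + quadraticChar (ZMod p) (h.eval x)) =
      (p : ℤ) + charSum (ZMod p) h := by
    rw [sum_add_distrib, charSum]
    simp
  have hmain : (p : ℤ) + charSum (ZMod p) h ≤ 2 * s.natDegree + h.natDegree := by
    rw [← hsum2, hsum]
    have h1 : ((univ.filter fun x : ZMod p => quadraticChar (ZMod p) (h.eval x) = 1).card : ℤ) ≤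
      s.natDegree := by exact_mod_cast hAc
    have h2 : ((univ.filter fun x : ZMod p => h.eval x = 0).card : ℤ) ≤ h.natDegree := by
      exact_mod_cast hZc
    linarith
  have hmainR : (p : ℝ) + (charSum (ZMod p) h : ℝ) ≤ 2 * s.natDegree + h.natDegree := by
    exact_mod_cast hmain
  have h4 : ((h.natDegree - 1 : ℕ) : ℝ) = h.natDegree - 1 := by
    rw [Nat.cast_sub hd]; push_cast; ring
  rw [h4] at hw
  have hw' := (abs_le.1 hw).1
  have h6 : ((f.natDegree : ℝ) + 2) ≤ Real.sqrt p := by
    apply Real.le_sqrt_of_sq_le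
    exact_mod_cast hbig
  have h7 : Real.sqrt p * Real.sqrt p = p := Real.mul_self_sqrt (Nat.cast_nonneg p)
  have h8 : (f.natDegree : ℝ) = h.natDegree + 2 * s.natDegree := by exact_mod_cast hdeg
  have h9 : (1 : ℝ) ≤ h.natDegree := by exact_mod_cast hd
  have h10 : (0 : ℝ) ≤ s.natDegree := Nat.cast_nonneg _
  rw [h8] at h6
  nlinarith [mul_nonneg h10 (Real.sqrt_nonneg p), Real.sqrt_nonneg (p : ℝ)]

/-- Points of `y² = α x^(6k) + b x^(4k) + c x^(2k) + d` modulo a large prime which does not divide
both `d` and `b² - 4αc`. -/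
theorem exists_pt_mod {p : ℕ} [hp : Fact p.Prime] {k : ℕ} (hk : 1 ≤ k)
    (hbig : (6 * k + 2) ^ 2 ≤ p) {α b c d : ZMod p} (hα : α ≠ 0)
    (h : d ≠ 0 ∨ b ^ 2 ≠ 4 * α * c) :
    ∃ x y : ZMod p, y ≠ 0 ∧ y ^ 2 = α * x ^ (6 * k) + b * x ^ (4 * k) + c * x ^ (2 * k) + d := by
  have hp2 : p ≠ 2 := by
    rintro rfl
    have : (6 * 1 + 2) ^ 2 ≤ (6 * k + 2) ^ 2 := Nat.pow_le_pow_left (by omega) 2
    omega
  have h2 : (2 : ZMod p) ≠ 0 := by
    intro h0
    have h1 : ((2 : ℕ) : ZMod p) = 0 := by exact_mod_cast h0
    rw [ZMod.natCast_eq_zero_iff] at h1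
    exact hp2 ((Nat.prime_dvd_prime_iff_eq hp.out Nat.prime_two).1 h1)
  have hdeg := pol_natDegree (b := b) (c := c) (d := d) hα hk
  obtain ⟨x, y, hy, hxy⟩ := exists_sq_value hp2 (pol (ZMod p) k α b c d)
    (by
      intro h0
      rw [h0] at hdeg
      simp at hdeg
      omega)
    (by rw [hdeg]; exact hbig)
    (by
      intro e s hes
      obtain ⟨h3, h4⟩ := struct h2 hα hk hes
      rcases h with h | h
      · exact h h3
      · exact h h4)
  exact ⟨x, y, hy, by rw [hxy, pol_eval]⟩

end Stoll308.BE
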