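import Pool.Agent.Work.MP_308fa9_nt.BE.Basic
import Pool.Agent.Work.MP_308fa9_nt.BE.ElsPoly
import Pool.Agent.Work.MP_308fa9_nt.Local

set_option autoImplicit false

/-!
Local solubility at the large primes and at the primes where `d` is a square.
-/

namespace Stoll308.BE

open Polynomial Finset PadicInt

theorem point_large (α : ℤ) (hα : α ≠ 0) (k : ℕ) (hk : 1 ≤ k) : ∃ P₀ : ℕ, ∀ (p : ℕ) [Fact p.Prime],
    P₀ ≤ p → ∀ b c d : ℤ, ¬ ((p : ℤ) ∣ d ∧ (p : ℤ) ∣ b ^ 2 - 4 * α * c) →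
      HasPoint k α b c d ℚ_[p] := by
  refine ⟨(6 * k + 2) ^ 2 + α.natAbs + 1, ?_⟩
  intro p hp hbig b c d hbad
  have hp2 : p ≠ 2 := by
    rintro rfl
    have : (6 * 1 + 2) ^ 2 ≤ (6 * k + 2) ^ 2 := Nat.pow_le_pow_left (by omega) 2
    omega
  have hαp : (α : ZMod p) ≠ 0 := by
    intro h0
    rw [ZMod.intCast_zmod_eq_zero_iff_dvd] at h0
    have h1 := Int.natAbs_dvd_natAbs.2 h0
    rw [Int.natAbs_natCast] at h1
    have h2 := Nat.le_of_dvd (Int.natAbs_pos.2 hα) h1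
    omega
  obtain ⟨x, y, hy, hxy⟩ := exists_pt_mod (p := p) hk (by omega) (α := α) (b := b) (c := c)
    (d := d) hαp (by
      by_contra hcon
      push Not at hcon
      apply hbad
      constructor
      · rw [← ZMod.intCast_zmod_eq_zero_iff_dvd]
        exact hcon.1
      · rw [← ZMod.intCast_zmod_eq_zero_iff_dvd]
        push_cast
        rw [hcon.2]
        ring)
  obtain ⟨a, ha⟩ := ZMod.ringHom_surjective (toZMod : ℤ_[p] →+* ZMod p) x
  set V : ℤ_[p] := α * a ^ (6 * k) + b * a ^ (4 * k) + c * a ^ (2 * k) + d with hV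
  have hVm : toZMod V = y ^ 2 := by
    rw [hV, hxy]
    simp only [map_add, map_mul, map_pow, map_intCast, ha]
  have hVu : ‖V‖ = 1 := norm_eq_one_iff_toZMod.2 (by rw [hVm]; exact pow_ne_zero _ hy)
  obtain ⟨w, -, hw⟩ := sq_of_residue hp2 hVu (by rw [hVm]; exact ⟨y, sq y⟩)
  left
  refine ⟨a, w, ?_⟩
  have h1 : ((w ^ 2 : ℤ_[p]) : ℚ_[p]) = (V : ℚ_[p]) := by rw [hw]
  rw [hV] at h1
  push_cast at h1
  exact h1

theorem point_small (α b c d : ℤ) (k : ℕ) (hk : 1 ≤ k) (p : ℕ) [Fact p.Prime]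
    (hd : ((8 * p : ℕ) : ℤ) ∣ d - 1) : HasPoint k α b c d ℚ_[p] := by
  have hp : p.Prime := Fact.out
  have hsq : ∃ w : ℤ_[p], w ^ 2 = (d : ℤ_[p]) := by
    by_cases hp2 : p = 2
    · subst hp2
      have h8 : ((2 : ℕ) : ℤ) ^ 4 ∣ d - 1 := by
        have : (((8 * 2 : ℕ) : ℕ) : ℤ) = ((2 : ℕ) : ℤ) ^ 4 := by norm_num
        rw [← this]
        exact hd
      have hn : ‖((d - 1 : ℤ) : ℤ_[2])‖ ≤ ((2 : ℕ) : ℝ) ^ (-(4 : ℕ) : ℤ) :=
        PadicInt.norm_int_le_pow_iff_dvd.2 (by exact_mod_cast h8)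
      have h2n : ‖(2 : ℤ_[2])‖ = 2⁻¹ := by
        have := PadicInt.norm_p (p := 2)
        exact_mod_cast this
      obtain ⟨z, hz, -⟩ := hensels_lemma
        (F := (Polynomial.X ^ 2 - Polynomial.C (d : ℤ_[2]) : Polynomial ℤ_[2]))
        (a := (1 : ℤ_[2])) (by
          simp only [map_sub, map_pow, Polynomial.aeval_X, Polynomial.aeval_C,
            Polynomial.derivative_C, sub_zero,
            Polynomial.derivative_X_pow, map_mul, Algebra.algebraMap_self, RingHom.id_apply]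
          simp only [Nat.cast_ofNat, Nat.add_one_sub_one, pow_one, mul_one]
          have h3 : (1 : ℤ_[2]) ^ 2 - (d : ℤ_[2]) = -((d - 1 : ℤ) : ℤ_[2]) := by push_cast; ring
          rw [h3, norm_neg, h2n]
          refine lt_of_le_of_lt hn ?_
          norm_num)
      simp only [map_sub, map_pow, Polynomial.aeval_X, Polynomial.aeval_C, Algebra.algebraMap_self,
        RingHom.id_apply, sub_eq_zero] at hz
      exact ⟨z, hz⟩
    · have hpd : (p : ℤ) ∣ d - 1 := dvd_trans ⟨8, by push_cast; ring⟩ hd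
      have h1 : toZMod (d : ℤ_[p]) = 1 := by
        rw [map_intCast]
        have h2 := (ZMod.intCast_zmod_eq_zero_iff_dvd (d - 1) p).2 hpd
        push_cast at h2
        exact sub_eq_zero.1 h2
      obtain ⟨w, -, hw⟩ := sq_of_residue (e := (d : ℤ_[p])) hp2
        (norm_eq_one_iff_toZMod.2 (by rw [h1]; exact one_ne_zero)) (by rw [h1]; exact ⟨1, by ring⟩)
      exact ⟨w, hw.symm⟩
  obtain ⟨w, hw⟩ := hsq
  left
  refine ⟨0, w, ?_⟩
  have h1 : ((w ^ 2 : ℤ_[p]) : ℚ_[p]) = ((d : ℤ_[p]) : ℚ_[p]) := by rw [hw]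
  push_cast at h1
  rw [h1, zero_pow (by omega), zero_pow (by omega), zero_pow (by omega)]
  ring

theorem point_real (α b c d : ℤ) (k : ℕ) (hk : 1 ≤ k) (hd : 0 < d) : HasPoint k α b c d ℝ := by
  left
  refine ⟨0, Real.sqrt d, ?_⟩
  rw [Real.sq_sqrt (by exact_mod_cast hd.le), zero_pow (by omega), zero_pow (by omega),
    zero_pow (by omega)]
  ring

end Stoll308.BE
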