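import Mathlib

set_option autoImplicit false

/-!
The Hasse-Minkowski theorem for ternary quadratic forms over `ℚ`.
-/

namespace Stoll308.BE

/-- `z² = a x² + b y²` has a nontrivial solution in `K`. -/
def Iso2 (K : Type*) [Field K] (a b : K) : Prop :=
  ∃ x y z : K, ¬ (x = 0 ∧ y = 0 ∧ z = 0) ∧ z ^ 2 = a * x ^ 2 + b * y ^ 2

section basic

variable {K : Type*} [Field K]

lemma Iso2.symm {a b : K} (h : Iso2 K a b) : Iso2 K b a := by
  obtain ⟨x, y, z, h0, h⟩ := h
  exact ⟨y, x, z, fun h' => h0 ⟨h'.2.1, h'.1, h'.2.2⟩, by rw [h]; ring⟩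

lemma iso2_of_sq (t b : K) : Iso2 K (t ^ 2) b := ⟨1, 0, t, by simp, by ring⟩

lemma iso2_mul_sq {a b u : K} (hu : u ≠ 0) : Iso2 K a (b * u ^ 2) ↔ Iso2 K a b := by
  constructor
  · rintro ⟨x, y, z, h0, h⟩
    refine ⟨x, u * y, z, fun h' => h0 ⟨h'.1, ?_, h'.2.2⟩, by rw [h]; ring⟩
    exact (mul_eq_zero.mp h'.2.1).resolve_left hu
  · rintro ⟨x, y, z, h0, h⟩
    refine ⟨x, y / u, z, fun h' => h0 ⟨h'.1, ?_, h'.2.2⟩, by rw [h]; field_simp⟩
    exact (div_eq_zero_iff.mp h'.2.1).resolve_right hu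

lemma iso2_descent {a b b' t : K} (hb : b ≠ 0) (h : b * b' = t ^ 2 - a) (hs : Iso2 K a b) :
    Iso2 K a b' := by
  obtain ⟨x, y, z, h0, h1⟩ := hs
  by_cases hy : y = 0
  · subst hy
    have hx : x ≠ 0 := by
      rintro rfl
      apply h0
      refine ⟨rfl, rfl, ?_⟩
      have : z ^ 2 = 0 := by rw [h1]; ring
      exact pow_eq_zero_iff (two_ne_zero) |>.mp this
    have h2 : a = (z / x) ^ 2 := by
      field_simp
      linear_combination -h1
    rw [h2]
    exact iso2_of_sq _ _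
  · refine ⟨t * x + z, b * y, t * z + a * x, fun h' => (mul_ne_zero hb hy) h'.2.1, ?_⟩
    linear_combination (t ^ 2 - a) * h1 - b * y ^ 2 * h

end basic

section padic

variable {p : ℕ} [hp : Fact p.Prime]

/-- A nonzero triple of `p`-adic numbers has a primitive multiple. -/
lemma exists_primitive (x y z : ℚ_[p]) (h0 : ¬ (x = 0 ∧ y = 0 ∧ z = 0)) :
    ∃ c : ℚ_[p], c ≠ 0 ∧ ∃ x' y' z' : ℤ_[p], c * x = x' ∧ c * y = y' ∧ c * z = z' ∧
      (x' = 1 ∨ y' = 1 ∨ z' = 1) := by
  have key : ∀ u v w : ℚ_[p], u ≠ 0 → ‖v‖ ≤ ‖u‖ → ‖w‖ ≤ ‖u‖ →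
      ∃ c : ℚ_[p], c ≠ 0 ∧ ∃ v' w' : ℤ_[p], c * u = ((1 : ℤ_[p]) : ℚ_[p]) ∧ c * v = v' ∧
        c * w = w' := by
    intro u v w hu hv hw
    have hu' : 0 < ‖u‖ := norm_pos_iff.mpr hu
    refine ⟨u⁻¹, inv_ne_zero hu, ⟨u⁻¹ * v, ?_⟩, ⟨u⁻¹ * w, ?_⟩, ?_, rfl, rfl⟩
    · rw [norm_mul, norm_inv, inv_mul_le_iff₀ hu']; simpa using hv
    · rw [norm_mul, norm_inv, inv_mul_le_iff₀ hu']; simpa using hw
    · rw [inv_mul_cancel₀ hu]; simp
  rcases le_total ‖x‖ ‖y‖ with hxy | hxy
  · rcases le_total ‖y‖ ‖z‖ with hyz | hyz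
    · have hz : z ≠ 0 := by
        rintro rfl
        simp only [norm_zero] at hyz
        have hy := norm_le_zero_iff.mp hyz
        subst hy
        simp only [norm_zero] at hxy
        exact h0 ⟨norm_le_zero_iff.mp hxy, rfl, rfl⟩
      obtain ⟨c, hc, v', w', h1, h2, h3⟩ := key z x y hz (hxy.trans hyz) hyz
      exact ⟨c, hc, v', w', 1, h2, h3, h1, Or.inr (Or.inr rfl)⟩
    · have hy : y ≠ 0 := by
        rintro rfl
        simp only [norm_zero] at hyz hxy
        exact h0 ⟨norm_le_zero_iff.mp hxy, rfl, norm_le_zero_iff.mp hyz⟩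
      obtain ⟨c, hc, v', w', h1, h2, h3⟩ := key y x z hy hxy hyz
      exact ⟨c, hc, v', 1, w', h2, h1, h3, Or.inr (Or.inl rfl)⟩
  · rcases le_total ‖x‖ ‖z‖ with hxz | hxz
    · have hz : z ≠ 0 := by
        rintro rfl
        simp only [norm_zero] at hxz
        have hx := norm_le_zero_iff.mp hxz
        subst hx
        simp only [norm_zero] at hxy
        exact h0 ⟨rfl, norm_le_zero_iff.mp hxy, rfl⟩
      obtain ⟨c, hc, v', w', h1, h2, h3⟩ := key z x y hz hxz (hxy.trans hxz)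
      exact ⟨c, hc, v', w', 1, h2, h3, h1, Or.inr (Or.inr rfl)⟩
    · have hx : x ≠ 0 := by
        rintro rfl
        simp only [norm_zero] at hxy hxz
        exact h0 ⟨rfl, norm_le_zero_iff.mp hxy, norm_le_zero_iff.mp hxz⟩
      obtain ⟨c, hc, v', w', h1, h2, h3⟩ := key x y z hx hxy hxz
      exact ⟨c, hc, 1, v', w', h1, h2, h3, Or.inl rfl⟩

lemma dvd_of_toZMod_eq_zero {x : ℤ_[p]} (h : PadicInt.toZMod x = 0) : (p : ℤ_[p]) ∣ x := by
  have h1 : x ∈ RingHom.ker (PadicInt.toZMod : ℤ_[p] →+* ZMod p) := h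
  rw [PadicInt.ker_toZMod, PadicInt.maximalIdeal_eq_span_p, Ideal.mem_span_singleton] at h1
  exact h1

lemma toZMod_intCast (a : ℤ) : (PadicInt.toZMod (a : ℤ_[p])) = (a : ZMod p) := by
  simp

lemma sq_mod_of_iso2 (a b : ℤ) (hb : (p : ℤ) ∣ b) (hb2 : ¬ (p : ℤ) ^ 2 ∣ b)
    (h : Iso2 ℚ_[p] (a : ℚ_[p]) (b : ℚ_[p])) : ∃ t : ℤ, (p : ℤ) ∣ t ^ 2 - a := by
  obtain ⟨x, y, z, h0, h1⟩ := h
  obtain ⟨c, hc, X, Y, Z, hX, hY, hZ, hprim⟩ := exists_primitive x y z h0
  have h2 : Z ^ 2 = a * X ^ 2 + b * Y ^ 2 := by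
    have : ((Z ^ 2 : ℤ_[p]) : ℚ_[p]) = ((a * X ^ 2 + b * Y ^ 2 : ℤ_[p]) : ℚ_[p]) := by
      push_cast
      rw [← hX, ← hY, ← hZ]
      linear_combination c ^ 2 * h1
    exact Subtype.ext this
  obtain ⟨b₀, rfl⟩ := hb
  have hb0 : ¬ (p : ℤ) ∣ b₀ := fun h => hb2 (by rw [pow_two]; exact mul_dvd_mul_left _ h)
  have h3 := congrArg (PadicInt.toZMod (p := p)) h2
  simp only [map_pow, map_add, map_mul, toZMod_intCast] at h3
  have hpz : (((p : ℤ) * b₀ : ℤ) : ZMod p) = 0 := by push_cast; simp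
  rw [hpz] at h3
  simp only [zero_mul, add_zero] at h3
  by_cases hX0 : PadicInt.toZMod X = 0
  · exfalso
    rw [hX0] at h3
    have hZ0 : PadicInt.toZMod Z = 0 := by
      have : (PadicInt.toZMod Z) ^ 2 = 0 := by rw [h3]; ring
      exact pow_eq_zero_iff two_ne_zero |>.mp this
    obtain ⟨X', hX'⟩ := dvd_of_toZMod_eq_zero hX0
    obtain ⟨Z', hZ'⟩ := dvd_of_toZMod_eq_zero hZ0
    have hp0 : (p : ℤ_[p]) ≠ 0 := by exact_mod_cast hp.out.ne_zero
    have h4 : (b₀ : ℤ_[p]) * Y ^ 2 = p * (Z' ^ 2 - a * X' ^ 2) := by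
      apply mul_left_cancel₀ hp0
      rw [hX', hZ'] at h2
      push_cast at h2
      linear_combination -h2
    have h5 := congrArg (PadicInt.toZMod (p := p)) h4
    simp only [map_pow, map_mul, toZMod_intCast, map_natCast, CharP.cast_eq_zero, zero_mul] at h5
    have hbz : (b₀ : ZMod p) ≠ 0 := by
      rw [Ne, ZMod.intCast_zmod_eq_zero_iff_dvd]
      exact hb0
    have hY0 : PadicInt.toZMod Y = 0 :=
      pow_eq_zero_iff two_ne_zero |>.mp ((mul_eq_zero.mp h5).resolve_left hbz)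
    rcases hprim with h | h | h
    · rw [h] at hX0; simp at hX0
    · rw [h] at hY0; simp at hY0
    · rw [h] at hZ0; simp at hZ0
  · refine ⟨((PadicInt.toZMod Z / PadicInt.toZMod X : ZMod p).val : ℤ), ?_⟩
    rw [← ZMod.intCast_zmod_eq_zero_iff_dvd]
    push_cast
    rw [ZMod.natCast_val, ZMod.cast_id]
    field_simp
    rw [h3]
    ring

end padic

lemma sq_mod_squarefree (a : ℤ) (n : ℕ) (hn : Squarefree n)
    (h : ∀ p : ℕ, p.Prime → p ∣ n → ∃ t : ℤ, (p : ℤ) ∣ t ^ 2 - a) :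
    ∃ t : ℤ, (n : ℤ) ∣ t ^ 2 - a := by
  induction n using Nat.recOnPrimeCoprime with
  | zero => exact absurd hn not_squarefree_zero
  | prime_pow p n hp =>
    rcases Nat.eq_zero_or_pos n with rfl | hn0
    · exact ⟨0, by simp⟩
    · have h1 : n = 1 := by
        rcases (Nat.squarefree_pow_iff hp.ne_one hn0.ne').mp hn with ⟨_, h⟩
        exact h
      subst h1
      rw [pow_one] at h ⊢
      exact h p hp dvd_rfl
  | coprime m n hm hn1 hcop ihm ihn =>
    obtain ⟨s, hs⟩ := ihm (hn.squarefree_of_dvd (dvd_mul_right _ _))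
      (fun p hp hpm => h p hp (hpm.mul_right _))
    obtain ⟨t, ht⟩ := ihn (hn.squarefree_of_dvd (dvd_mul_left _ _))
      (fun p hp hpm => h p hp (hpm.mul_left _))
    have hc : IsCoprime (m : ℤ) (n : ℤ) := Nat.isCoprime_iff_coprime.mpr hcop
    obtain ⟨u, v, huv⟩ := hc
    refine ⟨s * (v * n) + t * (u * m), ?_⟩
    push_cast
    apply IsCoprime.mul_dvd (Nat.isCoprime_iff_coprime.mpr hcop)
    · obtain ⟨k, hk⟩ := hs
      refine ⟨k + (t * u - s * u) * (2 * s + (t * u - s * u) * m), ?_⟩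
      have : s * (v * n) + t * (u * m) = s + (t * u - s * u) * m := by
        linear_combination s * huv
      rw [this]
      linear_combination hk
    · obtain ⟨k, hk⟩ := ht
      refine ⟨k + (s * v - t * v) * (2 * t + (s * v - t * v) * n), ?_⟩
      have : s * (v * n) + t * (u * m) = t + (s * v - t * v) * n := by
        linear_combination t * huv
      rw [this]
      linear_combination hk

/-- A nonzero integer is a squarefree integer times a nonzero square. -/
lemma int_sqfree_decomp (n : ℤ) (hn : n ≠ 0) : ∃ a b : ℤ, b ≠ 0 ∧ n = a * b ^ 2 ∧ Squarefree a := by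
  obtain ⟨a, b, hab, ha⟩ := Nat.sq_mul_squarefree n.natAbs
  have hb : b ≠ 0 := by
    rintro rfl
    simp at hab
    omega
  rcases Int.natAbs_eq n with h | h
  · refine ⟨a, b, by exact_mod_cast hb, ?_, ?_⟩
    · rw [h, ← hab]; push_cast; ring
    · rw [← Int.squarefree_natAbs]; simpa using ha
  · refine ⟨-a, b, by exact_mod_cast hb, ?_, ?_⟩
    · rw [h, ← hab]; push_cast; ring
    · rw [← Int.squarefree_natAbs]; simpa using ha

theorem hm_core (N : ℕ) : ∀ a b : ℤ, Squarefree a → Squarefree b → a.natAbs + b.natAbs ≤ N →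
    (∀ (p : ℕ) [Fact p.Prime], Iso2 ℚ_[p] (a : ℚ_[p]) (b : ℚ_[p])) →
    Iso2 ℝ (a : ℝ) (b : ℝ) → Iso2 ℚ (a : ℚ) (b : ℚ) := by
  induction N using Nat.strong_induction_on with
  | _ N ih =>
  -- the case `|a| ≤ |b|`
  have main : ∀ a b : ℤ, Squarefree a → Squarefree b → a.natAbs + b.natAbs ≤ N →
      a.natAbs ≤ b.natAbs →
      (∀ (p : ℕ) [Fact p.Prime], Iso2 ℚ_[p] (a : ℚ_[p]) (b : ℚ_[p])) →
      Iso2 ℝ (a : ℝ) (b : ℝ) → Iso2 ℚ (a : ℚ) (b : ℚ) := by
    intro a b ha hb hN hab hloc hreal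
    have ha0 : a ≠ 0 := ha.ne_zero
    have hb0 : b ≠ 0 := hb.ne_zero
    by_cases hb1 : b.natAbs = 1
    · have ha1 : a.natAbs = 1 := by
        have := Int.natAbs_pos.mpr ha0
        omega
      have ha2 : a = 1 ∨ a = -1 := by omega
      have hb2 : b = 1 ∨ b = -1 := by omega
      rcases ha2 with rfl | rfl
      · have := iso2_of_sq (1 : ℚ) (b : ℚ)
        simpa using this
      · rcases hb2 with rfl | rfl
        · have := (iso2_of_sq (1 : ℚ) ((-1 : ℤ) : ℚ)).symm
          simpa using this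
        · exfalso
          obtain ⟨x, y, z, h0, h⟩ := hreal
          push_cast at h
          apply h0
          have hx : x ^ 2 = 0 := by nlinarith [sq_nonneg x, sq_nonneg y, sq_nonneg z]
          have hy : y ^ 2 = 0 := by nlinarith [sq_nonneg x, sq_nonneg y, sq_nonneg z]
          have hz : z ^ 2 = 0 := by nlinarith [sq_nonneg x, sq_nonneg y, sq_nonneg z]
          exact ⟨pow_eq_zero_iff two_ne_zero |>.mp hx, pow_eq_zero_iff two_ne_zero |>.mp hy,
            pow_eq_zero_iff two_ne_zero |>.mp hz⟩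
    · have hb2 : 2 ≤ b.natAbs := by
        have := Int.natAbs_pos.mpr hb0
        omega
      -- `a` is a square modulo `b`
      obtain ⟨t₀, ht₀⟩ := sq_mod_squarefree a b.natAbs (Int.squarefree_natAbs.mpr hb) (by
        intro p hp hpb
        have : Fact p.Prime := ⟨hp⟩
        refine sq_mod_of_iso2 (p := p) a b ?_ ?_ (hloc p)
        · exact Int.natCast_dvd.mpr hpb
        · intro h
          have h1 : IsUnit (p : ℤ) := hb (p : ℤ) (by rw [← pow_two]; exact h)
          have := Int.isUnit_iff_natAbs_eq.mp h1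
          simp only [Int.natAbs_natCast] at this
          exact hp.ne_one this)
      set n : ℕ := b.natAbs with hn
      set t : ℤ := t₀.bmod n with ht
      have htn : (n : ℤ) ∣ t ^ 2 - a := by
        have h1 : (n : ℤ) ∣ t - t₀ := by
          have := Int.dvd_bmod_sub_self (x := t₀) (m := n)
          exact this
        have h2 : t ^ 2 - a = (t - t₀) * (t + t₀) + (t₀ ^ 2 - a) := by ring
        rw [h2]
        exact dvd_add (h1.mul_right _) ht₀
      have ht1 : 2 * |t| ≤ n := by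
        have h1 := Int.le_bmod (x := t₀) (m := n) (by omega)
        have h2 := Int.bmod_lt (x := t₀) (m := n) (by omega)
        rw [← ht] at h1 h2
        rcases abs_cases t with ⟨h3, _⟩ | ⟨h3, _⟩ <;> omega
      have hbn : (b : ℤ) ∣ t ^ 2 - a := by
        rw [← Int.natAbs_dvd]
        exact htn
      obtain ⟨b', hb'⟩ := hbn
      by_cases hb'0 : b' = 0
      · have h1 : a = t ^ 2 := by rw [hb'0] at hb'; linarith
        rw [h1]
        push_cast
        exact iso2_of_sq _ _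
      · obtain ⟨b₁, u, hu, hbu, hb₁⟩ := int_sqfree_decomp b' hb'0
        -- size of `b₁`
        have hlt : b₁.natAbs < b.natAbs := by
          have h1 : |b| * |b'| ≤ |t| ^ 2 + |a| := by
            rw [← abs_mul, ← hb']
            calc |t ^ 2 - a| ≤ |t ^ 2| + |a| := abs_sub _ _
              _ = |t| ^ 2 + |a| := by rw [abs_pow]
          have h2 : |a| ≤ |b| := by
            rw [Int.abs_eq_natAbs, Int.abs_eq_natAbs]
            exact_mod_cast hab
          have h3 : (n : ℤ) = |b| := by rw [hn, Int.abs_eq_natAbs]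
          rw [h3] at ht1
          have h4 : 2 ≤ |b| := by rw [← h3]; exact_mod_cast hb2
          have h5 : |b'| < |b| := by
            by_contra hcon
            rw [not_lt] at hcon
            nlinarith [abs_nonneg t]
          have h6 : |b₁| ≤ |b'| := by
            rw [hbu, abs_mul, abs_pow]
            have h7 : 1 ≤ |u| := Int.one_le_abs hu
            have h8 : 1 ≤ |u| ^ 2 := by nlinarith
            exact le_mul_of_one_le_right (abs_nonneg b₁) h8
          have h7 : |b₁| < |b| := lt_of_le_of_lt h6 h5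
          rw [Int.abs_eq_natAbs, Int.abs_eq_natAbs] at h7
          exact_mod_cast h7
        have step : ∀ (K : Type) [Field K] [CharZero K], Iso2 K (a : K) (b : K) →
            Iso2 K (a : K) (b₁ : K) := by
          intro K _ _ hK
          have h1 : Iso2 K (a : K) (b' : K) := by
            apply iso2_descent (t := (t : K)) (by exact_mod_cast hb0) _ hK
            exact_mod_cast hb'.symm
          rw [hbu] at h1
          push_cast at h1
          exact (iso2_mul_sq (by exact_mod_cast hu)).mp h1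
        have hback : ∀ (K : Type) [Field K] [CharZero K], Iso2 K (a : K) (b₁ : K) →
            Iso2 K (a : K) (b : K) := by
          intro K _ _ hK
          have h1 : Iso2 K (a : K) (b' : K) := by
            rw [hbu]
            push_cast
            exact (iso2_mul_sq (by exact_mod_cast hu)).mpr hK
          apply iso2_descent (t := (t : K)) (by exact_mod_cast hb'0) _ h1
          rw [mul_comm]
          exact_mod_cast hb'.symm
        apply hback
        apply ih (a.natAbs + b₁.natAbs) (by omega) a b₁ ha hb₁ le_rfl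
        · intro p _
          exact step _ (hloc p)
        · exact step _ hreal
  intro a b ha hb hN hloc hreal
  rcases le_total a.natAbs b.natAbs with h | h
  · exact main a b ha hb hN h hloc hreal
  · exact (main b a hb ha (by omega) h (fun p _ => (hloc p).symm) hreal.symm).symm

/-- Hasse-Minkowski for `z² = a x² + b y²`, `a, b` rational. -/
theorem hm_two (a b : ℚ) (hloc : ∀ (p : ℕ) [Fact p.Prime], Iso2 ℚ_[p] (a : ℚ_[p]) (b : ℚ_[p]))
    (hreal : Iso2 ℝ (a : ℝ) (b : ℝ)) : Iso2 ℚ a b := by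
  have dec : ∀ r : ℚ, r ≠ 0 → ∃ (n : ℤ) (u : ℚ), u ≠ 0 ∧ r = n * u ^ 2 ∧ Squarefree n := by
    intro r hr
    have hd : (r.den : ℚ) ≠ 0 := by exact_mod_cast r.den_nz
    have hnd : r.num * r.den ≠ 0 :=
      mul_ne_zero (Rat.num_ne_zero.mpr hr) (by exact_mod_cast r.den_nz)
    obtain ⟨n, m, hm, hnm, hn⟩ := int_sqfree_decomp _ hnd
    refine ⟨n, m / r.den, div_ne_zero (by exact_mod_cast hm) hd, ?_, hn⟩
    have h1 : (r.num : ℚ) * r.den = n * m ^ 2 := by exact_mod_cast hnm
    have h2 : r = r.num / r.den := (Rat.num_div_den r).symm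
    rw [div_pow, ← mul_div_assoc, ← h1]
    nth_rewrite 1 [h2]
    field_simp
  by_cases ha : a = 0
  · rw [ha]
    have := iso2_of_sq (0 : ℚ) b
    simpa using this
  by_cases hb : b = 0
  · rw [hb]
    have := (iso2_of_sq (0 : ℚ) a).symm
    simpa using this
  obtain ⟨m, u, hu, hau, hm⟩ := dec a ha
  obtain ⟨n, v, hv, hbv, hn⟩ := dec b hb
  have key : ∀ (K : Type) [Field K] [CharZero K], Iso2 K (a : K) (b : K) ↔
      Iso2 K (m : K) (n : K) := by
    intro K _ _
    rw [hau, hbv]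
    push_cast
    rw [iso2_mul_sq (by exact_mod_cast hv)]
    constructor
    · intro h
      exact ((iso2_mul_sq (by exact_mod_cast hu)).mp h.symm).symm
    · intro h
      exact ((iso2_mul_sq (by exact_mod_cast hu)).mpr h.symm).symm
  have h1 := hm_core _ m n hm hn le_rfl (fun p _ => (key _).mp (hloc p)) ((key _).mp hreal)
  have h2 := (key ℚ).mpr h1
  simpa using h2

end Stoll308.BE
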