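import Pool.Agent.Work.MP_308fa9_nt.BE.Basic

set_option autoImplicit false

/-!
The local condition at a prime dividing `d` exactly once.
-/

namespace Stoll308.BE

open Polynomial Finset

theorem lcond (κ b c d : ℤ) (δ : ℚ[X]) (l : ℕ) [hl : Fact l.Prime] (h2 : l ≠ 2)
    (hκ : ¬ (l : ℤ) ∣ κ) (hd : (l : ℤ) ∣ d) (hd2 : ¬ (l : ℤ) ^ 2 ∣ d) (hc : ¬ (l : ℤ) ∣ c)
    (hloc : MLoc κ b c d δ ℚ_[l]) (p q : ℤ) (h : Rep b c d δ p q) :
    legendreSym l (κ * p) ≠ -1 := by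
  sorry

end Stoll308.BE
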