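import Pool.Agent.Work.MP_308fa9_nt.BE.Basic

set_option autoImplicit false

/-!
From the Selmer set of the curve to the monic cubic; rational points.
-/

namespace Stoll308.BE

open Polynomial Finset

/-- The cubic of the curve, with the variable divided by `α`. -/
lemma comp_cubic {K : Type*} [Field K] (α b c d : K) (hα : α ≠ 0) :
    (C α * X ^ 3 + C b * X ^ 2 + C c * X + C d : K[X]).comp (C α⁻¹ * X) =
      C ((α ^ 2)⁻¹) * F b (α * c) (α ^ 2 * d) := by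
  have e : ∀ z : K, (C z : K[X]).comp (C α⁻¹ * X) = C z := fun z => C_comp
  simp only [add_comp, mul_comp, pow_comp, X_comp, C_comp, F]
  have h1 : (C α : K[X]) * (C α⁻¹ * X) ^ 3 = C ((α ^ 2)⁻¹) * X ^ 3 := by
    rw [mul_pow, ← C_pow, ← mul_assoc, ← C_mul]
    congr 2
    field_simp
  have h2 : (C b : K[X]) * (C α⁻¹ * X) ^ 2 = C ((α ^ 2)⁻¹) * (C b * X ^ 2) := by
    rw [mul_pow, ← C_pow, ← mul_assoc, ← C_mul, ← mul_assoc, ← C_mul]
    congr 2
    rw [inv_pow, mul_comm]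
  have h3 : (C c : K[X]) * (C α⁻¹ * X) = C ((α ^ 2)⁻¹) * (C (α * c) * X) := by
    rw [← mul_assoc, ← C_mul, ← mul_assoc, ← C_mul]
    congr 2
    field_simp
  have h4 : (C d : K[X]) = C ((α ^ 2)⁻¹) * C (α ^ 2 * d) := by
    rw [← C_mul]
    congr 1
    field_simp
  rw [h1, h2, h3]
  conv_lhs => rw [h4]
  ring

lemma local_to_mloc {K : Type*} [Field K] [Algebra ℚ K] (k : ℕ) (α b c d : ℤ) (hα : α ≠ 0)
    (δ : ℚ[X]) (h : LocalImage k α b c d δ K) :
    MLoc α b (α * c) (α ^ 2 * d) (C (α : ℚ) * δ.comp (C (α : ℚ)⁻¹ * X)) K := by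
  have hc : CharZero K := algebraRat.charZero K
  have hα' : (α : K) ≠ 0 := by exact_mod_cast hα
  obtain ⟨x, y, s, hy, hxy, t, ht⟩ := h
  refine ⟨x ^ k, α * y, s.comp (C (α : K)⁻¹ * X), mul_ne_zero hα' hy, ?_, ?_⟩
  · simp only [FZ, F, eval_add, eval_mul, eval_pow, eval_X, eval_C]
    push_cast
    rw [mul_pow, hxy]
    ring
  · have h2 := congrArg (fun q : K[X] => q.comp (C (α : K)⁻¹ * X)) ht
    simp only [sub_comp, mul_comp, C_comp, X_comp, pow_comp] at h2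
    have h3 := comp_cubic (K := K) α b c d hα'
    rw [h3] at h2
    have hα2 : (α : K) * (α : K)⁻¹ = 1 := mul_inv_cancel₀ hα'
    have hα3 : (C (α : K) : K[X]) * C (α : K)⁻¹ = 1 := by rw [← C_mul, hα2, C_1]
    refine ⟨C (α : K)⁻¹ * t.comp (C (α : K)⁻¹ * X), ?_⟩
    have h4 : (C (α : K) : K[X]) * C ((α : K) ^ 2)⁻¹ = C (α : K)⁻¹ := by
      rw [← C_mul]
      congr 1
      field_simp
    have h5 : Polynomial.map (algebraMap ℚ K) (C (α : ℚ) * δ.comp (C (α : ℚ)⁻¹ * X)) =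
        C (α : K) * (Polynomial.map (algebraMap ℚ K) δ).comp (C (α : K)⁻¹ * X) := by
      rw [Polynomial.map_mul, Polynomial.map_comp, Polynomial.map_mul, map_X, map_C, map_C,
        map_inv₀, map_intCast]
    have h6 : (C (α * (x ^ k) ^ 2) : K[X]) = C (α : K) * C (x ^ (2 * k)) := by
      rw [← C_mul, ← pow_mul, mul_comm k 2]
    have h7 : (FZ K b (α * c) (α ^ 2 * d) : K[X]) = F (b : K) (α * c) (α ^ 2 * d) := by
      simp [FZ]
    rw [h5, h6, h7]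
    linear_combination (C (α : K)) * h2 + X * hα3 +
      (F (b : K) (α * c) (α ^ 2 * d)) * t.comp (C (α : K)⁻¹ * X) * h4

theorem sel_to_mloc (k : ℕ) (α b c d : ℤ) (hα : α ≠ 0) (h : Sel k α b c d) :
    ∃ δ : ℚ[X], IsCoprime δ (FZ ℚ b (α * c) (α ^ 2 * d)) ∧
      (∀ (p : ℕ) [Fact p.Prime], MLoc α b (α * c) (α ^ 2 * d) δ ℚ_[p]) ∧
      MLoc α b (α * c) (α ^ 2 * d) δ ℝ := by
  obtain ⟨δ, h1, h2, h3⟩ := h
  have hα' : (α : ℚ) ≠ 0 := by exact_mod_cast hα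
  refine ⟨C (α : ℚ) * δ.comp (C (α : ℚ)⁻¹ * X), ?_, ?_, ?_⟩
  · have h4 : IsCoprime (δ.comp (C (α : ℚ)⁻¹ * X))
        ((C (α : ℚ) * X ^ 3 + C (b : ℚ) * X ^ 2 + C (c : ℚ) * X + C (d : ℚ)).comp
          (C (α : ℚ)⁻¹ * X)) := by
      simpa using h1.map (compRingHom (C (α : ℚ)⁻¹ * X))
    rw [comp_cubic (K := ℚ) α b c d hα'] at h4
    have h5 := h4.of_mul_right_right
    have hu : IsUnit (C (α : ℚ)) := isUnit_C.mpr (isUnit_iff_ne_zero.mpr hα')
    have h6 := (isCoprime_mul_unit_left_left hu (δ.comp (C (α : ℚ)⁻¹ * X)) _).mpr h5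
    simpa [FZ] using h6
  · intro p hp
    exact local_to_mloc k α b c d hα δ (h2 p)
  · exact local_to_mloc k α b c d hα δ h3

theorem sel_of_point (k : ℕ) (α b c d : ℤ) (hα : ¬ IsSquare α)
    (hF : Irreducible (FZ ℚ b (α * c) (α ^ 2 * d))) (h : HasPoint k α b c d ℚ) :
    Sel k α b c d := by
  have hα0 : α ≠ 0 := by
    rintro rfl
    exact hα ⟨0, rfl⟩
  have hα' : (α : ℚ) ≠ 0 := by exact_mod_cast hα0
  obtain ⟨x, y, hxy⟩ | hsq := h
  swap
  · exact absurd (Rat.isSquare_intCast_iff.mp hsq) hα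
  -- `y ≠ 0`
  have hdeg : (FZ ℚ b (α * c) (α ^ 2 * d)).natDegree = 3 := by
    unfold FZ F
    compute_degree!
  have hy : y ≠ 0 := by
    rintro rfl
    have h1 : (FZ ℚ b (α * c) (α ^ 2 * d)).IsRoot (α * x ^ (2 * k)) := by
      simp only [IsRoot, FZ, F, eval_add, eval_mul, eval_pow, eval_X, eval_C]
      push_cast
      linear_combination (-(α : ℚ) ^ 2) * hxy
    have h2 : (FZ ℚ b (α * c) (α ^ 2 * d)).natDegree = 1 :=
      natDegree_eq_of_degree_eq_some (degree_eq_one_of_irreducible_of_root hF h1)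
    rw [hdeg] at h2
    exact absurd h2 (by norm_num)
  set G : ℚ[X] := C (α : ℚ) * X ^ 3 + C (b : ℚ) * X ^ 2 + C (c : ℚ) * X + C (d : ℚ) with hG
  have hGe : G.eval (x ^ (2 * k)) = y ^ 2 := by
    rw [hxy, hG]
    simp only [eval_add, eval_mul, eval_pow, eval_X, eval_C]
    ring
  have key : ∀ (K : Type) [Field K] [Algebra ℚ K],
      LocalImage k α b c d (C (x ^ (2 * k)) - X) K := by
    intro K _ _
    refine ⟨algebraMap ℚ K x, algebraMap ℚ K y, 1, ?_, ?_, ?_⟩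
    · exact (map_ne_zero (algebraMap ℚ K)).mpr hy
    · have h1 := congrArg (algebraMap ℚ K) hxy
      rw [map_add, map_add, map_add, map_mul, map_mul, map_mul, map_pow, map_pow, map_pow,
        map_pow, map_intCast, map_intCast, map_intCast, map_intCast] at h1
      exact h1
    · simp
  refine ⟨C (x ^ (2 * k)) - X, ?_, fun p hp => key ℚ_[p], key ℝ⟩
  obtain ⟨q, hq⟩ := X_sub_C_dvd_sub_C_eval (a := x ^ (2 * k)) (p := G)
  rw [hGe] at hq
  have hy2 : (C (y ^ 2)⁻¹ : ℚ[X]) * C (y ^ 2) = 1 := by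
    rw [← C_mul, inv_mul_cancel₀ (pow_ne_zero 2 hy), C_1]
  refine ⟨C (y ^ 2)⁻¹ * q, C (y ^ 2)⁻¹, ?_⟩
  linear_combination (C (y ^ 2)⁻¹) * hq + hy2

end Stoll308.BE
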