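import Pool.Agent.Work.MP_308fa9_nt.BE.Basic
import Pool.Agent.Work.MP_308fa9_nt.BE.Sieve
import Pool.Agent.Work.MP_308fa9_nt.Mert3

set_option autoImplicit false

/-!
The trivial class survives for few triples.
-/

namespace Stoll308.BE

open Finset

namespace TrivC

/-- the excluded event at `l`, for the triple `(b, c, d)` -/
def Ev (l : ℕ) (t : Fin 3 → ℤ) : Prop := (l : ℤ) ∣ t 2 ∧ ¬ (l : ℤ) ^ 2 ∣ t 2 ∧ ¬ (l : ℤ) ∣ t 1

lemma ev_congr (l : ℕ) (t t' : Fin 3 → ℤ) (h : ∀ i, ((l ^ 2 : ℕ) : ℤ) ∣ t i - t' i) :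
    Ev l t ↔ Ev l t' := by
  have h2 : ∀ i, (l : ℤ) ^ 2 ∣ t i - t' i := fun i => by
    have := h i
    rwa [Nat.cast_pow] at this
  have h1 : ∀ i, (l : ℤ) ∣ t i - t' i := fun i => (dvd_pow_self (l : ℤ) two_ne_zero).trans (h2 i)
  unfold Ev
  rw [dvd_iff_dvd_of_dvd_sub (h1 2), dvd_iff_dvd_of_dvd_sub (h2 2), dvd_iff_dvd_of_dvd_sub (h1 1)]

open Classical in
lemma ev_count (l : ℕ) (hl : 2 ≤ l) : l ^ 2 * (l * ((l - 1) * (l - 1))) ≤
    (univ.filter fun t : Fin 3 → Fin (l ^ 2) => Ev l (fun i => ((t i : ℕ) : ℤ))).card := by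
  have hc : ∀ (i : Fin l) (j : Fin (l - 1)), l * (i : ℕ) + ((j : ℕ) + 1) < l ^ 2 := by
    intro i j
    have h1 : l * (i : ℕ) + l ≤ l * l := by
      have := Nat.mul_le_mul_left l (Nat.succ_le_of_lt i.2)
      rw [Nat.succ_eq_add_one, mul_add, mul_one] at this
      exact this
    have h2 := j.2
    rw [pow_two]
    omega
  have hd : ∀ e : Fin (l - 1), l * ((e : ℕ) + 1) < l ^ 2 := by
    intro e
    rw [pow_two]
    have := e.2
    exact Nat.mul_lt_mul_of_pos_left (by omega) (by omega)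
  have key := card_le_card_of_injOn
    (s := (univ : Finset (Fin (l ^ 2) × Fin l × Fin (l - 1) × Fin (l - 1))))
    (t := univ.filter fun t : Fin 3 → Fin (l ^ 2) => Ev l (fun i => ((t i : ℕ) : ℤ)))
    (fun x => ![x.1, ⟨l * (x.2.1 : ℕ) + ((x.2.2.1 : ℕ) + 1), hc _ _⟩,
      ⟨l * ((x.2.2.2 : ℕ) + 1), hd _⟩]) ?_ ?_
  · rw [card_univ, Fintype.card_prod, Fintype.card_prod, Fintype.card_prod, Fintype.card_fin,
      Fintype.card_fin, Fintype.card_fin] at key
    exact key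
  · rintro ⟨b, i, j, e⟩ -
    rw [mem_coe, mem_filter]
    refine ⟨mem_univ _, ?_, ?_, ?_⟩
    · show (l : ℤ) ∣ ((l * ((e : ℕ) + 1) : ℕ) : ℤ)
      rw [Int.natCast_dvd_natCast]
      exact dvd_mul_right _ _
    · show ¬ (l : ℤ) ^ 2 ∣ ((l * ((e : ℕ) + 1) : ℕ) : ℤ)
      rw [← Nat.cast_pow, Int.natCast_dvd_natCast]
      intro h
      have := Nat.le_of_dvd (by positivity) h
      exact absurd (hd e) (not_lt.mpr this)
    · show ¬ (l : ℤ) ∣ ((l * (i : ℕ) + ((j : ℕ) + 1) : ℕ) : ℤ)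
      rw [Int.natCast_dvd_natCast]
      intro h
      rw [Nat.dvd_add_right (dvd_mul_right _ _)] at h
      have h1 := Nat.le_of_dvd (by omega) h
      have := j.2
      omega
  · rintro ⟨b, i, j, e⟩ - ⟨b', i', j', e'⟩ - h
    have h0 := congr_fun h 0
    have h1 := congr_fun h 1
    have h2 := congr_fun h 2
    simp only [Matrix.cons_val_zero] at h0
    simp only [Matrix.cons_val_one, Matrix.cons_val_zero, Fin.mk.injEq] at h1
    simp only [Matrix.cons_val, Fin.mk.injEq] at h2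
    have hl0 : 0 < l := by omega
    have h2' : (e : ℕ) + 1 = (e' : ℕ) + 1 := Nat.eq_of_mul_eq_mul_left hl0 h2
    have hj : ((j : ℕ) + 1) = ((j' : ℕ) + 1) := by
      have := congrArg (· % l) h1
      simp only [Nat.mul_add_mod] at this
      have hj1 := j.2
      have hj2 := j'.2
      rwa [Nat.mod_eq_of_lt (by omega), Nat.mod_eq_of_lt (by omega)] at this
    have hi : (i : ℕ) = (i' : ℕ) := Nat.eq_of_mul_eq_mul_left hl0 (by omega)
    simp only [Prod.mk.injEq]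
    exact ⟨h0, Fin.ext hi, Fin.ext (by omega), Fin.ext (by omega)⟩

open Classical in
/-- the primes used -/
noncomputable def PS (α : ℤ) (z : ℕ) : Finset ℕ :=
  (Icc 3 z).filter fun l => ¬ (l : ℤ) ∣ α ∧ ∃ _h : Fact l.Prime, legendreSym l α = -1

lemma PS_prime {α : ℤ} {z l : ℕ} (h : l ∈ PS α z) : l.Prime ∧ 3 ≤ l := by
  unfold PS at h
  rw [mem_filter, mem_Icc] at h
  obtain ⟨h1, h2, h3, -⟩ := h
  exact ⟨h3.out, h1.1⟩

/-- the sum of the reciprocals of the primes used is unbounded -/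
lemma sum_PS (α : ℤ) (hα : ¬ IsSquare α) (B : ℝ) : ∃ z : ℕ, B ≤ ∑ l ∈ PS α z, 1 / (l : ℝ) := by
  classical
  have hα0 : α ≠ 0 := by
    rintro rfl
    exact hα ⟨0, by norm_num⟩
  obtain ⟨C, hC0, hC⟩ := (AP.Mert.one.add ((AP.Mert.jacobi hα0 hα).const_mul (-1))).loglog
  have h1 : Filter.Tendsto (fun N : ℕ => Real.log (Real.log N)) Filter.atTop Filter.atTop :=
    Real.tendsto_log_atTop.comp (Real.tendsto_log_atTop.comp tendsto_natCast_atTop_atTop)
  obtain ⟨N, hN⟩ := ((h1.eventually_ge_atTop (2 * B + C + 2 + (α.natAbs : ℝ))).and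
    (Filter.eventually_ge_atTop 2)).exists
  refine ⟨N, ?_⟩
  have h2 := (abs_le.1 (hC N hN.2)).1
  have h3 : ∑ p ∈ (Icc 0 N).filter Nat.Prime, (1 + -1 * ((jacobiSym α p : ℤ) : ℝ)) / p ≤
      2 * ∑ l ∈ PS α N, 1 / (l : ℝ) + (2 + (α.natAbs : ℝ)) := by
    have hsub : PS α N ⊆ (Icc 0 N).filter Nat.Prime := by
      intro l hl
      have h5 := PS_prime hl
      unfold PS at hl
      rw [mem_filter, mem_Icc] at hl ⊢
      exact ⟨⟨Nat.zero_le _, hl.1.2⟩, h5.1⟩
    rw [← sum_sdiff hsub, add_comm]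
    refine add_le_add ?_ ?_
    · rw [mul_sum]
      refine sum_le_sum fun l hl => ?_
      have h5 := PS_prime hl
      have h6 : ((jacobiSym α l : ℤ) : ℝ) = -1 := by
        unfold PS at hl
        rw [mem_filter] at hl
        obtain ⟨-, -, h7, h8⟩ := hl
        rw [← jacobiSym.legendreSym.to_jacobiSym, h8]
        norm_num
      rw [h6]
      ring_nf
      exact le_rfl
    · have hle : ∑ p ∈ ((Icc 0 N).filter Nat.Prime) \ PS α N,
          (1 + -1 * ((jacobiSym α p : ℤ) : ℝ)) / p ≤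
          ∑ p ∈ insert 2 (Icc 1 α.natAbs), (1 : ℝ) := by
        have hz : ∀ p ∈ ((Icc 0 N).filter Nat.Prime) \ PS α N, p ∉ insert 2 (Icc 1 α.natAbs) →
            (1 + -1 * ((jacobiSym α p : ℤ) : ℝ)) / p = 0 := by
          intro p hp hpn
          rw [mem_sdiff, mem_filter, mem_Icc] at hp
          obtain ⟨⟨⟨-, hpN⟩, hpp⟩, hpS⟩ := hp
          rw [mem_insert, mem_Icc, not_or] at hpn
          have hfact : Fact p.Prime := ⟨hpp⟩
          have hp3 : 3 ≤ p := by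
            have := hpp.two_le
            have := hpn.1
            omega
          have hnd : ¬ (p : ℤ) ∣ α := by
            intro hd
            have h9 := Int.natCast_dvd.mp hd
            have h10 := Nat.le_of_dvd (Int.natAbs_pos.mpr hα0) h9
            exact hpn.2 ⟨by omega, h10⟩
          have h7 : legendreSym p α = 1 := by
            rcases legendreSym.eq_one_or_neg_one p (a := α) (by
              rwa [Ne, ZMod.intCast_zmod_eq_zero_iff_dvd]) with h8 | h8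
            · exact h8
            · exfalso
              apply hpS
              unfold PS
              rw [mem_filter, mem_Icc]
              exact ⟨⟨hp3, hpN⟩, hnd, hfact, h8⟩
          rw [← jacobiSym.legendreSym.to_jacobiSym, h7]
          norm_num
        calc ∑ p ∈ ((Icc 0 N).filter Nat.Prime) \ PS α N,
              (1 + -1 * ((jacobiSym α p : ℤ) : ℝ)) / p
            = ∑ p ∈ (((Icc 0 N).filter Nat.Prime) \ PS α N).filter
                (· ∈ insert 2 (Icc 1 α.natAbs)), (1 + -1 * ((jacobiSym α p : ℤ) : ℝ)) / p := by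
              rw [sum_filter]
              refine sum_congr rfl fun p hp => ?_
              split_ifs with h
              · rfl
              · exact hz p hp h
          _ ≤ ∑ p ∈ (((Icc 0 N).filter Nat.Prime) \ PS α N).filter
                (· ∈ insert 2 (Icc 1 α.natAbs)), (1 : ℝ) := by
              refine sum_le_sum fun p hp => ?_
              rw [mem_filter, mem_sdiff, mem_filter] at hp
              have hpp := hp.1.1.2
              have hp2 : (2 : ℝ) ≤ p := by exact_mod_cast hpp.two_le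
              have hj : (1 : ℝ) + -1 * ((jacobiSym α p : ℤ) : ℝ) ≤ 2 := by
                rcases jacobiSym.trichotomy α p with h | h | h <;> rw [h] <;> norm_num
              rw [div_le_one (by linarith)]
              linarith
          _ ≤ ∑ p ∈ insert 2 (Icc 1 α.natAbs), (1 : ℝ) := by
              refine sum_le_sum_of_subset_of_nonneg (fun p hp => (mem_filter.mp hp).2)
                fun _ _ _ => zero_le_one
      refine hle.trans ?_
      rw [sum_const, nsmul_eq_mul, mul_one]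
      have h5 : (insert 2 (Icc 1 α.natAbs)).card ≤ α.natAbs + 1 := by
        refine (card_insert_le _ _).trans ?_
        rw [Nat.card_Icc]
        omega
      have h6 : ((insert 2 (Icc 1 α.natAbs)).card : ℝ) ≤ (α.natAbs : ℝ) + 1 := by
        exact_mod_cast h5
      linarith
  have h4 : (1 : ℝ) + -1 * 0 = 1 := by norm_num
  rw [h4, one_mul] at h2
  linarith [hN.1]

open Classical in
/-- the triples of the box as vectors -/
lemma cnt_le_box (P : ℤ → ℤ → ℤ → Prop) (X : ℕ) (Q : (Fin 3 → ℤ) → Prop)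
    (h : ∀ b c d, P b c d → Q ![b, c, d]) : cnt P X ≤
      ((Fintype.piFinset fun i : Fin 3 => Ico ((![-(X : ℤ), -(X : ℤ) ^ 2, -(X : ℤ) ^ 3] : Fin 3 → ℤ) i)
        ((![-(X : ℤ), -(X : ℤ) ^ 2, -(X : ℤ) ^ 3] : Fin 3 → ℤ) i +
          ((![2 * X + 1, 2 * X ^ 2 + 1, 2 * X ^ 3 + 1] : Fin 3 → ℕ) i : ℤ))).filter
      fun t => Q t).card := by
  unfold cnt
  refine card_le_card_of_injOn (fun t => ![t.1, t.2.1, t.2.2]) ?_ ?_
  · intro t ht
    obtain ⟨ht1, hall⟩ := mem_filter.mp (mem_coe.mp ht)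
    rw [mem_product, mem_product, mem_Icc, mem_Icc, mem_Icc] at ht1
    rw [mem_coe, mem_filter, Fintype.mem_piFinset]
    obtain ⟨hb, hc, hd⟩ := ht1
    refine ⟨fun i => ?_, h _ _ _ hall⟩
    rw [mem_Ico]
    fin_cases i
    · show -(X : ℤ) ≤ t.1 ∧ t.1 < -(X : ℤ) + ((2 * X + 1 : ℕ) : ℤ)
      push_cast
      constructor <;> linarith [hb.1, hb.2]
    · show -(X : ℤ) ^ 2 ≤ t.2.1 ∧ t.2.1 < -(X : ℤ) ^ 2 + ((2 * X ^ 2 + 1 : ℕ) : ℤ)
      push_cast
      constructor <;> linarith [hc.1, hc.2]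
    · show -(X : ℤ) ^ 3 ≤ t.2.2 ∧ t.2.2 < -(X : ℤ) ^ 3 + ((2 * X ^ 3 + 1 : ℕ) : ℤ)
      push_cast
      constructor <;> linarith [hd.1, hd.2]
  · rintro ⟨b, c, d⟩ - ⟨b', c', d'⟩ - h
    have h0 := congr_fun h 0
    have h1 := congr_fun h 1
    have h2 := congr_fun h 2
    simp only [Matrix.cons_val_zero] at h0
    simp only [Matrix.cons_val_one, Matrix.cons_val_zero] at h1
    simp only [Matrix.cons_val] at h2
    rw [h0, h1, h2]

end TrivC

open TrivC in
theorem triv_small (α : ℤ) (hα : ¬ IsSquare α) (ε : ℝ) (hε : 0 < ε) :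
    ∃ z X₀ : ℕ, ∀ X : ℕ, X₀ ≤ X →
      (cnt (fun _ c d => ∀ l ∈ Icc 3 z, ¬ (l : ℤ) ∣ α →
        (∃ _h : Fact l.Prime, legendreSym l α = -1) →
          ¬ ((l : ℤ) ∣ d ∧ ¬ (l : ℤ) ^ 2 ∣ d ∧ ¬ (l : ℤ) ∣ c)) X : ℝ) ≤ ε * X ^ 6 := by
  classical
  obtain ⟨z, hz⟩ := sum_PS α hα (9 / 4 * (-Real.log (ε / 64)))
  set S := PS α z with hS
  set M : ℕ := ∏ l ∈ S, l ^ 2 with hM
  have hprod : ∏ l ∈ S, (1 - 4 / (9 * (l : ℝ))) ≤ ε / 64 := by
    have h1 : ∏ l ∈ S, (1 - 4 / (9 * (l : ℝ))) ≤ ∏ l ∈ S, Real.exp (-(4 / (9 * (l : ℝ)))) := by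
      refine prod_le_prod (fun l hl => ?_) fun l hl => ?_
      · have h2 : (3 : ℝ) ≤ l := by exact_mod_cast (PS_prime hl).2
        rw [sub_nonneg, div_le_one (by linarith)]
        linarith
      · have := Real.add_one_le_exp (-(4 / (9 * (l : ℝ))))
        linarith
    refine h1.trans ?_
    rw [← Real.exp_sum, ← Real.le_log_iff_exp_le (by positivity)]
    have h2 : ∑ l ∈ S, -(4 / (9 * (l : ℝ))) = -(4 / 9 * ∑ l ∈ S, 1 / (l : ℝ)) := by
      rw [mul_sum, ← sum_neg_distrib]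
      refine sum_congr rfl fun l _ => ?_
      rw [neg_inj]
      ring
    rw [h2]
    linarith
  refine ⟨z, M + 1, fun X hX => ?_⟩
  have hbox := sieve_box (n := 3) S (fun l => l ^ 2)
    (fun l hl => by have := (PS_prime hl).2; positivity)
    (fun l hl l' hl' hne => by
      refine Nat.Coprime.pow 2 2 ?_
      exact (Nat.coprime_primes (PS_prime hl).1 (PS_prime hl').1).2 hne)
    Ev (fun l hl t t' h => ev_congr l t t' h) (fun l => 4 / (9 * (l : ℝ)))
    (fun l hl => by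
      have h2 : (3 : ℝ) ≤ l := by exact_mod_cast (PS_prime hl).2
      rw [div_le_one (by linarith)]
      linarith)
    (fun l hl => by
      have h2 : 3 ≤ l := (PS_prime hl).2
      have h3 : (3 : ℝ) ≤ l := by exact_mod_cast h2
      have h4 := ev_count l (by omega)
      have h5 : ((l ^ 2 * (l * ((l - 1) * (l - 1))) : ℕ) : ℝ) =
          (l : ℝ) ^ 3 * ((l : ℝ) - 1) ^ 2 := by
        push_cast [Nat.cast_sub (show 1 ≤ l by omega)]
        ring
      have h6 : ((l ^ 2 * (l * ((l - 1) * (l - 1))) : ℕ) : ℝ) ≤ _ := Nat.cast_le.mpr h4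
      rw [h5] at h6
      refine le_trans ?_ h6
      have h7 : 4 / (9 * (l : ℝ)) * (((l ^ 2 : ℕ) : ℝ)) ^ 3 = (l : ℝ) ^ 3 * (4 / 9 * (l : ℝ) ^ 2) := by
        push_cast
        field_simp
      rw [h7]
      refine mul_le_mul_of_nonneg_left ?_ (by positivity)
      nlinarith)
    ![-(X : ℤ), -(X : ℤ) ^ 2, -(X : ℤ) ^ 3] ![2 * X + 1, 2 * X ^ 2 + 1, 2 * X ^ 3 + 1]
  have hle := cnt_le_box (fun _ c d => ∀ l ∈ Icc 3 z, ¬ (l : ℤ) ∣ α →
        (∃ _h : Fact l.Prime, legendreSym l α = -1) →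
          ¬ ((l : ℤ) ∣ d ∧ ¬ (l : ℤ) ^ 2 ∣ d ∧ ¬ (l : ℤ) ∣ c)) X
      (fun t => ∀ l ∈ S, ¬ Ev l t) (fun b c d h l hl hE => by
        rw [hS] at hl
        unfold PS at hl
        rw [mem_filter] at hl
        exact h l hl.1 hl.2.1 hl.2.2 hE)
  refine (Nat.cast_le.mpr hle).trans (le_trans (le_of_eq ?_) (hbox.trans ?_))
  · congr!
  have hX1 : (1 : ℝ) ≤ X := by exact_mod_cast (by omega : 1 ≤ X)
  have hMX : (M : ℝ) ≤ X := by exact_mod_cast (by omega : M ≤ X)
  have hMc : ∏ l ∈ S, (((l ^ 2 : ℕ) : ℕ) : ℝ) = (M : ℝ) := by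
    rw [hM, Nat.cast_prod]
  have hX2 : (X : ℝ) ≤ (X : ℝ) ^ 2 := by nlinarith
  have hX3 : (X : ℝ) ^ 2 ≤ (X : ℝ) ^ 3 := by nlinarith [sq_nonneg (X : ℝ)]
  rw [Fin.prod_univ_three]
  simp only [Matrix.cons_val_zero, Matrix.cons_val_one, Matrix.cons_val]
  rw [hMc]
  push_cast
  have e1 : (2 * (X : ℝ) + 1 + M) ≤ 4 * X := by linarith
  have e2 : (2 * (X : ℝ) ^ 2 + 1 + M) ≤ 4 * X ^ 2 := by linarith
  have e3 : (2 * (X : ℝ) ^ 3 + 1 + M) ≤ 4 * X ^ 3 := by linarith
  have hp0 : 0 ≤ ∏ l ∈ S, (1 - 4 / (9 * (l : ℝ))) := by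
    refine prod_nonneg fun l hl => ?_
    have h2 : (3 : ℝ) ≤ l := by exact_mod_cast (PS_prime hl).2
    rw [sub_nonneg, div_le_one (by linarith)]
    linarith
  calc (2 * (X : ℝ) + 1 + M) * (2 * (X : ℝ) ^ 2 + 1 + M) * (2 * (X : ℝ) ^ 3 + 1 + M) *
        ∏ l ∈ S, (1 - 4 / (9 * (l : ℝ)))
      ≤ (4 * X) * (4 * X ^ 2) * (4 * X ^ 3) * (ε / 64) := by
        gcongr
    _ = ε * X ^ 6 := by ring

end Stoll308.BE
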