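import Pool.Agent.Work.MP_308fa9_nt.BE.Rep
import Pool.Agent.Work.MP_308fa9_nt.BE.Transfer
import Pool.Agent.Work.MP_308fa9_nt.BE.Cube
import Pool.Agent.Work.MP_308fa9_nt.BE.Cusp
import Pool.Agent.Work.MP_308fa9_nt.BE.TrivC
import Pool.Agent.Work.MP_308fa9_nt.BE.ElsC

set_option autoImplicit false

/-!
The number of curves with a nonempty Selmer set or a rational point is small.
-/

namespace Stoll308.BE

open Polynomial Finset

lemma cnt_mono {P Q : ℤ → ℤ → ℤ → Prop} (X : ℕ)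
    (h : ∀ b c d : ℤ, |b| ≤ X → |c| ≤ X ^ 2 → |d| ≤ X ^ 3 → P b c d → Q b c d) :
    cnt P X ≤ cnt Q X := by
  classical
  unfold cnt
  apply card_le_card
  intro t ht
  simp only [mem_filter, mem_product, mem_Icc] at ht ⊢
  refine ⟨ht.1, h _ _ _ (abs_le.2 ⟨ht.1.1.1, ht.1.1.2⟩) (abs_le.2 ⟨?_, ht.1.2.1.2⟩)
    (abs_le.2 ⟨?_, ht.1.2.2.2⟩) ht.2⟩
  · exact ht.1.2.1.1
  · exact ht.1.2.2.1

lemma cnt_or (P Q : ℤ → ℤ → ℤ → Prop) (X : ℕ) :
    cnt (fun b c d => P b c d ∨ Q b c d) X ≤ cnt P X + cnt Q X := by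
  classical
  unfold cnt
  refine le_trans (card_le_card ?_) (card_union_le _ _)
  intro t ht
  simp only [mem_filter, mem_union] at ht ⊢
  rcases ht.2 with h | h
  · exact Or.inl ⟨ht.1, h⟩
  · exact Or.inr ⟨ht.1, h⟩

/-- The triples of a reduced tuple with a small parameter. -/
lemma small_tau (α : ℤ) (hα : α ≠ 0) (ε : ℝ) (hε : 0 < ε) : ∃ τ₀ : ℝ, 0 < τ₀ ∧ τ₀ ≤ 1 ∧
    ∀ X : ℕ, 1 ≤ X → (cnt (fun b c d => ∃ (t : Fin 6 → ℤ) (τ : ℝ), τ ≤ τ₀ ∧
      Red (3 * |(α : ℝ)| * X) τ t ∧ tb t = b ∧ tc t = α * c ∧ td t = α ^ 2 * d) X : ℝ) ≤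
        ε * X ^ 6 := by
  classical
  obtain ⟨A, hA, hc⟩ := cusp
  have hα1 : (1 : ℝ) ≤ |(α : ℝ)| := by
    have := Int.one_le_abs hα
    exact_mod_cast this
  set B : ℝ := A * (3 * |(α : ℝ)|) ^ 6 with hB
  have hB0 : 0 < B := by positivity
  refine ⟨min 1 ((ε / B) ^ 24), by positivity, min_le_left _ _, ?_⟩
  intro X hX
  have hX1 : (1 : ℝ) ≤ X := by exact_mod_cast hX
  set τ₀ := min 1 ((ε / B) ^ 24) with hτ₀
  have hτ0 : 0 < τ₀ := by positivity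
  set S := ((Icc (-(X : ℤ)) X ×ˢ Icc (-(X : ℤ) ^ 2) ((X : ℤ) ^ 2) ×ˢ
    Icc (-(X : ℤ) ^ 3) ((X : ℤ) ^ 3)).filter fun t => ∃ (s : Fin 6 → ℤ) (τ : ℝ), τ ≤ τ₀ ∧
      Red (3 * |(α : ℝ)| * X) τ s ∧ tb s = t.1 ∧ tc s = α * t.2.1 ∧ td s = α ^ 2 * t.2.2) with hS
  set T := S.image (fun t => (t.1, α * t.2.1, α ^ 2 * t.2.2)) with hT
  have hcard : T.card = S.card := by
    apply card_image_of_injective
    rintro ⟨b, c, d⟩ ⟨b', c', d'⟩ h
    simp only [Prod.mk.injEq] at h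
    obtain ⟨h1, h2, h3⟩ := h
    have h4 := mul_left_cancel₀ hα h2
    have h5 := mul_left_cancel₀ (pow_ne_zero 2 hα) h3
    subst h1 h4 h5
    rfl
  have h1 := hc (3 * |(α : ℝ)| * X) τ₀ (by nlinarith) hτ0
    (le_trans (min_le_left _ _) (by norm_num)) T ?_
  · rw [hcard] at h1
    have h2 : τ₀ ^ (1 / 24 : ℝ) ≤ ε / B := by
      have h3 : τ₀ ≤ (ε / B) ^ 24 := min_le_right _ _
      calc τ₀ ^ (1 / 24 : ℝ) ≤ ((ε / B) ^ 24) ^ (1 / 24 : ℝ) :=
            Real.rpow_le_rpow hτ0.le h3 (by norm_num)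
        _ = ε / B := by
            rw [← Real.rpow_natCast, ← Real.rpow_mul (by positivity)]
            norm_num
    unfold cnt
    rw [← hS]
    refine h1.trans ?_
    calc A * (3 * |(α : ℝ)| * X) ^ 6 * τ₀ ^ (1 / 24 : ℝ)
        ≤ A * (3 * |(α : ℝ)| * X) ^ 6 * (ε / B) := by gcongr
      _ = ε * X ^ 6 := by
          rw [hB]
          field_simp
  · intro f hf
    rw [hT, mem_image] at hf
    obtain ⟨t, ht, rfl⟩ := hf
    rw [hS, mem_filter] at ht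
    obtain ⟨_, s, τ, h1, h2, h3, h4, h5⟩ := ht
    exact ⟨s, τ, h1, h2, by rw [h3, h4, h5]⟩

open Classical in
/-- The triples of a reduced tuple with a large parameter. -/
lemma large_tau (α : ℤ) (hα : α ≠ 0) (ε : ℝ) (hε : 0 < ε) (τ₀ : ℝ) (hτ₀ : 0 < τ₀) (hτ1 : τ₀ ≤ 1) :
    ∃ X₀ : ℕ, ∀ X : ℕ, X₀ ≤ X → (cnt (fun b c d => ∃ (t : Fin 6 → ℤ) (τ : ℝ), τ₀ ≤ τ ∧
      Red (3 * |(α : ℝ)| * X) τ t ∧ tb t = b ∧ tc t = α * c ∧ td t = α ^ 2 * d ∧
        ∀ l : ℕ, l ≠ 2 → ¬ (l : ℤ) ∣ α → ¬ Bad α l t) X : ℝ) ≤ ε * X ^ 6 := by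
  have hα1 : (1 : ℝ) ≤ |(α : ℝ)| := by
    have := Int.one_le_abs hα
    exact_mod_cast this
  set W : ℝ := 12 * |(α : ℝ)| / τ₀ with hW
  have hW0 : 0 < W := by positivity
  obtain ⟨z, D₀, hz⟩ := cube_small α hα (ε / W ^ 6) (by positivity)
  refine ⟨⌈D₀ / W⌉₊ + 1, ?_⟩
  intro X hX
  have hX1 : (1 : ℝ) ≤ X := by
    have : 1 ≤ X := by omega
    exact_mod_cast this
  have hXD : D₀ ≤ W * X := by
    have h1 : D₀ / W ≤ X := by
      refine (Nat.le_ceil _).trans ?_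
      have : ⌈D₀ / W⌉₊ ≤ X := by omega
      exact_mod_cast this
    rw [div_le_iff₀ hW0] at h1
    linarith
  have h1 := hz (W * X) hXD
  set Q := ((Fintype.piFinset fun _ : Fin 6 => Icc (-⌊W * X⌋) ⌊W * X⌋).filter
        fun t => ∀ l ∈ Icc 5 z, l.Prime → ¬ (l : ℤ) ∣ α → ¬ Bad α l t) with hQ
  have h2 : (cnt (fun b c d => ∃ (t : Fin 6 → ℤ) (τ : ℝ), τ₀ ≤ τ ∧
      Red (3 * |(α : ℝ)| * X) τ t ∧ tb t = b ∧ tc t = α * c ∧ td t = α ^ 2 * d ∧
        ∀ l : ℕ, l ≠ 2 → ¬ (l : ℤ) ∣ α → ¬ Bad α l t) X) ≤ Q.card := by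
    unfold cnt
    set S := ((Icc (-(X : ℤ)) X ×ˢ Icc (-(X : ℤ) ^ 2) ((X : ℤ) ^ 2) ×ˢ
      Icc (-(X : ℤ) ^ 3) ((X : ℤ) ^ 3)).filter fun f => ∃ (t : Fin 6 → ℤ) (τ : ℝ), τ₀ ≤ τ ∧
      Red (3 * |(α : ℝ)| * X) τ t ∧ tb t = f.1 ∧ tc t = α * f.2.1 ∧ td t = α ^ 2 * f.2.2 ∧
        ∀ l : ℕ, l ≠ 2 → ¬ (l : ℤ) ∣ α → ¬ Bad α l t) with hS
    have hcard : (S.image (fun t => (t.1, α * t.2.1, α ^ 2 * t.2.2))).card = S.card := by
      apply card_image_of_injective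
      rintro ⟨b, c, d⟩ ⟨b', c', d'⟩ h
      simp only [Prod.mk.injEq] at h
      obtain ⟨h1, h2, h3⟩ := h
      have h4 := mul_left_cancel₀ hα h2
      have h5 := mul_left_cancel₀ (pow_ne_zero 2 hα) h3
      subst h1 h4 h5
      rfl
    rw [← hcard]
    have hsub : S.image (fun t => (t.1, α * t.2.1, α ^ 2 * t.2.2)) ⊆
        Q.image (fun t => (tb t, tc t, td t)) := by
      intro f hf
      rw [mem_image] at hf ⊢
      obtain ⟨g, hg, rfl⟩ := hf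
      rw [hS, mem_filter] at hg
      obtain ⟨_, t, τ, hτ, hred, h3, h4, h5, h6⟩ := hg
      refine ⟨t, ?_, by rw [h3, h4, h5]⟩
      rw [hQ]
      simp only [mem_filter]
      constructor
      · rw [Fintype.mem_piFinset]
        obtain ⟨r1, r2, r3, r4, r5, r6, r7, r8, r9⟩ := hred
        set M : ℝ := 3 * |(α : ℝ)| * X with hM
        have hM0 : 0 < M := by positivity
        have hWX : W * X = 4 * M / τ₀ := by
          rw [hW, hM]; ring
        have hb : ∀ i, |(t i : ℝ)| ≤ W * X := by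
          rw [hWX]
          have e1 : 4 * M ≤ 4 * M / τ₀ := by
            rw [le_div_iff₀ hτ₀]
            nlinarith
          have e2 : √τ ≤ 2 := by
            rw [Real.sqrt_le_left (by norm_num)]
            linarith
          have e3 : τ₀ ≤ √τ := by
            apply Real.le_sqrt_of_sq_le
            nlinarith
          intro i
          fin_cases i
          · refine r4.trans (le_trans ?_ e1)
            nlinarith
          · refine r5.trans (le_trans ?_ e1)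
            nlinarith
          · refine r6.trans (le_trans ?_ e1)
            nlinarith
          · refine r7.trans (le_trans ?_ e1)
            nlinarith
          · refine r8.trans ?_
            gcongr
          · refine r9.trans ?_
            gcongr
        intro i
        have h7 := abs_le.1 (hb i)
        rw [mem_Icc]
        constructor
        · have : -(t i) ≤ ⌊W * X⌋ := by
            rw [Int.le_floor]
            push_cast
            linarith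
          linarith
        · rw [Int.le_floor]
          exact h7.2
      · intro l hl hlp hlα
        rw [mem_Icc] at hl
        exact h6 l (by omega) hlα
    exact (card_le_card hsub).trans card_image_le
  calc ((cnt (fun b c d => ∃ (t : Fin 6 → ℤ) (τ : ℝ), τ₀ ≤ τ ∧
      Red (3 * |(α : ℝ)| * X) τ t ∧ tb t = b ∧ tc t = α * c ∧ td t = α ^ 2 * d ∧
        ∀ l : ℕ, l ≠ 2 → ¬ (l : ℤ) ∣ α → ¬ Bad α l t) X : ℕ) : ℝ) ≤ Q.card := by exact_mod_cast h2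
    _ ≤ ε / W ^ 6 * (W * X) ^ 6 := h1
    _ = ε * X ^ 6 := by field_simp

theorem sel_small (α : ℤ) (hα : ¬ IsSquare α) (k : ℕ) (ε : ℝ) (hε : 0 < ε) :
    ∃ X₀ : ℕ, ∀ X : ℕ, X₀ ≤ X →
      (cnt (fun b c d => Sel k α b c d ∨ HasPoint k α b c d ℚ) X : ℝ) ≤ ε * X ^ 6 := by
  have hα0 : α ≠ 0 := by
    rintro rfl
    exact hα ⟨0, by simp⟩
  obtain ⟨X₁, h1⟩ := reducible_small α hα0 (ε / 4) (by positivity)
  obtain ⟨z, X₂, h2⟩ := triv_small α hα (ε / 4) (by positivity)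
  obtain ⟨τ₀, hτ₀, hτ1, h3⟩ := small_tau α hα0 (ε / 4) (by positivity)
  obtain ⟨X₄, h4⟩ := large_tau α hα0 (ε / 4) (by positivity) τ₀ hτ₀ hτ1
  refine ⟨X₁ + X₂ + X₄ + 1, ?_⟩
  intro X hX
  have g1 := h1 X (by omega)
  have g2 := h2 X (by omega)
  have g3 := h3 X (by omega)
  have g4 := h4 X (by omega)
  have hX1 : 1 ≤ X := by omega
  set P1 : ℤ → ℤ → ℤ → Prop := fun b c d => ¬ Irreducible (FZ ℚ b (α * c) (α ^ 2 * d)) with hP1
  set P2 : ℤ → ℤ → ℤ → Prop := fun _ c d => ∀ l ∈ Icc 3 z, ¬ (l : ℤ) ∣ α →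
        (∃ _h : Fact l.Prime, legendreSym l α = -1) →
          ¬ ((l : ℤ) ∣ d ∧ ¬ (l : ℤ) ^ 2 ∣ d ∧ ¬ (l : ℤ) ∣ c) with hP2
  set P3 : ℤ → ℤ → ℤ → Prop := fun b c d => ∃ (t : Fin 6 → ℤ) (τ : ℝ), τ ≤ τ₀ ∧
      Red (3 * |(α : ℝ)| * X) τ t ∧ tb t = b ∧ tc t = α * c ∧ td t = α ^ 2 * d with hP3
  set P4 : ℤ → ℤ → ℤ → Prop := fun b c d => ∃ (t : Fin 6 → ℤ) (τ : ℝ), τ₀ ≤ τ ∧
      Red (3 * |(α : ℝ)| * X) τ t ∧ tb t = b ∧ tc t = α * c ∧ td t = α ^ 2 * d ∧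
        ∀ l : ℕ, l ≠ 2 → ¬ (l : ℤ) ∣ α → ¬ Bad α l t with hP4
  have hle : cnt (fun b c d => Sel k α b c d ∨ HasPoint k α b c d ℚ) X ≤
      cnt P1 X + (cnt P2 X + (cnt P3 X + cnt P4 X)) := by
    refine le_trans (cnt_mono (Q := fun b c d => P1 b c d ∨ P2 b c d ∨ P3 b c d ∨ P4 b c d) X ?_) ?_
    · intro b c d hb hc hd h
      by_cases hF : Irreducible (FZ ℚ b (α * c) (α ^ 2 * d))
      swap
      · exact Or.inl hF
      right
      have hSel : Sel k α b c d := by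
        rcases h with h | h
        · exact h
        · exact sel_of_point k α b c d hα hF h
      obtain ⟨δ, hδ, hl, hR⟩ := sel_to_mloc k α b c d hα0 hSel
      rcases red_of_mloc α b (α * c) (α ^ 2 * d) hF (3 * |(α : ℝ)| * X)
        (fun θ hθ => root_bound α b c d X hX1 hα0 hb hc hd θ (by push_cast at hθ; exact hθ))
        δ hδ hl hR with h5 | ⟨t, τ, hred, h5, h6, h7, h8⟩
      · left
        rintro l hl hlα ⟨hlp, hleg⟩ ⟨e1, e2, e3⟩
        rw [mem_Icc] at hl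
        have hp : Prime (l : ℤ) := Nat.prime_iff_prime_int.1 hlp.out
        refine h5 l hlp (by omega) hlα (e1.mul_left _) ?_ ?_ hleg
        · intro e4
          apply e2
          have hco : IsCoprime ((l : ℤ) ^ 2) (α ^ 2) :=
            IsCoprime.pow ((Prime.coprime_iff_not_dvd hp).2 hlα)
          exact hco.dvd_of_dvd_mul_left e4
        · intro e4
          rcases hp.dvd_or_dvd e4 with e5 | e5
          · exact hlα e5
          · exact e3 e5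
      · right
        rcases le_total τ τ₀ with h9 | h9
        · exact Or.inl ⟨t, τ, h9, hred, h5, h6, h7⟩
        · exact Or.inr ⟨t, τ, h9, hred, h5, h6, h7, h8⟩
    · refine (cnt_or _ _ X).trans ?_
      gcongr
      refine (cnt_or _ _ X).trans ?_
      gcongr
      exact cnt_or _ _ X
  calc ((cnt (fun b c d => Sel k α b c d ∨ HasPoint k α b c d ℚ) X : ℕ) : ℝ)
      ≤ ((cnt P1 X + (cnt P2 X + (cnt P3 X + cnt P4 X)) : ℕ) : ℝ) := by exact_mod_cast hle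
    _ ≤ ε * X ^ 6 := by
        push_cast
        linarith

end Stoll308.BE
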