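import Pool.Agent.Work.MP_308fa9_nt.BE.Basic

set_option autoImplicit false

/-!
The majorant of a tuple.
-/

namespace Stoll308.BE

open Polynomial Finset

/-- `F'(θ_i)`. -/
noncomputable def Fd (θ : Fin 3 → ℂ) (i : Fin 3) : ℂ := ∏ j ∈ univ.erase i, (θ i - θ j)

/-- The length of `p + q θ`: the entry `P₁₁`. -/
noncomputable def rho (θ : Fin 3 → ℂ) (p q : ℤ) : ℝ :=
  ∑ i, ‖(p : ℂ) + (q : ℂ) * θ i‖ / ‖Fd θ i‖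

/-- The quotient `P₁₂ / P₁₁`. -/
noncomputable def sg (θ : Fin 3 → ℂ) (t : Fin 6 → ℤ) : ℝ :=
  (∑ i, ((((t 1 * t 2 + t 0 * t 4 : ℤ) : ℂ) + (t 1 : ℂ) * θ i) *
    (starRingEnd ℂ) (((tp t : ℤ) : ℂ) + (t 0 : ℂ) * θ i) /
      ((‖((tp t : ℤ) : ℂ) + (t 0 : ℂ) * θ i‖ * ‖Fd θ i‖ : ℝ) : ℂ)).re) / rho θ (tp t) (t 0)

lemma sg_tN (θ : Fin 3 → ℂ) (hinj : Function.Injective θ) (t : Fin 6 → ℤ)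
    (hne : ∀ i, ((tp t : ℤ) : ℂ) + (t 0 : ℂ) * θ i ≠ 0) (j : ℤ) :
    sg θ (tN j t) = sg θ t + 2 * j := by
  sorry

lemma rho_tS (θ : Fin 3 → ℂ) (hinj : Function.Injective θ) (t : Fin 6 → ℤ)
    (hF : F ((tb t : ℤ) : ℂ) ((tc t : ℤ) : ℂ) ((td t : ℤ) : ℂ) = ∏ i, (X - C (θ i)))
    (hne : ∀ i, ((tp t : ℤ) : ℂ) + (t 0 : ℂ) * θ i ≠ 0) :
    rho θ (tp (tS t)) (t 5) =
      (1 + sg θ t ^ 2 * rho θ (tp t) (t 0) / 2) ^ 2 / rho θ (tp t) (t 0) := by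
  sorry

theorem bounds (θ : Fin 3 → ℂ) (hinj : Function.Injective θ) (t : Fin 6 → ℤ)
    (hF : F ((tb t : ℤ) : ℂ) ((tc t : ℤ) : ℂ) ((td t : ℤ) : ℂ) = ∏ i, (X - C (θ i)))
    (hne : ∀ i, ((tp t : ℤ) : ℂ) + (t 0 : ℂ) * θ i ≠ 0) (M : ℝ)
    (hM : ∀ i, ‖θ i + ((tb t : ℤ) : ℂ)‖ ≤ M) (ρ s : ℝ) (hρ : ρ = rho θ (tp t) (t 0))
    (hs : s = sg θ t) :
    0 < ρ ∧ |(t 0 : ℝ)| ≤ M * ρ ∧ |(t 1 : ℝ)| ≤ M * √(ρ * (1 + s ^ 2 * ρ)) ∧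
      |2 * (t 2 : ℝ)| ≤ M * (1 + s ^ 2 * ρ) ∧ |(t 3 : ℝ)| ≤ M * (1 + s ^ 2 * ρ / 2) ∧
      |(t 4 : ℝ)| ≤ M * (√(1 + s ^ 2 * ρ) * (1 + s ^ 2 * ρ / 2) / √ρ) ∧
      |(t 5 : ℝ)| ≤ M * ((1 + s ^ 2 * ρ / 2) ^ 2 / ρ) := by
  sorry

end Stoll308.BE
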