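import Pool.Agent.Work.MP_308fa9_nt.BE.Basic

set_option autoImplicit false

/-!
Few of the cubics are reducible; the size of the roots.
-/

namespace Stoll308.BE

open Polynomial Finset

theorem reducible_small (α : ℤ) (hα : α ≠ 0) (ε : ℝ) (hε : 0 < ε) :
    ∃ X₀ : ℕ, ∀ X : ℕ, X₀ ≤ X →
      (cnt (fun b c d => ¬ Irreducible (FZ ℚ b (α * c) (α ^ 2 * d))) X : ℝ) ≤ ε * X ^ 6 := by
  sorry

lemma root_bound (α b c d : ℤ) (X : ℕ) (hX : 1 ≤ X) (hα : α ≠ 0) (hb : |b| ≤ X)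
    (hc : |c| ≤ X ^ 2) (hd : |d| ≤ X ^ 3) (θ : ℂ)
    (hθ : θ ^ 3 + b * θ ^ 2 + α * c * θ + α ^ 2 * d = 0) :
    ‖θ + b‖ ≤ 3 * |(α : ℝ)| * X := by
  sorry

/-- The roots of an irreducible cubic. -/
lemma exists_roots (b c d : ℤ) (hF : Irreducible (FZ ℚ b c d)) :
    ∃ θ : Fin 3 → ℂ, Function.Injective θ ∧ FZ ℂ b c d = ∏ i, (X - C (θ i)) ∧
      ∀ (p q : ℤ), q ≠ 0 → ∀ i, (p : ℂ) + (q : ℂ) * θ i ≠ 0 := by
  sorry

end Stoll308.BE
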