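import Pool.Agent.Work.MP_308fa9_nt.BE.Major

set_option autoImplicit false

/-!
Reduction theory: a reduced tuple in a class.
-/

namespace Stoll308.BE

open Polynomial Finset

/-- A real function on a set, which bounds two integral functions and depends only on them, has a
minimum. -/
lemma exists_min_of_bounded {α : Type*} (S : Set α) (hS : S.Nonempty) (f g : α → ℤ) (r : α → ℝ)
    (hr : ∀ x ∈ S, ∀ y ∈ S, f x = f y → g x = g y → r x = r y) (B : ℝ → ℝ)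
    (hB : ∀ x ∈ S, ∀ R : ℝ, r x ≤ R → |(f x : ℝ)| ≤ B R ∧ |(g x : ℝ)| ≤ B R) :
    ∃ x ∈ S, ∀ y ∈ S, r x ≤ r y := by
  obtain ⟨x₀, hx₀⟩ := hS
  obtain ⟨N, hN⟩ : ∃ N : ℤ, N = ⌈B (r x₀)⌉ := ⟨_, rfl⟩
  have hfin : ((fun x => ((f x, g x) : ℤ × ℤ)) '' (S ∩ {x | r x ≤ r x₀})).Finite := by
    apply Set.Finite.subset ((Finset.Icc (-N) N ×ˢ Finset.Icc (-N) N).finite_toSet)
    rintro _ ⟨x, ⟨hxS, hxr⟩, rfl⟩
    obtain ⟨h1, h2⟩ := hB x hxS _ hxr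
    have e1 : |(f x : ℝ)| ≤ N := by rw [hN]; exact h1.trans (Int.le_ceil _)
    have e2 : |(g x : ℝ)| ≤ N := by rw [hN]; exact h2.trans (Int.le_ceil _)
    have e1' : |f x| ≤ N := by exact_mod_cast e1
    have e2' : |g x| ≤ N := by exact_mod_cast e2
    rw [abs_le] at e1' e2'
    simp only [Finset.coe_product, Finset.coe_Icc, Set.mem_prod, Set.mem_Icc]
    exact ⟨e1', e2'⟩
  have hfin2 : (r '' (S ∩ {x | r x ≤ r x₀})).Finite := by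
    classical
    -- the values of `r` are a function of the pair
    have hsub : r '' (S ∩ {x | r x ≤ r x₀}) ⊆
        (fun z : ℤ × ℤ => if h : ∃ x ∈ S, f x = z.1 ∧ g x = z.2 then r h.choose else 0) ''
          ((fun x => ((f x, g x) : ℤ × ℤ)) '' (S ∩ {x | r x ≤ r x₀})) := by
      rintro _ ⟨x, hx, rfl⟩
      refine ⟨(f x, g x), ⟨x, hx, rfl⟩, ?_⟩
      have h : ∃ x' ∈ S, f x' = (f x, g x).1 ∧ g x' = (f x, g x).2 := ⟨x, hx.1, rfl, rfl⟩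
      have h3 := h.choose_spec
      dsimp only
      rw [dif_pos h]
      exact hr _ h3.1 _ hx.1 h3.2.1 h3.2.2
    exact (hfin.image _).subset hsub
  obtain ⟨v, ⟨x, hx, rfl⟩, hmin⟩ := Set.exists_min_image _ id hfin2
    ⟨r x₀, x₀, ⟨hx₀, le_refl (r x₀)⟩, rfl⟩
  refine ⟨x, hx.1, fun y hy => ?_⟩
  by_cases hy' : r y ≤ r x₀
  · exact hmin (r y) ⟨y, ⟨hy, hy'⟩, rfl⟩
  · exact le_trans hx.2 (le_of_not_ge hy')

lemma Fd_norm_pos (θ : Fin 3 → ℂ) (hinj : Function.Injective θ) (i : Fin 3) :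
    0 < ‖Fd θ i‖ := by
  rw [norm_pos_iff, Fd, Finset.prod_ne_zero_iff]
  intro j hj
  rw [sub_ne_zero]
  intro h
  exact (Finset.ne_of_mem_erase hj) (hinj h).symm

lemma abs_le_of_rho (θ : Fin 3 → ℂ) (hinj : Function.Injective θ) (p q : ℤ) (R : ℝ)
    (hR : rho θ p q ≤ R) : |(p : ℝ)| ≤ R * ‖Fd θ 0‖ + |(q : ℝ)| * ‖θ 0‖ := by
  have hFd := Fd_norm_pos θ hinj 0
  have hterm : ‖(p : ℂ) + (q : ℂ) * θ 0‖ / ‖Fd θ 0‖ ≤ rho θ p q := by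
    unfold rho
    exact Finset.single_le_sum
      (f := fun i => ‖(p : ℂ) + (q : ℂ) * θ i‖ / ‖Fd θ i‖)
      (fun i _ => div_nonneg (norm_nonneg _) (norm_nonneg _)) (Finset.mem_univ 0)
  have h2 : ‖(p : ℂ) + (q : ℂ) * θ 0‖ ≤ R * ‖Fd θ 0‖ :=
    (div_le_iff₀ hFd).1 (hterm.trans hR)
  have h3 : ‖(p : ℂ)‖ ≤ ‖(p : ℂ) + (q : ℂ) * θ 0‖ + ‖(q : ℂ) * θ 0‖ := by
    have := norm_sub_le ((p : ℂ) + (q : ℂ) * θ 0) ((q : ℂ) * θ 0)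
    rwa [add_sub_cancel_right] at this
  have h4 : ‖(q : ℂ) * θ 0‖ = |(q : ℝ)| * ‖θ 0‖ := by
    rw [norm_mul, Complex.norm_intCast]
  rw [Complex.norm_intCast, h4] at h3
  linarith

/-- The final inequalities. -/
lemma red_of_bounds (M ρ s : ℝ) (t : Fin 6 → ℤ) (hM0 : 0 ≤ M) (ht : t 0 ≠ 0) (hs1 : |s| ≤ 1)
    (hsw : ρ ≤ (1 + s ^ 2 * ρ / 2) ^ 2 / ρ)
    (h0 : 0 < ρ) (h1 : |(t 0 : ℝ)| ≤ M * ρ) (h2 : |(t 1 : ℝ)| ≤ M * √(ρ * (1 + s ^ 2 * ρ)))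
    (h3 : |2 * (t 2 : ℝ)| ≤ M * (1 + s ^ 2 * ρ)) (h4 : |(t 3 : ℝ)| ≤ M * (1 + s ^ 2 * ρ / 2))
    (h5 : |(t 4 : ℝ)| ≤ M * (√(1 + s ^ 2 * ρ) * (1 + s ^ 2 * ρ / 2) / √ρ))
    (h6 : |(t 5 : ℝ)| ≤ M * ((1 + s ^ 2 * ρ / 2) ^ 2 / ρ)) : Red M ρ t := by
  have hs2 : s ^ 2 ≤ 1 := by
    rw [← sq_abs]
    exact pow_le_one₀ (abs_nonneg s) hs1
  have hs0 : 0 ≤ s ^ 2 := sq_nonneg s
  have hρ2 : ρ ≤ 2 := by
    rw [le_div_iff₀ h0] at hsw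
    have e1 : ρ ≤ 1 + s ^ 2 * ρ / 2 := by
      apply le_of_sq_le_sq _ (by positivity)
      rw [sq]; exact hsw
    have e2 : s ^ 2 * ρ ≤ 1 * ρ := mul_le_mul_of_nonneg_right hs2 h0.le
    linarith
  have hsr0 : 0 ≤ s ^ 2 * ρ := mul_nonneg hs0 h0.le
  have hsr : s ^ 2 * ρ ≤ 2 := by
    have e2 : s ^ 2 * ρ ≤ 1 * ρ := mul_le_mul_of_nonneg_right hs2 h0.le
    linarith
  generalize s ^ 2 * ρ = x at *
  have hsqrt : √(1 + x) ≤ 2 := by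
    rw [Real.sqrt_le_left (by norm_num)]
    linarith
  have hρs : 0 < √ρ := Real.sqrt_pos.2 h0
  have hx1 : 1 + x / 2 ≤ 2 := by linarith
  have hx0 : 0 ≤ 1 + x / 2 := by linarith
  refine ⟨h0, hρ2, ht, h1, ?_, ?_, ?_, ?_, ?_⟩
  · calc |(t 1 : ℝ)| ≤ M * √(ρ * (1 + x)) := h2
      _ = M * (√ρ * √(1 + x)) := by rw [Real.sqrt_mul h0.le]
      _ ≤ M * (√ρ * 2) :=
        mul_le_mul_of_nonneg_left (mul_le_mul_of_nonneg_left hsqrt hρs.le) hM0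
      _ = 2 * M * √ρ := by ring
  · have e : |2 * (t 2 : ℝ)| = 2 * |(t 2 : ℝ)| := by rw [abs_mul]; norm_num
    rw [e] at h3
    have e2 : M * (1 + x) ≤ M * 3 := mul_le_mul_of_nonneg_left (by linarith) hM0
    linarith
  · have e2 : M * (1 + x / 2) ≤ M * 2 := mul_le_mul_of_nonneg_left hx1 hM0
    linarith
  · calc |(t 4 : ℝ)| ≤ M * (√(1 + x) * (1 + x / 2) / √ρ) := h5
      _ ≤ M * (2 * 2 / √ρ) := by
        refine mul_le_mul_of_nonneg_left (div_le_div_of_nonneg_right ?_ hρs.le) hM0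
        exact mul_le_mul hsqrt hx1 hx0 (by norm_num)
      _ = 4 * M / √ρ := by ring
  · calc |(t 5 : ℝ)| ≤ M * ((1 + x / 2) ^ 2 / ρ) := h6
      _ ≤ M * (2 ^ 2 / ρ) := by
        refine mul_le_mul_of_nonneg_left (div_le_div_of_nonneg_right ?_ h0.le) hM0
        exact pow_le_pow_left₀ hx0 hx1 2
      _ = 4 * M / ρ := by ring

theorem exists_reduced (b c d : ℤ) (θ : Fin 3 → ℂ) (hinj : Function.Injective θ)
    (hF : FZ ℂ b c d = ∏ i, (X - C (θ i))) (M : ℝ) (hM : ∀ i, ‖θ i + (b : ℂ)‖ ≤ M)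
    (𝒞 : Set (Fin 6 → ℤ)) (hne : 𝒞.Nonempty)
    (hinv : ∀ t ∈ 𝒞, tb t = b ∧ tc t = c ∧ td t = d ∧ t 0 ≠ 0 ∧
      ∀ i, ((tp t : ℤ) : ℂ) + (t 0 : ℂ) * θ i ≠ 0)
    (hN : ∀ t ∈ 𝒞, ∀ j : ℤ, tN j t ∈ 𝒞) (hS : ∀ t ∈ 𝒞, tS t ∈ 𝒞) :
    ∃ t ∈ 𝒞, ∃ τ : ℝ, Red M τ t := by
  have hM0 : 0 ≤ M := (norm_nonneg _).trans (hM 0)
  -- bounds for all members
  have hbd : ∀ t ∈ 𝒞, ∀ ρ s : ℝ, ρ = rho θ (tp t) (t 0) → s = sg θ t →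
      0 < ρ ∧ |(t 0 : ℝ)| ≤ M * ρ ∧ |(t 1 : ℝ)| ≤ M * √(ρ * (1 + s ^ 2 * ρ)) ∧
      |2 * (t 2 : ℝ)| ≤ M * (1 + s ^ 2 * ρ) ∧ |(t 3 : ℝ)| ≤ M * (1 + s ^ 2 * ρ / 2) ∧
      |(t 4 : ℝ)| ≤ M * (√(1 + s ^ 2 * ρ) * (1 + s ^ 2 * ρ / 2) / √ρ) ∧
      |(t 5 : ℝ)| ≤ M * ((1 + s ^ 2 * ρ / 2) ^ 2 / ρ) := by
    intro t ht ρ s hρ hs
    obtain ⟨h1, h2, h3, h4, h5⟩ := hinv t ht
    refine bounds θ hinj t ?_ h5 M ?_ ρ s hρ hs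
    · rw [h1, h2, h3]; exact hF
    · rw [h1]; exact hM
  -- a minimum of `ρ`
  obtain ⟨t₁, ht₁, hmin⟩ : ∃ t ∈ 𝒞, ∀ t' ∈ 𝒞, rho θ (tp t) (t 0) ≤ rho θ (tp t') (t' 0) := by
    refine exists_min_of_bounded 𝒞 hne (fun t => tp t) (fun t => t 0)
      (fun t => rho θ (tp t) (t 0)) ?_
      (fun R => max (M * R) (R * ‖Fd θ 0‖ + M * R * ‖θ 0‖)) ?_
    · intro t _ t' _ h1 h2
      rw [h1, h2]
    · intro t ht R hR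
      obtain ⟨h0, h1, -⟩ := hbd t ht _ _ rfl rfl
      have hq : |(t 0 : ℝ)| ≤ M * R := h1.trans (mul_le_mul_of_nonneg_left hR hM0)
      refine ⟨le_max_of_le_right ?_, le_max_of_le_left hq⟩
      have h2 := abs_le_of_rho θ hinj (tp t) (t 0) R hR
      have h3 : |(t 0 : ℝ)| * ‖θ 0‖ ≤ M * R * ‖θ 0‖ :=
        mul_le_mul_of_nonneg_right hq (norm_nonneg _)
      exact h2.trans (by linarith)
  -- translate
  obtain ⟨t, ht, htp, ht0, hs1⟩ : ∃ t ∈ 𝒞, tp t = tp t₁ ∧ t 0 = t₁ 0 ∧ |sg θ t| ≤ 1 := by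
    refine ⟨tN (round (-(sg θ t₁) / 2)) t₁, hN _ ht₁ _, tp_tN _ t₁, by simp [tN], ?_⟩
    rw [sg_tN θ hinj t₁ (hinv t₁ ht₁).2.2.2.2]
    have := abs_sub_round (-(sg θ t₁) / 2)
    rw [abs_le] at this ⊢
    constructor <;> linarith
  obtain ⟨g1, g2, g3, g4, g5⟩ := hinv t ht
  obtain ⟨h0, h1, h2, h3, h4, h5, h6⟩ := hbd t ht _ _ rfl rfl
  refine ⟨t, ht, rho θ (tp t) (t 0), red_of_bounds M _ _ t hM0 g4 hs1 ?_ h0 h1 h2 h3 h4 h5 h6⟩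
  have e1 := hmin (tS t) (hS t ht)
  have e2 : (tS t) 0 = t 5 := by simp [tS]
  rw [← htp, ← ht0, e2, rho_tS θ hinj t (by rw [g1, g2, g3]; exact hF) g5] at e1
  exact e1

end Stoll308.BE
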