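import Pool.Agent.Work.MP_308fa9_nt.BE.Basic

set_option autoImplicit false

/-!
The norm of `p + q θ` is the square of an integer.
-/

namespace Stoll308.BE

open Polynomial Finset

namespace Sq

section ring

variable {K : Type*} [CommRing K]

/-- Multiplication in `K[θ]`, `θ³ + b θ² + c θ + d = 0`, in the basis `1, θ, θ²`. -/
def mul3 (b c d : K) (u v : Fin 3 → K) : Fin 3 → K :=
  ![u 0 * v 0 - d * (u 1 * v 2 + u 2 * v 1) + b * d * (u 2 * v 2),
    u 0 * v 1 + u 1 * v 0 - c * (u 1 * v 2 + u 2 * v 1) + (b * c - d) * (u 2 * v 2),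
    u 0 * v 2 + u 1 * v 1 + u 2 * v 0 - b * (u 1 * v 2 + u 2 * v 1) +
      (b ^ 2 - c) * (u 2 * v 2)]

/-- The norm of `u 0 + u 1 θ + u 2 θ²`. -/
def nm3 (b c d : K) (u : Fin 3 → K) : K :=
    u 0 * (u 0 - c * u 2) * (u 0 - b * u 1 + (b ^ 2 - c) * u 2) -
    u 0 * (u 1 - b * u 2) * (-c * u 1 + (b * c - d) * u 2) -
    u 1 * (-d * u 2) * (u 0 - b * u 1 + (b ^ 2 - c) * u 2) +
    u 1 * (u 1 - b * u 2) * (-d * u 1 + b * d * u 2) +
    u 2 * (-d * u 2) * (-c * u 1 + (b * c - d) * u 2) -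
    u 2 * (u 0 - c * u 2) * (-d * u 1 + b * d * u 2)

lemma nm3_mul (b c d : K) (u v : Fin 3 → K) :
    nm3 b c d (mul3 b c d u v) = nm3 b c d u * nm3 b c d v := by
  simp only [nm3, mul3, Matrix.cons_val]
  ring

lemma nm3_pq (b c d p q : K) :
    nm3 b c d ![p, q, 0] = p ^ 3 - b * p ^ 2 * q + c * p * q ^ 2 - d * q ^ 3 := by
  simp only [nm3, Matrix.cons_val]
  ring

lemma sq_F_monic (b c d : K) : (F b c d).Monic := by
  unfold F; monicity!

lemma sq_F_natDegree [Nontrivial K] (b c d : K) : (F b c d).natDegree = 3 := by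
  unfold F; compute_degree!

/-- The coordinates of `f` modulo `F`. -/
noncomputable def co (b c d : K) (f : K[X]) : Fin 3 → K := fun i => (f %ₘ F b c d).coeff i

lemma co_congr {b c d : K} {f g : K[X]} (h : F b c d ∣ f - g) : co b c d f = co b c d g := by
  unfold co
  rw [modByMonic_eq_of_dvd_sub (sq_F_monic b c d) h]

lemma pw_natDegree_le (w : Fin 3 → K) : (pw w).natDegree ≤ 2 := by
  unfold pw
  compute_degree

lemma pw_mod [Nontrivial K] (b c d : K) (w : Fin 3 → K) : pw w %ₘ F b c d = pw w := by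
  rw [modByMonic_eq_self_iff (sq_F_monic b c d)]
  apply degree_lt_degree
  rw [sq_F_natDegree]
  have := pw_natDegree_le w
  omega

lemma sq_pw_coeff (w : Fin 3 → K) (i : Fin 3) : (pw w).coeff i = w i := by
  unfold pw
  simp only [coeff_add, coeff_C, coeff_C_mul, coeff_X, coeff_X_pow]
  fin_cases i <;> simp

lemma co_pw [Nontrivial K] (b c d : K) (w : Fin 3 → K) : co b c d (pw w) = w := by
  unfold co
  rw [pw_mod]
  funext i
  exact sq_pw_coeff w i

lemma mod_eq_pw [Nontrivial K] (b c d : K) (f : K[X]) : f %ₘ F b c d = pw (co b c d f) := by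
  have hd : (f %ₘ F b c d).natDegree < 3 := by
    rw [← sq_F_natDegree b c d]
    apply natDegree_modByMonic_lt f (sq_F_monic b c d)
    intro h
    have := sq_F_natDegree b c d
    rw [h] at this
    simp at this
  ext n
  by_cases hn : n < 3
  · have := sq_pw_coeff (co b c d f) ⟨n, hn⟩
    simp only at this
    rw [this]
    rfl
  · rw [coeff_eq_zero_of_natDegree_lt (by omega), coeff_eq_zero_of_natDegree_lt]
    have := pw_natDegree_le (co b c d f)
    omega

lemma dvd_sub_pw [Nontrivial K] (b c d : K) (f : K[X]) : F b c d ∣ f - pw (co b c d f) := by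
  refine ⟨f /ₘ F b c d, ?_⟩
  have := modByMonic_add_div f (F b c d)
  rw [mod_eq_pw] at this
  linear_combination -this

lemma pw_mul (b c d : K) (u v : Fin 3 → K) : F b c d ∣ pw u * pw v - pw (mul3 b c d u v) := by
  refine ⟨C (u 1 * v 2 + u 2 * v 1) + C (u 2 * v 2) * (X - C b), ?_⟩
  unfold F pw mul3
  simp only [Matrix.cons_val, C_add, C_sub, C_mul, C_pow]
  ring

lemma co_mul [Nontrivial K] (b c d : K) (f g : K[X]) :
    co b c d (f * g) = mul3 b c d (co b c d f) (co b c d g) := by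
  have h : F b c d ∣ f * g - pw (mul3 b c d (co b c d f) (co b c d g)) := by
    have h1 := dvd_sub_pw b c d f
    have h2 := dvd_sub_pw b c d g
    have h3 := pw_mul b c d (co b c d f) (co b c d g)
    have h4 : f * g - pw (mul3 b c d (co b c d f) (co b c d g)) =
        (f - pw (co b c d f)) * g + pw (co b c d f) * (g - pw (co b c d g)) +
        (pw (co b c d f) * pw (co b c d g) - pw (mul3 b c d (co b c d f) (co b c d g))) := by ring
    rw [h4]
    exact dvd_add (dvd_add (h1.mul_right _) (h2.mul_left _)) h3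
  rw [co_congr h, co_pw]

/-- The norm of `f(θ)`. -/
noncomputable def nm (b c d : K) (f : K[X]) : K := nm3 b c d (co b c d f)

lemma nm_congr {b c d : K} {f g : K[X]} (h : F b c d ∣ f - g) : nm b c d f = nm b c d g := by
  unfold nm
  rw [co_congr h]

lemma nm_mul [Nontrivial K] (b c d : K) (f g : K[X]) :
    nm b c d (f * g) = nm b c d f * nm b c d g := by
  unfold nm
  rw [co_mul, nm3_mul]

lemma nm_pq [Nontrivial K] (b c d p q : K) : nm b c d (C p + C q * X) =
    p ^ 3 - b * p ^ 2 * q + c * p * q ^ 2 - d * q ^ 3 := by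
  have h : C p + C q * X = pw ![p, q, 0] := by
    unfold pw
    simp
  unfold nm
  rw [h, co_pw, nm3_pq]

lemma nm_one [Nontrivial K] (b c d : K) : nm b c d 1 = 1 := by
  have h := nm_pq b c d 1 0
  simpa using h

lemma nm_map {L : Type*} [CommRing L] (φ : K →+* L) (b c d : K) (f : K[X]) :
    nm (φ b) (φ c) (φ d) (f.map φ) = φ (nm b c d f) := by
  have hF : F (φ b) (φ c) (φ d) = (F b c d).map φ := by
    unfold F
    simp
  have hco : co (φ b) (φ c) (φ d) (f.map φ) = fun i => φ (co b c d f i) := by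
    funext i
    unfold co
    rw [hF, ← map_modByMonic φ (sq_F_monic b c d), coeff_map]
  unfold nm
  rw [hco]
  simp only [nm3, map_sub, map_add, map_mul, map_pow, map_neg]

end ring

/-- A nonzero integer which is a square in `ℝ` and in all the `ℚ_p` is a square. -/
lemma int_sq (A : ℤ) (hR : ∃ w : ℝ, (A : ℝ) = w ^ 2)
    (hp : ∀ (p : ℕ) [Fact p.Prime], ∃ w : ℚ_[p], (A : ℚ_[p]) = w ^ 2) : ∃ r : ℤ, A = r ^ 2 := by
  by_cases hA : A = 0
  · exact ⟨0, by rw [hA]; norm_num⟩
  have hA0 : 0 ≤ A := by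
    obtain ⟨w, hw⟩ := hR
    have : (0 : ℝ) ≤ (A : ℝ) := by rw [hw]; positivity
    exact_mod_cast this
  obtain ⟨n, rfl⟩ := Int.eq_ofNat_of_zero_le hA0
  have hn : n ≠ 0 := by
    rintro rfl
    exact hA rfl
  obtain ⟨a, b, hab, hsf⟩ := Nat.sq_mul_squarefree n
  have ha1 : a = 1 := by
    by_contra hne
    obtain ⟨p, hpp, hpa⟩ := Nat.exists_prime_and_dvd hne
    have : Fact p.Prime := ⟨hpp⟩
    obtain ⟨w, hw⟩ := hp p
    have hv : ((n : ℕ) : ℚ_[p]).valuation = padicValNat p n := Padic.valuation_natCast n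
    have hw' : ((n : ℕ) : ℚ_[p]) = w ^ 2 := by
      rw [← hw]
      push_cast
      rfl
    rw [hw', Padic.valuation_pow] at hv
    have ha0 : a ≠ 0 := by
      rintro rfl
      simp at hab
      exact hn hab.symm
    have hb0 : b ≠ 0 := by
      rintro rfl
      simp at hab
      exact hn hab.symm
    rw [← hab, padicValNat.mul (pow_ne_zero _ hb0) ha0, padicValNat.pow] at hv
    have hva : padicValNat p a = 1 := by
      apply le_antisymm
      · by_contra hcon
        push Not at hcon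
        have h1 : p ^ 2 ∣ a := (padicValNat_dvd_iff_le ha0).2 hcon
        have h2 := hsf p (by rw [← sq]; exact h1)
        exact hpp.one_lt.ne' (Nat.isUnit_iff.1 h2)
      · exact one_le_padicValNat_of_dvd ha0 hpa
    rw [hva] at hv
    push_cast at hv
    omega
  refine ⟨b, ?_⟩
  rw [← hab, ha1]
  push_cast
  ring

end Sq

open Sq in
theorem exists_sq (b c d : ℤ) (δ : ℚ[X]) (hδ : IsCoprime δ (FZ ℚ b c d))
    (hloc : ∀ (p : ℕ) [Fact p.Prime], WLoc b c d δ ℚ_[p]) (hR : WLoc b c d δ ℝ) (p q : ℤ)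
    (h : Rep b c d δ p q) : ∃ r : ℤ, p ^ 3 - b * p ^ 2 * q + c * p * q ^ 2 - d * q ^ 3 = r ^ 2 := by
  -- the norm of `δ` over `ℚ`
  set D : ℚ := nm (b : ℚ) (c : ℚ) (d : ℚ) δ with hD
  obtain ⟨s, hs⟩ := h
  set S : ℚ := nm (b : ℚ) (c : ℚ) (d : ℚ) s with hS
  have h1 : ((p : ℚ) ^ 3 - b * (p : ℚ) ^ 2 * q + c * p * (q : ℚ) ^ 2 - d * (q : ℚ) ^ 3) =
      D * S ^ 2 := by
    rw [← nm_pq (b : ℚ) (c : ℚ) (d : ℚ) (p : ℚ) (q : ℚ), nm_congr hs, nm_mul, sq s, nm_mul, sq S]
  -- `D` is a square locally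
  have hloc' : ∀ (K : Type) [Field K] [Algebra ℚ K], WLoc b c d δ K →
      ∃ w : K, algebraMap ℚ K D = w ^ 2 := by
    rintro K _ _ ⟨ξ, y, t, hy, hy2, ht⟩
    have h2 : nm (b : K) (c : K) (d : K) (C ξ - X) = (FZ K b c d).eval ξ := by
      have h3 : (C ξ - X : K[X]) = C ξ + C (-1) * X := by
        rw [C_neg, C_1]; ring
      rw [h3, nm_pq]
      unfold FZ F
      simp only [eval_add, eval_mul, eval_pow, eval_X, eval_C]
      ring
    have h4 := nm_congr ht
    have h5 : nm (b : K) (c : K) (d : K) (δ.map (algebraMap ℚ K)) = algebraMap ℚ K D := by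
      have := nm_map (algebraMap ℚ K) (b : ℚ) (c : ℚ) (d : ℚ) δ
      simp only [map_intCast] at this
      rw [this]
    rw [h2, nm_mul, sq t, nm_mul, h5, ← hy2] at h4
    set T := nm (b : K) (c : K) (d : K) t with hT
    have hT0 : T ≠ 0 := by
      intro h0
      rw [h0] at h4
      apply hy
      have : y ^ 2 = 0 := by rw [h4]; ring
      exact pow_eq_zero_iff two_ne_zero |>.1 this
    refine ⟨y / T, ?_⟩
    field_simp
    rw [h4]
    ring
  apply int_sq
  · obtain ⟨w, hw⟩ := hloc' ℝ hR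
    refine ⟨w * (S : ℝ), ?_⟩
    have h2 := congrArg (algebraMap ℚ ℝ) h1
    rw [map_mul, hw] at h2
    simp only [map_sub, map_add, map_mul, map_pow, map_intCast, eq_ratCast] at h2
    push_cast
    rw [h2]
    ring
  · intro l hl
    obtain ⟨w, hw⟩ := hloc' ℚ_[l] (hloc l)
    refine ⟨w * (S : ℚ_[l]), ?_⟩
    have h2 := congrArg (algebraMap ℚ ℚ_[l]) h1
    rw [map_mul, hw] at h2
    simp only [map_sub, map_add, map_mul, map_pow, map_intCast, eq_ratCast] at h2
    push_cast
    rw [h2]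
    ring

end Stoll308.BE
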