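import Pool.Agent.Work.MP_308fa9_nt.BE.Basic

set_option autoImplicit false

/-!
Existence of a tuple.
-/

namespace Stoll308.BE

open Polynomial Finset

/-- existence of the integral tuple attached to a class `p + q θ` -/
theorem tuple_exists (p q r b c d : ℤ) (hq : q ≠ 0) (hcop : IsCoprime p q)
    (hN : r ^ 2 = p ^ 3 - b * p ^ 2 * q + c * p * q ^ 2 - d * q ^ 3) :
    ∃ m u v h k : ℤ, b = u + v ∧ c = 2 * u * v - u ^ 2 - 2 * m * h - q * k ∧
      d = -p * k - q * h ^ 2 - 2 * m * u * h - u ^ 2 * (u - v) ∧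
      p = m ^ 2 - q * (u - v) ∧ r = p * m - q * (u * m + q * h) := by
  -- reduction: it suffices to find `m, e, w` 
  have hfin : ∀ m u w : ℤ, p * m - r = q * w → m ^ 2 - p = q * (2 * u - b) → q ∣ (w - u * m) →
      ∃ m u v h k : ℤ, b = u + v ∧ c = 2 * u * v - u ^ 2 - 2 * m * h - q * k ∧
      d = -p * k - q * h ^ 2 - 2 * m * u * h - u ^ 2 * (u - v) ∧
      p = m ^ 2 - q * (u - v) ∧ r = p * m - q * (u * m + q * h) := by
    intro m u w h1 h2 h3
    obtain ⟨h, hh⟩ := h3
    -- main identity
    have hid : p * (2 * u * (b - u) - u ^ 2 - 2 * m * h - c) +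
        q * (u ^ 2 * (2 * u - b) + 2 * u * m * h + q * h ^ 2 + d) = 0 := by
      have hr : r = p * m - q * w := by linarith
      have hw : w = u * m + q * h := by linarith
      have hp : m ^ 2 = p + q * (2 * u - b) := by linarith
      have h4 : q ^ 2 * (p * (2 * u * (b - u) - u ^ 2 - 2 * m * h - c) +
        q * (u ^ 2 * (2 * u - b) + 2 * u * m * h + q * h ^ 2 + d)) = 0 := by
        have h5 : (p * m - q * (u * m + q * h)) ^ 2 =
            p ^ 3 - b * p ^ 2 * q + c * p * q ^ 2 - d * q ^ 3 := by
          rw [← hN, hr, hw]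
        linear_combination h5 - (p ^ 2 - 2 * p * q * u + q ^ 2 * u ^ 2) * hp
      rcases mul_eq_zero.mp h4 with h6 | h6
      · exact absurd (pow_eq_zero_iff (by norm_num) |>.mp h6) hq
      · exact h6
    have hdvd : q ∣ (2 * u * (b - u) - u ^ 2 - 2 * m * h - c) := by
      have : q ∣ p * (2 * u * (b - u) - u ^ 2 - 2 * m * h - c) := by
        refine ⟨-(u ^ 2 * (2 * u - b) + 2 * u * m * h + q * h ^ 2 + d), ?_⟩
        linarith
      exact hcop.symm.dvd_of_dvd_mul_left this
    obtain ⟨k, hk⟩ := hdvd
    refine ⟨m, u, b - u, h, k, by ring, by linarith, ?_, by linarith, ?_⟩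
    · have h7 : q * (p * k + (u ^ 2 * (2 * u - b) + 2 * u * m * h + q * h ^ 2 + d)) = 0 := by
        rw [hk] at hid
        linarith
      rcases mul_eq_zero.mp h7 with h8 | h8
      · exact absurd h8 hq
      · linarith
    · have hw : w = u * m + q * h := by linarith
      rw [← hw]; linarith
  obtain ⟨s, t, hst⟩ := hcop
  -- `m` with `p m ≡ r mod q`
  have hm0 : ∃ m w : ℤ, p * m - r = q * w := by
    refine ⟨s * r, -(t * r), ?_⟩
    linear_combination r * hst
  obtain ⟨m, w, hmw⟩ := hm0
  have hcop' : IsCoprime p q := ⟨s, t, hst⟩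
  -- `m ^ 2 ≡ p mod q`
  have key1 : q ∣ (m ^ 2 - p) := by
    have h1 : q ∣ p ^ 2 * (m ^ 2 - p) := by
      refine ⟨w * (p * m + r) + (- b * p ^ 2 + c * p * q - d * q ^ 2), ?_⟩
      linear_combination (p * m + r) * hmw + hN
    have h2 : IsCoprime (p ^ 2) q := hcop'.pow_left
    exact h2.symm.dvd_of_dvd_mul_left h1
  obtain ⟨e, he⟩ := key1
  -- identity for w
  have key2 : p ^ 2 * (e + b) - 2 * p * m * w + q * w ^ 2 = c * p * q - d * q ^ 2 := by
    have hr : r = p * m - q * w := by linarith
    have h4 : q * (p ^ 2 * (e + b) - 2 * p * m * w + q * w ^ 2 - (c * p * q - d * q ^ 2)) = 0 := by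
      have h5 : (p * m - q * w) ^ 2 =
            p ^ 3 - b * p ^ 2 * q + c * p * q ^ 2 - d * q ^ 3 := by
          rw [← hN, hr]
      linear_combination h5 - p ^ 2 * he
    rcases mul_eq_zero.mp h4 with h6 | h6
    · exact absurd h6 hq
    · linarith
  rcases Int.even_or_odd q with hqe | hqo
  · -- q even, p odd
    obtain ⟨q', hq'⟩ := hqe
    have hq2 : q = 2 * q' := by linarith
    have hpo : Odd p := by
      rcases Int.even_or_odd p with h | h
      · exfalso
        obtain ⟨p', hp'⟩ := h
        have : (2:ℤ) ∣ 1 := by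
          rw [← hst]
          exact dvd_add (dvd_mul_of_dvd_right ⟨p', by linarith⟩ _)
            (dvd_mul_of_dvd_right ⟨q', hq2⟩ _)
        omega
      · exact h
    -- e + b even
    have heb : Even (e + b) := by
      have h1 : Even (p ^ 2 * (e + b)) := by
        refine ⟨p * m * w - q' * w ^ 2 + (c * p * q' - d * q' * q), ?_⟩
        rw [hq2] at key2 ⊢
        linarith
      rcases Int.even_mul.mp h1 with h2 | h2
      · exfalso
        exact (Int.not_even_iff_odd.mpr hpo) ((Int.even_pow.mp h2).1)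
      · exact h2
    obtain ⟨u, hu⟩ := heb
    have hmo : Odd m := by
      rcases Int.even_or_odd m with h | h
      · exfalso
        obtain ⟨m', hm'⟩ := h
        obtain ⟨p', hp'⟩ := hpo
        have : m ^ 2 - p = 2 * (q' * e) := by rw [he, hq2]; ring
        rw [hm', hp'] at this
        have h2 : (2:ℤ) * (2 * m' ^ 2 - p' - q' * e) = 1 := by linarith
        omega
      · exact h
    have h2um : q ∣ 2 * (w - u * m) := by
      have h1 : q ∣ p * (2 * (u * p - m * w)) := by
        refine ⟨- w ^ 2 + c * p - d * q, ?_⟩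
        have : e + b = 2 * u := by linarith
        rw [this] at key2
        linarith
      have h2 : q ∣ 2 * (u * p - m * w) := hcop'.symm.dvd_of_dvd_mul_left h1
      have h3 : q ∣ p * (2 * (w - u * m)) := by
        obtain ⟨z, hz⟩ := h2
        refine ⟨- m * z - 2 * w * e, ?_⟩
        linear_combination (-m) * hz + (-2 * w) * he
      exact hcop'.symm.dvd_of_dvd_mul_left h3
    obtain ⟨z, hz⟩ := h2um
    have hz' : w - u * m = q' * z := by
      rw [hq2] at hz; linarith
    rcases Int.even_or_odd z with hze | hzo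
    · obtain ⟨z', hz2⟩ := hze
      exact hfin m u w hmw (by rw [he]; have : e + b = 2 * u := by linarith
                               have : e = 2 * u - b := by linarith
                               rw [this]) ⟨z', by rw [hz', hz2, hq2]; ring⟩
    · obtain ⟨z', hz2⟩ := hzo
      obtain ⟨m', hm'⟩ := hmo
      have heq : e = 2 * u - b := by linarith
      refine hfin (m + q) (u + m + q') (w + p) (by linarith) ?_ ?_
      · have : m ^ 2 - p = q * (2 * u - b) := by rw [he, heq]
        have h9 : (m + q) ^ 2 - p = (m ^ 2 - p) + q * (2 * m + q) := by ring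
        rw [h9, this, hq2]; ring
      · have h10 : w + p - (u + m + q') * (m + q) =
            (w - u * m) - (m ^ 2 - p) - q * (u + m + q') - q' * m := by ring
        rw [h10, hz', he, hz2, hm', hq2]
        refine ⟨z' - m' - e - (u + (2 * m' + 1) + q'), ?_⟩
        ring
  · -- q odd
    have hodd := hqo
    obtain ⟨q', hq'⟩ := hqo
    have hgen : ∀ m w e : ℤ, p * m - r = q * w → m ^ 2 - p = q * e →
        p ^ 2 * (e + b) - 2 * p * m * w + q * w ^ 2 = c * p * q - d * q ^ 2 → Even (e + b) →
        ∃ m u v h k : ℤ, b = u + v ∧ c = 2 * u * v - u ^ 2 - 2 * m * h - q * k ∧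
      d = -p * k - q * h ^ 2 - 2 * m * u * h - u ^ 2 * (u - v) ∧
      p = m ^ 2 - q * (u - v) ∧ r = p * m - q * (u * m + q * h) := by
      intro m w e hmw he key2 heb
      obtain ⟨u, hu⟩ := heb
      have heq : e = 2 * u - b := by linarith
      have h2um : q ∣ 2 * (w - u * m) := by
        have h1 : q ∣ p * (2 * (u * p - m * w)) := by
          refine ⟨- w ^ 2 + c * p - d * q, ?_⟩
          have : e + b = 2 * u := by linarith
          rw [this] at key2
          linarith
        have h2 : q ∣ 2 * (u * p - m * w) := hcop'.symm.dvd_of_dvd_mul_left h1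
        have h3 : q ∣ p * (2 * (w - u * m)) := by
          obtain ⟨z, hz⟩ := h2
          refine ⟨- m * z - 2 * w * e, ?_⟩
          linear_combination (-m) * hz + (-2 * w) * he
        exact hcop'.symm.dvd_of_dvd_mul_left h3
      have hc2 : IsCoprime q 2 := by
        refine ⟨1, -q', ?_⟩
        rw [hq']; ring
      exact hfin m u w hmw (by rw [he, heq]) (hc2.dvd_of_dvd_mul_left h2um)
    rcases Int.even_or_odd (e + b) with h | h
    · exact hgen m w e hmw he key2 h
    · refine hgen (m + q) (w + p) (e + (2 * m + q)) (by linarith) ?_ ?_ ?_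
      · have h9 : (m + q) ^ 2 - p = (m ^ 2 - p) + q * (2 * m + q) := by ring
        rw [h9, he]; ring
      · linear_combination key2
      · obtain ⟨x, hx⟩ := h
        refine ⟨x + m + q' + 1, ?_⟩
        have : e + (2 * m + q) + b = (e + b) + 2 * m + q := by ring
        rw [this, hx, hq']; ring

theorem exists_tup (b c d p q r : ℤ) (hpq : IsCoprime p q) (hq : q ≠ 0)
    (h : p ^ 3 - b * p ^ 2 * q + c * p * q ^ 2 - d * q ^ 3 = r ^ 2) :
    ∃ t : Fin 6 → ℤ, t 0 = q ∧ tp t = p ∧ tb t = b ∧ tc t = c ∧ td t = d := by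
  obtain ⟨m, u, v, g, k, h1, h2, h3, h4, -⟩ := tuple_exists p q r b c d hq hpq h.symm
  have hp : tp ![q, m, u, v, g, k] = p := by
    simp [tp]; linarith
  refine ⟨![q, m, u, v, g, k], by simp, hp, ?_, ?_, ?_⟩
  · simp [tb]; linarith
  · simp [tc]; linarith
  · rw [td, hp]
    simp; linarith

end Stoll308.BE
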