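import Pool.Agent.Work.MP_308fa9_nt.BE.Approx
import Pool.Agent.Work.MP_308fa9_nt.BE.Conic
import Pool.Agent.Work.MP_308fa9_nt.BE.Square
import Pool.Agent.Work.MP_308fa9_nt.BE.TupEx
import Pool.Agent.Work.MP_308fa9_nt.BE.Reduce
import Pool.Agent.Work.MP_308fa9_nt.BE.LCond
import Pool.Agent.Work.MP_308fa9_nt.BE.Redu

set_option autoImplicit false

/-!
A class which is locally everywhere the class of a point is either trivial or the class of a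
reduced tuple which satisfies all the local conditions.
-/

namespace Stoll308.BE

open Polynomial Finset

lemma FZ_monic {R : Type*} [CommRing R] (b c d : R) : (F b c d).Monic := by
  unfold F; monicity!

lemma rep_F_natDegree {R : Type*} [CommRing R] [Nontrivial R] (b c d : R) :
    (F b c d).natDegree = 3 := by
  unfold F; compute_degree!

lemma F_dvd_iff {b c d : ℤ} (f g : ℚ[X]) :
    FZ ℚ b c d ∣ f - g ↔ AdjoinRoot.mk (FZ ℚ b c d) f = AdjoinRoot.mk (FZ ℚ b c d) g :=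
  AdjoinRoot.mk_eq_mk.symm

lemma mk_ne_zero {b c d : ℤ} (f : ℚ[X]) (hf : f ≠ 0) (hd : f.natDegree < 3) :
    AdjoinRoot.mk (FZ ℚ b c d) f ≠ 0 := by
  intro h
  rw [AdjoinRoot.mk_eq_zero] at h
  have h1 := natDegree_le_of_dvd h hf
  rw [rep_F_natDegree] at h1
  omega

lemma coprime_mk {b c d : ℤ} (hF : Irreducible (FZ ℚ b c d)) {δ : ℚ[X]}
    (hδ : IsCoprime δ (FZ ℚ b c d)) : AdjoinRoot.mk (FZ ℚ b c d) δ ≠ 0 := by
  intro h
  rw [AdjoinRoot.mk_eq_zero] at h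
  exact hF.not_isUnit (hδ.isUnit_of_dvd' h dvd_rfl)

lemma rep_iff {b c d : ℤ} {δ : ℚ[X]} {p q : ℤ} :
    Rep b c d δ p q ↔ ∃ s : AdjoinRoot (FZ ℚ b c d),
      AdjoinRoot.mk (FZ ℚ b c d) (C (p : ℚ) + C (q : ℚ) * X) =
        AdjoinRoot.mk (FZ ℚ b c d) δ * s ^ 2 := by
  constructor
  · rintro ⟨s, hs⟩
    rw [F_dvd_iff] at hs
    exact ⟨AdjoinRoot.mk _ s, by rw [hs, map_mul, map_pow]⟩
  · rintro ⟨s, hs⟩
    obtain ⟨s, rfl⟩ := AdjoinRoot.mk_surjective s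
    exact ⟨s, by rw [F_dvd_iff, hs, map_mul, map_pow]⟩

lemma triv_iff {b c d : ℤ} {δ : ℚ[X]} :
    Triv b c d δ ↔ ∃ s : AdjoinRoot (FZ ℚ b c d), AdjoinRoot.mk (FZ ℚ b c d) δ = s ^ 2 := by
  constructor
  · rintro ⟨s, hs⟩
    rw [F_dvd_iff] at hs
    exact ⟨AdjoinRoot.mk _ s, by rw [hs, map_pow]⟩
  · rintro ⟨s, hs⟩
    obtain ⟨s, rfl⟩ := AdjoinRoot.mk_surjective s
    exact ⟨s, by rw [F_dvd_iff, hs, map_pow]⟩

/-- The product of the two elements of a tuple is a nonzero square. -/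
lemma mk_mul (t : Fin 6 → ℤ) :
    AdjoinRoot.mk (FZ ℚ (tb t) (tc t) (td t)) (C ((tp t : ℤ) : ℚ) + C ((t 0 : ℤ) : ℚ) * X) *
      AdjoinRoot.mk (FZ ℚ (tb t) (tc t) (td t)) (C ((tp (tS t) : ℤ) : ℚ) + C ((t 5 : ℤ) : ℚ) * X) =
    AdjoinRoot.mk (FZ ℚ (tb t) (tc t) (td t))
      (X ^ 2 + C ((t 3 : ℤ) : ℚ) * X +
        C ((t 2 * t 3 - t 2 ^ 2 - t 1 * t 4 : ℤ) : ℚ)) ^ 2 := by
  rw [← map_mul, ← map_pow, ← F_dvd_iff]
  refine ⟨-(X + C ((t 3 : ℤ) : ℚ) - C ((t 2 : ℤ) : ℚ)), ?_⟩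
  have h := tp_tS t
  rw [h]
  unfold FZ F tb tc td tp
  push_cast
  simp only [C_add, C_sub, C_mul, C_pow, C_neg, map_ofNat]
  ring

lemma rep_swap {b c d : ℤ} (hF : Irreducible (FZ ℚ b c d)) {δ : ℚ[X]}
    (hδ : IsCoprime δ (FZ ℚ b c d)) (t : Fin 6 → ℤ) (hb : tb t = b) (hc : tc t = c)
    (hd : td t = d) (h0 : t 0 ≠ 0) (h : Rep b c d δ (tp t) (t 0)) :
    Rep b c d δ (tp (tS t)) (t 5) ∧
      AdjoinRoot.mk (FZ ℚ b c d) (C ((tp (tS t) : ℤ) : ℚ) + C ((t 5 : ℤ) : ℚ) * X) ≠ 0 := by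
  have hm := mk_mul t
  rw [hb, hc, hd] at hm
  have : Fact (Irreducible (FZ ℚ b c d)) := ⟨hF⟩
  rw [rep_iff] at h ⊢
  obtain ⟨s, hs⟩ := h
  set z := AdjoinRoot.mk (FZ ℚ b c d) (X ^ 2 + C ((t 3 : ℤ) : ℚ) * X +
        C ((t 2 * t 3 - t 2 ^ 2 - t 1 * t 4 : ℤ) : ℚ)) with hz
  have hz0 : z ≠ 0 := by
    rw [hz]
    apply mk_ne_zero
    · intro h1
      have h2 := congrArg (fun f => f.coeff 2) h1
      rw [coeff_add, coeff_add, coeff_C, coeff_C_mul, coeff_X, coeff_X_pow] at h2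
      simp at h2
    · have : (X ^ 2 + C ((t 3 : ℤ) : ℚ) * X +
        C ((t 2 * t 3 - t 2 ^ 2 - t 1 * t 4 : ℤ) : ℚ)).natDegree ≤ 2 := by compute_degree
      omega
  have hD := coprime_mk hF hδ
  set D := AdjoinRoot.mk (FZ ℚ b c d) δ with hDd
  set P' := AdjoinRoot.mk (FZ ℚ b c d) (C ((tp (tS t) : ℤ) : ℚ) + C ((t 5 : ℤ) : ℚ) * X) with hP'
  set P := AdjoinRoot.mk (FZ ℚ b c d) (C ((tp t : ℤ) : ℚ) + C ((t 0 : ℤ) : ℚ) * X) with hP
  have hPP : P * P' ≠ 0 := by rw [hm]; exact pow_ne_zero _ hz0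
  have hP0 : P ≠ 0 := left_ne_zero_of_mul hPP
  have hP'0 : P' ≠ 0 := right_ne_zero_of_mul hPP
  have hs0 : s ≠ 0 := by
    rintro rfl
    rw [hs] at hP0
    simp at hP0
  refine ⟨⟨z / (s * D), ?_⟩, hP'0⟩
  have h1 : D * s ^ 2 * P' = z ^ 2 := by rw [← hs, hm]
  field_simp
  linear_combination h1

theorem red_of_mloc (κ b c d : ℤ) (hF : Irreducible (FZ ℚ b c d)) (M : ℝ)
    (hM : ∀ θ : ℂ, θ ^ 3 + b * θ ^ 2 + c * θ + d = 0 → ‖θ + b‖ ≤ M) (δ : ℚ[X])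
    (hδ : IsCoprime δ (FZ ℚ b c d)) (hloc : ∀ (p : ℕ) [Fact p.Prime], MLoc κ b c d δ ℚ_[p])
    (hR : MLoc κ b c d δ ℝ) :
    (∀ (l : ℕ) (_ : Fact l.Prime), l ≠ 2 → ¬ (l : ℤ) ∣ κ → (l : ℤ) ∣ d → ¬ (l : ℤ) ^ 2 ∣ d →
      ¬ (l : ℤ) ∣ c → legendreSym l κ ≠ -1) ∨
    ∃ (t : Fin 6 → ℤ) (τ : ℝ), Red M τ t ∧ tb t = b ∧ tc t = c ∧ td t = d ∧
      ∀ l : ℕ, l ≠ 2 → ¬ (l : ℤ) ∣ κ → ¬ Bad κ l t := by
  have : Fact (Irreducible (FZ ℚ b c d)) := ⟨hF⟩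
  have hD := coprime_mk hF hδ
  by_cases htriv : Triv b c d δ
  · left
    intro l hl h2 hκ hd hd2 hc
    have hrep : Rep b c d δ 1 0 := by
      rw [rep_iff]
      rw [triv_iff] at htriv
      obtain ⟨s, hs⟩ := htriv
      have hs0 : s ≠ 0 := by rintro rfl; apply hD; rw [hs]; simp
      refine ⟨s⁻¹, ?_⟩
      rw [hs]
      simp only [Int.cast_one, Int.cast_zero, C_0, zero_mul, add_zero, map_one]
      rw [← mul_pow, mul_inv_cancel₀ hs0, one_pow]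
    have := lcond κ b c d δ l h2 hκ hd hd2 hc (hloc l) 1 0 hrep
    simpa using this
  right
  obtain ⟨w, hw, hw2⟩ := exists_isotropic b c d δ hδ (fun p _ => (hloc p).wloc) hR.wloc
  obtain ⟨p, q, hpq, hrep⟩ := exists_rep b c d hF δ hδ (fun p _ => (hloc p).wloc) w hw hw2
  obtain ⟨r, hr⟩ := exists_sq b c d δ hδ (fun p _ => (hloc p).wloc) hR.wloc p q hrep
  have hq : q ≠ 0 := by
    rintro rfl
    apply htriv
    have hp : IsUnit p := isCoprime_zero_right.1 hpq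
    have hp1 : p = 1 := by
      rcases Int.isUnit_iff.1 hp with h | h
      · exact h
      · exfalso
        subst h
        nlinarith [sq_nonneg r]
    subst hp1
    rw [rep_iff] at hrep
    obtain ⟨s, hs⟩ := hrep
    rw [triv_iff]
    simp only [Int.cast_one, Int.cast_zero, C_0, zero_mul, add_zero, map_one] at hs
    refine ⟨AdjoinRoot.mk _ δ * s, ?_⟩
    linear_combination (AdjoinRoot.mk (FZ ℚ b c d) δ) * hs
  obtain ⟨t₀, ht0, htp, htb, htc, htd⟩ := exists_tup b c d p q r hpq hq hr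
  obtain ⟨θ, hinj, hprod, hne⟩ := exists_roots b c d hF
  have hroot : ∀ i, θ i ^ 3 + b * θ i ^ 2 + c * θ i + d = 0 := by
    intro i
    have h1 : (FZ ℂ b c d).eval (θ i) = 0 := by
      rw [hprod, eval_prod]
      exact Finset.prod_eq_zero (mem_univ i) (by simp)
    simpa [FZ, F] using h1
  obtain ⟨t, ht, τ, hred⟩ := exists_reduced b c d θ hinj hprod M (fun i => hM _ (hroot i))
    {t | tb t = b ∧ tc t = c ∧ td t = d ∧ t 0 ≠ 0 ∧ Rep b c d δ (tp t) (t 0)}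
    ⟨t₀, htb, htc, htd, by rw [ht0]; exact hq, by rw [htp, ht0]; exact hrep⟩
    (by
      rintro t ⟨h1, h2, h3, h4, h5⟩
      exact ⟨h1, h2, h3, h4, fun i => hne _ _ h4 i⟩)
    (by
      rintro t ⟨h1, h2, h3, h4, h5⟩ j
      refine ⟨by rw [tb_tN, h1], by rw [tc_tN, h2], by rw [td_tN, h3], ?_, ?_⟩
      · simpa [tN] using h4
      · rw [tp_tN]; simpa [tN] using h5)
    (by
      rintro t ⟨h1, h2, h3, h4, h5⟩
      obtain ⟨h6, h7⟩ := rep_swap hF hδ t h1 h2 h3 h4 h5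
      refine ⟨by rw [tb_tS, h1], by rw [tc_tS, h2], by rw [td_tS, h3], ?_, ?_⟩
      · show t 5 ≠ 0
        intro h8
        apply htriv
        rw [h8] at h6 h7
        rw [tp_tS, h8] at h6 h7
        rw [rep_iff] at h6
        obtain ⟨s, hs⟩ := h6
        rw [triv_iff]
        rw [hs] at h7
        have hs0 : s ≠ 0 := by rintro rfl; simp at h7
        refine ⟨AdjoinRoot.mk _ (C ((t 4 : ℤ) : ℚ)) / s, ?_⟩
        rw [div_pow, eq_div_iff (pow_ne_zero _ hs0), ← hs, ← map_pow]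
        congr 1
        simp
      · exact h6)
  obtain ⟨h1, h2, h3, h4, h5⟩ := ht
  refine ⟨t, τ, hred, h1, h2, h3, ?_⟩
  rintro l hl2 hκ ⟨hd, hd2, hc, hl, hleg⟩
  have := hl
  rw [h3] at hd hd2
  rw [h2] at hc
  exact lcond κ b c d δ l hl2 hκ hd hd2 hc (hloc l) (tp t) (t 0) h5 hleg

end Stoll308.BE
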