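import Mathlib

set_option autoImplicit false

/-!
Weak approximation for `ℚ` at finitely many primes.
-/

namespace Stoll308.BE

lemma primes_fact (p : Nat.Primes) : Fact (p : ℕ).Prime := ⟨p.2⟩

attribute [local instance] primes_fact

/-- Weak approximation for `ℚ` at finitely many primes. -/
theorem weak_approx (S : Finset Nat.Primes) (x : ∀ p : Nat.Primes, ℚ_[(p : ℕ)])
    (ε : Nat.Primes → ℝ) (hε : ∀ p, 0 < ε p) :
    ∃ r : ℚ, ∀ p ∈ S, ‖((r : ℚ) : ℚ_[(p : ℕ)]) - x p‖ < ε p := by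
  classical
  -- denominators
  have hk : ∀ p : Nat.Primes, ∃ k : ℕ, ‖((p : ℕ) : ℚ_[(p : ℕ)]) ^ k * x p‖ ≤ 1 := by
    intro p
    have hp1 : ‖((p : ℕ) : ℚ_[(p : ℕ)])‖ < 1 := Padic.norm_p_lt_one
    obtain ⟨k, hk⟩ := exists_pow_lt_of_lt_one (show 0 < (‖x p‖ + 1)⁻¹ by positivity) hp1
    refine ⟨k, ?_⟩
    rw [norm_mul, norm_pow]
    have h1 : 0 < ‖x p‖ + 1 := by positivity
    calc ‖((p : ℕ) : ℚ_[(p : ℕ)])‖ ^ k * ‖x p‖ ≤ (‖x p‖ + 1)⁻¹ * (‖x p‖ + 1) := by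
          apply mul_le_mul hk.le (by linarith) (norm_nonneg _) (by positivity)
      _ = 1 := inv_mul_cancel₀ h1.ne'
  choose k hk using hk
  set D : ℕ := ∏ p ∈ S, (p : ℕ) ^ k p with hD
  have hD0 : D ≠ 0 := Finset.prod_ne_zero_iff.mpr fun p _ => pow_ne_zero _ p.2.ne_zero
  have hDx : ∀ p ∈ S, ‖(D : ℚ_[(p : ℕ)]) * x p‖ ≤ 1 := by
    intro p hp
    obtain ⟨E, hE⟩ : (p : ℕ) ^ k p ∣ D := Finset.dvd_prod_of_mem _ hp
    rw [hE]
    push_cast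
    rw [mul_comm (((p : ℕ) : ℚ_[(p : ℕ)]) ^ k p), mul_assoc, norm_mul]
    exact mul_le_one₀ (by exact_mod_cast Padic.norm_int_le_one (p := (p : ℕ)) (E : ℤ))
      (norm_nonneg _) (hk p)
  have hM : ∀ p : Nat.Primes, ∃ M : ℕ, ‖((p : ℕ) : ℚ_[(p : ℕ)])‖ ^ M <
      ε p * ‖(D : ℚ_[(p : ℕ)])‖ := by
    intro p
    have hp1 : ‖((p : ℕ) : ℚ_[(p : ℕ)])‖ < 1 := Padic.norm_p_lt_one
    have hDp : 0 < ‖(D : ℚ_[(p : ℕ)])‖ := norm_pos_iff.mpr (by exact_mod_cast hD0)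
    exact exists_pow_lt_of_lt_one (mul_pos (hε p) hDp) hp1
  choose M hM using hM
  have ha : ∀ p : Nat.Primes, ∃ a : ℕ, p ∈ S → ‖(D : ℚ_[(p : ℕ)]) * x p - a‖ ≤
      ‖((p : ℕ) : ℚ_[(p : ℕ)])‖ ^ M p := by
    intro p
    by_cases hp : p ∈ S
    · set z : ℤ_[(p : ℕ)] := ⟨(D : ℚ_[(p : ℕ)]) * x p, hDx p hp⟩ with hz
      refine ⟨z.appr (M p), fun _ => ?_⟩
      have h1 := PadicInt.appr_spec (M p) z
      rw [Ideal.mem_span_singleton] at h1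
      obtain ⟨y, hy⟩ := h1
      have h2 : (D : ℚ_[(p : ℕ)]) * x p - (z.appr (M p) : ℕ) =
          ((p : ℕ) : ℚ_[(p : ℕ)]) ^ M p * (y : ℚ_[(p : ℕ)]) := by
        have h3 := congrArg (fun w : ℤ_[(p : ℕ)] => (w : ℚ_[(p : ℕ)])) hy
        simp only [PadicInt.coe_sub, PadicInt.coe_mul, PadicInt.coe_pow, PadicInt.coe_natCast] at h3
        rw [← h3, hz]
      rw [h2, norm_mul, norm_pow]
      exact mul_le_of_le_one_right (by positivity) (PadicInt.norm_le_one y)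
    · exact ⟨0, fun h => absurd h hp⟩
  choose a ha using ha
  obtain ⟨c, hc⟩ := Nat.chineseRemainderOfFinset a (fun p : Nat.Primes => (p : ℕ) ^ M p) S
    (fun p _ => pow_ne_zero _ p.2.ne_zero) (by
      intro p _ q _ hpq
      exact Nat.Coprime.pow _ _ ((Nat.coprime_primes p.2 q.2).mpr
        (fun h => hpq (Subtype.ext h))))
  refine ⟨(c : ℚ) / D, fun p hp => ?_⟩
  have hDp0 : (D : ℚ_[(p : ℕ)]) ≠ 0 := by exact_mod_cast hD0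
  have hDp : 0 < ‖(D : ℚ_[(p : ℕ)])‖ := norm_pos_iff.mpr hDp0
  have h1 : ‖(c : ℚ_[(p : ℕ)]) - a p‖ ≤ ‖((p : ℕ) : ℚ_[(p : ℕ)])‖ ^ M p := by
    have h2 := (Nat.modEq_iff_dvd.mp (hc p hp).symm)
    obtain ⟨y, hy⟩ := h2
    have h3 : (c : ℚ_[(p : ℕ)]) - a p = ((p : ℕ) : ℚ_[(p : ℕ)]) ^ M p * (y : ℤ) := by
      have h4 := congrArg (fun w : ℤ => (w : ℚ_[(p : ℕ)])) hy
      push_cast at h4
      exact h4
    rw [h3, norm_mul, norm_pow]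
    exact mul_le_of_le_one_right (by positivity) (Padic.norm_int_le_one y)
  have h5 : (((c : ℚ) / D : ℚ) : ℚ_[(p : ℕ)]) - x p =
      ((c - a p) - (D * x p - a p)) / (D : ℚ_[(p : ℕ)]) := by
    push_cast
    field_simp
    ring
  rw [h5, norm_div, div_lt_iff₀ hDp]
  refine lt_of_le_of_lt ?_ (hM p)
  calc ‖((c : ℚ_[(p : ℕ)]) - a p) - (D * x p - a p)‖
      ≤ max ‖(c : ℚ_[(p : ℕ)]) - a p‖ ‖(D : ℚ_[(p : ℕ)]) * x p - a p‖ := by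
        rw [sub_eq_add_neg ((c : ℚ_[(p : ℕ)]) - a p)]
        exact (Padic.nonarchimedean _ _).trans (by rw [norm_neg])
    _ ≤ _ := max_le h1 (ha p hp)

end Stoll308.BE
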