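import Pool.Agent.Work.MP_308fa9_nt.BE.CubB
import Pool.Agent.Work.MP_308fa9_nt.BE.WA

set_option autoImplicit false

/-!
Local analysis for the step from a Selmer class to `p + q θ`.
-/

namespace Stoll308.BE

open Matrix

section padic

variable {p : ℕ} [hp : Fact p.Prime]

lemma norm_eq_of_sub_lt {x y : ℚ_[p]} (h : ‖x - y‖ < ‖y‖) : ‖x‖ = ‖y‖ := by
  have h1 : x = (x - y) + y := by ring
  rw [h1, Padic.add_eq_max_of_ne h.ne, max_eq_right h.le]

/-- The parity at the primes where the point is approximated. -/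
lemma loc_bad (b c d : ℤ) (u y μ P Q : ℚ_[p])
    (hF : y ^ 2 = u ^ 3 + b * u ^ 2 + c * u + d) (hμ : μ ≠ 0)
    (hP : ‖P - μ ^ 2 * u‖ < ‖μ ^ 2‖) (hQ : ‖Q - μ ^ 2‖ < ‖μ ^ 2‖) :
    ∃ e : ℚ_[p], max ‖P‖ ‖Q‖ = ‖e‖ ^ 2 := by
  have hQ' : ‖Q‖ = ‖μ ^ 2‖ := norm_eq_of_sub_lt hQ
  by_cases hu : ‖u‖ ≤ 1
  · refine ⟨μ, ?_⟩
    have h1 : ‖P‖ ≤ ‖μ ^ 2‖ := by
      have h2 : P = (P - μ ^ 2 * u) + μ ^ 2 * u := by ring
      rw [h2]
      refine (Padic.nonarchimedean _ _).trans (max_le hP.le ?_)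
      rw [norm_mul]
      exact mul_le_of_le_one_right (norm_nonneg _) hu
    rw [hQ', max_eq_right h1, norm_pow]
  · rw [not_le] at hu
    have hu0 : u ≠ 0 := by
      rintro rfl
      rw [norm_zero] at hu
      linarith
    have hμ2 : 0 < ‖μ ^ 2‖ := norm_pos_iff.mpr (pow_ne_zero _ hμ)
    have h1 : ‖μ ^ 2‖ < ‖μ ^ 2 * u‖ := by
      rw [norm_mul]
      exact lt_mul_of_one_lt_right hμ2 hu
    have h2 : ‖P‖ = ‖μ ^ 2 * u‖ := norm_eq_of_sub_lt (hP.trans h1)
    -- the leading term dominates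
    have h3 : ‖y ^ 2‖ = ‖u ^ 3‖ := by
      apply norm_eq_of_sub_lt
      have h4 : y ^ 2 - u ^ 3 = (b * u ^ 2 + c * u) + d := by rw [hF]; ring
      have hb := Padic.norm_int_le_one (p := p) b
      have hc := Padic.norm_int_le_one (p := p) c
      have hd := Padic.norm_int_le_one (p := p) d
      have h5 : ‖u‖ ^ 2 < ‖u‖ ^ 3 := pow_lt_pow_right₀ hu (by norm_num)
      have h6 : ‖u‖ < ‖u‖ ^ 3 := by
        calc ‖u‖ = ‖u‖ ^ 1 := (pow_one _).symm
          _ < ‖u‖ ^ 3 := pow_lt_pow_right₀ hu (by norm_num)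
      have h7 : (1 : ℝ) < ‖u‖ ^ 3 := one_lt_pow₀ hu (by norm_num)
      rw [h4, norm_pow u 3]
      refine lt_of_le_of_lt (Padic.nonarchimedean _ _) (max_lt ?_ (lt_of_le_of_lt hd h7))
      refine lt_of_le_of_lt (Padic.nonarchimedean _ _) (max_lt ?_ ?_)
      · rw [norm_mul, norm_pow]
        exact lt_of_le_of_lt (mul_le_of_le_one_left (by positivity) hb) h5
      · rw [norm_mul]
        exact lt_of_le_of_lt (mul_le_of_le_one_left (by positivity) hc) h6
    refine ⟨μ * y / u, ?_⟩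
    have h8 : ‖Q‖ ≤ ‖P‖ := by rw [hQ', h2]; exact h1.le
    rw [max_eq_left h8, h2, norm_div, norm_mul, norm_mul, norm_pow]
    rw [norm_pow, norm_pow] at h3
    have hu1 : ‖u‖ ≠ 0 := norm_ne_zero_iff.mpr hu0
    field_simp
    rw [h3]

/-- The parity at the good primes. -/
lemma loc_good (b c d : ℤ) (hdisc : ¬ (p : ℤ) ∣ disc b c d) (δ δ' w : Fin 3 → ℚ_[p])
    (hδ : ∀ i, ‖δ i‖ ≤ 1) (hδ' : ∀ i, ‖δ' i‖ ≤ 1) (hw : w ≠ 0)
    (hinv : mulT (b : ℚ_[p]) c d δ δ' = ![1, 0, 0]) (P Q : ℚ_[p])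
    (h : mulT (b : ℚ_[p]) c d δ (mulT (b : ℚ_[p]) c d w w) = ![P, Q, 0]) :
    ∃ e : ℚ_[p], max ‖P‖ ‖Q‖ = ‖e‖ ^ 2 := by
  have hw' : ¬ (w 0 = 0 ∧ w 1 = 0 ∧ w 2 = 0) := by
    rintro ⟨h0, h1, h2⟩
    apply hw
    funext i
    fin_cases i
    · exact h0
    · exact h1
    · exact h2
  obtain ⟨e, he, W0, W1, W2, hW0, hW1, hW2, hprim⟩ := exists_primitive _ _ _ hw'
  set W : Fin 3 → ℤ_[p] := ![W0, W1, W2] with hW
  have hWw : ∀ i, (W i : ℚ_[p]) = e * w i := by
    intro i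
    fin_cases i
    · exact hW0.symm
    · exact hW1.symm
    · exact hW2.symm
  set D : Fin 3 → ℤ_[p] := fun i => ⟨δ i, hδ i⟩ with hD
  set D' : Fin 3 → ℤ_[p] := fun i => ⟨δ' i, hδ' i⟩ with hD'
  -- the integral identities
  have hinv' : mulT (b : ℤ_[p]) c d D D' = ![1, 0, 0] := by
    have h1 := mulT_map (PadicInt.Coe.ringHom (p := p)) (b : ℤ_[p]) c d D D'
    funext i
    have h2 := congrFun h1 i
    have h3 : mulT (b : ℚ_[p]) c d δ δ' i = (![1, 0, 0] : Fin 3 → ℚ_[p]) i := congrFun hinv i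
    apply Subtype.ext
    have h5 : (PadicInt.Coe.ringHom (p := p)) (b : ℤ_[p]) = b := map_intCast _ _
    have h6 : (PadicInt.Coe.ringHom (p := p)) (c : ℤ_[p]) = c := map_intCast _ _
    have h7 : (PadicInt.Coe.ringHom (p := p)) (d : ℤ_[p]) = d := map_intCast _ _
    rw [h5, h6, h7] at h2
    have h4 : ((mulT (b : ℤ_[p]) c d D D' i : ℤ_[p]) : ℚ_[p]) = mulT (b : ℚ_[p]) c d δ δ' i := h2
    rw [h4, h3]
    fin_cases i <;> simp
  set T : Fin 3 → ℤ_[p] := mulT (b : ℤ_[p]) c d D (mulT (b : ℤ_[p]) c d W W) with hT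
  have hTv : ∀ i, (T i : ℚ_[p]) = e ^ 2 * (![P, Q, 0] : Fin 3 → ℚ_[p]) i := by
    intro i
    have h1 := congrFun (mulT_map (PadicInt.Coe.ringHom (p := p)) (b : ℤ_[p]) c d D
      (mulT (b : ℤ_[p]) c d W W)) i
    have h2 := mulT_map (PadicInt.Coe.ringHom (p := p)) (b : ℤ_[p]) c d W W
    rw [h2] at h1
    have h3 : (fun i => (PadicInt.Coe.ringHom (p := p)) (W i)) = e • w := by
      funext j
      exact hWw j
    have h4 : (fun i => (PadicInt.Coe.ringHom (p := p)) (D i)) = δ := rfl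
    rw [h3, h4, mulT_smul, mulT_smul_left, mulT_smul, mulT_smul] at h1
    have h5 : (PadicInt.Coe.ringHom (p := p)) (b : ℤ_[p]) = b := map_intCast _ _
    have h6 : (PadicInt.Coe.ringHom (p := p)) (c : ℤ_[p]) = c := map_intCast _ _
    have h7 : (PadicInt.Coe.ringHom (p := p)) (d : ℤ_[p]) = d := map_intCast _ _
    rw [h5, h6, h7, h] at h1
    have h8 : (T i : ℚ_[p]) = (PadicInt.Coe.ringHom (p := p)) (T i) := rfl
    rw [h8, hT, h1]
    simp only [Pi.smul_apply, smul_eq_mul]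
    ring
  have hT0 := hTv 0
  have hT1 := hTv 1
  have hT2 := hTv 2
  simp only [Matrix.cons_val, mul_zero] at hT0 hT1 hT2
  -- not both divisible by `p`
  have hnot : ¬ (PadicInt.toZMod (T 0) = 0 ∧ PadicInt.toZMod (T 1) = 0) := by
    rintro ⟨hz0, hz1⟩
    have hz2 : T 2 = 0 := Subtype.ext hT2
    have h1 : mulT (b : ZMod p) c d (fun i => PadicInt.toZMod (D i))
        (mulT (b : ZMod p) c d (fun i => PadicInt.toZMod (W i))
          (fun i => PadicInt.toZMod (W i))) = 0 := by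
      have h2 := mulT_map (PadicInt.toZMod (p := p)) (b : ℤ_[p]) c d D
        (mulT (b : ℤ_[p]) c d W W)
      rw [mulT_map (PadicInt.toZMod (p := p)) (b : ℤ_[p]) c d W W] at h2
      simp only [map_intCast] at h2
      rw [← h2]
      funext i
      fin_cases i
      · exact hz0
      · exact hz1
      · have : PadicInt.toZMod (T 2) = 0 := by rw [hz2, map_zero]
        exact this
    have h3 : mulT (b : ZMod p) c d (fun i => PadicInt.toZMod (D i))
        (fun i => PadicInt.toZMod (D' i)) = ![1, 0, 0] := by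
      have h2 := mulT_map (PadicInt.toZMod (p := p)) (b : ℤ_[p]) c d D D'
      simp only [map_intCast] at h2
      rw [← h2, hinv']
      funext i
      fin_cases i <;> simp
    have h4 : mulT (b : ZMod p) c d (fun i => PadicInt.toZMod (W i))
        (fun i => PadicInt.toZMod (W i)) = 0 := by
      have h5 := congrArg (mulT (b : ZMod p) c d (fun i => PadicInt.toZMod (D' i))) h1
      rw [← mulT_assoc, mulT_comm (b : ZMod p) c d (fun i => PadicInt.toZMod (D' i)), h3,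
        mulT_one] at h5
      rw [h5]
      funext i
      fin_cases i <;> simp [mulT]
    have hdz : disc (b : ZMod p) c d ≠ 0 := by
      intro h6
      apply hdisc
      rw [← ZMod.intCast_zmod_eq_zero_iff_dvd]
      rw [← h6]
      simp [disc]
    have h7 := eq_zero_of_sq (b : ZMod p) c d hdz _ h4
    rcases hprim with h8 | h8 | h8
    · have := congrFun h7 0
      simp [hW, h8] at this
    · have := congrFun h7 1
      simp [hW, h8] at this
    · have := congrFun h7 2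
      simp [hW, h8] at this
  have hmax : max ‖(T 0 : ℚ_[p])‖ ‖(T 1 : ℚ_[p])‖ = 1 := by
    apply le_antisymm
    · exact max_le (PadicInt.norm_le_one _) (PadicInt.norm_le_one _)
    · by_contra hcon
      rw [not_le, max_lt_iff] at hcon
      apply hnot
      constructor
      · have h9 : T 0 ∈ RingHom.ker (PadicInt.toZMod : ℤ_[p] →+* ZMod p) := by
          rw [PadicInt.ker_toZMod, IsLocalRing.mem_maximalIdeal, PadicInt.mem_nonunits]
          exact hcon.1
        exact h9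
      · have h9 : T 1 ∈ RingHom.ker (PadicInt.toZMod : ℤ_[p] →+* ZMod p) := by
          rw [PadicInt.ker_toZMod, IsLocalRing.mem_maximalIdeal, PadicInt.mem_nonunits]
          exact hcon.2
        exact h9
  refine ⟨e⁻¹, ?_⟩
  rw [hT0, hT1, norm_mul, norm_mul, norm_pow] at hmax
  have he' : 0 < ‖e‖ := norm_pos_iff.mpr he
  rw [← mul_max_of_nonneg _ _ (by positivity)] at hmax
  rw [norm_inv, inv_pow]
  field_simp
  linarith

/-- The norm of the greatest common divisor. -/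
lemma norm_gcd (a b : ℤ) : ‖((Int.gcd a b : ℕ) : ℚ_[p])‖ =
    max ‖(a : ℚ_[p])‖ ‖(b : ℚ_[p])‖ := by
  apply le_antisymm
  · have h1 := Int.gcd_eq_gcd_ab a b
    have h2 : ((Int.gcd a b : ℕ) : ℚ_[p]) = a * (Int.gcdA a b : ℤ) + b * (Int.gcdB a b : ℤ) := by
      exact_mod_cast congrArg (fun z : ℤ => (z : ℚ_[p])) h1
    rw [h2]
    refine (Padic.nonarchimedean _ _).trans (max_le_max ?_ ?_)
    · rw [norm_mul]
      exact mul_le_of_le_one_right (norm_nonneg _) (Padic.norm_int_le_one _)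
    · rw [norm_mul]
      exact mul_le_of_le_one_right (norm_nonneg _) (Padic.norm_int_le_one _)
  · apply max_le
    · obtain ⟨k, hk⟩ := Int.gcd_dvd_left (a := a) (b := b)
      have h2 : (a : ℚ_[p]) = ((Int.gcd a b : ℕ) : ℚ_[p]) * (k : ℤ) := by
        exact_mod_cast congrArg (fun z : ℤ => (z : ℚ_[p])) hk
      rw [h2, norm_mul]
      exact mul_le_of_le_one_right (norm_nonneg _) (Padic.norm_int_le_one _)
    · obtain ⟨k, hk⟩ := Int.gcd_dvd_right (a := a) (b := b)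
      have h2 : (b : ℚ_[p]) = ((Int.gcd a b : ℕ) : ℚ_[p]) * (k : ℤ) := by
        exact_mod_cast congrArg (fun z : ℤ => (z : ℚ_[p])) hk
      rw [h2, norm_mul]
      exact mul_le_of_le_one_right (norm_nonneg _) (Padic.norm_int_le_one _)

end padic

/-- Global scaling: if `max(|P|_p, |Q|_p)` is the norm of a square for all `p` then `(P, Q)` is a
square times a pair of coprime integers. -/
theorem exists_coprime (P Q : ℚ) (hQ : Q ≠ 0)
    (h : ∀ (p : ℕ) [Fact p.Prime], ∃ e : ℚ_[p], max ‖(P : ℚ_[p])‖ ‖(Q : ℚ_[p])‖ = ‖e‖ ^ 2) :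
    ∃ (m n : ℤ) (k : ℚ), k ≠ 0 ∧ IsCoprime m n ∧ (m : ℚ) = k ^ 2 * P ∧ (n : ℚ) = k ^ 2 * Q := by
  set N : ℕ := P.den * Q.den with hN
  have hN0 : N ≠ 0 := mul_ne_zero P.den_nz Q.den_nz
  set a : ℤ := P.num * Q.den with ha
  set b : ℤ := Q.num * P.den with hb
  have hNq : (N : ℚ) ≠ 0 := by exact_mod_cast hN0
  have haP : (a : ℚ) = P * N := by
    rw [ha, hN]
    push_cast
    have : P * P.den = P.num := Rat.mul_den_eq_num P
    linear_combination -(Q.den : ℚ) * this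
  have hbQ : (b : ℚ) = Q * N := by
    rw [hb, hN]
    push_cast
    have : Q * Q.den = Q.num := Rat.mul_den_eq_num Q
    linear_combination -(P.den : ℚ) * this
  have hb0 : b ≠ 0 := by
    intro h0
    rw [h0] at hbQ
    simp only [Int.cast_zero] at hbQ
    exact (mul_ne_zero hQ hNq) hbQ.symm
  set g : ℕ := Int.gcd a b with hg
  have hg0 : g ≠ 0 := by
    rw [hg, Ne, Int.gcd_eq_zero_iff]
    exact fun h0 => hb0 h0.2
  obtain ⟨k, hk⟩ : IsSquare (g * N) := by
    apply isSquare_of_norm _ (mul_ne_zero hg0 hN0)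
    intro p _
    obtain ⟨e, he⟩ := h p
    refine ⟨e * N, ?_⟩
    push_cast
    have h1 : ‖(a : ℚ_[p])‖ = ‖(P : ℚ_[p])‖ * ‖(N : ℚ_[p])‖ := by
      rw [← norm_mul]
      congr 1
      exact_mod_cast congrArg (fun z : ℚ => (z : ℚ_[p])) haP
    have h2 : ‖(b : ℚ_[p])‖ = ‖(Q : ℚ_[p])‖ * ‖(N : ℚ_[p])‖ := by
      rw [← norm_mul]
      congr 1
      exact_mod_cast congrArg (fun z : ℚ => (z : ℚ_[p])) hbQ
    rw [norm_mul, hg, norm_gcd, h1, h2, ← max_mul_of_nonneg _ _ (norm_nonneg _), he, norm_mul]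
    ring
  have hk0 : k ≠ 0 := by
    rintro rfl
    exact mul_ne_zero hg0 hN0 (by rw [hk]; rfl)
  have hgq : (g : ℚ) ≠ 0 := by exact_mod_cast hg0
  have hkq : (k : ℚ) ≠ 0 := by exact_mod_cast hk0
  have hkk : (g : ℚ) * N = k * k := by exact_mod_cast hk
  obtain ⟨m, hm⟩ : (g : ℤ) ∣ a := Int.gcd_dvd_left a b
  obtain ⟨n, hn⟩ : (g : ℤ) ∣ b := Int.gcd_dvd_right a b
  have hcop : IsCoprime m n := by
    rw [Int.isCoprime_iff_gcd_eq_one]
    have h1 : Int.gcd a b = g * Int.gcd m n := by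
      rw [hm, hn, Int.gcd_mul_left]
      simp
    have h2 : g * Int.gcd m n = g * 1 := by rw [← h1, mul_one]
    exact Nat.eq_of_mul_eq_mul_left (Nat.pos_of_ne_zero hg0) h2
  have hmq : (a : ℚ) = g * m := by exact_mod_cast hm
  have hnq : (b : ℚ) = g * n := by exact_mod_cast hn
  refine ⟨m, n, N / k, div_ne_zero hNq hkq, hcop, ?_, ?_⟩
  · have h1 : (m : ℚ) = P * N / g := by
      rw [← haP, hmq]; field_simp
    rw [h1]
    field_simp
    linear_combination (-1 : ℚ) * P * hkk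
  · have h1 : (n : ℚ) = Q * N / g := by
      rw [← hbQ, hnq]; field_simp
    rw [h1]
    field_simp
    linear_combination (-1 : ℚ) * hkk

end Stoll308.BE
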