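import Pool.Agent.Work.MP_308fa9_nt.BE.HMB

set_option autoImplicit false

/-!
General ternary quadratic forms over `ℚ`: Hasse-Minkowski and the parametrisation of conics.
-/

namespace Stoll308.BE

open Matrix

/-- The value of the ternary form with matrix `M`. -/
def qf {K : Type*} [CommRing K] (M : Matrix (Fin 3) (Fin 3) K) (v : Fin 3 → K) : K :=
  v ⬝ᵥ (M *ᵥ v)

lemma qf_mulVec {K : Type*} [CommRing K] (M P : Matrix (Fin 3) (Fin 3) K) (v : Fin 3 → K) :
    qf M (P *ᵥ v) = qf (Pᵀ * M * P) v := by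
  unfold qf
  rw [← Matrix.mulVec_mulVec, ← Matrix.mulVec_mulVec, Matrix.dotProduct_mulVec v Pᵀ,
    Matrix.vecMul_transpose]

/-- Diagonalisation. -/
theorem exists_diag {K : Type*} [Field K] [CharZero K] (M : Matrix (Fin 3) (Fin 3) K)
    (hM : M.IsSymm) : ∃ P : Matrix (Fin 3) (Fin 3) K, IsUnit P.det ∧ ∃ d : Fin 3 → K,
      Pᵀ * M * P = diagonal d := by
  have : Invertible (2 : K) := invertibleOfNonzero two_ne_zero
  have hsymm : LinearMap.IsSymm (Matrix.toBilin' M) := by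
    constructor
    intro x y
    simp only [Matrix.toBilin'_apply', RingHom.id_apply]
    rw [Matrix.dotProduct_mulVec, ← Matrix.mulVec_transpose, hM, dotProduct_comm]
  obtain ⟨v, hv⟩ := LinearMap.BilinForm.exists_orthogonal_basis hsymm
  have hfin : Module.finrank K (Fin 3 → K) = 3 := by simp
  let w : Module.Basis (Fin 3) K (Fin 3 → K) := v.reindex (finCongr hfin)
  have hw : ∀ i j, i ≠ j → Matrix.toBilin' M (w i) (w j) = 0 := by
    intro i j hij
    simp only [w, Module.Basis.reindex_apply]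
    exact hv (fun h => hij ((finCongr hfin).symm.injective h))
  refine ⟨(Matrix.of fun i j => w j i), ?_, fun i => Matrix.toBilin' M (w i) (w i), ?_⟩
  · have h1 : (Matrix.of fun i j => w j i) = (Pi.basisFun K (Fin 3)).toMatrix w := by
      ext i j
      simp [Module.Basis.toMatrix_apply]
    rw [h1]
    have h2 := Module.Basis.invertibleToMatrix (Pi.basisFun K (Fin 3)) w
    exact (Matrix.isUnit_iff_isUnit_det _).mp (isUnit_of_invertible _)
  · ext i j
    have h1 : ((Matrix.of fun i j => w j i)ᵀ * M * (Matrix.of fun i j => w j i)) i j =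
        Matrix.toBilin' M (w i) (w j) := by
      rw [Matrix.toBilin'_apply', Matrix.dotProduct_mulVec]
      rfl
    rw [h1, Matrix.diagonal_apply]
    split_ifs with h
    · rw [h]
    · exact hw i j h

/-- Hasse-Minkowski for ternary quadratic forms. -/
theorem hm_three (M : Matrix (Fin 3) (Fin 3) ℚ) (hM : M.IsSymm)
    (hloc : ∀ (p : ℕ) [Fact p.Prime], ∃ v : Fin 3 → ℚ_[p], v ≠ 0 ∧
      qf (M.map (algebraMap ℚ ℚ_[p])) v = 0)
    (hreal : ∃ v : Fin 3 → ℝ, v ≠ 0 ∧ qf (M.map (algebraMap ℚ ℝ)) v = 0) :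
    ∃ v : Fin 3 → ℚ, v ≠ 0 ∧ qf M v = 0 := by
  obtain ⟨P, hP, d, hd⟩ := exists_diag M hM
  -- transport to the diagonal form
  have trans : ∀ (K : Type) [Field K] [Algebra ℚ K],
      (∃ v : Fin 3 → K, v ≠ 0 ∧ qf (M.map (algebraMap ℚ K)) v = 0) ↔
      ∃ v : Fin 3 → K, v ≠ 0 ∧ ∑ i, algebraMap ℚ K (d i) * v i ^ 2 = 0 := by
    intro K _ _
    set PK := P.map (algebraMap ℚ K) with hPK
    have hdet : IsUnit PK.det := by
      have h1 : PK.det = algebraMap ℚ K P.det := by
        rw [hPK, RingHom.map_det]; rfl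
      rw [h1]
      exact hP.map _
    have hPM : PKᵀ * M.map (algebraMap ℚ K) * PK = diagonal (fun i => algebraMap ℚ K (d i)) := by
      have h1 := congrArg (fun A => A.map (algebraMap ℚ K)) hd
      simp only [Matrix.map_mul] at h1
      rw [Matrix.diagonal_map (map_zero _)] at h1
      exact h1
    have hq : ∀ v : Fin 3 → K, qf (M.map (algebraMap ℚ K)) (PK *ᵥ v) =
        ∑ i, algebraMap ℚ K (d i) * v i ^ 2 := by
      intro v
      rw [qf_mulVec, hPM, qf]
      simp only [dotProduct, Matrix.mulVec_diagonal]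
      refine Finset.sum_congr rfl fun i _ => by ring
    constructor
    · rintro ⟨v, hv, h⟩
      refine ⟨PK⁻¹ *ᵥ v, ?_, ?_⟩
      · intro h0
        apply hv
        have : PK *ᵥ (PK⁻¹ *ᵥ v) = v := by
          rw [Matrix.mulVec_mulVec, Matrix.mul_nonsing_inv _ hdet, Matrix.one_mulVec]
        rw [← this, h0, Matrix.mulVec_zero]
      · rw [← hq, Matrix.mulVec_mulVec, Matrix.mul_nonsing_inv _ hdet, Matrix.one_mulVec]
        exact h
    · rintro ⟨v, hv, h⟩
      refine ⟨PK *ᵥ v, ?_, by rw [hq]; exact h⟩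
      intro h0
      apply hv
      have : PK⁻¹ *ᵥ (PK *ᵥ v) = v := by
        rw [Matrix.mulVec_mulVec, Matrix.nonsing_inv_mul _ hdet, Matrix.one_mulVec]
      rw [← this, h0, Matrix.mulVec_zero]
  have hQ : (∃ v : Fin 3 → ℚ, v ≠ 0 ∧ ∑ i, d i * v i ^ 2 = 0) →
      ∃ v : Fin 3 → ℚ, v ≠ 0 ∧ qf M v = 0 := by
    intro h
    have h1 := (trans ℚ).mpr (by simpa using h)
    have h2 : M.map (algebraMap ℚ ℚ) = M := by ext i j; simp
    rwa [h2] at h1
  apply hQ
  by_cases hz : ∃ i, d i = 0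
  · obtain ⟨i, hi⟩ := hz
    refine ⟨Pi.single i 1, by simp, ?_⟩
    rw [Finset.sum_eq_single i]
    · rw [hi]; ring
    · intro j _ hj
      simp [hj]
    · simp
  · rw [not_exists] at hz
    -- diagonal form to `z² = a x² + b y²`
    have conv : ∀ (K : Type) [Field K] [Algebra ℚ K],
        (∃ v : Fin 3 → K, v ≠ 0 ∧ ∑ i, algebraMap ℚ K (d i) * v i ^ 2 = 0) ↔
        Iso2 K (algebraMap ℚ K (-(d 0 * d 2))) (algebraMap ℚ K (-(d 1 * d 2))) := by
      intro K _ _
      have h2 : algebraMap ℚ K (d 2) ≠ 0 := by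
        rw [Ne, FaithfulSMul.algebraMap_eq_zero_iff]; exact hz 2
      constructor
      · rintro ⟨v, hv, h⟩
        rw [Fin.sum_univ_three] at h
        refine ⟨v 0, v 1, algebraMap ℚ K (d 2) * v 2, ?_, ?_⟩
        · rintro ⟨h3, h4, h5⟩
          apply hv
          funext i
          fin_cases i
          · exact h3
          · exact h4
          · exact (mul_eq_zero.mp h5).resolve_left h2
        · simp only [map_neg, map_mul]
          linear_combination algebraMap ℚ K (d 2) * h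
      · rintro ⟨x, y, z, h0, h⟩
        refine ⟨![x, y, z / algebraMap ℚ K (d 2)], ?_, ?_⟩
        · intro h3
          apply h0
          refine ⟨?_, ?_, ?_⟩
          · simpa using congrFun h3 0
          · simpa using congrFun h3 1
          · have := congrFun h3 2
            simp only [Matrix.cons_val] at this
            exact (div_eq_zero_iff.mp this).resolve_right h2
        · rw [Fin.sum_univ_three]
          simp only [Matrix.cons_val]
          simp only [map_neg, map_mul] at h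
          field_simp
          linear_combination h
    have h1 := (conv ℚ).mpr (by
      apply hm_two
      · intro p _
        exact (conv ℚ_[p]).mp ((trans ℚ_[p]).mp (hloc p))
      · exact (conv ℝ).mp ((trans ℝ).mp hreal))
    simpa using h1

/-- The bilinear form. -/
def bf {K : Type*} [CommRing K] (M : Matrix (Fin 3) (Fin 3) K) (u v : Fin 3 → K) : K :=
  u ⬝ᵥ (M *ᵥ v)

lemma bf_comm {K : Type*} [CommRing K] {M : Matrix (Fin 3) (Fin 3) K} (hM : M.IsSymm)
    (u v : Fin 3 → K) : bf M u v = bf M v u := by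
  unfold bf
  rw [Matrix.dotProduct_mulVec, ← Matrix.mulVec_transpose, hM, dotProduct_comm]

/-- A nondegenerate isotropic ternary form is `2xz + c y²` in suitable coordinates. -/
theorem exists_hyp {K : Type*} [Field K] [CharZero K] (M : Matrix (Fin 3) (Fin 3) K)
    (hM : M.IsSymm) (hdet : M.det ≠ 0) (w : Fin 3 → K) (hw : w ≠ 0) (hq : qf M w = 0) :
    ∃ P : Matrix (Fin 3) (Fin 3) K, P.det ≠ 0 ∧ ∃ c : K, c ≠ 0 ∧
      Pᵀ * M * P = !![0, 0, 1; 0, c, 0; 1, 0, 0] := by
  have hu : M *ᵥ w ≠ 0 := by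
    intro h
    apply hw
    have : M⁻¹ *ᵥ (M *ᵥ w) = w := by
      rw [Matrix.mulVec_mulVec, Matrix.nonsing_inv_mul _ (isUnit_iff_ne_zero.mpr hdet),
        Matrix.one_mulVec]
    rw [← this, h, Matrix.mulVec_zero]
  obtain ⟨j, hj⟩ := Function.ne_iff.mp hu
  have hj' : (M *ᵥ w) j ≠ 0 := hj
  -- a vector with `B(v, w) = 1`
  obtain ⟨v₁, hv₁⟩ : ∃ v : Fin 3 → K, bf M v w = 1 := by
    refine ⟨Pi.single j ((M *ᵥ w) j)⁻¹, ?_⟩
    unfold bf
    rw [single_dotProduct, inv_mul_cancel₀ hj']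
  -- isotropic
  obtain ⟨v, hv, hvv⟩ : ∃ v : Fin 3 → K, bf M v w = 1 ∧ bf M v v = 0 := by
    refine ⟨v₁ - (bf M v₁ v₁ / 2) • w, ?_, ?_⟩
    · have : bf M (v₁ - (bf M v₁ v₁ / 2) • w) w = bf M v₁ w - (bf M v₁ v₁ / 2) * qf M w := by
        unfold bf qf
        rw [sub_dotProduct, smul_dotProduct, smul_eq_mul]
      rw [this, hq, hv₁]; ring
    · set t := bf M v₁ v₁ / 2 with ht
      have h1 : bf M (v₁ - t • w) (v₁ - t • w) = bf M v₁ v₁ - t * bf M v₁ w - t * bf M w v₁ +
          t ^ 2 * qf M w := by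
        unfold bf qf
        rw [Matrix.mulVec_sub, Matrix.mulVec_smul, sub_dotProduct, dotProduct_sub, dotProduct_sub,
          smul_dotProduct, smul_dotProduct, dotProduct_smul, dotProduct_smul]
        simp only [smul_eq_mul]
        ring
      rw [h1, bf_comm hM w v₁, hv₁, hq, ht]
      ring
  have e10 : M 1 0 = M 0 1 := hM.apply 0 1
  have e20 : M 2 0 = M 0 2 := hM.apply 0 2
  have e21 : M 2 1 = M 1 2 := hM.apply 1 2
  have E1 : bf M v w = 1 := hv
  have E2 : bf M v v = 0 := hvv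
  have E3 : bf M w w = 0 := hq
  simp only [bf, dotProduct, Matrix.mulVec, Fin.sum_univ_three, e10, e20, e21] at E1 E2 E3
  generalize hMa : M 0 0 = a at *
  generalize hMb : M 0 1 = b at *
  generalize hMc : M 0 2 = c at *
  generalize hMd : M 1 1 = d at *
  generalize hMe : M 1 2 = e at *
  generalize hMf : M 2 2 = f at *
  have hMM : M = !![a, b, c; b, d, e; c, e, f] := by
    ext i j
    fin_cases i <;> fin_cases j <;> simp [e10, e20, e21, hMa, hMb, hMc, hMd, hMe, hMf]
  have E1' : w 0 * (a * v 0 + b * v 1 + c * v 2) + w 1 * (b * v 0 + d * v 1 + e * v 2) +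
      w 2 * (c * v 0 + e * v 1 + f * v 2) = 1 := by
    rw [← E1]; ring
  have hdM : M.det = a * d * f - a * e * e - b * b * f + b * e * c + c * b * e - c * d * c := by
    rw [hMM, Matrix.det_fin_three]
    simp
  obtain ⟨p0, hp0⟩ : ∃ p0, p0 = a * w 0 + b * w 1 + c * w 2 := ⟨_, rfl⟩
  obtain ⟨p1, hp1⟩ : ∃ p1, p1 = b * w 0 + d * w 1 + e * w 2 := ⟨_, rfl⟩
  obtain ⟨p2, hp2⟩ : ∃ p2, p2 = c * w 0 + e * w 1 + f * w 2 := ⟨_, rfl⟩
  obtain ⟨q0, hq0⟩ : ∃ q0, q0 = a * v 0 + b * v 1 + c * v 2 := ⟨_, rfl⟩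
  obtain ⟨q1, hq1⟩ : ∃ q1, q1 = b * v 0 + d * v 1 + e * v 2 := ⟨_, rfl⟩
  obtain ⟨q2, hq2⟩ : ∃ q2, q2 = c * v 0 + e * v 1 + f * v 2 := ⟨_, rfl⟩
  rw [← hp0, ← hp1, ← hp2] at E1 E3
  rw [← hq0, ← hq1, ← hq2] at E1' E2
  refine ⟨!![w 0, p1 * q2 - p2 * q1, v 0; w 1, p2 * q0 - p0 * q2, v 1;
    w 2, p0 * q1 - p1 * q0, v 2], ?_, -M.det, neg_ne_zero.mpr hdet, ?_⟩
  · have h1 : (!![w 0, p1 * q2 - p2 * q1, v 0; w 1, p2 * q0 - p0 * q2, v 1;
        w 2, p0 * q1 - p1 * q0, v 2] : Matrix (Fin 3) (Fin 3) K).det = 1 := by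
      rw [Matrix.det_fin_three]
      simp only [Matrix.of_apply, Matrix.cons_val', Matrix.cons_val, Matrix.cons_val_zero,
        Matrix.cons_val_one]
      linear_combination (w 0 * q0 + w 1 * q1 + w 2 * q2) * E1 + E1' -
        (v 0 * q0 + v 1 * q1 + v 2 * q2) * E3
    rw [h1]
    exact one_ne_zero
  · rw [hdM, hMM]
    have hy : (p1 * q2 - p2 * q1) * (a * (p1 * q2 - p2 * q1) + b * (p2 * q0 - p0 * q2) +
        c * (p0 * q1 - p1 * q0)) + (p2 * q0 - p0 * q2) * (b * (p1 * q2 - p2 * q1) +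
        d * (p2 * q0 - p0 * q2) + e * (p0 * q1 - p1 * q0)) + (p0 * q1 - p1 * q0) *
        (c * (p1 * q2 - p2 * q1) + e * (p2 * q0 - p0 * q2) + f * (p0 * q1 - p1 * q0)) =
        (a * d * f - a * e * e - b * b * f + b * e * c + c * b * e - c * d * c) *
        ((w 0 * p0 + w 1 * p1 + w 2 * p2) * (v 0 * q0 + v 1 * q1 + v 2 * q2) -
        (v 0 * p0 + v 1 * p1 + v 2 * p2) * (w 0 * q0 + w 1 * q1 + w 2 * q2)) := by
      rw [hp0, hp1, hp2, hq0, hq1, hq2]; ring
    rw [E1, E1', E2, E3] at hy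
    ext i j
    fin_cases i <;> fin_cases j <;> simp [Matrix.mul_apply, Fin.sum_univ_three]
    · linear_combination E3 - w 0 * hp0 - w 1 * hp1 - w 2 * hp2
    · linear_combination -(p1 * q2 - p2 * q1) * hp0 - (p2 * q0 - p0 * q2) * hp1 -
        (p0 * q1 - p1 * q0) * hp2
    · linear_combination E1 - v 0 * hp0 - v 1 * hp1 - v 2 * hp2
    · linear_combination -(p1 * q2 - p2 * q1) * hp0 - (p2 * q0 - p0 * q2) * hp1 -
        (p0 * q1 - p1 * q0) * hp2
    · linear_combination hy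
    · linear_combination -(p1 * q2 - p2 * q1) * hq0 - (p2 * q0 - p0 * q2) * hq1 -
        (p0 * q1 - p1 * q0) * hq2
    · linear_combination E1' - w 0 * hq0 - w 1 * hq1 - w 2 * hq2
    · linear_combination -(p1 * q2 - p2 * q1) * hq0 - (p2 * q0 - p0 * q2) * hq1 -
        (p0 * q1 - p1 * q0) * hq2
    · linear_combination E2 - v 0 * hq0 - v 1 * hq1 - v 2 * hq2

/-- Parametrisation of a conic: over every extension, the isotropic vectors are the multiples of
the vectors `s² A + s t B + t² C`. -/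
theorem exists_param (M : Matrix (Fin 3) (Fin 3) ℚ)
    (hM : M.IsSymm) (hdet : M.det ≠ 0) (w : Fin 3 → ℚ) (hw : w ≠ 0) (hq : qf M w = 0) :
    ∃ A B C : Fin 3 → ℚ, (∀ s t : ℚ, qf M (fun i => s ^ 2 * A i + s * t * B i + t ^ 2 * C i) = 0) ∧
      ∀ (K : Type) [Field K] [Algebra ℚ K] (v : Fin 3 → K), v ≠ 0 →
        qf (M.map (algebraMap ℚ K)) v = 0 → ∃ s t μ : K, μ ≠ 0 ∧ ∀ i,
          μ * v i = s ^ 2 * algebraMap ℚ K (A i) + s * t * algebraMap ℚ K (B i) +
            t ^ 2 * algebraMap ℚ K (C i) := by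
  obtain ⟨P, hP, c, hc, h⟩ := exists_hyp M hM hdet w hw hq
  -- the vectors `(2 s², 2 s t, - c t²)`
  refine ⟨fun i => 2 * P i 0, fun i => 2 * P i 1, fun i => -c * P i 2, ?_, ?_⟩
  · intro s t
    have h1 : (fun i => s ^ 2 * (2 * P i 0) + s * t * (2 * P i 1) + t ^ 2 * (-c * P i 2)) =
        P *ᵥ ![2 * s ^ 2, 2 * s * t, -c * t ^ 2] := by
      funext i
      simp only [Matrix.mulVec, dotProduct, Fin.sum_univ_three, Matrix.cons_val]
      ring
    rw [h1, qf_mulVec, h, qf]
    simp only [Matrix.mulVec, dotProduct, Fin.sum_univ_three, Matrix.of_apply, Matrix.cons_val',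
      Matrix.cons_val, Matrix.cons_val_zero, Matrix.cons_val_one]
    ring
  · intro K _ _ v hv hqv
    set PK := P.map (algebraMap ℚ K) with hPK
    have hdetK : IsUnit PK.det := by
      have h1 : PK.det = algebraMap ℚ K P.det := by
        rw [hPK, RingHom.map_det]; rfl
      rw [h1]
      exact (isUnit_iff_ne_zero.mpr hP).map _
    have hPM : PKᵀ * M.map (algebraMap ℚ K) * PK =
        !![0, 0, 1; 0, algebraMap ℚ K c, 0; 1, 0, 0] := by
      have h1 := congrArg (fun A => A.map (algebraMap ℚ K)) h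
      simp only [Matrix.map_mul] at h1
      have h2 : (!![0, 0, 1; 0, c, 0; 1, 0, 0] : Matrix (Fin 3) (Fin 3) ℚ).map (algebraMap ℚ K) =
          !![0, 0, 1; 0, algebraMap ℚ K c, 0; 1, 0, 0] := by
        ext i j
        fin_cases i <;> fin_cases j <;> simp
      rw [h2] at h1
      exact h1
    obtain ⟨u, hu⟩ : ∃ u : Fin 3 → K, PK *ᵥ u = v :=
      ⟨PK⁻¹ *ᵥ v, by rw [Matrix.mulVec_mulVec, Matrix.mul_nonsing_inv _ hdetK, Matrix.one_mulVec]⟩
    have hu0 : u ≠ 0 := by
      rintro rfl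
      apply hv
      rw [← hu, Matrix.mulVec_zero]
    rw [← hu, qf_mulVec, hPM, qf] at hqv
    simp only [Matrix.mulVec, dotProduct, Fin.sum_univ_three, Matrix.of_apply, Matrix.cons_val',
      Matrix.cons_val, Matrix.cons_val_zero, Matrix.cons_val_one] at hqv
    have hv' : ∀ i, v i = algebraMap ℚ K (P i 0) * u 0 + algebraMap ℚ K (P i 1) * u 1 +
        algebraMap ℚ K (P i 2) * u 2 := by
      intro i
      rw [← hu]
      simp only [Matrix.mulVec, dotProduct, Fin.sum_univ_three, hPK, Matrix.map_apply]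
    have h2 : (2 : K) ≠ 0 := by
      have h3 : algebraMap ℚ K 2 ≠ 0 := by
        rw [Ne, FaithfulSMul.algebraMap_eq_zero_iff]; exact two_ne_zero
      rwa [map_ofNat] at h3
    have hcK : algebraMap ℚ K c ≠ 0 := by
      rw [Ne, FaithfulSMul.algebraMap_eq_zero_iff]; exact hc
    by_cases h0 : u 0 = 0
    · have h3 : u 1 = 0 := by
        rw [h0] at hqv
        have h4 : algebraMap ℚ K c * u 1 ^ 2 = 0 := by linear_combination hqv
        exact pow_eq_zero_iff two_ne_zero |>.mp ((mul_eq_zero.mp h4).resolve_left hcK)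
      have h5 : u 2 ≠ 0 := by
        intro h6
        apply hu0
        funext i
        fin_cases i
        · exact h0
        · exact h3
        · exact h6
      refine ⟨0, 1, -algebraMap ℚ K c / u 2, div_ne_zero (neg_ne_zero.mpr hcK) h5, fun i => ?_⟩
      rw [hv' i, h0, h3]
      simp only [map_mul, map_neg]
      field_simp
      ring
    · refine ⟨u 0, u 1, 2 * u 0, mul_ne_zero h2 h0, fun i => ?_⟩
      rw [hv' i]
      simp only [map_mul, map_neg, map_ofNat]
      linear_combination algebraMap ℚ K (P i 2) * hqv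

end Stoll308.BE
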